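import Pool.Agent.Helper44.RQ.Defs

/-! Module `Cay` of MP_27ef80_ag : the Cayley transform -/

set_option autoImplicit false
open scoped ComplexConjugate Matrix TensorProduct MatrixGroups Manifold
open MeasureTheory UpperHalfPlane

noncomputable section

namespace RQ

/-- the entry `α` of the transported matrix -/
def cayA (g : SL(2, ℝ)) : ℂ :=
  (((g.1 0 0 : ℂ) + g.1 1 1) + Complex.I * ((g.1 0 1 : ℂ) - g.1 1 0)) / 2

/-- the entry `β` of the transported matrix -/
def cayB (g : SL(2, ℝ)) : ℂ :=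
  (((g.1 0 0 : ℂ) - g.1 1 1) - Complex.I * ((g.1 0 1 : ℂ) + g.1 1 0)) / 2

theorem cay_conjA (g : SL(2, ℝ)) : conj (cayA g) =
    (((g.1 0 0 : ℂ) + g.1 1 1) - Complex.I * ((g.1 0 1 : ℂ) - g.1 1 0)) / 2 := by
  simp only [cayA, map_div₀, map_add, map_sub, map_mul, Complex.conj_ofReal, Complex.conj_I,
    map_ofNat]
  ring

theorem cay_conjB (g : SL(2, ℝ)) : conj (cayB g) =
    (((g.1 0 0 : ℂ) - g.1 1 1) + Complex.I * ((g.1 0 1 : ℂ) + g.1 1 0)) / 2 := by
  simp only [cayB, map_div₀, map_add, map_sub, map_mul, Complex.conj_ofReal, Complex.conj_I,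
    map_ofNat]
  ring

theorem cay_det (g : SL(2, ℝ)) : (g.1 0 0 : ℂ) * g.1 1 1 - g.1 0 1 * g.1 1 0 = 1 := by
  have := g.2
  rw [Matrix.det_fin_two] at this
  exact_mod_cast this

/-- the transported element of `SU(1,1)` -/
def cayM (g : SL(2, ℝ)) : SU11 :=
  ⟨⟨!![cayA g, cayB g; conj (cayB g), conj (cayA g)], by
    rw [Matrix.det_fin_two_of, cay_conjA, cay_conjB, cayA, cayB]
    linear_combination cay_det g - Complex.I_sq * ((g.1 0 1 : ℂ) - g.1 1 0) ^ 2 / 4
      + Complex.I_sq * ((g.1 0 1 : ℂ) + g.1 1 0) ^ 2 / 4⟩, by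
    constructor
    · rfl
    · rfl⟩

theorem cayM_J (g : SL(2, ℝ)) (z : ℂ) : J (cayM g) z = conj (cayB g) * z + conj (cayA g) := rfl

theorem cayM_Nm (g : SL(2, ℝ)) (z : ℂ) : Nm (cayM g) z = cayA g * z + cayB g := rfl

theorem cayA_mul (g h : SL(2, ℝ)) :
    cayA (g * h) = cayA g * cayA h + cayB g * conj (cayB h) := by
  rw [cay_conjB]
  simp only [cayA, cayB, Matrix.SpecialLinearGroup.coe_mul, Matrix.mul_apply, Fin.sum_univ_two]
  push_cast
  linear_combination (((g.1 0 1 : ℂ) * h.1 1 0 + g.1 1 0 * h.1 0 1) / 2) * Complex.I_sq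

theorem cayB_mul (g h : SL(2, ℝ)) :
    cayB (g * h) = cayA g * cayB h + cayB g * conj (cayA h) := by
  rw [cay_conjA]
  simp only [cayA, cayB, Matrix.SpecialLinearGroup.coe_mul, Matrix.mul_apply, Fin.sum_univ_two]
  push_cast
  linear_combination (((g.1 0 1 : ℂ) * h.1 1 0 - g.1 1 0 * h.1 0 1) / 2) * Complex.I_sq

/-- the transported group homomorphism -/
def cayHom : SL(2, ℝ) →* SU11 where
  toFun := cayM
  map_one' := by
    apply Subtype.ext
    apply Subtype.ext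
    change !![cayA 1, cayB 1; conj (cayB 1), conj (cayA 1)] = 1
    rw [cay_conjA, cay_conjB]
    simp [cayA, cayB, Matrix.one_fin_two]
  map_mul' g h := by
    apply Subtype.ext
    apply Subtype.ext
    change !![cayA (g * h), cayB (g * h); conj (cayB (g * h)), conj (cayA (g * h))] =
      !![cayA g, cayB g; conj (cayB g), conj (cayA g)] *
        !![cayA h, cayB h; conj (cayB h), conj (cayA h)]
    rw [cayA_mul, cayB_mul, Matrix.mul_fin_two]
    simp only [map_add, map_mul, Complex.conj_conj]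
    rw [add_comm (conj (cayA g) * conj (cayB h)), add_comm (conj (cayA g) * conj (cayA h))]

theorem cayHom_injective : Function.Injective cayHom := by
  intro g h hgh
  have h1 : !![cayA g, cayB g; conj (cayB g), conj (cayA g)] =
      !![cayA h, cayB h; conj (cayB h), conj (cayA h)] :=
    congrArg (fun x : SU11 => x.1.1) hgh
  have hA : cayA g = cayA h := congrFun (congrFun h1 0) 0
  have hB : cayB g = cayB h := congrFun (congrFun h1 0) 1
  have hB' : conj (cayB g) = conj (cayB h) := congrFun (congrFun h1 1) 0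
  have hA' : conj (cayA g) = conj (cayA h) := congrFun (congrFun h1 1) 1
  rw [cay_conjA, cay_conjA] at hA'
  rw [cay_conjB, cay_conjB] at hB'
  rw [cayA, cayA] at hA
  rw [cayB, cayB] at hB
  have e00 : (g.1 0 0 : ℂ) = h.1 0 0 := by linear_combination (hA + hA' + hB + hB') / 2
  have e11 : (g.1 1 1 : ℂ) = h.1 1 1 := by linear_combination (hA + hA' - hB - hB') / 2
  have hI : Complex.I ≠ 0 := Complex.I_ne_zero
  have e01 : (g.1 0 1 : ℂ) = h.1 0 1 := by
    apply mul_left_cancel₀ hI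
    linear_combination (hA - hA' - hB + hB') / 2
  have e10 : (g.1 1 0 : ℂ) = h.1 1 0 := by
    apply mul_left_cancel₀ hI
    linear_combination (hA' - hA - hB + hB') / 2
  apply Subtype.ext
  ext i j
  fin_cases i <;> fin_cases j
  · exact Complex.ofReal_injective e00
  · exact Complex.ofReal_injective e01
  · exact Complex.ofReal_injective e10
  · exact Complex.ofReal_injective e11

theorem cay_one_sub_ne {z : ℂ} (hz : ‖z‖ < 1) : 1 - z ≠ 0 := by
  intro h
  have : z = 1 := by linear_combination -h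
  rw [this, norm_one] at hz
  exact lt_irrefl _ hz

theorem cay_im {z : ℂ} (hz : ‖z‖ < 1) : 0 < (Complex.I * (1 + z) / (1 - z)).im := by
  have h1 := cay_one_sub_ne hz
  have h2 : 0 < Complex.normSq (1 - z) := Complex.normSq_pos.mpr h1
  have h3 : Complex.I * (1 + z) / (1 - z) =
      (Complex.I * (1 + z) * conj (1 - z)) / (Complex.normSq (1 - z) : ℂ) := by
    rw [← Complex.mul_conj]
    have h4 : conj (1 - z) ≠ 0 := by
      intro h
      apply h1
      have := congrArg conj h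
      simpa using this
    field_simp
  rw [h3, Complex.div_ofReal_im]
  apply div_pos _ h2
  have h4 : z.re ^ 2 + z.im ^ 2 < 1 := by
    have : ‖z‖ ^ 2 < 1 := by nlinarith [norm_nonneg z]
    rw [← Complex.normSq_eq_norm_sq, Complex.normSq_apply] at this
    nlinarith
  simp [Complex.mul_im, Complex.mul_re]
  nlinarith

/-- the disc to the upper half plane -/
def cayT (z : DD) : ℍ := ⟨Complex.I * (1 + z.1) / (1 - z.1), cay_im z.2⟩

theorem cayT_coe (z : DD) : ((cayT z : ℍ) : ℂ) = Complex.I * (1 + z.1) / (1 - z.1) := rfl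

theorem cay_add_ne (τ : ℍ) : (τ : ℂ) + Complex.I ≠ 0 := by
  intro h
  have := congrArg Complex.im h
  simp only [Complex.add_im, Complex.I_im, Complex.zero_im] at this
  have h2 := τ.im_pos
  rw [coe_im] at this
  linarith

theorem cay_norm_lt (τ : ℍ) : ‖((τ : ℂ) - Complex.I) / ((τ : ℂ) + Complex.I)‖ < 1 := by
  rw [norm_div, div_lt_one (norm_pos_iff.mpr (cay_add_ne τ))]
  rw [← sq_lt_sq₀ (norm_nonneg _) (norm_nonneg _), ← Complex.normSq_eq_norm_sq,
    ← Complex.normSq_eq_norm_sq, Complex.normSq_apply, Complex.normSq_apply]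
  have h2 := τ.im_pos
  simp only [Complex.sub_re, Complex.sub_im, Complex.add_re, Complex.add_im, Complex.I_re,
    Complex.I_im, coe_im, coe_re]
  nlinarith

/-- the upper half plane to the disc -/
def cayZ (τ : ℍ) : DD := ⟨((τ : ℂ) - Complex.I) / ((τ : ℂ) + Complex.I), cay_norm_lt τ⟩

theorem cayZ_cayT (z : DD) : cayZ (cayT z) = z := by
  apply Subtype.ext
  change (((cayT z : ℍ) : ℂ) - Complex.I) / (((cayT z : ℍ) : ℂ) + Complex.I) = z.1
  have h := cay_add_ne (cayT z)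
  rw [cayT_coe] at h ⊢
  have h1 := cay_one_sub_ne z.2
  rw [div_eq_iff h]
  field_simp
  ring

theorem cayT_cayZ (τ : ℍ) : cayT (cayZ τ) = τ := by
  apply UpperHalfPlane.ext
  rw [cayT_coe]
  have h := cay_add_ne τ
  have h1 := cay_one_sub_ne (cayZ τ).2
  change Complex.I * (1 + ((τ : ℂ) - Complex.I) / ((τ : ℂ) + Complex.I)) /
    (1 - ((τ : ℂ) - Complex.I) / ((τ : ℂ) + Complex.I)) = τ
  change 1 - ((τ : ℂ) - Complex.I) / ((τ : ℂ) + Complex.I) ≠ 0 at h1
  rw [div_eq_iff h1]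
  field_simp
  ring

theorem cayZ_continuous : Continuous cayZ := by
  apply Continuous.subtype_mk
  exact (UpperHalfPlane.continuous_coe.sub continuous_const).div
    (UpperHalfPlane.continuous_coe.add continuous_const) cay_add_ne

theorem cayT_continuous : Continuous cayT := by
  rw [UpperHalfPlane.isOpenEmbedding_coe.isEmbedding.continuous_iff]
  change Continuous fun z : DD => Complex.I * (1 + z.1) / (1 - z.1)
  exact (continuous_const.mul (continuous_const.add continuous_subtype_val)).div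
    (continuous_const.sub continuous_subtype_val) fun z => cay_one_sub_ne z.2

/-- the relation of the automorphy factors -/
theorem cay_J_T (g : SL(2, ℝ)) (z : DD) :
    J (cayHom g) z.1 * (Complex.I + (cayT z : ℂ)) =
      (g.1 0 0 * (cayT z : ℂ) + g.1 0 1) + Complex.I * (g.1 1 0 * (cayT z : ℂ) + g.1 1 1) := by
  change (conj (cayB g) * z.1 + conj (cayA g)) * _ = _
  rw [cay_conjA, cay_conjB, cayT_coe]
  have h1 := cay_one_sub_ne z.2
  field_simp
  linear_combination (-2 * (g.1 0 1 : ℂ) * (1 - z.1)) * Complex.I_sq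

theorem cay_Nm_T (g : SL(2, ℝ)) (z : DD) :
    Nm (cayHom g) z.1 * (Complex.I + (cayT z : ℂ)) =
      (g.1 0 0 * (cayT z : ℂ) + g.1 0 1) - Complex.I * (g.1 1 0 * (cayT z : ℂ) + g.1 1 1) := by
  change (cayA g * z.1 + cayB g) * _ = _
  rw [cayA, cayB, cayT_coe]
  have h1 := cay_one_sub_ne z.2
  field_simp
  linear_combination (-2 * (g.1 0 1 : ℂ) * (1 - z.1)) * Complex.I_sq

theorem cay_smul_coe (g : SL(2, ℝ)) (τ : ℍ) : ((g • τ : ℍ) : ℂ) =
    (g.1 0 0 * (τ : ℂ) + g.1 0 1) / (g.1 1 0 * (τ : ℂ) + g.1 1 1) := by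
  rw [coe_specialLinearGroup_apply]
  simp

theorem cay_denom (g : SL(2, ℝ)) (τ : ℍ) : denom g τ = g.1 1 0 * (τ : ℂ) + g.1 1 1 := by
  simp [denom]

theorem cay_denom_ne (g : SL(2, ℝ)) (τ : ℍ) : (g.1 1 0 * (τ : ℂ) + g.1 1 1) ≠ 0 := by
  rw [← cay_denom]
  exact denom_ne_zero _ _

theorem cay_smul_val (g : SL(2, ℝ)) (z : DD) :
    (cayHom g • z).1 = (((g • cayT z : ℍ) : ℂ) - Complex.I) / (((g • cayT z : ℍ) : ℂ) + Complex.I) := by
  rw [smul_val]
  have h1 : J (cayHom g) z.1 ≠ 0 := J_ne_zero _ z.2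
  have h2 := cay_add_ne (g • cayT z)
  have h3 := cay_denom_ne g (cayT z)
  have h4 := cay_add_ne (cayT z)
  have h5 := cay_J_T g z
  have h6 := cay_Nm_T g z
  rw [div_eq_div_iff h1 h2]
  have h7 : ((g • cayT z : ℍ) : ℂ) * (g.1 1 0 * (cayT z : ℂ) + g.1 1 1) =
      g.1 0 0 * (cayT z : ℂ) + g.1 0 1 := by
    rw [cay_smul_coe, div_mul_cancel₀ _ h3]
  apply mul_right_cancel₀ h4
  apply mul_right_cancel₀ h3
  rw [← h7] at h5 h6
  rw [add_comm Complex.I] at h5 h6
  linear_combination (((g • cayT z : ℍ) : ℂ) + Complex.I) * (g.1 1 0 * (cayT z : ℂ) + g.1 1 1) * h6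
    - (((g • cayT z : ℍ) : ℂ) - Complex.I) * (g.1 1 0 * (cayT z : ℂ) + g.1 1 1) * h5

theorem cay_smul (g : SL(2, ℝ)) (z : DD) : cayHom g • z = cayZ (g • cayT z) :=
  Subtype.ext (cay_smul_val g z)

theorem cayT_smul (g : SL(2, ℝ)) (z : DD) : cayT (cayHom g • z) = g • cayT z := by
  rw [cay_smul, cayT_cayZ]

theorem cay_one_sub (z : DD) : (1 - z.1) * ((cayT z : ℂ) + Complex.I) = 2 * Complex.I := by
  have h1 := cay_one_sub_ne z.2
  rw [cayT_coe]
  field_simp
  ring

/-- `J (Ψ g) z (1 - Ψ(g) z) = (c τ + d) (1 - z)` -/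
theorem cay_J (g : SL(2, ℝ)) (z : DD) :
    J (cayHom g) z.1 * (1 - (cayHom g • z).1) = denom g (cayT z) * (1 - z.1) := by
  have h1 := cay_one_sub z
  have h2 := cay_one_sub (cayHom g • z)
  rw [cayT_smul] at h2
  have h3 := cay_denom_ne g (cayT z)
  have h4 := cay_add_ne (cayT z)
  have h5 := cay_J_T g z
  have h8 := cay_add_ne (g • cayT z)
  have h7 : ((g • cayT z : ℍ) : ℂ) * (g.1 1 0 * (cayT z : ℂ) + g.1 1 1) =
      g.1 0 0 * (cayT z : ℂ) + g.1 0 1 := by
    rw [cay_smul_coe, div_mul_cancel₀ _ h3]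
  rw [← h7] at h5
  rw [cay_denom]
  apply mul_right_cancel₀ h4
  apply mul_right_cancel₀ h8
  linear_combination (1 - (cayHom g • z).1) * (((g • cayT z : ℍ) : ℂ) + Complex.I) * h5
    + (g.1 1 0 * (cayT z : ℂ) + g.1 1 1) * (((g • cayT z : ℍ) : ℂ) + Complex.I) * h2
    - (g.1 1 0 * (cayT z : ℂ) + g.1 1 1) * (((g • cayT z : ℍ) : ℂ) + Complex.I) * h1

theorem cay_compact {ρ : ℝ} (hρ : ρ < 1) : IsCompact {z : DD | ‖z.1‖ ≤ ρ} := by
  rw [Subtype.isCompact_iff]
  have : (Subtype.val '' {z : DD | ‖z.1‖ ≤ ρ} : Set ℂ) = Metric.closedBall 0 ρ := by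
    ext w
    simp only [Set.mem_image, Set.mem_ofPred_eq, Metric.mem_closedBall, dist_zero_right]
    constructor
    · rintro ⟨z, hz, rfl⟩
      exact hz
    · intro hw
      exact ⟨⟨w, lt_of_le_of_lt hw hρ⟩, hw, rfl⟩
  rw [this]
  exact isCompact_closedBall 0 ρ

theorem cay_hol {r : ℕ} (f : ℍ → Fin r → ℂ) (hf : MDifferentiable 𝓘(ℂ) 𝓘(ℂ, Fin r → ℂ) f) :
    Hol (fun z : DD => (1 - z.1)⁻¹ • f (cayT z)) := by
  intro w hw
  apply DifferentiableAt.differentiableWithinAt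
  rw [Metric.mem_ball, dist_zero_right] at hw
  have h1 := cay_im hw
  have h0 := cay_one_sub_ne hw
  have h2 : MDifferentiableAt 𝓘(ℂ) 𝓘(ℂ, Fin r → ℂ) (f ∘ ofComplex)
      (Complex.I * (1 + w) / (1 - w)) := by
    apply MDifferentiableAt.comp _ _ (mdifferentiableAt_ofComplex h1)
    exact hf _
  rw [mdifferentiableAt_iff_differentiableAt] at h2
  have h3 : DifferentiableAt ℂ (fun w : ℂ => Complex.I * (1 + w) / (1 - w)) w := by
    apply DifferentiableAt.div _ _ h0
    · fun_prop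
    · fun_prop
  have h4 : DifferentiableAt ℂ (fun w : ℂ => (1 - w)⁻¹) w := by
    apply DifferentiableAt.inv _ h0
    fun_prop
  have h5 : DifferentiableAt ℂ (fun w : ℂ => (1 - w)⁻¹ •
      (f ∘ ofComplex) (Complex.I * (1 + w) / (1 - w))) w :=
    h4.smul (DifferentiableAt.comp (g := f ∘ ofComplex)
      (f := fun w : ℂ => Complex.I * (1 + w) / (1 - w)) w h2 h3)
  apply h5.congr_of_eventuallyEq
  have h6 : Metric.ball (0 : ℂ) 1 ∈ nhds w := by
    apply Metric.isOpen_ball.mem_nhds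
    rwa [Metric.mem_ball, dist_zero_right]
  filter_upwards [h6] with v hv
  rw [Metric.mem_ball, dist_zero_right] at hv
  have h7 : ext0 (fun z : DD => (1 - z.1)⁻¹ • f (cayT z)) v = (1 - v)⁻¹ • f (cayT ⟨v, hv⟩) := by
    simp only [ext0, dif_pos hv]
  rw [h7]
  have h8 : ofComplex (Complex.I * (1 + v) / (1 - v)) = cayT ⟨v, hv⟩ := by
    rw [ofComplex_apply_of_im_pos (cay_im hv)]
    rfl
  rw [Function.comp_apply, h8]

/-- a discrete cocompact group acting on the upper half plane, transported to the disc -/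
theorem cay_transfer {G : Type} [Group G] (Φ : G →* SL(2, ℝ)) (hinj : Function.Injective Φ)
    (hD : ∀ K : Set ℍ, IsCompact K → {g : G | ∃ z ∈ K, Φ g • z ∈ K}.Finite)
    (hC : ∃ K : Set ℍ, IsCompact K ∧ ∀ z : ℍ, ∃ g : G, Φ g • z ∈ K) :
    ∃ Ψ : G →* SU11, Function.Injective Ψ ∧ Disc Ψ ∧ (∃ t : ℝ, Cocpt Ψ ⊤ t) ∧
      ∀ (r : ℕ) (f : ℍ → Fin r → ℂ), MDifferentiable 𝓘(ℂ) 𝓘(ℂ, Fin r → ℂ) f →
        ∃ F : DD → Fin r → ℂ, Hol F ∧ (F = 0 → f = 0) ∧
          ∀ (g : G) (c : ℂ) (A : Matrix (Fin r) (Fin r) ℂ),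
            (∀ z : ℍ, f (Φ g • z) = (c * denom (Φ g) z) • (A *ᵥ f z)) →
            ∀ z : DD, F (Ψ g • z) = (c * J (Ψ g) z.1) • (A *ᵥ F z) := by
  refine ⟨cayHom.comp Φ, cayHom_injective.comp hinj, ?_, ?_, ?_⟩
  · intro ρ hρ
    apply (hD (cayT '' {z : DD | ‖z.1‖ ≤ ρ}) ((cay_compact hρ).image cayT_continuous)).subset
    rintro g ⟨z, hz, hz'⟩
    refine ⟨cayT z, ⟨z, hz, rfl⟩, cayHom (Φ g) • z, hz', ?_⟩
    rw [cayT_smul]
  · obtain ⟨K, hK, hKg⟩ := hC
    have hne : K.Nonempty := by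
      obtain ⟨g, hg⟩ := hKg UpperHalfPlane.I
      exact ⟨_, hg⟩
    have hcont : Continuous fun τ : ℍ => ‖(cayZ τ).1‖ :=
      (continuous_subtype_val.comp cayZ_continuous).norm
    obtain ⟨τ₀, hτ₀, hmax⟩ := hK.exists_isMaxOn hne hcont.continuousOn
    refine ⟨‖(cayZ τ₀).1‖, (cayZ τ₀).2, fun z => ?_⟩
    obtain ⟨g, hg⟩ := hKg (cayT z)
    refine ⟨g, Subgroup.mem_top _, ?_⟩
    change ‖(cayHom (Φ g) • z).1‖ ≤ _
    rw [cay_smul]
    exact hmax hg
  · intro r f hf
    refine ⟨fun z => (1 - z.1)⁻¹ • f (cayT z), cay_hol f hf, ?_, ?_⟩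
    · intro h
      funext τ
      have h1 := congrFun h (cayZ τ)
      simp only [Pi.zero_apply, cayT_cayZ] at h1
      exact (smul_eq_zero.mp h1).resolve_left (inv_ne_zero (cay_one_sub_ne (cayZ τ).2))
    · intro g c A hfA z
      change (1 - (cayHom (Φ g) • z).1)⁻¹ • f (cayT (cayHom (Φ g) • z)) =
        (c * J (cayHom (Φ g)) z.1) • (A *ᵥ ((1 - z.1)⁻¹ • f (cayT z)))
      rw [cayT_smul, hfA, Matrix.mulVec_smul, smul_smul, smul_smul]
      congr 1
      have h1 := cay_J (Φ g) z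
      have h2 := cay_one_sub_ne z.2
      have h3 := cay_one_sub_ne (cayHom (Φ g) • z).2
      field_simp
      linear_combination -c * h1

end RQ
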