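import Pool.Agent.Helper44.RQ.Defs

/-! Module `Coc` of MP_27ef80_ag -/

set_option autoImplicit false
open scoped ComplexConjugate Matrix TensorProduct
open MeasureTheory

noncomputable section

namespace RQ

theorem coc_bound (g : SU11) (t : ℝ) (ht : t < 1) :
    ∃ t' < 1, ∀ z : DD, ‖z.1‖ ≤ t → ‖(g • z).1‖ ≤ t' := by
  rcases lt_or_ge t 0 with h0 | h0
  · exact ⟨0, one_pos, fun z hz => absurd (norm_nonneg z.1) (not_le.mpr (lt_of_le_of_lt hz h0))⟩
  · set m : ℝ := ‖g.1.1 1 0‖ + ‖g.1.1 1 1‖ with hm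
    have hJ : ∀ z : DD, ‖J g z.1‖ ≤ m := by
      intro z
      have h1 : ‖J g z.1‖ ≤ ‖g.1.1 1 0‖ * ‖z.1‖ + ‖g.1.1 1 1‖ := by
        unfold J
        refine (norm_add_le _ _).trans ?_
        rw [norm_mul]
      have h2 : ‖g.1.1 1 0‖ * ‖z.1‖ ≤ ‖g.1.1 1 0‖ :=
        mul_le_of_le_one_right (norm_nonneg _) z.2.le
      linarith
    have hmpos : 0 < m := by
      have h1 := hJ ⟨0, by simp⟩
      have h2 := norm_pos_iff.mpr (J_ne_zero g (z := 0) (by simp))
      exact lt_of_lt_of_le h2 h1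
    have ht2 : 0 < 1 - t ^ 2 := by nlinarith
    have hpos : 0 < (1 - t ^ 2) / m ^ 2 := by positivity
    refine ⟨Real.sqrt (1 - (1 - t ^ 2) / m ^ 2), ?_, fun z hz => ?_⟩
    · rw [Real.sqrt_lt' one_pos]
      linarith
    · apply Real.le_sqrt_of_sq_le
      have h1 := one_sub_normSq g z
      have h2 : (1 - t ^ 2) / m ^ 2 ≤ (1 - ‖z.1‖ ^ 2) / ‖J g z.1‖ ^ 2 := by
        have h3 : 0 < ‖J g z.1‖ := norm_pos_iff.mpr (J_ne_zero g z.2)
        apply div_le_div₀
        · nlinarith [norm_nonneg z.1, z.2]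
        · nlinarith [norm_nonneg z.1]
        · positivity
        · exact pow_le_pow_left₀ h3.le (hJ z) 2
      linarith

theorem cocpt_finiteIndex {G : Type} [Group G] (Φ : G →* SU11) (t : ℝ) (hC : Cocpt Φ ⊤ t)
    (H : Subgroup G) [H.FiniteIndex] : ∃ t', Cocpt Φ H t' := by
  obtain ⟨ht, hC⟩ := hC
  have hb : ∀ q : G ⧸ H, ∃ t' < 1, ∀ z : DD, ‖z.1‖ ≤ t → ‖(Φ (q.out)⁻¹ • z).1‖ ≤ t' :=
    fun q => coc_bound _ t ht
  choose b hb1 hb2 using hb
  have : Finite (G ⧸ H) := Subgroup.finite_quotient_of_finiteIndex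
  have := Fintype.ofFinite (G ⧸ H)
  have hne : (Finset.univ : Finset (G ⧸ H)).Nonempty := ⟨((1 : G) : G ⧸ H), Finset.mem_univ _⟩
  refine ⟨Finset.univ.sup' hne b, ?_, fun z => ?_⟩
  · rw [Finset.sup'_lt_iff]
    intro q _
    exact hb1 q
  · obtain ⟨g, -, hg⟩ := hC z
    let q : G ⧸ H := (g : G ⧸ H)
    have hq : (q.out)⁻¹ * g ∈ H := by
      rw [← QuotientGroup.eq]
      exact q.out_eq
    refine ⟨(q.out)⁻¹ * g, hq, ?_⟩
    rw [map_mul, mul_smul]
    exact (hb2 q _ hg).trans (Finset.le_sup' b (Finset.mem_univ q))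

theorem countable_of_fg (G : Type) [Group G] [Group.FG G] : Countable G := by
  obtain ⟨S, hS⟩ := (Group.fg_def (G := G)).mp inferInstance
  let f : List (S × Bool) → G := fun l => (l.map fun x => if x.2 then x.1.1 else (x.1.1)⁻¹).prod
  apply Function.Surjective.countable (f := f)
  intro g
  have hg : g ∈ Subgroup.closure (S : Set G) := by
    rw [hS]
    trivial
  induction hg using Subgroup.closure_induction with
  | mem x hx => exact ⟨[(⟨x, hx⟩, true)], by simp [f]⟩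
  | one => exact ⟨[], by simp [f]⟩
  | mul x y _ _ hx hy =>
    obtain ⟨l, hl⟩ := hx
    obtain ⟨l', hl'⟩ := hy
    exact ⟨l ++ l', by rw [← hl, ← hl']; simp [f]⟩
  | inv x _ hx =>
    obtain ⟨l, hl⟩ := hx
    refine ⟨(l.map fun x => (x.1, !x.2)).reverse, ?_⟩
    rw [← hl]
    clear hl
    induction l with
    | nil => simp [f]
    | cons a l ih =>
      have h1 : ∀ (l₁ l₂ : List (S × Bool)), f (l₁ ++ l₂) = f l₁ * f l₂ := by
        intro l₁ l₂
        simp [f]
      have h2 : f [(a.1, !a.2)] = (f [a])⁻¹ := by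
        obtain ⟨a, b⟩ := a
        cases b <;> simp [f]
      have h3 : f (a :: l) = f [a] * f l := h1 [a] l
      rw [List.map_cons, List.reverse_cons, h1, ih, h2, h3, mul_inv_rev]

end RQ
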