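import Mathlib

/-!
# Definitions for MP_27ef80_ag (Raynaud's question)

`X = 𝔻/G` with `G ⊂ SU(1,1)` discrete and cocompact, `E` the flat unitary bundle of `V`, the line
bundles are `κ ⊗ L_χ` with `κ` the theta characteristic given by the lift to `SU(1,1)`.
-/

set_option autoImplicit false
open scoped ComplexConjugate Matrix TensorProduct
open MeasureTheory

noncomputable section

namespace RQ

/-! ## The disc and `SU(1,1)` -/

abbrev SL2C : Type := Matrix.SpecialLinearGroup (Fin 2) ℂ

/-- the open unit disc -/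
abbrev DD : Type := {z : ℂ // ‖z‖ < 1}

/-- `SU(1,1)` as a subgroup of `SL(2,ℂ)` -/
def SU11 : Subgroup SL2C where
  carrier := {g | g.1 1 0 = conj (g.1 0 1) ∧ g.1 1 1 = conj (g.1 0 0)}
  one_mem' := by simp
  mul_mem' := by
    rintro a b ⟨ha1, ha2⟩ ⟨hb1, hb2⟩
    simp only [Set.mem_ofPred_eq, Matrix.SpecialLinearGroup.coe_mul, Matrix.mul_apply,
      Fin.sum_univ_two, map_add, map_mul, ha1, ha2, hb1, hb2, Complex.conj_conj]
    constructor <;> ring
  inv_mem' := by
    rintro a ⟨ha1, ha2⟩
    simp only [Set.mem_ofPred_eq, Matrix.SpecialLinearGroup.coe_inv,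
      Matrix.adjugate_fin_two, Matrix.of_apply, Matrix.cons_val', Matrix.cons_val_zero,
      Matrix.cons_val_one, Matrix.cons_val_fin_one, ha1, ha2, map_neg, Complex.conj_conj,
      and_self]

/-- the automorphy factor `c z + d` -/
def J (g : SU11) (z : ℂ) : ℂ := g.1.1 1 0 * z + g.1.1 1 1

/-- the numerator `a z + b` -/
def Nm (g : SU11) (z : ℂ) : ℂ := g.1.1 0 0 * z + g.1.1 0 1

theorem det_eq (g : SU11) : g.1.1 0 0 * g.1.1 1 1 - g.1.1 0 1 * g.1.1 1 0 = 1 := by
  have := g.1.2
  rw [Matrix.det_fin_two] at this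
  exact this

theorem normSq_J_sub (g : SU11) (z : ℂ) :
    Complex.normSq (J g z) - Complex.normSq (Nm g z) = 1 - Complex.normSq z := by
  have h := det_eq g
  obtain ⟨h1, h2⟩ := g.2
  have h3 : (Complex.normSq (J g z) - Complex.normSq (Nm g z) : ℂ) = 1 - Complex.normSq z := by
    rw [Complex.normSq_eq_conj_mul_self, Complex.normSq_eq_conj_mul_self,
      Complex.normSq_eq_conj_mul_self]
    unfold J Nm
    rw [h1, h2] at h ⊢
    simp only [map_add, map_mul, Complex.conj_conj]
    linear_combination (1 - conj z * z) * h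
  exact_mod_cast h3

theorem norm_Nm_lt (g : SU11) {z : ℂ} (hz : ‖z‖ < 1) : ‖Nm g z‖ < ‖J g z‖ := by
  have h := normSq_J_sub g z
  rw [Complex.normSq_eq_norm_sq, Complex.normSq_eq_norm_sq, Complex.normSq_eq_norm_sq] at h
  have h1 : ‖z‖ ^ 2 < 1 := by nlinarith [norm_nonneg z]
  nlinarith [norm_nonneg (Nm g z), norm_nonneg (J g z)]

theorem J_ne_zero (g : SU11) {z : ℂ} (hz : ‖z‖ < 1) : J g z ≠ 0 := by
  intro h
  have := norm_Nm_lt g hz
  rw [h, norm_zero] at this
  exact absurd this (not_lt.mpr (norm_nonneg _))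

/-- the Möbius action -/
def mob (g : SU11) (z : DD) : DD :=
  ⟨Nm g z.1 / J g z.1, by
    rw [norm_div]
    exact (div_lt_one (lt_of_le_of_lt (norm_nonneg _) (norm_Nm_lt g z.2))).mpr (norm_Nm_lt g z.2)⟩

theorem mob_val (g : SU11) (z : DD) : (mob g z).1 = Nm g z.1 / J g z.1 := rfl

theorem J_mul (g h : SU11) (z : DD) : J (g * h) z.1 = J g (mob h z).1 * J h z.1 := by
  have hz := J_ne_zero h z.2
  rw [mob_val]
  simp only [J, Nm] at *
  simp only [Subgroup.coe_mul, Matrix.SpecialLinearGroup.coe_mul, Matrix.mul_apply,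
    Fin.sum_univ_two]
  field_simp
  ring

theorem Nm_mul (g h : SU11) (z : DD) : Nm (g * h) z.1 = Nm g (mob h z).1 * J h z.1 := by
  have hz := J_ne_zero h z.2
  rw [mob_val]
  simp only [J, Nm] at *
  simp only [Subgroup.coe_mul, Matrix.SpecialLinearGroup.coe_mul, Matrix.mul_apply,
    Fin.sum_univ_two]
  field_simp
  ring

theorem J_one (z : ℂ) : J 1 z = 1 := by simp [J]

instance : MulAction SU11 DD where
  smul := mob
  one_smul z := by
    apply Subtype.ext
    change Nm 1 z.1 / J 1 z.1 = z.1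
    rw [J_one]
    simp [Nm]
  mul_smul g h z := by
    apply Subtype.ext
    change Nm (g * h) z.1 / J (g * h) z.1 = Nm g (mob h z).1 / J g (mob h z).1
    rw [Nm_mul, J_mul, mul_div_mul_right _ _ (J_ne_zero h z.2)]

theorem smul_val (g : SU11) (z : DD) : (g • z).1 = Nm g z.1 / J g z.1 := rfl

theorem J_smul (g h : SU11) (z : DD) : J (g * h) z.1 = J g (h • z).1 * J h z.1 := J_mul g h z

theorem one_sub_normSq (g : SU11) (z : DD) :
    1 - ‖(g • z).1‖ ^ 2 = (1 - ‖z.1‖ ^ 2) / ‖J g z.1‖ ^ 2 := by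
  have h := normSq_J_sub g z.1
  have hz : ‖J g z.1‖ ≠ 0 := norm_ne_zero_iff.mpr (J_ne_zero g z.2)
  rw [Complex.normSq_eq_norm_sq, Complex.normSq_eq_norm_sq, Complex.normSq_eq_norm_sq] at h
  rw [smul_val, norm_div, div_pow, ← h]
  field_simp

/-! ## Characters and automorphic forms of weight one -/

section forms

variable {G : Type} [Group G]

/-- real characters -/
abbrev TT (H : Subgroup G) : Type := Additive H →+ ℝ

/-- the unitary character `exp(2πi u)` -/
def chi {H : Subgroup G} (u : TT H) (h : H) : ℂ :=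
  Complex.exp (2 * Real.pi * Complex.I * (u (Additive.ofMul h) : ℝ))

/-- extension by zero -/
def ext0 {E : Type} [Zero E] (f : DD → E) (z : ℂ) : E := if h : ‖z‖ < 1 then f ⟨z, h⟩ else 0

/-- holomorphic function on the disc -/
def Hol {E : Type} [NormedAddCommGroup E] [NormedSpace ℂ E] (f : DD → E) : Prop :=
  DifferentiableOn ℂ (ext0 f) (Metric.ball 0 1)

/-- The space `H⁰(Y, π^*E ⊗ κ ⊗ L_χ)`, `Y = 𝔻/H`, `χ = exp(2πi u)`: holomorphic
`f : 𝔻 → ℂ^r` with `f(hz) = χ(h) (cz+d) V(h) f(z)` for `h ∈ H`. -/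
def SS {r : ℕ} (Φ : G →* SU11) (V : G →* Matrix.unitaryGroup (Fin r) ℂ) (H : Subgroup G)
    (u : TT H) : Submodule ℂ (DD → Fin r → ℂ) where
  carrier := {f | Hol f ∧ ∀ (h : H) (z : DD),
    f (Φ h • z) = (chi u h * J (Φ h) z.1) • ((V h).1 *ᵥ f z)}
  add_mem' := by
    rintro f g ⟨hf, hf'⟩ ⟨hg, hg'⟩
    refine ⟨?_, fun h z => ?_⟩
    · have : ext0 (f + g) = fun z => ext0 f z + ext0 g z := by
        funext z
        by_cases h : ‖z‖ < 1 <;> simp [ext0, h]
      rw [Hol, this]
      exact hf.add hg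
    · rw [Pi.add_apply, Pi.add_apply, hf', hg', Matrix.mulVec_add, smul_add]
  zero_mem' := by
    refine ⟨?_, fun h z => ?_⟩
    · have : ext0 (0 : DD → Fin r → ℂ) = fun _ => 0 := by
        funext z
        by_cases h : ‖z‖ < 1 <;> simp [ext0, h]
      rw [Hol, this]
      exact differentiableOn_const 0
    · simp
  smul_mem' := by
    rintro c f ⟨hf, hf'⟩
    refine ⟨?_, fun h z => ?_⟩
    · have : ext0 (c • f) = fun z => c • ext0 f z := by
        funext z
        by_cases h : ‖z‖ < 1 <;> simp [ext0, h]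
      rw [Hol, this]
      exact hf.const_smul c
    · rw [Pi.smul_apply, Pi.smul_apply, hf', Matrix.mulVec_smul, smul_comm]

/-- discreteness (proper discontinuity) -/
def Disc (Φ : G →* SU11) : Prop :=
  ∀ ρ : ℝ, ρ < 1 → {g : G | ∃ z : DD, ‖z.1‖ ≤ ρ ∧ ‖(Φ g • z).1‖ ≤ ρ}.Finite

/-- cocompactness of a subgroup, with radius `t` -/
def Cocpt (Φ : G →* SU11) (H : Subgroup G) (t : ℝ) : Prop :=
  t < 1 ∧ ∀ z : DD, ∃ h ∈ H, ‖(Φ h • z).1‖ ≤ t

/-- pseudo-hyperbolic distance -/
def pd (z w : DD) : ℝ := ‖(z.1 - w.1) / (1 - conj z.1 * w.1)‖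

/-- every finite index subgroup has torsion free abelianisation -/
def TFree (G : Type) [Group G] : Prop :=
  ∀ K : Subgroup G, K.FiniteIndex → ∀ n : ℕ, 0 < n → ∀ ψ : Additive K →+ ZMod n,
    ∃ φ : Additive K →+ ℤ, ∀ k, ((φ k : ℤ) : ZMod n) = ψ k

/-- subgroups reached from `G` by successive normal finite index subgroups with abelian
quotients -/
inductive AbChain (G : Type) [Group G] : Subgroup G → Prop
  | top : AbChain G ⊤
  | step (H₁ H : Subgroup G) : AbChain G H₁ → H ≤ H₁ → H.Normal → H.FiniteIndex →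
      (∀ a ∈ H₁, ∀ b ∈ H₁, a * b * a⁻¹ * b⁻¹ ∈ H) → AbChain G H

end forms

/-! ## Twisted modules -/

/-- A vector space with a semilinear action of `G` in which the elements of `H` act by the
scalars `e h`. -/
structure TwMod {G K : Type} [Group G] [CommRing K] (σ : G →* (K →+* K)) (H : Subgroup G)
    (e : G → K) (U : Type) [AddCommGroup U] [Module K U] where
  T : G → U →+ U
  T_one : ∀ u, T 1 u = u
  T_mul : ∀ g g' u, T (g * g') u = T g (T g' u)
  T_smul : ∀ g (k : K) u, T g (k • u) = σ g k • T g u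
  T_scal : ∀ h ∈ H, ∀ u, T h u = e h • u

/-- all finite dimensional twisted modules have dimension divisible by `N` -/
def Div {G K : Type} [Group G] [Field K] (σ : G →* (K →+* K)) (H : Subgroup G) (e : G → K)
    (N : ℕ) : Prop :=
  ∀ (U : Type) [AddCommGroup U] [Module K U] [FiniteDimensional K U],
    TwMod σ H e U → N ∣ Module.finrank K U

/-! ## Rings of real analytic functions -/

section analytic

/-- real analytic functions on a real vector space, periodic under `Λ` -/
def AnR (V : Type) [AddCommGroup V] [Module ℝ V] (Λ : AddSubgroup V) : Subring (V → ℂ) where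
  carrier := {f | (∀ (n : ℕ) (L : (Fin n → ℝ) →ₗ[ℝ] V),
    AnalyticOnNhd ℝ (fun y => f (L y)) Set.univ) ∧ ∀ l ∈ Λ, ∀ u, f (u + l) = f u}
  mul_mem' := by
    rintro f g ⟨hf, hf'⟩ ⟨hg, hg'⟩
    exact ⟨fun n L => (hf n L).mul (hg n L), fun l hl u => by
      rw [Pi.mul_apply, Pi.mul_apply, hf' l hl, hg' l hl]⟩
  one_mem' := ⟨fun n L => analyticOnNhd_const, fun l hl u => rfl⟩
  add_mem' := by
    rintro f g ⟨hf, hf'⟩ ⟨hg, hg'⟩
    exact ⟨fun n L => (hf n L).add (hg n L), fun l hl u => by
      rw [Pi.add_apply, Pi.add_apply, hf' l hl, hg' l hl]⟩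
  zero_mem' := ⟨fun n L => analyticOnNhd_const, fun l hl u => rfl⟩
  neg_mem' := by
    rintro f ⟨hf, hf'⟩
    exact ⟨fun n L => (hf n L).neg, fun l hl u => by
      rw [Pi.neg_apply, Pi.neg_apply, hf' l hl]⟩

/-- The identity theorem: `AnR V Λ` is a domain for `V` finite dimensional. -/
instance AnR_isDomain (V : Type) [AddCommGroup V] [Module ℝ V] [FiniteDimensional ℝ V]
    (Λ : AddSubgroup V) : IsDomain (AnR V Λ) := by
  have : NoZeroDivisors (AnR V Λ) := by
    refine ⟨?_⟩
    rintro ⟨f, hf, hf'⟩ ⟨g, hg, hg'⟩ hfg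
    have hfg' : f * g = 0 := congrArg Subtype.val hfg
    let b := Module.finBasis ℝ V
    let L : (Fin (Module.finrank ℝ V) → ℝ) →ₗ[ℝ] V := b.equivFun.symm.toLinearMap
    have hL : ∀ v, L (b.equivFun v) = v := fun v => b.equivFun.symm_apply_apply v
    by_contra hne
    push Not at hne
    obtain ⟨h1, h2⟩ := hne
    have h1' : ∃ v, f v ≠ 0 := by
      by_contra hc
      push Not at hc
      exact h1 (Subtype.ext (funext hc))
    have h2' : ∃ v, g v ≠ 0 := by
      by_contra hc
      push Not at hc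
      exact h2 (Subtype.ext (funext hc))
    obtain ⟨v, hv⟩ := h1'
    obtain ⟨w, hw⟩ := h2'
    -- near `b.equivFun v`, `f` does not vanish, so `g` vanishes there
    have hcont : ContinuousAt (fun y => f (L y)) (b.equivFun v) :=
      (hf _ L (b.equivFun v) (Set.mem_univ _)).continuousAt
    have hev : ∀ᶠ y in nhds (b.equivFun v), f (L y) ≠ 0 := by
      apply hcont.eventually_ne
      rw [hL]
      exact hv
    have hev2 : ∀ᶠ y in nhds (b.equivFun v), g (L y) = 0 := by
      filter_upwards [hev] with y hy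
      have := congrFun hfg' (L y)
      exact (mul_eq_zero.mp this).resolve_left hy
    have h3 : (fun y => g (L y)) = fun _ => 0 := by
      have h4 := (hg _ L).eqOn_zero_of_preconnected_of_eventuallyEq_zero
        isPreconnected_univ (Set.mem_univ (b.equivFun v)) hev2
      funext y
      exact h4 (Set.mem_univ y)
    apply hw
    have h5 : g (L (b.equivFun w)) = 0 := congrFun h3 (b.equivFun w)
    rwa [hL] at h5
  have : Nontrivial (AnR V Λ) := by
    refine ⟨0, 1, fun h => ?_⟩
    have := congrFun (congrArg Subtype.val h) 0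
    simp at this
  exact NoZeroDivisors.to_isDomain _

/-- the field of quotients -/
abbrev KK (V : Type) [AddCommGroup V] [Module ℝ V] [FiniteDimensional ℝ V]
    (Λ : AddSubgroup V) : Type := FractionRing (AnR V Λ)

end analytic

/-! ## Functoriality -/

section functoriality

variable {V V' : Type} [AddCommGroup V] [Module ℝ V] [AddCommGroup V'] [Module ℝ V']

/-- pull-back of analytic functions along a linear map -/
def pull (A : V' →ₗ[ℝ] V) (Λ : AddSubgroup V) (Λ' : AddSubgroup V')
    (hA : ∀ l ∈ Λ', A l ∈ Λ) : AnR V Λ →+* AnR V' Λ' where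
  toFun f := ⟨fun u => f.1 (A u), fun n L => f.2.1 n (A ∘ₗ L), fun l hl u => by
    change f.1 (A (u + l)) = f.1 (A u)
    rw [map_add]
    exact f.2.2 _ (hA l hl) _⟩
  map_one' := rfl
  map_mul' _ _ := rfl
  map_zero' := rfl
  map_add' _ _ := rfl

theorem pull_apply (A : V' →ₗ[ℝ] V) (Λ : AddSubgroup V) (Λ' : AddSubgroup V')
    (hA : ∀ l ∈ Λ', A l ∈ Λ) (f : AnR V Λ) (u : V') : (pull A Λ Λ' hA f).1 u = f.1 (A u) := rfl

/-- the action of a group on `AnR V Λ` -/
def actR {G : Type} [Group G] (ρ : Representation ℝ G V) (Λ : AddSubgroup V)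
    (hρ : ∀ g, ∀ l ∈ Λ, ρ g l ∈ Λ) : G →* (AnR V Λ →+* AnR V Λ) where
  toFun g := pull (ρ g⁻¹) Λ Λ (hρ g⁻¹)
  map_one' := by
    apply RingHom.ext
    intro f
    apply Subtype.ext
    funext u
    change f.1 (ρ 1⁻¹ u) = f.1 u
    simp
  map_mul' g g' := by
    apply RingHom.ext
    intro f
    apply Subtype.ext
    funext u
    change f.1 (ρ (g * g')⁻¹ u) = f.1 (ρ g'⁻¹ (ρ g⁻¹ u))
    simp

theorem actR_apply {G : Type} [Group G] (ρ : Representation ℝ G V) (Λ : AddSubgroup V)
    (hρ : ∀ g, ∀ l ∈ Λ, ρ g l ∈ Λ) (g : G) (f : AnR V Λ) (u : V) :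
    (actR ρ Λ hρ g f).1 u = f.1 (ρ g⁻¹ u) := rfl

theorem act_injective {G R : Type} [Group G] [CommRing R] (σ : G →* (R →+* R)) (g : G) :
    Function.Injective (σ g) := by
  intro x y h
  have h1 : ∀ z, σ g⁻¹ (σ g z) = z := by
    intro z
    have : (σ g⁻¹ * σ g) z = z := by
      rw [← map_mul, inv_mul_cancel, map_one]
      rfl
    exact this
  rw [← h1 x, ← h1 y, h]

/-- extension of an action to the fraction field -/
def frAct (K : Type) {G R : Type} [Group G] [CommRing R] [IsDomain R] [Field K] [Algebra R K]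
    [IsFractionRing R K] (σ : G →* (R →+* R)) : G →* (K →+* K) where
  toFun g := IsFractionRing.lift (A := R) (K := K) (g := (algebraMap R K).comp (σ g))
    ((IsFractionRing.injective R K).comp (act_injective σ g))
  map_one' := by
    apply IsFractionRing.injective_comp_algebraMap (A := R)
    apply RingHom.ext
    intro x
    simp
  map_mul' g g' := by
    apply IsFractionRing.injective_comp_algebraMap (A := R)
    apply RingHom.ext
    intro x
    simp

theorem frAct_algebraMap (K : Type) {G R : Type} [Group G] [CommRing R] [IsDomain R] [Field K]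
    [Algebra R K] [IsFractionRing R K] (σ : G →* (R →+* R)) (g : G) (x : R) :
    frAct K σ g (algebraMap R K x) = algebraMap R K (σ g x) := by
  simp [frAct]

/-- the action of a group on the field `KK V Λ` -/
abbrev actK {G : Type} [Group G] [FiniteDimensional ℝ V] (ρ : Representation ℝ G V)
    (Λ : AddSubgroup V) (hρ : ∀ g, ∀ l ∈ Λ, ρ g l ∈ Λ) : G →* (KK V Λ →+* KK V Λ) :=
  frAct (KK V Λ) (actR ρ Λ hρ)

end functoriality

/-! ## The fields attached to subgroups -/

section subgroups

variable {G : Type} [Group G]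

instance TT_fd (H : Subgroup G) [Group.FG H] : FiniteDimensional ℝ (TT H) := by
  obtain ⟨S, hS⟩ := (Group.fg_def (G := H)).mp inferInstance
  let ev : TT H →ₗ[ℝ] (S → ℝ) :=
    { toFun := fun u s => u (Additive.ofMul s.1)
      map_add' := fun _ _ => rfl
      map_smul' := fun _ _ => rfl }
  apply FiniteDimensional.of_injective ev
  intro u v huv
  have h : ∀ h : H, u (Additive.ofMul h) = v (Additive.ofMul h) := by
    intro h
    have hh : h ∈ Subgroup.closure (S : Set H) := by
      rw [hS]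
      trivial
    induction hh using Subgroup.closure_induction with
    | mem x hx => exact congrFun huv ⟨x, hx⟩
    | one => rw [ofMul_one, map_zero, map_zero]
    | mul x y _ _ hx hy => rw [ofMul_mul, map_add, map_add, hx, hy]
    | inv x _ hx => rw [ofMul_inv, map_neg, map_neg, hx]
  exact DFunLike.ext _ _ fun x => h x.toMul

/-- the real characters of `H₁` which are integral on `S` -/
def Lam (H₁ : Subgroup G) (S : Set G) : AddSubgroup (TT H₁) where
  carrier := {u | ∀ h : H₁, h.1 ∈ S → ∃ n : ℤ, u (Additive.ofMul h) = n}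
  add_mem' := by
    intro u v hu hv h hh
    obtain ⟨n, hn⟩ := hu h hh
    obtain ⟨m, hm⟩ := hv h hh
    exact ⟨n + m, by rw [AddMonoidHom.add_apply, hn, hm]; push_cast; ring⟩
  zero_mem' := fun h _ => ⟨0, by simp⟩
  neg_mem' := by
    intro u hu h hh
    obtain ⟨n, hn⟩ := hu h hh
    exact ⟨-n, by rw [AddMonoidHom.neg_apply, hn]; push_cast; ring⟩

/-- the action of `G` on the real characters of a normal subgroup, `(g·u)(h) = u(g⁻¹ h g)` -/
def TTrep (H : Subgroup G) [H.Normal] : Representation ℝ G (TT H) where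
  toFun g :=
    { toFun := fun u => u.comp (MonoidHom.toAdditive (MulAut.conjNormal g⁻¹ : H ≃* H).toMonoidHom)
      map_add' := fun _ _ => rfl
      map_smul' := fun _ _ => rfl }
  map_one' := by
    apply LinearMap.ext
    intro u
    apply DFunLike.ext
    intro h
    change u (Additive.ofMul (MulAut.conjNormal (1 : G)⁻¹ h.toMul)) = u h
    simp
  map_mul' g g' := by
    apply LinearMap.ext
    intro u
    apply DFunLike.ext
    intro h
    change u (Additive.ofMul (MulAut.conjNormal (g * g')⁻¹ h.toMul)) =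
      u (Additive.ofMul (MulAut.conjNormal g'⁻¹ (MulAut.conjNormal g⁻¹ h.toMul)))
    simp

theorem TTrep_apply (H : Subgroup G) [H.Normal] (g : G) (u : TT H) (h : H) :
    TTrep H g u (Additive.ofMul h) = u (Additive.ofMul (MulAut.conjNormal g⁻¹ h)) := rfl

theorem TTrep_Lam (H₁ H : Subgroup G) [H₁.Normal] [H.Normal] (g : G) :
    ∀ l ∈ Lam H₁ (H : Set G), TTrep H₁ g l ∈ Lam H₁ (H : Set G) := by
  intro l hl h hh
  have h1 : ((MulAut.conjNormal g⁻¹ h : H₁) : G) ∈ (H : Set G) := by
    rw [MulAut.conjNormal_apply]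
    exact Subgroup.Normal.conj_mem inferInstance _ hh _
  exact hl _ h1

open Classical in
/-- the function `u ↦ exp(-2πi u(g))` on `TT H₁`, for `g ∈ H₁ ∩ S` (and `1` for other `g`) -/
def eFn (H₁ : Subgroup G) (S : Set G) (g : G) : AnR (TT H₁) (Lam H₁ S) :=
  if hg : g ∈ H₁ ∧ g ∈ S then
    ⟨fun u => Complex.exp (-(2 * Real.pi * Complex.I * (u (Additive.ofMul ⟨g, hg.1⟩) : ℝ))), by
      constructor
      · intro n L
        have hexp : AnalyticOnNhd ℝ Complex.exp Set.univ := fun z _ =>
          (analyticAt_cexp (z := z)).restrictScalars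
        let ev : TT H₁ →ₗ[ℝ] ℝ :=
          { toFun := fun u => u (Additive.ofMul ⟨g, hg.1⟩)
            map_add' := fun _ _ => rfl
            map_smul' := fun _ _ => rfl }
        have h1 : AnalyticOnNhd ℝ (fun y => (Complex.ofRealCLM.comp
          (LinearMap.toContinuousLinearMap (ev ∘ₗ L))) y) Set.univ :=
          ContinuousLinearMap.analyticOnNhd _ _
        exact hexp.comp ((analyticOnNhd_const (v := 2 * Real.pi * Complex.I)).mul h1).neg
          (Set.mapsTo_univ _ _)
      · intro l hl u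
        obtain ⟨m, hm⟩ := hl ⟨g, hg.1⟩ hg.2
        have h1 : (u + l) (Additive.ofMul ⟨g, hg.1⟩) = u (Additive.ofMul ⟨g, hg.1⟩) + m := by
          rw [AddMonoidHom.add_apply, hm]
        simp only [h1]
        apply Complex.exp_eq_exp_iff_exists_int.mpr
        exact ⟨-m, by push_cast; ring⟩⟩
  else 1

theorem eFn_apply (H₁ : Subgroup G) (S : Set G) (g : G) (hg : g ∈ H₁) (hg' : g ∈ S)
    (u : TT H₁) : (eFn H₁ S g).1 u =
      Complex.exp (-(2 * Real.pi * Complex.I * (u (Additive.ofMul ⟨g, hg⟩) : ℝ))) := by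
  have h : g ∈ H₁ ∧ g ∈ S := ⟨hg, hg'⟩
  rw [eFn, dif_pos h]

variable [Group.FG G]

/-- the field of the pair `(H₁, H)`: quotients of real analytic functions on `Hom(H₁, ℝ)` periodic
under the characters that are integral on `H` -/
abbrev KF (H₁ H : Subgroup G) [H₁.FiniteIndex] : Type := KK (TT H₁) (Lam H₁ (H : Set G))

/-- the action of `G` on `KF H₁ H` -/
abbrev actF (H₁ H : Subgroup G) [H₁.FiniteIndex] [H₁.Normal] [H.Normal] :
    G →* (KF H₁ H →+* KF H₁ H) :=
  actK (TTrep H₁) (Lam H₁ (H : Set G)) (TTrep_Lam H₁ H)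

/-- the scalars by which the elements of `H` act -/
def eF (H₁ H : Subgroup G) [H₁.FiniteIndex] (g : G) : KF H₁ H :=
  algebraMap (AnR (TT H₁) (Lam H₁ (H : Set G))) _ (eFn H₁ (H : Set G) g)

/-- the integrality property of the pair `(H₁, H)` -/
def DivF (H₁ H : Subgroup G) [H₁.FiniteIndex] [H₁.Normal] [H.Normal] (N : ℕ) : Prop :=
  Div (actF H₁ H) H (eF H₁ H) N

end subgroups


/-! ## Chains, surface groups -/

theorem AbChain.normal {G : Type} [Group G] {H : Subgroup G} (h : AbChain G H) : H.Normal := by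
  cases h with
  | top => infer_instance
  | step H₁ H _ _ hn _ _ => exact hn

theorem AbChain.finiteIndex {G : Type} [Group G] {H : Subgroup G} (h : AbChain G H) :
    H.FiniteIndex := by
  cases h with
  | top => infer_instance
  | step H₁ H _ _ _ hf _ => exact hf

/-- every finite set not containing `1` is avoided by some subgroup in a chain -/
def ResCh (G : Type) [Group G] : Prop :=
  ∀ S : Set G, S.Finite → (1 : G) ∉ S → ∃ H : Subgroup G, AbChain G H ∧ ∀ s ∈ S, s ∉ H

/-- the surface relator `∏ [a_i, b_i]` -/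
def surfRel (g : ℕ) : FreeGroup (Fin g × Bool) :=
  (List.ofFn fun i : Fin g => FreeGroup.of (i, false) * FreeGroup.of (i, true) *
    (FreeGroup.of (i, false))⁻¹ * (FreeGroup.of (i, true))⁻¹).prod

/-- the fundamental group of a closed oriented surface of genus `g` -/
abbrev SurfGp (g : ℕ) : Type := PresentedGroup ({surfRel g} : Set (FreeGroup (Fin g × Bool)))

/-! ## Objects for the analysis -/

/-- the invariant measure on the disc -/
def muD : Measure ℂ :=
  (volume.restrict (Metric.ball (0 : ℂ) 1)).withDensity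
    fun z => ENNReal.ofReal (1 / (1 - ‖z‖ ^ 2) ^ 2)

/-- the Banach space of continuous functions on the closed disc of radius `t'` -/
abbrev BB (t' : ℝ) (r : ℕ) : Type := C(Metric.closedBall (0 : ℂ) t', Fin r → ℂ)

/-! ## Objects for the algebra -/

/-- the elements `p • m` with `p` a polynomial of total degree `≤ n` and `m ∈ M₀` -/
def PP (k : Type) [Field k] (m : ℕ) (U : Type) [AddCommGroup U]
    [Module (FractionRing (MvPolynomial (Fin m) k)) U] (M₀ : Set U) (n : ℕ) : Set U :=
  {x | ∃ (p : MvPolynomial (Fin m) k), p.totalDegree ≤ n ∧ ∃ v ∈ M₀,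
    x = algebraMap (MvPolynomial (Fin m) k) (FractionRing (MvPolynomial (Fin m) k)) p • v}

/-- evaluation of a polynomial with coefficients in `AnR` -/
def evP {V₁ : Type} [AddCommGroup V₁] [Module ℝ V₁] {Λ : AddSubgroup V₁} {m : ℕ} (u : V₁)
    (x : Fin m → ℝ) : MvPolynomial (Fin m) (AnR V₁ Λ) →+* ℂ :=
  MvPolynomial.eval₂Hom ((Pi.evalRingHom (fun _ : V₁ => ℂ) u).comp (AnR V₁ Λ).subtype)
    fun i => (x i : ℂ)

/-- restriction of real characters -/
def resT {G : Type} [Group G] (H H₁ : Subgroup G) (hle : H ≤ H₁) : TT H₁ →ₗ[ℝ] TT H where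
  toFun u := u.comp (MonoidHom.toAdditive (Subgroup.inclusion hle))
  map_add' _ _ := rfl
  map_smul' _ _ := rfl

/-! ## Base change of twisted modules -/

section
variable {G K K' : Type} [Group G] [CommRing K] [CommRing K'] [Algebra K K']
    {σ : G →* (K →+* K)} (σ' : G →* (K' →+* K'))
    (hσ : ∀ g k, σ' g (algebraMap K K' k) = algebraMap K K' (σ g k)) {H : Subgroup G}
    (hH : ∀ h ∈ H, ∀ k, σ' h k = k) {e : G → K} {U : Type} [AddCommGroup U] [Module K U]
    (T : TwMod σ H e U)

include hσ in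
/-- auxiliary: the additive map `a ⊗ u ↦ σ' g a ⊗ T g u` -/
def bcHom (g : G) : (K' ⊗[K] U) →+ (K' ⊗[K] U) := TensorProduct.liftAddHom
    { toFun := fun a =>
        { toFun := fun u => σ' g a ⊗ₜ[K] T.T g u
          map_zero' := by rw [map_zero, TensorProduct.tmul_zero]
          map_add' := fun u v => by rw [map_add, TensorProduct.tmul_add] }
      map_zero' := by
        ext u
        change σ' g 0 ⊗ₜ[K] T.T g u = 0
        rw [map_zero, TensorProduct.zero_tmul]
      map_add' := fun a b => by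
        ext u
        change σ' g (a + b) ⊗ₜ[K] T.T g u = σ' g a ⊗ₜ[K] T.T g u + σ' g b ⊗ₜ[K] T.T g u
        rw [map_add, TensorProduct.add_tmul] }
    (by
      intro k a u
      change σ' g (k • a) ⊗ₜ[K] T.T g u = σ' g a ⊗ₜ[K] T.T g (k • u)
      rw [T.T_smul, Algebra.smul_def, map_mul, hσ, TensorProduct.tmul_smul,
        TensorProduct.smul_tmul', Algebra.smul_def])

theorem bcHom_tmul (g : G) (a : K') (u : U) :
    bcHom σ' hσ T g (a ⊗ₜ[K] u) = σ' g a ⊗ₜ[K] T.T g u := rfl

/-- base change of twisted modules -/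
def TwMod.baseChange : TwMod σ' H (fun g => algebraMap K K' (e g)) (K' ⊗[K] U) where
  T := bcHom σ' hσ T
  T_one x := by
    induction x using TensorProduct.induction_on with
    | zero => rw [map_zero]
    | tmul a u => rw [bcHom_tmul, T.T_one, map_one]; rfl
    | add x y hx hy => rw [map_add, hx, hy]
  T_mul g g' x := by
    induction x using TensorProduct.induction_on with
    | zero => rw [map_zero, map_zero, map_zero]
    | tmul a u => rw [bcHom_tmul, bcHom_tmul, bcHom_tmul, T.T_mul, map_mul]; rfl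
    | add x y hx hy => rw [map_add, hx, hy, map_add, map_add]
  T_smul g k x := by
    induction x using TensorProduct.induction_on with
    | zero => rw [smul_zero, map_zero, smul_zero]
    | tmul a u =>
      rw [TensorProduct.smul_tmul', bcHom_tmul, bcHom_tmul,
        TensorProduct.smul_tmul', smul_eq_mul, smul_eq_mul, map_mul]
    | add x y hx hy => rw [smul_add, map_add, hx, hy, map_add, smul_add]
  T_scal h hh x := by
    induction x using TensorProduct.induction_on with
    | zero => rw [map_zero, smul_zero]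
    | tmul a u =>
      rw [bcHom_tmul, T.T_scal h hh, hH h hh, TensorProduct.tmul_smul, TensorProduct.smul_tmul',
        TensorProduct.smul_tmul', smul_eq_mul, Algebra.smul_def]
    | add x y hx hy => rw [map_add, hx, hy, smul_add]

theorem TwMod.baseChange_tmul (g : G) (a : K') (u : U) :
    (T.baseChange σ' hσ hH).T g (a ⊗ₜ[K] u) = σ' g a ⊗ₜ[K] T.T g u := rfl

end

theorem div_congr {G K : Type} [Group G] [Field K] {σ : G →* (K →+* K)} {H : Subgroup G}
    {e e' : G → K} (he : ∀ h ∈ H, e h = e' h) {N : ℕ} (hdiv : Div σ H e N) : Div σ H e' N := by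
  intro U _ _ _ T
  exact hdiv U
    { T := T.T
      T_one := T.T_one
      T_mul := T.T_mul
      T_smul := T.T_smul
      T_scal := fun h hh u => by rw [he h hh]; exact T.T_scal h hh u }

/-- equivariant embeddings -/
theorem div_of_embed {G K K' : Type} [Group G] [Field K] [Field K'] (i : K →+* K')
    (σ : G →* (K →+* K)) (σ' : G →* (K' →+* K'))
    (hσ : ∀ g k, σ' g (i k) = i (σ g k)) (H : Subgroup G)
    (hH : ∀ h ∈ H, ∀ k, σ' h k = k) (e : G → K) (e' : G → K') (he : ∀ h ∈ H, e' h = i (e h))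
    (N : ℕ) (hdiv : Div σ' H e' N) : Div σ H e N := by
  intro U _ _ _ T
  let _ : Algebra K K' := i.toAlgebra
  have h1 := div_congr (e' := fun g => algebraMap K K' (e g)) he hdiv (K' ⊗[K] U)
    (T.baseChange σ' hσ hH)
  rwa [Module.finrank_baseChange] at h1

end RQ
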