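import Pool.Agent.Helper44.RQ.Defs

/-! Module `Large` of MP_27ef80_ag -/

set_option autoImplicit false
open scoped ComplexConjugate Matrix TensorProduct
open MeasureTheory

noncomputable section

namespace RQ

theorem large_num (g : SU11) (z w : ℂ) :
    Nm g z * J g w - J g z * Nm g w = z - w := by
  have h := det_eq g
  unfold J Nm
  linear_combination (z - w) * h

theorem large_den (g : SU11) (z w : ℂ) :
    conj (J g z) * J g w - conj (Nm g z) * Nm g w = 1 - conj z * w := by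
  have h := det_eq g
  obtain ⟨h1, h2⟩ := g.2
  unfold J Nm
  rw [h1, h2] at h ⊢
  simp only [map_add, map_mul, Complex.conj_conj]
  linear_combination (1 - conj z * w) * h

/-- invariance of the pseudo-hyperbolic distance -/
theorem large_pd_inv (g : SU11) (z w : DD) : pd (g • z) (g • w) = pd z w := by
  have hz := J_ne_zero g z.2
  have hw := J_ne_zero g w.2
  have hcz : conj (J g z.1) ≠ 0 := by simpa using hz
  unfold pd
  rw [smul_val, smul_val, map_div₀]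
  have e1 : Nm g z.1 / J g z.1 - Nm g w.1 / J g w.1 = (z.1 - w.1) / (J g z.1 * J g w.1) := by
    rw [div_sub_div _ _ hz hw, large_num]
  have e2 : 1 - conj (Nm g z.1) / conj (J g z.1) * (Nm g w.1 / J g w.1)
      = (1 - conj z.1 * w.1) / (conj (J g z.1) * J g w.1) := by
    rw [← large_den g z.1 w.1]
    field_simp
  rw [e1, e2]
  simp only [norm_div, norm_mul, RCLike.norm_conj]
  have hz' : ‖J g z.1‖ ≠ 0 := norm_ne_zero_iff.2 hz
  have hw' : ‖J g w.1‖ ≠ 0 := norm_ne_zero_iff.2 hw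
  rcases eq_or_ne ‖1 - conj z.1 * w.1‖ 0 with h0 | h0
  · rw [h0]; simp
  · field_simp

theorem large_den_ne (z w : DD) : 1 - conj z.1 * w.1 ≠ 0 := by
  intro h
  have h1 : conj z.1 * w.1 = 1 := (sub_eq_zero.1 h).symm
  have h2 : ‖z.1‖ * ‖w.1‖ = 1 := by
    have := congrArg norm h1
    rwa [norm_mul, RCLike.norm_conj, norm_one] at this
  have h3 := z.2
  have h4 := w.2
  nlinarith [norm_nonneg z.1, norm_nonneg w.1]

/-- the fundamental identity -/
theorem large_identity (z w : DD) :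
    ‖1 - conj z.1 * w.1‖ ^ 2 - ‖z.1 - w.1‖ ^ 2 = (1 - ‖z.1‖ ^ 2) * (1 - ‖w.1‖ ^ 2) := by
  rw [← Complex.normSq_eq_norm_sq, ← Complex.normSq_eq_norm_sq, ← Complex.normSq_eq_norm_sq,
    ← Complex.normSq_eq_norm_sq]
  simp only [Complex.normSq_apply, Complex.sub_re, Complex.sub_im, Complex.mul_re, Complex.mul_im,
    Complex.conj_re, Complex.conj_im, Complex.one_re, Complex.one_im]
  ring

theorem large_radius (t ρ : ℝ) (ht : t < 1) (hρ0 : 0 ≤ ρ) (hρ : ρ < 1) :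
    ∃ R : ℝ, R < 1 ∧ ∀ z w : DD, ‖z.1‖ ≤ t → pd z w < ρ → ‖w.1‖ ≤ R := by
  rcases lt_or_ge t 0 with ht0 | ht0
  · exact ⟨0, one_pos, fun z w hz _ => absurd (norm_nonneg z.1) (by linarith)⟩
  set c : ℝ := (1 - ρ ^ 2) * (1 - t) ^ 2 with hc
  have hc0 : 0 < c := by
    have h1 : 0 < 1 - ρ ^ 2 := by nlinarith
    have h2 : 0 < 1 - t := by linarith
    positivity
  refine ⟨Real.sqrt (1 - c), ?_, fun z w hz hzw => ?_⟩
  · rw [Real.sqrt_lt' one_pos]
    linarith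
  · apply Real.le_sqrt_of_sq_le
    have hD : 0 < ‖1 - conj z.1 * w.1‖ := norm_pos_iff.2 (large_den_ne z w)
    unfold pd at hzw
    rw [norm_div, div_lt_iff₀ hD] at hzw
    have h1 : ‖z.1 - w.1‖ ^ 2 ≤ ρ ^ 2 * ‖1 - conj z.1 * w.1‖ ^ 2 := by
      rw [← mul_pow]
      exact pow_le_pow_left₀ (norm_nonneg _) hzw.le 2
    have h2 := large_identity z w
    have h3 : 1 - t ≤ ‖1 - conj z.1 * w.1‖ := by
      have e1 : ‖(1 : ℂ)‖ - ‖conj z.1 * w.1‖ ≤ ‖1 - conj z.1 * w.1‖ := norm_sub_norm_le _ _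
      rw [norm_one, norm_mul, RCLike.norm_conj] at e1
      have e2 : ‖z.1‖ * ‖w.1‖ ≤ t := by
        have := w.2
        nlinarith [norm_nonneg z.1, norm_nonneg w.1]
      linarith
    have h4 : (1 - t) ^ 2 ≤ ‖1 - conj z.1 * w.1‖ ^ 2 :=
      pow_le_pow_left₀ (by linarith) h3 2
    have h5 : c ≤ (1 - ‖z.1‖ ^ 2) * (1 - ‖w.1‖ ^ 2) := by
      rw [← h2, hc]
      have h6 : 0 < 1 - ρ ^ 2 := by nlinarith
      nlinarith
    have h6 : (1 - ‖z.1‖ ^ 2) * (1 - ‖w.1‖ ^ 2) ≤ 1 - ‖w.1‖ ^ 2 := by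
      have := w.2
      have h7 : 0 ≤ 1 - ‖w.1‖ ^ 2 := by nlinarith [norm_nonneg w.1]
      nlinarith [sq_nonneg ‖z.1‖]
    linarith

theorem exists_large {G : Type} [Group G] (Φ : G →* SU11) (t : ℝ) (hC : Cocpt Φ ⊤ t)
    (hD : Disc Φ) (hR : ResCh G) (ρ : ℝ) (hρ : ρ < 1) :
    ∃ H : Subgroup G, AbChain G H ∧ ∀ h ∈ H, h ≠ 1 → ∀ z : DD, ρ ≤ pd z (Φ h • z) := by
  obtain ⟨R, hR1, hR2⟩ := large_radius t (max ρ 0) hC.1 (le_max_right _ _) (max_lt hρ one_pos)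
  set S : Set G := {g | g ≠ 1 ∧ ∃ z : DD, ‖z.1‖ ≤ t ∧ pd z (Φ g • z) < ρ} with hS
  have hSfin : S.Finite := by
    apply (hD (max t R) (max_lt hC.1 hR1)).subset
    rintro g ⟨_, z, hz, hpd⟩
    exact ⟨z, hz.trans (le_max_left _ _),
      (hR2 z _ hz (lt_of_lt_of_le hpd (le_max_left _ _))).trans (le_max_right _ _)⟩
  obtain ⟨H, hH, hHS⟩ := hR S hSfin (fun h => h.1 rfl)
  refine ⟨H, hH, fun h hh hh1 z => ?_⟩
  by_contra hlt
  push Not at hlt
  obtain ⟨g, -, hg⟩ := hC.2 z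
  have hn := hH.normal
  have hmem : g * h * g⁻¹ ∈ H := hn.conj_mem h hh g
  refine hHS (g * h * g⁻¹) ⟨?_, Φ g • z, hg, ?_⟩ hmem
  · intro he
    apply hh1
    have : g * h = g := by
      rw [← mul_inv_eq_one]; exact he
    simpa using this
  · have e : Φ (g * h * g⁻¹) • (Φ g • z) = Φ g • (Φ h • z) := by
      rw [← mul_smul, ← mul_smul, ← map_mul, ← map_mul, inv_mul_cancel_right]
    rw [e, large_pd_inv]
    exact hlt

end RQ
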