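import Pool.Agent.Helper44.RQ.Meas

/-! Module `Unfold` of MP_27ef80_ag -/

set_option autoImplicit false
open scoped ComplexConjugate Matrix TensorProduct
open MeasureTheory

noncomputable section

namespace RQ

/-- the Moebius transformation as a total function -/
def unfoldM (g : SU11) (z : ℂ) : ℂ := Nm g z / J g z

theorem unfoldM_measurable (g : SU11) : Measurable (unfoldM g) := by
  have h1 : Measurable (Nm g) := by
    have : Continuous (Nm g) := by unfold Nm; fun_prop
    exact this.measurable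
  have h2 : Measurable (J g) := by
    have : Continuous (J g) := by unfold J; fun_prop
    exact this.measurable
  exact h1.div h2

theorem unfoldM_eq (g : SU11) (z : DD) : unfoldM g z.1 = (g • z).1 := rfl

theorem unfold_ae_ball : ∀ᵐ z ∂muD, ‖z‖ < 1 := by
  have h1 : muD ≪ volume.restrict (Metric.ball (0 : ℂ) 1) := withDensity_absolutelyContinuous _ _
  have h2 : ∀ᵐ z ∂(volume.restrict (Metric.ball (0 : ℂ) 1)), z ∈ Metric.ball (0 : ℂ) 1 :=
    ae_restrict_mem measurableSet_ball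
  filter_upwards [h1.ae_le h2] with z hz
  simpa using hz

theorem lintegral_unfold {G : Type} [Group G] [Countable G] (Φ : G →* SU11) (t : ℝ)
    (hC : Cocpt Φ ⊤ t) (H : Subgroup G) [H.FiniteIndex] (B : Set ℂ) (hB : MeasurableSet B)
    (hinj : ∀ z : DD, z.1 ∈ B → ∀ h ∈ H, h ≠ 1 → (Φ h • z).1 ∉ B)
    (φ : ℂ → ENNReal) (hφ : Measurable φ)
    (hinv : ∀ h ∈ H, ∀ z : DD, φ (Φ h • z).1 = φ z.1) :
    ∫⁻ z in B, φ z ∂muD ≤
      ∑' q : G ⧸ H, ∫⁻ z in Metric.closedBall 0 t,
        φ (Nm (Φ (q.out)⁻¹) z / J (Φ (q.out)⁻¹) z) ∂muD := by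
  classical
  -- translates of the compact disc
  let T : (G ⧸ H) × H → Set ℂ := fun p =>
    (unfoldM (Φ ((p.2 : G) * (p.1.out)⁻¹))⁻¹) ⁻¹' Metric.closedBall 0 t
  have hT : ∀ p, MeasurableSet (T p) := fun p =>
    (unfoldM_measurable _) Metric.isClosed_closedBall.measurableSet
  have hBφ : Measurable (B.indicator φ) := hφ.indicator hB
  have hG : ∀ p, Measurable ((T p).indicator (B.indicator φ)) := fun p => hBφ.indicator (hT p)
  have hcover : ∀ z : DD, ∃ p, z.1 ∈ T p := by
    intro z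
    obtain ⟨g, _, hg⟩ := hC.2 z
    obtain ⟨k, hk⟩ := QuotientGroup.mk_out_eq_mul H g
    refine ⟨((g : G ⧸ H), k), ?_⟩
    change unfoldM _ z.1 ∈ Metric.closedBall (0 : ℂ) t
    rw [unfoldM_eq]
    have e1 : (Φ ((k : G) * ((g : G ⧸ H).out)⁻¹))⁻¹ = Φ g := by
      rw [← map_inv]
      congr 1
      rw [hk]
      group
    simp only
    rw [e1]
    simpa using hg
  have h1 : ∫⁻ z in B, φ z ∂muD ≤ ∑' p, ∫⁻ z, (T p).indicator (B.indicator φ) z ∂muD := by
    rw [← lintegral_indicator hB, ← lintegral_tsum fun p => (hG p).aemeasurable]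
    refine lintegral_mono_ae ?_
    filter_upwards [unfold_ae_ball] with z hz
    obtain ⟨p, hp⟩ := hcover ⟨z, hz⟩
    refine le_trans (le_of_eq ?_) (ENNReal.le_tsum p)
    rw [Set.indicator_of_mem hp]
  refine h1.trans ?_
  rw [ENNReal.tsum_prod']
  refine ENNReal.tsum_le_tsum fun q => ?_
  -- one coset
  have h2 : ∀ h : H, ∫⁻ z, (T (q, h)).indicator (B.indicator φ) z ∂muD =
      ∫⁻ z, (Metric.closedBall (0 : ℂ) t).indicator (fun z =>
        B.indicator φ (unfoldM (Φ ((h : G) * (q.out)⁻¹)) z)) z ∂muD := by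
    intro h
    rw [← lintegral_mob (Φ ((h : G) * (q.out)⁻¹)) _ (hG (q, h))]
    refine lintegral_congr_ae ?_
    filter_upwards [unfold_ae_ball] with z hz
    change (T (q, h)).indicator (B.indicator φ) (unfoldM (Φ ((h : G) * (q.out)⁻¹)) z) = _
    have e1 : unfoldM (Φ ((h : G) * (q.out)⁻¹)) z ∈ T (q, h) ↔ z ∈ Metric.closedBall (0 : ℂ) t := by
      change unfoldM (Φ ((h : G) * (q.out)⁻¹))⁻¹ (unfoldM (Φ ((h : G) * (q.out)⁻¹)) z) ∈
        Metric.closedBall (0 : ℂ) t ↔ _
      have e2 : unfoldM (Φ ((h : G) * (q.out)⁻¹)) z =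
        ((Φ ((h : G) * (q.out)⁻¹)) • (⟨z, hz⟩ : DD)).1 := rfl
      rw [e2, unfoldM_eq, inv_smul_smul]
    by_cases hzt : z ∈ Metric.closedBall (0 : ℂ) t
    · rw [Set.indicator_of_mem (e1.2 hzt), Set.indicator_of_mem hzt]
    · rw [Set.indicator_of_notMem (fun hh => hzt (e1.1 hh)), Set.indicator_of_notMem hzt]
  simp only [h2]
  have hm3 : ∀ h : H, Measurable ((Metric.closedBall (0 : ℂ) t).indicator (fun z =>
        B.indicator φ (unfoldM (Φ ((h : G) * (q.out)⁻¹)) z))) := fun h =>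
    (hBφ.comp (unfoldM_measurable _)).indicator Metric.isClosed_closedBall.measurableSet
  rw [← lintegral_tsum fun h => (hm3 h).aemeasurable,
    ← lintegral_indicator Metric.isClosed_closedBall.measurableSet]
  refine lintegral_mono_ae ?_
  filter_upwards [unfold_ae_ball] with z hz
  by_cases hzt : z ∈ Metric.closedBall (0 : ℂ) t
  · rw [Set.indicator_of_mem hzt]
    simp only [Set.indicator_of_mem hzt]
    set x : DD := Φ (q.out)⁻¹ • (⟨z, hz⟩ : DD) with hx
    have e1 : ∀ h : H, unfoldM (Φ ((h : G) * (q.out)⁻¹)) z = (Φ (h : G) • x).1 := by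
      intro h
      have : unfoldM (Φ ((h : G) * (q.out)⁻¹)) z =
        ((Φ ((h : G) * (q.out)⁻¹)) • (⟨z, hz⟩ : DD)).1 := rfl
      rw [this, map_mul, mul_smul]
    have e2 : Nm (Φ (q.out)⁻¹) z / J (Φ (q.out)⁻¹) z = x.1 := rfl
    simp only [e1]
    rw [e2]
    by_cases hex : ∃ h : H, (Φ (h : G) • x).1 ∈ B
    · obtain ⟨h₀, hh₀⟩ := hex
      rw [tsum_eq_single h₀]
      · rw [Set.indicator_of_mem hh₀, hinv _ h₀.2]
      · intro h hne
        refine Set.indicator_of_notMem ?_ _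
        have h3 := hinj (Φ (h₀ : G) • x) hh₀ ((h : G) * (h₀ : G)⁻¹)
          (H.mul_mem h.2 (H.inv_mem h₀.2)) (fun hc => hne (by
            apply Subtype.ext
            exact mul_inv_eq_one.1 hc))
        rwa [← mul_smul, ← map_mul, inv_mul_cancel_right] at h3
    · push Not at hex
      have : ∀ h : H, B.indicator φ (Φ (h : G) • x).1 = 0 := fun h =>
        Set.indicator_of_notMem (hex h) _
      simp [this]
  · rw [Set.indicator_of_notMem hzt]
    simp only [Set.indicator_of_notMem hzt]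
    simp

end RQ
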