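import Pool.Agent.Helper44.RQ.Mean2
import Pool.Agent.Helper44.RQ.Unfold
import Pool.Agent.Helper44.RQ.Large

/-! Module `Dim` of MP_27ef80_ag -/

set_option autoImplicit false
open scoped ComplexConjugate Matrix TensorProduct
open MeasureTheory

noncomputable section

namespace RQ

/-! ### A bound for the dimension of spaces of functions with a sup bound -/

theorem dim_norm_sq (x : ℂ) : ((‖x‖ ^ 2 : ℝ) : ℂ) = conj x * x := by
  rw [← Complex.normSq_eq_norm_sq, Complex.normSq_eq_conj_mul_self]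

theorem dim_expand {k : ℕ} (c x : Fin k → ℂ) :
    ((‖∑ j, c j * x j‖ ^ 2 : ℝ) : ℂ) =
      ∑ j, ∑ l, conj (c j) * c l * (conj (x j) * x l) := by
  rw [dim_norm_sq, map_sum, Finset.sum_mul_sum]
  refine Finset.sum_congr rfl fun j _ => Finset.sum_congr rfl fun l _ => ?_
  rw [map_mul]
  ring

theorem dim_gram {ι Z : Type} [Fintype ι] [MeasurableSpace Z] (ν : Measure Z)
    [IsFiniteMeasure ν] {k : ℕ} (ψ : ι → Fin k → Z → ℂ)
    (hint : ∀ a j l, Integrable (fun z => conj (ψ a j z) * ψ a l z) ν)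
    (C : ℝ) (hC : 0 ≤ C)
    (hb : ∀ᵐ z ∂ν, ∀ (c : Fin k → ℂ) (a : ι), ‖∑ j, c j * ψ a j z‖ ^ 2 ≤
      C * ∑ a, ∫ z, ‖∑ j, c j * ψ a j z‖ ^ 2 ∂ν)
    (hpos : ∀ c : Fin k → ℂ, ∑ a, ∫ z, ‖∑ j, c j * ψ a j z‖ ^ 2 ∂ν = 0 → c = 0) :
    (k : ℝ) ≤ Fintype.card ι * (C * ν.real Set.univ) := by
  let A : Matrix (Fin k) (Fin k) ℂ := Matrix.of fun j l =>
    ∑ a, ∫ z, conj (ψ a j z) * ψ a l z ∂ν
  have hSA : ∀ c : Fin k → ℂ, ((∑ a, ∫ z, ‖∑ j, c j * ψ a j z‖ ^ 2 ∂ν : ℝ) : ℂ) =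
      ∑ j, conj (c j) * (A *ᵥ c) j := by
    intro c
    have h1 : ∀ a, ((∫ z, ‖∑ j, c j * ψ a j z‖ ^ 2 ∂ν : ℝ) : ℂ) =
        ∑ j, ∑ l, conj (c j) * c l * ∫ z, conj (ψ a j z) * ψ a l z ∂ν := by
      intro a
      rw [← integral_complex_ofReal]
      simp only [dim_expand]
      rw [integral_finsetSum]
      · refine Finset.sum_congr rfl fun j _ => ?_
        rw [integral_finsetSum]
        · refine Finset.sum_congr rfl fun l _ => ?_
          rw [integral_const_mul]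
        · intro l _
          exact (hint a j l).const_mul _
      · intro j _
        exact integrable_finsetSum _ fun l _ => (hint a j l).const_mul _
    rw [Complex.ofReal_sum]
    simp only [h1, A, Matrix.mulVec, dotProduct, Matrix.of_apply]
    rw [Finset.sum_comm]
    refine Finset.sum_congr rfl fun j _ => ?_
    rw [Finset.sum_comm, Finset.mul_sum]
    refine Finset.sum_congr rfl fun l _ => ?_
    rw [Finset.sum_mul, Finset.mul_sum]
    refine Finset.sum_congr rfl fun a _ => ?_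
    ring
  have hdet : A.det ≠ 0 := by
    intro h0
    obtain ⟨v, hv, hAv⟩ := Matrix.exists_mulVec_eq_zero_iff.2 h0
    apply hv
    apply hpos
    have h1 := hSA v
    rw [hAv] at h1
    simp only [Pi.zero_apply, mul_zero, Finset.sum_const_zero] at h1
    exact_mod_cast h1
  have hunit : IsUnit A.det := isUnit_iff_ne_zero.2 hdet
  -- the pointwise bound
  let s : ι → Z → ℂ := fun a z => ∑ j, (A⁻¹ *ᵥ fun l => conj (ψ a l z)) j * ψ a j z
  have hs : ∀ᵐ z ∂ν, ∀ a, (s a z).re ≤ C := by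
    filter_upwards [hb] with z hz a
    set v : Fin k → ℂ := fun l => conj (ψ a l z) with hv
    set c : Fin k → ℂ := A⁻¹ *ᵥ v with hc
    set Sc : ℝ := ∑ a, ∫ z, ‖∑ j, c j * ψ a j z‖ ^ 2 ∂ν with hSc
    have h1 := hSA c
    have h2 : A *ᵥ c = v := by
      rw [hc, Matrix.mulVec_mulVec, Matrix.mul_nonsing_inv _ hunit, Matrix.one_mulVec]
    rw [h2, ← hSc] at h1
    have h3 : s a z = (Sc : ℂ) := by
      have h4 : conj (s a z) = (Sc : ℂ) := by
        rw [h1]
        change conj (∑ j, c j * ψ a j z) = _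
        rw [map_sum]
        refine Finset.sum_congr rfl fun j _ => ?_
        rw [map_mul]
      have h5 := congrArg conj h4
      rwa [Complex.conj_conj, Complex.conj_ofReal] at h5
    have h6 : ‖s a z‖ ^ 2 ≤ C * Sc := hz c a
    have h7 : 0 ≤ Sc := Finset.sum_nonneg fun a _ => integral_nonneg fun z => by positivity
    rw [h3, Complex.norm_real, Real.norm_of_nonneg h7] at h6
    rw [h3, Complex.ofReal_re]
    by_contra hlt
    push Not at hlt
    have h8 : 0 < Sc := lt_of_le_of_lt hC hlt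
    nlinarith
  -- the trace
  have hsint : ∀ a, Integrable (s a) ν := by
    intro a
    have h1 : s a = fun z => ∑ j, ∑ l, A⁻¹ j l * (conj (ψ a l z) * ψ a j z) := by
      funext z
      simp only [s, Matrix.mulVec, dotProduct, Finset.sum_mul]
      refine Finset.sum_congr rfl fun j _ => Finset.sum_congr rfl fun l _ => ?_
      ring
    rw [h1]
    exact integrable_finsetSum _ fun j _ => integrable_finsetSum _ fun l _ =>
      (hint a l j).const_mul _
  have htr : ∑ a, ∫ z, s a z ∂ν = k := by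
    have h1 : ∀ a, ∫ z, s a z ∂ν =
        ∑ j, ∑ l, A⁻¹ j l * ∫ z, conj (ψ a l z) * ψ a j z ∂ν := by
      intro a
      have h2 : s a = fun z => ∑ j, ∑ l, A⁻¹ j l * (conj (ψ a l z) * ψ a j z) := by
        funext z
        simp only [s, Matrix.mulVec, dotProduct, Finset.sum_mul]
        refine Finset.sum_congr rfl fun j _ => Finset.sum_congr rfl fun l _ => ?_
        ring
      rw [h2, integral_finsetSum]
      · refine Finset.sum_congr rfl fun j _ => ?_
        rw [integral_finsetSum]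
        · refine Finset.sum_congr rfl fun l _ => ?_
          rw [integral_const_mul]
        · intro l _
          exact (hint a l j).const_mul _
      · intro j _
        exact integrable_finsetSum _ fun l _ => (hint a l j).const_mul _
    have h3 : (A⁻¹ * A).trace = (k : ℂ) := by
      rw [Matrix.nonsing_inv_mul _ hunit, Matrix.trace_one, Fintype.card_fin]
    rw [← h3]
    simp only [h1, Matrix.trace, Matrix.diag_apply, Matrix.mul_apply, A, Matrix.of_apply]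
    rw [Finset.sum_comm]
    refine Finset.sum_congr rfl fun j _ => ?_
    rw [Finset.sum_comm]
    refine Finset.sum_congr rfl fun l _ => ?_
    rw [Finset.mul_sum]
  have h1 : (k : ℝ) = ∑ a, ∫ z, (s a z).re ∂ν := by
    have h2 := congrArg Complex.re htr
    rw [Complex.natCast_re, Complex.re_sum] at h2
    rw [← h2]
    refine Finset.sum_congr rfl fun a _ => ?_
    exact (integral_re (hsint a)).symm
  rw [h1]
  calc ∑ a, ∫ z, (s a z).re ∂ν ≤ ∑ _a : ι, ∫ _z, C ∂ν := by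
        refine Finset.sum_le_sum fun a _ => ?_
        refine integral_mono_ae (hsint a).re (integrable_const C) ?_
        filter_upwards [hs] with z hz
        exact hz a
    _ = Fintype.card ι * (C * ν.real Set.univ) := by
        rw [integral_const, Finset.sum_const, Finset.card_univ, nsmul_eq_mul, smul_eq_mul,
          mul_comm C]

/-! ### Measure of the compact disc -/

theorem dim_mu_fin (t : ℝ) (ht : t < 1) : muD (Metric.closedBall 0 t) < ⊤ := by
  unfold muD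
  rw [withDensity_apply _ Metric.isClosed_closedBall.measurableSet]
  have h1 : ∫⁻ z in Metric.closedBall (0 : ℂ) t, ENNReal.ofReal (1 / (1 - ‖z‖ ^ 2) ^ 2)
      ∂(volume.restrict (Metric.ball (0 : ℂ) 1)) ≤
      ∫⁻ _z in Metric.closedBall (0 : ℂ) t, ENNReal.ofReal (1 / (1 - t ^ 2) ^ 2)
      ∂(volume.restrict (Metric.ball (0 : ℂ) 1)) := by
    refine setLIntegral_mono measurable_const fun z hz => ?_
    apply ENNReal.ofReal_le_ofReal
    have hz' : ‖z‖ ≤ t := by simpa using hz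
    have h0 := norm_nonneg z
    have h2 : 0 < 1 - t ^ 2 := by nlinarith
    have h3 : 1 - t ^ 2 ≤ 1 - ‖z‖ ^ 2 := by nlinarith
    gcongr
  refine lt_of_le_of_lt h1 ?_
  rw [setLIntegral_const]
  refine ENNReal.mul_lt_top ENNReal.ofReal_lt_top ?_
  refine lt_of_le_of_lt (Measure.restrict_apply_le _ _) ?_
  exact measure_closedBall_lt_top

/-! ### Pseudo-hyperbolic discs -/

/-- the element of `SU(1,1)` that maps `z₀` to the origin -/
def dimG (z₀ : DD) : SU11 :=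
  ⟨⟨!![((1 / Real.sqrt (1 - ‖z₀.1‖ ^ 2) : ℝ) : ℂ), -((1 / Real.sqrt (1 - ‖z₀.1‖ ^ 2) : ℝ) : ℂ) * z₀.1;
      -((1 / Real.sqrt (1 - ‖z₀.1‖ ^ 2) : ℝ) : ℂ) * conj z₀.1,
      ((1 / Real.sqrt (1 - ‖z₀.1‖ ^ 2) : ℝ) : ℂ)], by
    have h0 : 0 < 1 - ‖z₀.1‖ ^ 2 := by nlinarith [z₀.2, norm_nonneg z₀.1]
    rw [Matrix.det_fin_two_of]
    have h1 : ((1 / Real.sqrt (1 - ‖z₀.1‖ ^ 2) : ℝ) : ℂ) * ((1 / Real.sqrt (1 - ‖z₀.1‖ ^ 2) : ℝ) : ℂ)
        * ((1 - ‖z₀.1‖ ^ 2 : ℝ) : ℂ) = 1 := by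
      rw [← Complex.ofReal_mul, ← Complex.ofReal_mul]
      rw [div_mul_div_comm, Real.mul_self_sqrt h0.le]
      rw [mul_one, one_div, inv_mul_cancel₀ h0.ne', Complex.ofReal_one]
    have h2 : ((1 - ‖z₀.1‖ ^ 2 : ℝ) : ℂ) = 1 - conj z₀.1 * z₀.1 := by
      rw [← dim_norm_sq]
      push_cast
      ring
    rw [h2] at h1
    linear_combination h1⟩, by
    constructor
    · simp
    · simp⟩

theorem dimG_smul (z₀ : DD) : (dimG z₀ • z₀).1 = 0 := by
  rw [smul_val]
  have : Nm (dimG z₀) z₀.1 = 0 := by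
    simp [Nm, dimG]
  rw [this, zero_div]

theorem dim_pd_lt (ρ' : ℝ) (h1 : ρ' < 1) (z₀ z w : DD) (hz : pd z₀ z < ρ')
    (hw : pd z₀ w < ρ') : pd z w < Real.sqrt (1 - (1 - ρ' ^ 2) ^ 2 / 4) := by
  set g := dimG z₀ with hg
  have h0 : (g • z₀).1 = 0 := dimG_smul z₀
  rw [← large_pd_inv g] at hz hw ⊢
  have hpz : ∀ x : DD, pd (g • z₀) x = ‖x.1‖ := by
    intro x
    unfold pd
    rw [h0]
    simp
  rw [hpz] at hz hw
  set x := g • z
  set y := g • w
  apply Real.lt_sqrt_of_sq_lt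
  have hD := large_den_ne x y
  have hDpos : 0 < ‖1 - conj x.1 * y.1‖ := norm_pos_iff.2 hD
  unfold pd
  rw [norm_div, div_pow, div_lt_iff₀ (by positivity)]
  have h2 := large_identity x y
  have hx0 := norm_nonneg x.1
  have hy0 := norm_nonneg y.1
  have h3 : ‖1 - conj x.1 * y.1‖ ≤ 2 := by
    calc ‖1 - conj x.1 * y.1‖ ≤ ‖(1 : ℂ)‖ + ‖conj x.1 * y.1‖ := norm_sub_le _ _
      _ ≤ 1 + 1 := by
        rw [norm_one, norm_mul, RCLike.norm_conj]
        have := x.2
        have := y.2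
        nlinarith
      _ = 2 := by norm_num
  have h4 : ‖1 - conj x.1 * y.1‖ ^ 2 ≤ 4 := by nlinarith
  have h5 : (1 - ρ' ^ 2) ^ 2 < (1 - ‖x.1‖ ^ 2) * (1 - ‖y.1‖ ^ 2) := by
    have e1 : 0 < 1 - ρ' ^ 2 := by nlinarith
    have e2 : 1 - ρ' ^ 2 < 1 - ‖x.1‖ ^ 2 := by nlinarith
    have e3 : 1 - ρ' ^ 2 < 1 - ‖y.1‖ ^ 2 := by nlinarith
    nlinarith
  nlinarith [sq_nonneg (1 - ρ' ^ 2)]

/-! ### Invariance -/

theorem dim_unitary {r : ℕ} (V : Matrix.unitaryGroup (Fin r) ℂ) (x : Fin r → ℂ) :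
    ∑ i, ‖(V.1 *ᵥ x) i‖ ^ 2 = ∑ i, ‖x i‖ ^ 2 := by
  have h1 : ∀ y : Fin r → ℂ, ((∑ i, ‖y i‖ ^ 2 : ℝ) : ℂ) = star y ⬝ᵥ y := by
    intro y
    rw [Complex.ofReal_sum]
    simp only [dim_norm_sq, dotProduct, Pi.star_apply]
    rfl
  have h2 : ((∑ i, ‖(V.1 *ᵥ x) i‖ ^ 2 : ℝ) : ℂ) = ((∑ i, ‖x i‖ ^ 2 : ℝ) : ℂ) := by
    rw [h1, h1, Matrix.star_mulVec, Matrix.dotProduct_mulVec, Matrix.vecMul_vecMul]
    have h3 : V.1ᴴ * V.1 = 1 := by
      have := Matrix.mem_unitaryGroup_iff'.1 V.2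
      exact this
    rw [h3, Matrix.vecMul_one]
  exact_mod_cast h2

theorem dim_chi {G : Type} [Group G] {H : Subgroup G} (u : TT H) (h : H) : ‖chi u h‖ = 1 := by
  unfold chi
  have : (2 * Real.pi * Complex.I * (u (Additive.ofMul h) : ℝ) : ℂ) =
      ((2 * Real.pi * u (Additive.ofMul h) : ℝ) : ℂ) * Complex.I := by
    push_cast
    ring
  rw [this, Complex.norm_exp_ofReal_mul_I]

theorem dim_ext0 {E : Type} [Zero E] (f : DD → E) (z : DD) : ext0 f z.1 = f z := by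
  unfold ext0
  rw [dif_pos z.2]

theorem dim_inv {G : Type} [Group G] {r : ℕ} {Φ : G →* SU11}
    {V : G →* Matrix.unitaryGroup (Fin r) ℂ} {H : Subgroup G} {u : TT H}
    {f : DD → Fin r → ℂ} (hf : f ∈ SS Φ V H u) (h : H) (z : DD) :
    (∑ i, ‖ext0 f (Φ h • z).1 i‖ ^ 2) * (1 - ‖(Φ h • z).1‖ ^ 2) =
      (∑ i, ‖ext0 f z.1 i‖ ^ 2) * (1 - ‖z.1‖ ^ 2) := by
  rw [dim_ext0, dim_ext0, hf.2 h z, one_sub_normSq]
  have h1 : ∀ i, ‖((chi u h * J (Φ h) z.1) • ((V h).1 *ᵥ f z)) i‖ ^ 2 =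
      ‖J (Φ h) z.1‖ ^ 2 * ‖((V h).1 *ᵥ f z) i‖ ^ 2 := by
    intro i
    rw [Pi.smul_apply, smul_eq_mul, norm_mul, norm_mul, dim_chi]
    ring
  simp only [h1]
  rw [← Finset.mul_sum, dim_unitary]
  have h2 : ‖J (Φ h) z.1‖ ≠ 0 := norm_ne_zero_iff.2 (J_ne_zero (Φ h) z.2)
  field_simp

theorem dim_meas {r : ℕ} {f : DD → Fin r → ℂ} (hf : Hol f) : Measurable (ext0 f) := by
  classical
  have h1 : ext0 f = (Metric.ball (0 : ℂ) 1).piecewise (ext0 f) (fun _ => 0) := by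
    funext z
    by_cases hz : z ∈ Metric.ball (0 : ℂ) 1
    · rw [Set.piecewise_eq_of_mem _ _ _ hz]
    · rw [Set.piecewise_eq_of_notMem _ _ _ hz]
      unfold ext0
      rw [dif_neg]
      simpa using hz
  rw [h1]
  exact (DifferentiableOn.continuousOn hf).measurable_piecewise continuousOn_const
    measurableSet_ball

/-! ### The pointwise bound -/

/-- the density of a form -/
def dimφ {r : ℕ} (f : DD → Fin r → ℂ) (w : ℂ) : ℝ := (∑ i, ‖ext0 f w i‖ ^ 2) * (1 - ‖w‖ ^ 2)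

theorem dimφ_nonneg {r : ℕ} (f : DD → Fin r → ℂ) (w : ℂ) : 0 ≤ dimφ f w := by
  unfold dimφ
  by_cases hw : ‖w‖ < 1
  · have : 0 ≤ 1 - ‖w‖ ^ 2 := by nlinarith [norm_nonneg w]
    exact mul_nonneg (Finset.sum_nonneg fun i _ => by positivity) this
  · have : ∀ i, ext0 f w i = 0 := by
      intro i
      unfold ext0
      rw [dif_neg hw]
      rfl
    simp [this]

theorem dimφ_coord {r : ℕ} (f : DD → Fin r → ℂ) (w : ℂ) (i : Fin r) :
    ‖ext0 f w i‖ ^ 2 * (1 - ‖w‖ ^ 2) ≤ dimφ f w := by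
  unfold dimφ
  by_cases hw : ‖w‖ < 1
  · have : 0 ≤ 1 - ‖w‖ ^ 2 := by nlinarith [norm_nonneg w]
    refine mul_le_mul_of_nonneg_right ?_ this
    exact Finset.single_le_sum (f := fun i => ‖ext0 f w i‖ ^ 2) (fun i _ => by positivity)
      (Finset.mem_univ i)
  · have : ∀ i, ext0 f w i = 0 := by
      intro i
      unfold ext0
      rw [dif_neg hw]
      rfl
    simp [this]

theorem dimφ_meas {r : ℕ} {f : DD → Fin r → ℂ} (hf : Hol f) : Measurable (dimφ f) := by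
  have h1 := dim_meas hf
  have h2 : ∀ i, Measurable fun w => ext0 f w i := fun i => (measurable_pi_apply i).comp h1
  unfold dimφ
  refine Measurable.mul ?_ (by fun_prop)
  exact Finset.measurable_sum _ fun i _ => ((h2 i).norm).pow_const 2

theorem dim_point {G : Type} [Group G] [Countable G] {r : ℕ} {Φ : G →* SU11}
    {V : G →* Matrix.unitaryGroup (Fin r) ℂ} {t : ℝ} (hC : Cocpt Φ ⊤ t) (ρ' : ℝ) (h0 : 0 < ρ')
    (h1 : ρ' < 1) {H : Subgroup G} [H.FiniteIndex]
    (hsep : ∀ h ∈ H, h ≠ 1 → ∀ z : DD,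
      Real.sqrt (1 - (1 - ρ' ^ 2) ^ 2 / 4) ≤ pd z (Φ h • z)) {u : TT H}
    {f : DD → Fin r → ℂ} (hf : f ∈ SS Φ V H u) (z₀ : DD) (i : Fin r) :
    ENNReal.ofReal (‖f z₀ i‖ ^ 2 * (1 - ‖z₀.1‖ ^ 2) *
      (Real.pi * Real.log (1 / (1 - ρ' ^ 2)))) ≤
      ∑' q : G ⧸ H, ∫⁻ z in Metric.closedBall 0 t,
        ENNReal.ofReal (dimφ f (Nm (Φ (q.out)⁻¹) z / J (Φ (q.out)⁻¹) z)) ∂muD := by
  have hdiff : DifferentiableOn ℂ (fun z => ext0 f z i) (Metric.ball 0 1) := by
    have := hf.1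
    unfold Hol at this
    rw [differentiableOn_pi] at this
    exact this i
  have h2 := mean_value_at ρ' h0 h1 z₀ (fun z => ext0 f z i) hdiff
  simp only [dim_ext0] at h2
  refine h2.trans ?_
  set B : Set ℂ := {z : ℂ | ‖(z - z₀.1) / (1 - conj z₀.1 * z)‖ < ρ'} with hB
  have hBm : MeasurableSet B := by
    apply measurableSet_lt _ measurable_const
    fun_prop
  have h3 : ∫⁻ z in B, ENNReal.ofReal (‖ext0 f z i‖ ^ 2 * (1 - ‖z‖ ^ 2)) ∂muD ≤
      ∫⁻ z in B, ENNReal.ofReal (dimφ f z) ∂muD := by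
    refine lintegral_mono fun z => ENNReal.ofReal_le_ofReal (dimφ_coord f z i)
  refine h3.trans ?_
  refine lintegral_unfold Φ t hC H B hBm ?_ (fun z => ENNReal.ofReal (dimφ f z))
    (ENNReal.measurable_ofReal.comp (dimφ_meas hf.1)) ?_
  · intro z hz h hh hh1 hz'
    have e1 : ∀ w : DD, w.1 ∈ B → pd z₀ w < ρ' := by
      intro w hw
      have hw' : ‖(w.1 - z₀.1) / (1 - conj z₀.1 * w.1)‖ < ρ' := hw
      unfold pd
      rwa [norm_div, norm_sub_rev, ← norm_div]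
    have e2 := dim_pd_lt ρ' h1 z₀ z (Φ h • z) (e1 z hz) (e1 _ hz')
    exact absurd (hsep h hh hh1 z) (not_le.2 e2)
  · intro h hh z
    have := dim_inv hf ⟨h, hh⟩ z
    unfold dimφ
    rw [this]

theorem dim_bound {G : Type} [Group G] [Countable G] (r : ℕ) (Φ : G →* SU11) (t : ℝ)
    (hC : Cocpt Φ ⊤ t) :
    ∃ ρ : ℝ, ρ < 1 ∧ ∀ (V : G →* Matrix.unitaryGroup (Fin r) ℂ) (H : Subgroup G), H.FiniteIndex →
      (∀ h ∈ H, h ≠ 1 → ∀ z : DD, ρ ≤ pd z (Φ h • z)) → ∀ (u : TT H) (k : ℕ)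
      (F : Fin k → (DD → Fin r → ℂ)), (∀ i, F i ∈ SS Φ V H u) → LinearIndependent ℂ F →
      k < H.index := by
  classical
  -- constants
  set ν : Measure ℂ := muD.restrict (Metric.closedBall 0 t) with hν
  have hνfin : IsFiniteMeasure ν := ⟨by
    rw [hν, Measure.restrict_apply_univ]
    exact dim_mu_fin t hC.1⟩
  set m : ℝ := ν.real Set.univ with hm
  have hm0 : 0 ≤ m := measureReal_nonneg
  set M : ℝ := r * m + 1 with hM
  have hM0 : 0 < M := by positivity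
  set ρ' : ℝ := Real.sqrt (1 - Real.exp (-M)) with hρ'
  have hexp : Real.exp (-M) < 1 := Real.exp_lt_one_iff.2 (by linarith)
  have hexp0 := Real.exp_pos (-M)
  have hρ'0 : 0 < ρ' := Real.sqrt_pos.2 (by linarith)
  have hρ'1 : ρ' < 1 := by
    rw [hρ', Real.sqrt_lt' one_pos]
    linarith
  have hρ'sq : 1 - ρ' ^ 2 = Real.exp (-M) := by
    rw [hρ', Real.sq_sqrt (by linarith)]
    ring
  have hlog : Real.pi * Real.log (1 / (1 - ρ' ^ 2)) = Real.pi * M := by
    rw [hρ'sq, one_div, ← Real.exp_neg, neg_neg, Real.log_exp]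
  refine ⟨Real.sqrt (1 - (1 - ρ' ^ 2) ^ 2 / 4), ?_, ?_⟩
  · rw [Real.sqrt_lt' one_pos, hρ'sq]
    have : 0 < Real.exp (-M) ^ 2 := by positivity
    linarith
  intro V H hH hsep u k F hF hLI
  have hfinq : Fintype (G ⧸ H) := Fintype.ofFinite _
  -- the functions
  let Mz : G ⧸ H → ℂ → ℂ := fun q z => Nm (Φ (q.out)⁻¹) z / J (Φ (q.out)⁻¹) z
  let ψ : (G ⧸ H) × Fin r → Fin k → ℂ → ℂ := fun a j z =>
    ext0 (F j) (Mz a.1 z) a.2 * (Real.sqrt (1 - ‖Mz a.1 z‖ ^ 2) : ℝ)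
  have hball : ∀ z ∈ Metric.closedBall (0 : ℂ) t, ‖z‖ < 1 := by
    intro z hz
    have : ‖z‖ ≤ t := by simpa using hz
    exact lt_of_le_of_lt this hC.1
  have hMz : ∀ (q : G ⧸ H) (z : ℂ) (hz : ‖z‖ < 1), Mz q z = (Φ (q.out)⁻¹ • (⟨z, hz⟩ : DD)).1 :=
    fun q z hz => rfl
  have hMz1 : ∀ (q : G ⧸ H) (z : ℂ), ‖z‖ < 1 → ‖Mz q z‖ < 1 := by
    intro q z hz
    rw [hMz q z hz]
    exact (Φ (q.out)⁻¹ • (⟨z, hz⟩ : DD)).2
  have hMzc : ∀ q, ContinuousOn (Mz q) (Metric.closedBall 0 t) := by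
    intro q
    apply ContinuousOn.div
    · unfold Nm; fun_prop
    · unfold J; fun_prop
    · intro z hz
      exact J_ne_zero _ (hball z hz)
  have hψc : ∀ a j, ContinuousOn (ψ a j) (Metric.closedBall 0 t) := by
    intro a j
    have h1 : ContinuousOn (fun w => ext0 (F j) w a.2) (Metric.ball 0 1) := by
      have h2 := DifferentiableOn.continuousOn (hF j).1
      rw [continuousOn_pi] at h2
      exact h2 a.2
    have h3 : Set.MapsTo (Mz a.1) (Metric.closedBall 0 t) (Metric.ball 0 1) := by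
      intro z hz
      simpa using hMz1 a.1 z (hball z hz)
    refine (h1.comp (hMzc a.1) h3).mul ?_
    have h4 : Continuous fun w : ℂ => ((Real.sqrt (1 - ‖w‖ ^ 2) : ℝ) : ℂ) := by fun_prop
    exact h4.comp_continuousOn (hMzc a.1)
  have hcomp : IsCompact (Metric.closedBall (0 : ℂ) t) := isCompact_closedBall _ _
  have hint0 : ∀ g : ℂ → ℂ, ContinuousOn g (Metric.closedBall 0 t) → Integrable g ν := by
    intro g hg
    obtain ⟨b, hb⟩ := hcomp.exists_bound_of_continuousOn hg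
    refine Integrable.of_bound
      (hg.aestronglyMeasurable Metric.isClosed_closedBall.measurableSet) b ?_
    rw [hν, ae_restrict_iff' Metric.isClosed_closedBall.measurableSet]
    exact Filter.Eventually.of_forall hb
  have hint : ∀ a j l, Integrable (fun z => conj (ψ a j z) * ψ a l z) ν := by
    intro a j l
    exact hint0 _ ((Complex.continuous_conj.comp_continuousOn (hψc a j)).mul (hψc a l))
  -- the combinations
  let fc : (Fin k → ℂ) → DD → Fin r → ℂ := fun c => ∑ j, c j • F j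
  have hfc : ∀ c, fc c ∈ SS Φ V H u := fun c =>
    Submodule.sum_mem _ fun j _ => Submodule.smul_mem _ _ (hF j)
  have hfce : ∀ c (w : ℂ) i, ext0 (fc c) w i = ∑ j, c j * ext0 (F j) w i := by
    intro c w i
    unfold ext0
    by_cases hw : ‖w‖ < 1
    · simp only [dif_pos hw, fc, Finset.sum_apply, Pi.smul_apply, smul_eq_mul]
    · simp [dif_neg hw]
  have hψsum : ∀ c a z, ‖z‖ < 1 → ‖∑ j, c j * ψ a j z‖ ^ 2 =
      ‖ext0 (fc c) (Mz a.1 z) a.2‖ ^ 2 * (1 - ‖Mz a.1 z‖ ^ 2) := by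
    intro c a z hz
    have h1 : ∑ j, c j * ψ a j z = ext0 (fc c) (Mz a.1 z) a.2 *
        (Real.sqrt (1 - ‖Mz a.1 z‖ ^ 2) : ℝ) := by
      rw [hfce, Finset.sum_mul]
      refine Finset.sum_congr rfl fun j _ => ?_
      simp only [ψ]
      ring
    have h2 : 0 ≤ 1 - ‖Mz a.1 z‖ ^ 2 := by
      have := hMz1 a.1 z hz
      nlinarith [norm_nonneg (Mz a.1 z)]
    rw [h1, norm_mul, mul_pow, Complex.norm_real, Real.norm_of_nonneg (Real.sqrt_nonneg _),
      Real.sq_sqrt h2]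
  have haez : ∀ᵐ z ∂ν, ‖z‖ < 1 := by
    rw [hν, ae_restrict_iff' Metric.isClosed_closedBall.measurableSet]
    exact Filter.Eventually.of_forall hball
  -- the quadratic form
  let S : (Fin k → ℂ) → ℝ := fun c => ∑ a, ∫ z, ‖∑ j, c j * ψ a j z‖ ^ 2 ∂ν
  have hS0 : ∀ c, 0 ≤ S c := fun c =>
    Finset.sum_nonneg fun a _ => integral_nonneg fun z => by positivity
  have hS : ∀ c, ENNReal.ofReal (S c) = ∑' q : G ⧸ H, ∫⁻ z in Metric.closedBall 0 t,
      ENNReal.ofReal (dimφ (fc c) (Nm (Φ (q.out)⁻¹) z / J (Φ (q.out)⁻¹) z)) ∂muD := by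
    intro c
    have hcs : ∀ a, ContinuousOn (fun z => ∑ j, c j * ψ a j z) (Metric.closedBall 0 t) := by
      intro a
      exact continuousOn_finsetSum _ fun j _ => continuousOn_const.mul (hψc a j)
    have hi : ∀ a, Integrable (fun z => ‖∑ j, c j * ψ a j z‖ ^ 2) ν := by
      intro a
      have h1 := hint0 _ ((Complex.continuous_conj.comp_continuousOn (hcs a)).mul (hcs a))
      have h2 := h1.re
      refine h2.congr (Filter.Eventually.of_forall fun z => ?_)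
      change RCLike.re (conj (∑ j, c j * ψ a j z) * (∑ j, c j * ψ a j z)) = _
      rw [← dim_norm_sq]
      exact Complex.ofReal_re _
    rw [tsum_fintype]
    change ENNReal.ofReal (∑ a, ∫ z, ‖∑ j, c j * ψ a j z‖ ^ 2 ∂ν) = _
    rw [ENNReal.ofReal_sum_of_nonneg fun a _ => integral_nonneg fun z => by positivity,
      Fintype.sum_prod_type]
    refine Finset.sum_congr rfl fun q _ => ?_
    have h3 : ∀ i : Fin r, ENNReal.ofReal (∫ z, ‖∑ j, c j * ψ (q, i) j z‖ ^ 2 ∂ν) =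
        ∫⁻ z, ENNReal.ofReal (‖∑ j, c j * ψ (q, i) j z‖ ^ 2) ∂ν := fun i =>
      ofReal_integral_eq_lintegral_ofReal (hi (q, i))
        (Filter.Eventually.of_forall fun z => by positivity)
    simp only [h3]
    rw [← lintegral_finsetSum' _ fun i _ => (hi (q, i)).aemeasurable.ennreal_ofReal]
    refine lintegral_congr_ae ?_
    filter_upwards [haez] with z hz
    rw [← ENNReal.ofReal_sum_of_nonneg fun i _ => by positivity]
    congr 1
    unfold dimφ
    rw [Finset.sum_mul]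
    exact Finset.sum_congr rfl fun i _ => hψsum c (q, i) z hz
  have hpt : ∀ c (z₀ : DD) (i : Fin r), ‖fc c z₀ i‖ ^ 2 * (1 - ‖z₀.1‖ ^ 2) * (Real.pi * M) ≤
      S c := by
    intro c z₀ i
    have h1 := dim_point hC ρ' hρ'0 hρ'1 hsep (hfc c) z₀ i
    rw [hlog, ← hS c] at h1
    exact (ENNReal.ofReal_le_ofReal_iff (hS0 c)).1 h1
  have hπM : 0 < Real.pi * M := by positivity
  -- apply the lemma
  have hkey := dim_gram ν ψ hint (1 / (Real.pi * M)) (by positivity) (by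
    filter_upwards [haez] with z hz c a
    rw [hψsum c a z hz, hMz a.1 z hz, dim_ext0]
    have h1 := hpt c (Φ (a.1.out)⁻¹ • (⟨z, hz⟩ : DD)) a.2
    rw [one_div, inv_mul_eq_div, le_div_iff₀ hπM]
    exact h1) (by
    intro c hc
    have hSc : S c = 0 := hc
    have h1 : ∀ z₀ i, fc c z₀ i = 0 := by
      intro z₀ i
      have h2 := hpt c z₀ i
      rw [hSc] at h2
      have h3 : 0 < 1 - ‖z₀.1‖ ^ 2 := by nlinarith [z₀.2, norm_nonneg z₀.1]
      have h4 : ‖fc c z₀ i‖ ^ 2 ≤ 0 := by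
        by_contra hlt
        push Not at hlt
        have : 0 < ‖fc c z₀ i‖ ^ 2 * (1 - ‖z₀.1‖ ^ 2) * (Real.pi * M) := by positivity
        linarith
      have h5 : ‖fc c z₀ i‖ = 0 := by
        nlinarith [norm_nonneg (fc c z₀ i)]
      exact norm_eq_zero.1 h5
    have h2 : ∑ j, c j • F j = 0 := by
      funext z i
      exact h1 z i
    funext j
    exact Fintype.linearIndependent_iff.1 hLI c h2 j)
  rw [← hm] at hkey
  -- conclusion
  have hcard : (Fintype.card ((G ⧸ H) × Fin r) : ℝ) = H.index * r := by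
    rw [Fintype.card_prod, Fintype.card_fin, Subgroup.index, Nat.card_eq_fintype_card]
    push_cast
    rfl
  rw [hcard] at hkey
  have hidx : 0 < (H.index : ℝ) := by
    have := hH.index_ne_zero
    positivity
  have hlt : (r : ℝ) * (1 / (Real.pi * M) * m) < 1 := by
    have h1 : (r : ℝ) * (1 / (Real.pi * M) * m) = (r * m) / (Real.pi * M) := by
      field_simp
    rw [h1, div_lt_one hπM]
    have h2 : 1 < Real.pi := by linarith [Real.pi_gt_three]
    have h3 : (r : ℝ) * m < M := by rw [hM]; linarith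
    nlinarith
  have : (k : ℝ) < H.index := by
    calc (k : ℝ) ≤ H.index * r * (1 / (Real.pi * M) * m) := hkey
      _ = H.index * (r * (1 / (Real.pi * M) * m)) := by ring
      _ < H.index * 1 := by
        exact mul_lt_mul_of_pos_left hlt hidx
      _ = H.index := mul_one _
  exact_mod_cast this

end RQ
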