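import Pool.Agent.Helper44.RQ.Defs

/-! Module `Dvr` of MP_27ef80_ag -/

set_option autoImplicit false
open scoped ComplexConjugate Matrix TensorProduct
open MeasureTheory

noncomputable section

namespace RQ

theorem div_dvr {G O F L : Type} [Group G] [CommRing O] [IsDomain O] [IsPrincipalIdealRing O]
    [Field F] [Field L] [Algebra O L] [IsFractionRing O L] (π : O →+* F)
    (hπ : Function.Surjective π) (σO : G →* (O →+* O)) (σL : G →* (L →+* L))
    (σF : G →* (F →+* F)) (hL : ∀ g x, σL g (algebraMap O L x) = algebraMap O L (σO g x))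
    (hF : ∀ g x, π (σO g x) = σF g (π x)) (H : Subgroup G) [H.FiniteIndex]
    (hH : ∀ h ∈ H, ∀ k, σF h k = k) (E : G → O) (hE : ∀ h ∈ H, IsUnit (E h)) (N : ℕ)
    (hdiv : Div σF H (fun g => π (E g)) N) : Div σL H (fun g => algebraMap O L (E g)) N := by
  intro U _ _ _ T
  letI : Module O U := Module.compHom U (algebraMap O L)
  have hsm : ∀ (x : O) (u : U), x • u = algebraMap O L x • u := fun _ _ => rfl
  haveI : IsScalarTower O L U := ⟨fun x y u => by
    rw [hsm, Algebra.smul_def, mul_smul]⟩
  have hinj : Function.Injective (algebraMap O L) := IsFractionRing.injective O L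
  have hTO : ∀ (g : G) (x : O) (u : U), T.T g (x • u) = σO g x • T.T g u := fun g x u => by
    rw [hsm, T.T_smul, hL, hsm]
  let b := Module.finBasis L U
  haveI : Finite (G ⧸ H) := inferInstance
  let v : (G ⧸ H) × Fin (Module.finrank L U) → U := fun p => T.T p.1.out (b p.2)
  let M : Submodule O U := Submodule.span O (Set.range v)
  have hMfin : Module.Finite O M := Module.Finite.span_of_finite O (Set.finite_range v)
  -- stability
  have hgen : ∀ (g : G) (i : Fin (Module.finrank L U)), T.T g (b i) ∈ M := by
    intro g i
    obtain ⟨h, hh⟩ := QuotientGroup.mk_out_eq_mul H g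
    have h1 : g = (QuotientGroup.mk g : G ⧸ H).out * (h⁻¹ : H) := by
      rw [hh]
      simp
    have h2 : T.T g (b i) = σO (QuotientGroup.mk g : G ⧸ H).out (E ((h⁻¹ : H) : G)) •
        v (QuotientGroup.mk g, i) := by
      conv_lhs => rw [h1]
      rw [T.T_mul, T.T_scal _ (h⁻¹).2, ← hsm, hTO]
    rw [h2]
    exact M.smul_mem _ (Submodule.subset_span ⟨_, rfl⟩)
  have hstab : ∀ (g : G) (u : U), u ∈ M → T.T g u ∈ M := by
    intro g u hu
    induction hu using Submodule.span_induction with
    | mem x hx =>
      obtain ⟨p, rfl⟩ := hx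
      change T.T g (T.T _ _) ∈ M
      rw [← T.T_mul]
      exact hgen _ _
    | zero => rw [map_zero]; exact M.zero_mem
    | add x y _ _ hx hy => rw [map_add]; exact M.add_mem hx hy
    | smul a x _ hx => rw [hTO]; exact M.smul_mem _ hx
  -- the twisted module over `O`
  let TM : TwMod σO H E M :=
    { T := fun g =>
        { toFun := fun u => ⟨T.T g u.1, hstab g u.1 u.2⟩
          map_zero' := Subtype.ext (map_zero _)
          map_add' := fun x y => Subtype.ext (map_add _ _ _) }
      T_one := fun u => Subtype.ext (T.T_one u.1)
      T_mul := fun g g' u => Subtype.ext (T.T_mul g g' u.1)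
      T_smul := fun g k u => Subtype.ext (hTO g k u.1)
      T_scal := fun h hh u => Subtype.ext (T.T_scal h hh u.1) }
  -- freeness and rank
  haveI : FaithfulSMul O L := (faithfulSMul_iff_algebraMap_injective O L).2 hinj
  haveI : Module.IsTorsionFree O U := Module.IsTorsionFree.trans_faithfulSMul O L U
  haveI : Module.Free O M := inferInstance
  let c := Module.Free.chooseBasis O M
  have hrank : Module.finrank O M = Module.finrank L U := by
    have hli : LinearIndependent L (fun i => (c i : U)) := by
      have h1 : LinearIndependent O (fun i => (c i : U)) :=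
        c.linearIndependent.map' M.subtype (LinearMap.ker_eq_bot.2 Subtype.val_injective)
      exact LinearIndependent.localization L (nonZeroDivisors O) h1
    have hsp : ⊤ ≤ Submodule.span L (Set.range fun i => (c i : U)) := by
      have h2 : ∀ u : U, u ∈ M → u ∈ Submodule.span L (Set.range fun i => (c i : U)) := by
        intro u hu
        have h3 := c.sum_repr ⟨u, hu⟩
        have h4 : u = ∑ i, c.repr ⟨u, hu⟩ i • (c i : U) := by
          have h5 := congrArg M.subtype h3
          rw [map_sum] at h5
          exact h5.symm
        rw [h4]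
        refine Submodule.sum_mem _ fun i _ => ?_
        rw [hsm]
        exact Submodule.smul_mem _ _ (Submodule.subset_span ⟨i, rfl⟩)
      rw [← b.span_eq, Submodule.span_le]
      rintro _ ⟨i, rfl⟩
      refine h2 _ ?_
      have := hgen 1 i
      rwa [T.T_one] at this
    rw [Module.finrank_eq_card_basis c, Module.finrank_eq_card_basis (Module.Basis.mk hli hsp)]
  letI : Algebra O F := π.toAlgebra
  have hfin := hdiv (F ⊗[O] M) (TM.baseChange σF (fun g k => (hF g k).symm) hH)
  rwa [Module.finrank_baseChange, hrank] at hfin

end RQ
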