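import Pool.Agent.Helper44.RQ.Defs

/-! Module `Glue` of MP_27ef80_ag -/

set_option autoImplicit false
open scoped ComplexConjugate Matrix TensorProduct
open MeasureTheory

noncomputable section

namespace RQ

theorem glue_chi_mul {G : Type} [Group G] {H : Subgroup G} (u : TT H) (a b : H) :
    chi u (a * b) = chi u a * chi u b := by
  unfold chi
  rw [← Complex.exp_add, ofMul_mul, map_add]
  congr 1
  push_cast
  ring

theorem glue_chi_one {G : Type} [Group G] {H : Subgroup G} (u : TT H) : chi u 1 = 1 := by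
  unfold chi
  rw [ofMul_one, map_zero]
  simp

/-- the automorphy factor applied to a value -/
def glueVal {G : Type} [Group G] {r : ℕ} (Φ : G →* SU11)
    (V : G →* Matrix.unitaryGroup (Fin r) ℂ) {H : Subgroup G} (u : TT H) (f : ℂ → Fin r → ℂ)
    (k : H) (w : DD) : Fin r → ℂ := (chi u k * J (Φ k) w.1) • ((V k).1 *ᵥ f w.1)

theorem glue_mul {G : Type} [Group G] {r : ℕ} (Φ : G →* SU11)
    (V : G →* Matrix.unitaryGroup (Fin r) ℂ) {H : Subgroup G} (u : TT H) (x : Fin r → ℂ)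
    (a b : H) (w : DD) :
    (chi u (a * b) * J (Φ ((a * b : H) : G)) w.1) • ((V ((a * b : H) : G)).1 *ᵥ x) =
      (chi u a * J (Φ a) (Φ b • w).1) • ((V a).1 *ᵥ ((chi u b * J (Φ b) w.1) • ((V b).1 *ᵥ x))) := by
  rw [Subgroup.coe_mul, map_mul, map_mul, J_smul, glue_chi_mul, Matrix.mulVec_smul, smul_smul,
    Matrix.mulVec_mulVec]
  congr 1
  ring

/-- the value does not depend on the choices -/
theorem glue_indep {G : Type} [Group G] {r : ℕ} (Φ : G →* SU11)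
    (V : G →* Matrix.unitaryGroup (Fin r) ℂ) (H : Subgroup G) (t' t : ℝ)
    (u : TT H) (f : ℂ → Fin r → ℂ)
    (hcomp : ∀ (h : H) (w : DD), ‖w.1‖ ≤ t' → ‖(Φ h • w).1‖ < t →
      f (Φ h • w).1 = (chi u h * J (Φ h) w.1) • ((V h).1 *ᵥ f w.1))
    (k₁ k₂ : H) (w₁ w₂ : DD) (h₁ : ‖w₁.1‖ ≤ t') (h₂ : ‖w₂.1‖ < t)
    (h : Φ k₁ • w₁ = Φ k₂ • w₂) : glueVal Φ V u f k₁ w₁ = glueVal Φ V u f k₂ w₂ := by
  have hw : w₂ = Φ ((k₂⁻¹ * k₁ : H) : G) • w₁ := by
    rw [Subgroup.coe_mul, map_mul, mul_smul, h, Subgroup.coe_inv, map_inv, inv_smul_smul]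
  have hf := hcomp (k₂⁻¹ * k₁) w₁ h₁ (by rw [← hw]; exact h₂)
  rw [← hw] at hf
  have e1 : k₁ = k₂ * (k₂⁻¹ * k₁) := by group
  unfold glueVal
  rw [hf]
  conv_lhs => rw [e1]
  rw [glue_mul, ← hw]

theorem glue {G : Type} [Group G] {r : ℕ} (Φ : G →* SU11)
    (V : G →* Matrix.unitaryGroup (Fin r) ℂ) (H : Subgroup G) (t' t : ℝ) (htt : t' < t)
    (ht : t < 1) (hC : Cocpt Φ H t') (u : TT H) (f : ℂ → Fin r → ℂ)
    (hf : DifferentiableOn ℂ f (Metric.ball 0 t))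
    (hcomp : ∀ (h : H) (w : DD), ‖w.1‖ ≤ t' → ‖(Φ h • w).1‖ < t →
      f (Φ h • w).1 = (chi u h * J (Φ h) w.1) • ((V h).1 *ᵥ f w.1)) :
    ∃ F ∈ SS Φ V H u, ∀ z : DD, ‖z.1‖ < t → F z = f z.1 := by
  have hch : ∀ z : DD, ∃ k : H, ‖(Φ ((k⁻¹ : H) : G) • z).1‖ ≤ t' := by
    intro z
    obtain ⟨h, hh, hz⟩ := hC.2 z
    refine ⟨⟨h, hh⟩⁻¹, ?_⟩
    rw [inv_inv]
    exact hz
  choose κ hκ using hch
  have hκz : ∀ z : DD, Φ (κ z : G) • (Φ (((κ z)⁻¹ : H) : G) • z) = z := by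
    intro z
    rw [Subgroup.coe_inv, map_inv, smul_inv_smul]
  set F : DD → Fin r → ℂ := fun z => glueVal Φ V u f (κ z) (Φ (((κ z)⁻¹ : H) : G) • z) with hF
  have hFval : ∀ (z : DD) (k : H) (w : DD), ‖w.1‖ < t → Φ k • w = z → F z = glueVal Φ V u f k w := by
    intro z k w hw hz
    exact glue_indep Φ V H t' t u f hcomp _ _ _ _ (hκ z) hw (by rw [hκz, hz])
  refine ⟨F, ⟨?_, ?_⟩, ?_⟩
  · -- holomorphy
    intro z₀ hz₀
    have hz₀' : ‖z₀‖ < 1 := by simpa using hz₀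
    apply DifferentiableAt.differentiableWithinAt
    set k : H := κ ⟨z₀, hz₀'⟩ with hk
    set g : SU11 := Φ ((k⁻¹ : H) : G) with hg
    set μ : ℂ → ℂ := fun z => Nm g z / J g z with hμ
    have hJ0 : J g z₀ ≠ 0 := J_ne_zero g hz₀'
    have dN : DifferentiableAt ℂ (fun z => Nm g z) z₀ := by
      unfold Nm
      fun_prop
    have dJ : ∀ (g' : SU11) (z : ℂ), DifferentiableAt ℂ (fun z => J g' z) z := by
      intro g' z
      unfold J
      fun_prop
    have dμ : DifferentiableAt ℂ μ z₀ := dN.div (dJ g z₀) hJ0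
    have hμ0 : ‖μ z₀‖ < t := by
      have := hκ ⟨z₀, hz₀'⟩
      rw [smul_val] at this
      exact lt_of_le_of_lt this htt
    have hfμ : DifferentiableAt ℂ (fun z => f (μ z)) z₀ := by
      have h1 : DifferentiableAt ℂ f (μ z₀) :=
        (hf (μ z₀) (by simpa using hμ0)).differentiableAt
          (Metric.isOpen_ball.mem_nhds (by simpa using hμ0))
      exact h1.comp z₀ dμ
    have hmv : DifferentiableAt ℂ (fun z => (V (k : G)).1 *ᵥ f (μ z)) z₀ := by
      have h2 := (LinearMap.toContinuousLinearMap (Matrix.mulVecLin (V (k : G)).1)).differentiableAt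
        (x := f (μ z₀))
      have h3 := h2.comp z₀ hfμ
      exact h3
    have hJμ : DifferentiableAt ℂ (fun z => J (Φ (k : G)) (μ z)) z₀ :=
      (dJ (Φ (k : G)) (μ z₀)).comp z₀ dμ
    have hall : DifferentiableAt ℂ
        (fun z => (chi u k * J (Φ (k : G)) (μ z)) • ((V (k : G)).1 *ᵥ f (μ z))) z₀ :=
      (hJμ.const_mul (chi u k)).smul hmv
    refine hall.congr_of_eventuallyEq ?_
    have o1 : ∀ᶠ z in nhds z₀, ‖z‖ < 1 :=
      (isOpen_lt continuous_norm continuous_const).mem_nhds hz₀'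
    have o2 : ∀ᶠ z in nhds z₀, ‖μ z‖ < t :=
      dμ.continuousAt.norm.eventually_lt continuousAt_const hμ0
    filter_upwards [o1, o2] with z hz1 hz2
    have e1 : ext0 F z = F ⟨z, hz1⟩ := by
      unfold ext0
      rw [dif_pos hz1]
    rw [e1]
    have e2 : (Φ ((k⁻¹ : H) : G) • (⟨z, hz1⟩ : DD)).1 = μ z := by rw [smul_val]
    rw [hFval ⟨z, hz1⟩ k (Φ ((k⁻¹ : H) : G) • (⟨z, hz1⟩ : DD)) (by rw [e2]; exact hz2)
      (by rw [Subgroup.coe_inv, map_inv, smul_inv_smul])]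
    unfold glueVal
    rw [e2]
  · -- automorphy
    intro h z
    have h1 : F (Φ h • z) = glueVal Φ V u f (h * κ z) (Φ (((κ z)⁻¹ : H) : G) • z) := by
      apply hFval
      · exact lt_of_le_of_lt (hκ z) htt
      · rw [Subgroup.coe_mul, map_mul, mul_smul, hκz]
    rw [h1]
    unfold glueVal
    rw [glue_mul, hκz]
    rfl
  · intro z hz
    rw [hFval z 1 z hz (by simp)]
    unfold glueVal
    rw [glue_chi_one]
    simp [J_one]

end RQ
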