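import Pool.Agent.Helper44.RQ.Neu1

/-! Module `Neu2` of MP_27ef80_ag -/

set_option autoImplicit false
open scoped ComplexConjugate Matrix TensorProduct
open MeasureTheory

noncomputable section

namespace RQ

section neu2

variable {G : Type} [Group G] {H : Subgroup G}

theorem neu2_norm_chi (u : TT H) (h : H) : ‖chi u h‖ = 1 := by
  unfold chi
  have h1 : (2 * Real.pi * Complex.I * (u (Additive.ofMul h) : ℝ) : ℂ) =
      ((2 * Real.pi * u (Additive.ofMul h) : ℝ) : ℂ) * Complex.I := by
    push_cast
    ring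
  rw [h1, Complex.norm_exp_ofReal_mul_I]

theorem neu2_chi_per (u l : TT H) (hl : l ∈ Lam H (H : Set G)) (h : H) :
    chi (u + l) h = chi u h := by
  obtain ⟨m, hm⟩ := hl h h.2
  unfold chi
  rw [AddMonoidHom.add_apply, hm]
  apply Complex.exp_eq_exp_iff_exists_int.mpr
  exact ⟨m, by push_cast; ring⟩

theorem neu2_chi_an (h : H) (n : ℕ) (L : (Fin n → ℝ) →ₗ[ℝ] TT H) :
    AnalyticOnNhd ℝ (fun y => chi (L y) h) Set.univ := by
  have hexp : AnalyticOnNhd ℝ Complex.exp Set.univ := fun z _ =>
    (analyticAt_cexp (z := z)).restrictScalars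
  let ev : TT H →ₗ[ℝ] ℝ :=
    { toFun := fun u => u (Additive.ofMul h)
      map_add' := fun _ _ => rfl
      map_smul' := fun _ _ => rfl }
  have h1 : AnalyticOnNhd ℝ (fun y => (Complex.ofRealCLM.comp
    (LinearMap.toContinuousLinearMap (ev ∘ₗ L))) y) Set.univ :=
    ContinuousLinearMap.analyticOnNhd _ _
  exact hexp.comp ((analyticOnNhd_const (v := 2 * Real.pi * Complex.I)).mul h1)
    (Set.mapsTo_univ _ _)

/-- basis functions -/
def neu2b (t' : ℝ) {M r : ℕ} (j : Fin M × Fin r) : BB t' r :=
  ⟨fun z => (z.1 ^ (j.1 : ℕ)) • (Pi.single j.2 1 : Fin r → ℂ), by fun_prop⟩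

/-- the operator `T(u)` -/
def neu2T {E : Type} [NormedAddCommGroup E] [NormedSpace ℂ E] (S : Finset H)
    (T : H → (E →L[ℂ] E)) (u : TT H) : E →L[ℂ] E := ∑ h ∈ S, chi u h • T h

theorem neu2T_norm {E : Type} [NormedAddCommGroup E] [NormedSpace ℂ E] (S : Finset H)
    (T : H → (E →L[ℂ] E)) (u : TT H) : ‖neu2T S T u‖ ≤ ∑ h ∈ S, ‖T h‖ := by
  unfold neu2T
  refine (norm_sum_le _ _).trans (Finset.sum_le_sum fun h _ => ?_)
  rw [norm_smul, neu2_norm_chi, one_mul]

theorem neu2_unit {E : Type} [NormedAddCommGroup E] [NormedSpace ℂ E] [CompleteSpace E]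
    (S : Finset H) (T : H → (E →L[ℂ] E)) (hT : ∑ h ∈ S, ‖T h‖ < 1) (u : TT H) :
    ∃ U : (E →L[ℂ] E)ˣ, (U : E →L[ℂ] E) = 1 - neu2T S T u :=
  ⟨Units.oneSub _ (lt_of_le_of_lt (neu2T_norm S T u) hT), rfl⟩

theorem neu2_inv_an {E : Type} [NormedAddCommGroup E] [NormedSpace ℂ E] [CompleteSpace E]
    (S : Finset H) (T : H → (E →L[ℂ] E)) (hT : ∑ h ∈ S, ‖T h‖ < 1) (b : E) (n : ℕ)
    (L : (Fin n → ℝ) →ₗ[ℝ] TT H) :
    AnalyticOnNhd ℝ (fun y => Ring.inverse (1 - neu2T S T (L y)) b) Set.univ := by
  have h1 : AnalyticOnNhd ℝ (fun y => 1 - neu2T S T (L y)) Set.univ := by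
    apply analyticOnNhd_const.sub
    unfold neu2T
    apply Finset.analyticOnNhd_fun_sum
    intro h _
    exact (neu2_chi_an h n L).smul analyticOnNhd_const
  intro y _
  obtain ⟨U, hU⟩ := neu2_unit S T hT (L y)
  have h2 : AnalyticAt ℂ Ring.inverse (1 - neu2T S T (L y)) := by
    rw [← hU]
    exact analyticAt_inverse U
  have h3 : AnalyticAt ℝ Ring.inverse (1 - neu2T S T (L y)) := h2.restrictScalars
  have h4 : AnalyticAt ℝ (fun y => Ring.inverse (1 - neu2T S T (L y))) y :=
    AnalyticAt.fun_comp (g := Ring.inverse) h3 (h1 y (Set.mem_univ y))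
  let ev : (E →L[ℂ] E) →L[ℝ] E :=
    (ContinuousLinearMap.apply ℂ E b).restrictScalars ℝ
  exact (ev.analyticAt _).fun_comp h4

end neu2

theorem exists_frame {G : Type} [Group G] {r : ℕ} (Φ : G →* SU11)
    (V : G →* Matrix.unitaryGroup (Fin r) ℂ) (H : Subgroup G) (t' t : ℝ) (h0 : 0 < t')
    (htt : t' < t) (ht : t < 1) (hC : Cocpt Φ H t') (hD : Disc Φ) :
    ∃ (M : ℕ) (e : TT H → Fin M → ℂ → Fin r → ℂ),
      (∀ u j, DifferentiableOn ℂ (e u j) (Metric.ball 0 t)) ∧
      (∀ j i, ∀ z ∈ Metric.ball (0 : ℂ) t, (fun u => e u j z i) ∈ AnR (TT H) (Lam H (H : Set G))) ∧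
      (∀ u, ∀ f ∈ SS Φ V H u, ∃ w : Fin M → ℂ, ∀ z : DD, ‖z.1‖ < t →
        f z = ∑ j, w j • e u j z.1) ∧
      (∀ (u : TT H) (w : Fin M → ℂ), (∀ z ∈ Metric.ball (0 : ℂ) t, ∑ j, w j • e u j z = 0) →
        w = 0) := by
  obtain ⟨S, M, T, T', P, hT, hTT', hdiff, hform⟩ := exists_operators Φ V H t' t h0 htt ht hC hD
  let g : TT H → Fin M × Fin r → BB t' r := fun u j =>
    Ring.inverse (1 - neu2T S T u) (neu2b t' j)
  have hg : ∀ u j, g u j = neu2b t' j + neu2T S T u (g u j) := by
    intro u j
    obtain ⟨U, hU⟩ := neu2_unit S T hT u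
    have h1 : (1 - neu2T S T u) (g u j) = neu2b t' j := by
      change ((1 - neu2T S T u) * Ring.inverse (1 - neu2T S T u)) (neu2b t' j) = _
      rw [← hU, Ring.inverse_unit, Units.mul_inv]
      rfl
    rw [← h1]
    simp
  have hinv : ∀ u (x y : BB t' r), (1 - neu2T S T u) x = y →
      x = Ring.inverse (1 - neu2T S T u) y := by
    intro u x y hxy
    obtain ⟨U, hU⟩ := neu2_unit S T hT u
    rw [← hxy]
    change x = (Ring.inverse (1 - neu2T S T u) * (1 - neu2T S T u)) x
    rw [← hU, Ring.inverse_unit, Units.inv_mul]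
    rfl
  let e' : TT H → Fin M × Fin r → ℂ → Fin r → ℂ := fun u j z =>
    z ^ (j.1 : ℕ) • (Pi.single j.2 1 : Fin r → ℂ) + ∑ h ∈ S, chi u h • T' h z (g u j)
  have he' : ∀ u j (z : Metric.closedBall (0 : ℂ) t'), e' u j z.1 = g u j z := by
    intro u j z
    have h1 := congrArg (fun f : BB t' r => f z) (hg u j)
    simp only [ContinuousMap.add_apply] at h1
    rw [h1]
    have h2 : (neu2T S T u (g u j)) z = ∑ h ∈ S, chi u h • T' h z.1 (g u j) := by
      unfold neu2T
      rw [sum_apply, ContinuousMap.sum_apply]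
      apply Finset.sum_congr rfl
      intro h hh
      rw [smul_apply, ContinuousMap.smul_apply, hTT' h hh]
    rw [h2]
    rfl
  let E := (finProdFinEquiv : Fin M × Fin r ≃ Fin (M * r))
  refine ⟨M * r, fun u j => e' u (E.symm j), ?_, ?_, ?_, ?_⟩
  · intro u j
    apply DifferentiableOn.add
    · fun_prop
    · apply DifferentiableOn.fun_sum
      intro h hh
      exact (hdiff h hh _).fun_const_smul _
  · intro j i z hz
    constructor
    · intro n L
      change AnalyticOnNhd ℝ (fun y => (z ^ ((E.symm j).1 : ℕ) •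
        (Pi.single (E.symm j).2 1 : Fin r → ℂ) +
        ∑ h ∈ S, chi (L y) h • T' h z (g (L y) (E.symm j))) i) Set.univ
      simp only [Pi.add_apply, Finset.sum_apply, Pi.smul_apply]
      apply analyticOnNhd_const.add
      apply Finset.analyticOnNhd_fun_sum
      intro h _
      apply (neu2_chi_an h n L).mul
      have h1 := neu2_inv_an S T hT (neu2b t' (E.symm j)) n L
      let ev : BB t' r →L[ℝ] ℂ :=
        (((ContinuousLinearMap.proj i : (Fin r → ℂ) →L[ℂ] ℂ).comp (T' h z))).restrictScalars ℝ
      exact ev.comp_analyticOnNhd h1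
    · intro l hl u
      have h1 : neu2T S T (u + l) = neu2T S T u := by
        unfold neu2T
        exact Finset.sum_congr rfl fun h _ => by rw [neu2_chi_per u l hl]
      have h2 : g (u + l) (E.symm j) = g u (E.symm j) := by
        change Ring.inverse (1 - neu2T S T (u + l)) _ = Ring.inverse (1 - neu2T S T u) _
        rw [h1]
      change (z ^ ((E.symm j).1 : ℕ) • (Pi.single (E.symm j).2 1 : Fin r → ℂ) +
        ∑ h ∈ S, chi (u + l) h • T' h z (g (u + l) (E.symm j))) i =
        (z ^ ((E.symm j).1 : ℕ) • (Pi.single (E.symm j).2 1 : Fin r → ℂ) +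
        ∑ h ∈ S, chi u h • T' h z (g u (E.symm j))) i
      rw [h2]
      simp only [neu2_chi_per u l hl]
  · intro u f hf
    have hcont : ContinuousOn (ext0 f) (Metric.ball 0 1) := hf.1.continuousOn
    let f' : BB t' r := ⟨fun z => ext0 f z.1, by
      rw [← continuousOn_univ]
      refine hcont.comp continuous_subtype_val.continuousOn ?_
      intro z _
      have := z.2
      rw [Metric.mem_closedBall, dist_zero_right] at this
      rw [Metric.mem_ball, dist_zero_right]
      linarith⟩
    have hf' : ∀ (z : DD) (hz : ‖z.1‖ ≤ t'), f' ⟨z.1, by simpa using hz⟩ = f z := by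
      intro z hz
      change ext0 f z.1 = f z
      unfold ext0
      rw [dif_pos z.2]
    have hF := hform u f hf f' hf'
    let a : Fin M → Fin r → ℂ := fun n => ∑ h ∈ S, chi u h • P h n f'
    let w' : Fin M × Fin r → ℂ := fun j => a j.1 j.2
    have hsum : ∀ z : ℂ, ∑ n : Fin M, z ^ (n : ℕ) • a n =
        ∑ j : Fin M × Fin r, w' j • (z ^ (j.1 : ℕ) • (Pi.single j.2 1 : Fin r → ℂ)) := by
      intro z
      rw [Fintype.sum_prod_type]
      apply Finset.sum_congr rfl
      intro n _
      conv_lhs => rw [pi_eq_sum_univ' (a n)]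
      rw [Finset.smul_sum]
      apply Finset.sum_congr rfl
      intro i _
      rw [smul_comm]
    have hfp : f' = ∑ j, w' j • g u j := by
      have h1 : (1 - neu2T S T u) f' = ∑ j, w' j • neu2b t' j := by
        ext1 z
        have hz1 : ‖z.1‖ ≤ t' := by
          have := z.2
          rwa [Metric.mem_closedBall, dist_zero_right] at this
        have h2 := hF ⟨z.1, by linarith⟩ (by simpa using lt_of_le_of_lt hz1 htt)
        have h3 := hf' ⟨z.1, by linarith⟩ hz1
        have h4 : f' z = f ⟨z.1, by linarith⟩ := h3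
        have h5 : (neu2T S T u f') z = ∑ h ∈ S, chi u h • T' h z.1 f' := by
          unfold neu2T
          rw [sum_apply, ContinuousMap.sum_apply]
          apply Finset.sum_congr rfl
          intro h hh
          rw [smul_apply, ContinuousMap.smul_apply, hTT' h hh]
        rw [sub_apply, one_apply_eq_self,
          ContinuousMap.sub_apply, h5, h4, h2, ContinuousMap.sum_apply]
        rw [add_sub_cancel_right]
        exact hsum z.1
      have h6 := hinv u _ _ h1
      rw [h6, map_sum]
      apply Finset.sum_congr rfl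
      intro j _
      rw [map_smul]
    refine ⟨fun j => w' (E.symm j), fun z hz => ?_⟩
    rw [hF z hz]
    rw [E.symm.sum_comp (fun j => w' j • e' u j z.1)]
    change (∑ n : Fin M, z.1 ^ (n : ℕ) • a n) + _ = ∑ j, w' j •
      (z.1 ^ (j.1 : ℕ) • (Pi.single j.2 1 : Fin r → ℂ) + ∑ h ∈ S, chi u h • T' h z.1 (g u j))
    simp only [smul_add]
    rw [Finset.sum_add_distrib, hsum]
    congr 1
    simp only [Finset.smul_sum]
    rw [Finset.sum_comm]
    apply Finset.sum_congr rfl
    intro h _
    conv_lhs => rw [hfp]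
    rw [map_sum, Finset.smul_sum]
    apply Finset.sum_congr rfl
    intro j _
    rw [map_smul, smul_comm]
  · intro u w hw
    have h1 : ∑ j : Fin M × Fin r, w (E j) • g u j = 0 := by
      ext1 z
      have hz1 : ‖z.1‖ ≤ t' := by
        have := z.2
        rwa [Metric.mem_closedBall, dist_zero_right] at this
      have h2 := hw z.1 (by
        rw [Metric.mem_ball, dist_zero_right]
        exact lt_of_le_of_lt hz1 htt)
      rw [← E.sum_comp] at h2
      simp only [Equiv.symm_apply_apply] at h2
      rw [ContinuousMap.sum_apply]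
      simp only [ContinuousMap.smul_apply, ← he']
      exact h2
    have h3 : ∑ j : Fin M × Fin r, w (E j) • neu2b t' j = 0 := by
      have h4 := congrArg (fun x => (1 - neu2T S T u) x) h1
      simp only [map_sum, map_smul, map_zero] at h4
      rw [← h4]
      apply Finset.sum_congr rfl
      intro j _
      congr 1
      have h5 := hg u j
      rw [sub_apply, one_apply_eq_self, eq_sub_iff_add_eq]
      exact h5.symm
    have h6 : ∀ i : Fin r, ∀ n : Fin M, w (E (n, i)) = 0 := by
      intro i
      let p : Polynomial ℂ := ∑ n : Fin M, Polynomial.C (w (E (n, i))) * Polynomial.X ^ (n : ℕ)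
      have hp : p = 0 := by
        apply Polynomial.eq_zero_of_infinite_isRoot
        have hinf : (Metric.closedBall (0 : ℂ) t').Infinite := by
          apply Set.Infinite.mono (s := ((↑) : ℝ → ℂ) '' (Set.Icc 0 t'))
          · rintro _ ⟨x, hx, rfl⟩
            rw [Metric.mem_closedBall, dist_zero_right, Complex.norm_real, Real.norm_eq_abs,
              abs_of_nonneg hx.1]
            exact hx.2
          · exact (Set.Icc_infinite h0).image (Complex.ofReal_injective.injOn)
        refine hinf.mono ?_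
        intro z hz
        change Polynomial.IsRoot p z
        have h7 := congrArg (fun f : BB t' r => f ⟨z, hz⟩ i) h3
        rw [Polynomial.IsRoot.def, Polynomial.eval_finsetSum]
        simp only [ContinuousMap.sum_apply, Finset.sum_apply, ContinuousMap.smul_apply,
          Pi.smul_apply, ContinuousMap.zero_apply, Pi.zero_apply] at h7
        rw [Fintype.sum_prod_type] at h7
        rw [← h7]
        apply Finset.sum_congr rfl
        intro n _
        rw [Finset.sum_eq_single i]
        · simp [neu2b]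
        · intro k _ hk
          simp [neu2b, hk.symm]
        · simp
      intro n
      have h8 := congrArg (fun q : Polynomial ℂ => q.coeff (n : ℕ)) hp
      simp only [p, Polynomial.finsetSum_coeff, Polynomial.coeff_C_mul, Polynomial.coeff_X_pow,
        Polynomial.coeff_zero] at h8
      rw [Finset.sum_eq_single n] at h8
      · simpa using h8
      · intro k _ hk
        rw [if_neg (fun h => hk (Fin.ext h.symm)), mul_zero]
      · simp
    funext j
    have h9 := h6 (E.symm j).2 (E.symm j).1
    rwa [Prod.mk.eta, Equiv.apply_symm_apply] at h9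

end RQ
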