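import Pool.Agent.Helper44.RQ.Ker
import Pool.Agent.Helper44.RQ.Glue
import Pool.Agent.Helper44.RQ.Neu2

/-! Module `Fam` of MP_27ef80_ag -/

set_option autoImplicit false
open scoped ComplexConjugate Matrix TensorProduct
open MeasureTheory

noncomputable section

namespace RQ

/-- constant functions -/
def fam_cst {W : Type} [AddCommGroup W] [Module ℝ W] (Λ : AddSubgroup W) (c : ℂ) : AnR W Λ :=
  ⟨fun _ => c, fun _ _ => analyticOnNhd_const, fun _ _ _ => rfl⟩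

/-- evaluation -/
def fam_ev {W : Type} [AddCommGroup W] [Module ℝ W] {Λ : AddSubgroup W} (u : W) : AnR W Λ →+* ℂ :=
  (Pi.evalRingHom (fun _ : W => ℂ) u).comp (AnR W Λ).subtype

theorem fam_ev_apply {W : Type} [AddCommGroup W] [Module ℝ W] {Λ : AddSubgroup W} (u : W)
    (f : AnR W Λ) : fam_ev u f = f.1 u := rfl

theorem fam_ev_cst {W : Type} [AddCommGroup W] [Module ℝ W] {Λ : AddSubgroup W} (u : W)
    (c : ℂ) : fam_ev u (fam_cst Λ c) = c := rfl

theorem fam_chi_ne {G : Type} [Group G] {H : Subgroup G} (u : TT H) (h : H) : chi u h ≠ 0 :=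
  Complex.exp_ne_zero _

theorem fam_ev_eFn {G : Type} [Group G] (H : Subgroup G) (u : TT H) (h : H) :
    fam_ev u (eFn H (H : Set G) h.1) = chi u h⁻¹ := by
  rw [fam_ev_apply, eFn_apply H (H : Set G) h.1 h.2 h.2]
  unfold chi
  congr 1
  have : u (Additive.ofMul h⁻¹) = - u (Additive.ofMul h) := by
    rw [ofMul_inv, map_neg]
  rw [this]
  push_cast
  ring

theorem fam_comb {M r : ℕ} (w : Fin M → ℂ) (a b : Fin M → Fin r → ℂ) (c : ℂ)
    (A : Matrix (Fin r) (Fin r) ℂ) (i : Fin r) :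
    ∑ j, (a j i - c * ∑ k, A i k * b j k) * w j
      = (∑ j, w j • a j) i - (c • (A *ᵥ ∑ j, w j • b j)) i := by
  simp only [Finset.sum_apply, Pi.smul_apply, smul_eq_mul, Matrix.mulVec, dotProduct, sub_mul,
    Finset.sum_sub_distrib]
  congr 1
  · exact Finset.sum_congr rfl fun j _ => mul_comm _ _
  · simp only [Finset.mul_sum, Finset.sum_mul]
    rw [Finset.sum_comm]
    exact Finset.sum_congr rfl fun k _ => Finset.sum_congr rfl fun j _ => by ring

theorem fam_V_inj {G : Type} [Group G] {r : ℕ} (V : G →* Matrix.unitaryGroup (Fin r) ℂ) (g : G)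
    (x : Fin r → ℂ) (h : (V g).1 *ᵥ x = 0) : x = 0 := by
  have h1 : (V g⁻¹).1 * (V g).1 = 1 := by
    have : V g⁻¹ * V g = 1 := by rw [← map_mul, inv_mul_cancel, map_one]
    exact congrArg Subtype.val this
  have h2 : (V g⁻¹).1 *ᵥ ((V g).1 *ᵥ x) = x := by
    rw [Matrix.mulVec_mulVec, h1, Matrix.one_mulVec]
  rw [← h2, h, Matrix.mulVec_zero]

theorem exists_family {G : Type} [Group G] {r : ℕ} (Φ : G →* SU11)
    (V : G →* Matrix.unitaryGroup (Fin r) ℂ) (H : Subgroup G) [Group.FG H] (t' : ℝ)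
    (hC : Cocpt Φ H t') (hD : Disc Φ) (hne : ∀ u : TT H, ∃ f ∈ SS Φ V H u, f ≠ 0) :
    ∃ F : DD → Fin r → AnR (TT H) (Lam H (H : Set G)),
      (∀ u, (fun z i => (F z i).1 u) ∈ SS Φ V H u) ∧ F ≠ 0 := by
  -- enlarge the radius
  set t₁ : ℝ := max t' (1 / 2) with ht₁
  have ht₁1 : t₁ < 1 := max_lt hC.1 (by norm_num)
  have ht₁0 : 0 < t₁ := lt_of_lt_of_le (by norm_num) (le_max_right _ _)
  have hC₁ : Cocpt Φ H t₁ := ⟨ht₁1, fun z => by
    obtain ⟨h, hh, hz⟩ := hC.2 z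
    exact ⟨h, hh, hz.trans (le_max_left _ _)⟩⟩
  set t : ℝ := (t₁ + 1) / 2 with ht
  have htt : t₁ < t := by linarith
  have ht1 : t < 1 := by linarith
  obtain ⟨M, e, he1, he2, he3, he4⟩ := exists_frame Φ V H t₁ t ht₁0 htt ht1 hC₁ hD
  -- the frame as elements of the ring
  set E : Fin M → Fin r → {z : ℂ // z ∈ Metric.ball (0 : ℂ) t} → AnR (TT H) (Lam H (H : Set G)) :=
    fun j i z => ⟨fun u => e u j z.1 i, he2 j i z.1 z.2⟩ with hE
  have hEev : ∀ (u : TT H) j i z, fam_ev u (E j i z) = e u j z.1 i := fun _ _ _ _ => rfl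
  -- the index set
  let ι : Type := {p : H × DD × Fin r // ‖p.2.1.1‖ ≤ t₁ ∧ ‖(Φ p.1 • p.2.1).1‖ < t}
  have hin1 : ∀ p : ι, p.1.2.1.1 ∈ Metric.ball (0 : ℂ) t := fun p => by
    rw [mem_ball_zero_iff]
    exact lt_of_le_of_lt p.2.1 htt
  have hin2 : ∀ p : ι, (Φ p.1.1 • p.1.2.1).1 ∈ Metric.ball (0 : ℂ) t := fun p => by
    rw [mem_ball_zero_iff]
    exact p.2.2
  let L : ι → Fin M → AnR (TT H) (Lam H (H : Set G)) := fun p j =>
    E j p.1.2.2 ⟨_, hin2 p⟩ - (eFn H (H : Set G) (p.1.1⁻¹ : H).1 *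
      fam_cst (Lam H (H : Set G)) (J (Φ p.1.1) p.1.2.1.1)) * ∑ k, fam_cst (Lam H (H : Set G)) ((V p.1.1).1 p.1.2.2 k) *
        E j k ⟨_, hin1 p⟩
  have hL : ∀ (u : TT H) (p : ι) (w : Fin M → ℂ), ∑ j, (L p j).1 u * w j =
      (∑ j, w j • e u j (Φ p.1.1 • p.1.2.1).1) p.1.2.2 -
      ((chi u p.1.1 * J (Φ p.1.1) p.1.2.1.1) •
        ((V p.1.1).1 *ᵥ ∑ j, w j • e u j p.1.2.1.1)) p.1.2.2 := by
    intro u p w
    rw [← fam_comb]
    refine Finset.sum_congr rfl fun j _ => ?_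
    congr 1
    change fam_ev u (L p j) = _
    simp only [L, map_sub, map_mul, map_sum, fam_ev_eFn, fam_ev_cst, hEev, inv_inv]
  have hker : ∀ u : TT H, ∃ w : Fin M → ℂ, w ≠ 0 ∧ ∀ p, ∑ j, (L p j).1 u * w j = 0 := by
    intro u
    obtain ⟨f, hf, hf0⟩ := hne u
    obtain ⟨w, hw⟩ := he3 u f hf
    refine ⟨w, ?_, fun p => ?_⟩
    · rintro rfl
      apply hf0
      funext z
      obtain ⟨h, hh, hz⟩ := hC₁.2 z
      have h1 := hf.2 ⟨h, hh⟩ z
      have h2 := hw (Φ h • z) (lt_of_le_of_lt hz htt)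
      simp only [Pi.zero_apply, zero_smul, Finset.sum_const_zero] at h2
      rw [h2] at h1
      have h3 := (smul_eq_zero.1 h1.symm).resolve_left
        (mul_ne_zero (fam_chi_ne _ _) (J_ne_zero _ z.2))
      exact fam_V_inj V h _ h3
    · rw [hL, ← hw _ p.2.2, ← hw _ (lt_of_le_of_lt p.2.1 htt), ← hf.2 p.1.1 p.1.2.1, sub_self]
  obtain ⟨w, hw0, hwL⟩ := exists_kernel (AnR (TT H) (Lam H (H : Set G))) M L hker
  -- the glued sections
  have hglue : ∀ u : TT H, ∃ F ∈ SS Φ V H u, ∀ z : DD, ‖z.1‖ < t →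
      F z = ∑ j, (w j).1 u • e u j z.1 := by
    intro u
    refine glue Φ V H t₁ t htt ht1 hC₁ u (fun z => ∑ j, (w j).1 u • e u j z) ?_ ?_
    · refine DifferentiableOn.fun_sum fun j _ => ?_
      exact (he1 u j).const_smul ((w j).1 u)
    · intro h x hx hx'
      funext i
      have h1 := hwL ⟨(h, x, i), hx, hx'⟩
      have h2 := congrArg (fam_ev u) h1
      rw [map_sum, map_zero] at h2
      simp only [map_mul] at h2
      have h3 := hL u ⟨(h, x, i), hx, hx'⟩ (fun j => (w j).1 u)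
      change ∑ j, fam_ev u (L ⟨(h, x, i), hx, hx'⟩ j) * fam_ev u (w j) = _ at h3
      rw [h2] at h3
      exact (sub_eq_zero.1 h3.symm)
  choose Fu hFu1 hFu2 using hglue
  -- a representative for every point
  have hrep : ∀ z : DD, ∃ h : H, ‖(Φ h • z).1‖ < t := fun z => by
    obtain ⟨h, hh, hz⟩ := hC₁.2 z
    exact ⟨⟨h, hh⟩, lt_of_le_of_lt hz htt⟩
  choose hz hhz using hrep
  have hball : ∀ z : DD, (Φ (hz z) • z).1 ∈ Metric.ball (0 : ℂ) t := fun z => by
    rw [mem_ball_zero_iff]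
    exact hhz z
  let F : DD → Fin r → AnR (TT H) (Lam H (H : Set G)) := fun z i =>
    (eFn H (H : Set G) (hz z).1 * fam_cst (Lam H (H : Set G)) (J (Φ (hz z)⁻¹) (Φ (hz z) • z).1)) *
      ∑ k, fam_cst (Lam H (H : Set G)) ((V (hz z)⁻¹).1 i k) * ∑ j, w j * E j k ⟨_, hball z⟩
  have hFev : ∀ (u : TT H) (z : DD) (i : Fin r), (F z i).1 u = Fu u z i := by
    intro u z i
    have h1 := (hFu1 u).2 (hz z)⁻¹ (Φ (hz z) • z)
    have h2 : Φ ((hz z)⁻¹ : H) • (Φ (hz z) • z) = z := by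
      rw [smul_smul, ← map_mul]
      simp
    rw [h2, hFu2 u _ (hhz z)] at h1
    rw [h1]
    change fam_ev u (F z i) = _
    simp only [F, map_mul, map_sum, fam_ev_eFn, fam_ev_cst, hEev]
    rw [Pi.smul_apply, smul_eq_mul]
    simp only [Matrix.mulVec, dotProduct, Finset.sum_apply, Pi.smul_apply, smul_eq_mul]
    rfl
  refine ⟨F, fun u => ?_, ?_⟩
  · have : (fun z i => (F z i).1 u) = Fu u := by
      funext z i
      exact hFev u z i
    rw [this]
    exact hFu1 u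
  · intro hF0
    apply hw0
    funext j₀
    apply Subtype.ext
    funext u
    have h1 : (fun j => (w j).1 u) = 0 := by
      apply he4 u
      intro z hz'
      have hz1 : ‖z‖ < t := by simpa using hz'
      have h2 := hFu2 u ⟨z, hz1.trans ht1⟩ hz1
      rw [← h2]
      funext i
      rw [← hFev, hF0]
      rfl
    exact congrFun h1 j₀

end RQ
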