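import Pool.Agent.Helper44.RQ.Main
import Pool.Agent.Helper44.RQ.Cay

/-! Final assembly of MP_27ef80_ag -/

set_option autoImplicit false
open scoped ComplexConjugate Matrix TensorProduct MatrixGroups Manifold
open MeasureTheory UpperHalfPlane

noncomputable section

namespace RQ

instance surf_fg (g : ℕ) : Group.FG (SurfGp g) := by
  have h : Function.Surjective (PresentedGroup.mk ({surfRel g} : Set (FreeGroup (Fin g × Bool)))) :=
    PresentedGroup.mk_surjective _
  exact Group.fg_of_surjective h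

/-- the unitary character attached to a real character -/
def circ {G : Type} [Group G] {H : Subgroup G} (u : TT H) : H →* Circle where
  toFun h := Circle.exp (2 * Real.pi * u (Additive.ofMul h))
  map_one' := by
    rw [ofMul_one, map_zero, mul_zero, Circle.exp_zero]
  map_mul' a b := by
    rw [ofMul_mul, map_add, mul_add, Circle.exp_add]

theorem circ_apply {G : Type} [Group G] {H : Subgroup G} (u : TT H) (h : H) :
    (circ u h : ℂ) = chi u h := by
  change (Circle.exp _ : ℂ) = _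
  rw [Circle.coe_exp, chi]
  congr 1
  push_cast
  ring

theorem final {g : ℕ} (Φ : SurfGp g →* SL(2, ℝ)) (hinj : Function.Injective Φ)
    (hD : ∀ K : Set ℍ, IsCompact K → {γ : SurfGp g | ∃ z ∈ K, Φ γ • z ∈ K}.Finite)
    (hC : ∃ K : Set ℍ, IsCompact K ∧ ∀ z : ℍ, ∃ γ : SurfGp g, Φ γ • z ∈ K) (r : ℕ) :
    ∃ H : Subgroup (SurfGp g), H.FiniteIndex ∧
      ∀ V : SurfGp g →* Matrix.unitaryGroup (Fin r) ℂ, ∃ χ : H →* Circle,
        ∀ f : ℍ → Fin r → ℂ, MDifferentiable 𝓘(ℂ) 𝓘(ℂ, Fin r → ℂ) f →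
          (∀ (γ : H) (z : ℍ), f (Φ γ • z) =
            ((χ γ : ℂ) * denom (Φ γ) z) • ((V γ : Matrix (Fin r) (Fin r) ℂ) *ᵥ f z)) →
          f = 0 := by
  obtain ⟨Ψ, hΨ, hdisc, ⟨t, hcoc⟩, htr⟩ := cay_transfer Φ hinj hD hC
  obtain ⟨G₁, hG₁, hres⟩ := exists_resCh (SurfGp g) (SU11.subtype.comp Ψ)
    (fun a b h => hΨ (Subtype.val_injective h))
  have hTF : TFree G₁ := tfree_subgroup (tfree_surf g) G₁ hG₁
  obtain ⟨t', ht', hcoc'⟩ := cocpt_finiteIndex Ψ t hcoc G₁
  have hc1 : Cocpt (Ψ.comp G₁.subtype) ⊤ t' := by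
    refine ⟨ht', fun z => ?_⟩
    obtain ⟨h, hh, hz⟩ := hcoc' z
    exact ⟨⟨h, hh⟩, Subgroup.mem_top _, hz⟩
  have hd1 : Disc (Ψ.comp G₁.subtype) := by
    intro ρ hρ
    have h1 := (hdisc ρ hρ).preimage (f := fun x : G₁ => x.1) (Subtype.val_injective.injOn)
    exact h1
  obtain ⟨H, hH, hmain⟩ := main_disc hTF hres r (Ψ.comp G₁.subtype) t' hc1 hd1
  let H' : Subgroup (SurfGp g) := H.map G₁.subtype
  let E : H ≃* H' := H.equivMapOfInjective G₁.subtype G₁.subtype_injective
  have hE : ∀ h : H, ((E h : H') : SurfGp g) = (h.1 : SurfGp g) := fun h => rfl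
  refine ⟨H', ?_, fun V => ?_⟩
  · constructor
    rw [Subgroup.index_map_subtype]
    exact mul_ne_zero hH.index_ne_zero hG₁.index_ne_zero
  · obtain ⟨u, hzero⟩ := hmain (V.comp G₁.subtype)
    refine ⟨(circ u).comp E.symm.toMonoidHom, fun f hf hauto => ?_⟩
    obtain ⟨F, hF, hF0, hFauto⟩ := htr r f hf
    apply hF0
    apply hzero F
    refine ⟨hF, fun h z => ?_⟩
    have h1 := hFauto (h.1 : SurfGp g) (circ u h : ℂ) (V (h.1 : SurfGp g)) (by
      intro z
      have h2 := hauto (E h) z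
      have h3 : ((circ u).comp E.symm.toMonoidHom) (E h) = circ u h := by
        change circ u (E.symm (E h)) = circ u h
        rw [E.symm_apply_apply]
      rw [h3, hE] at h2
      exact h2) z
    rw [circ_apply] at h1
    exact h1

end RQ
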