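import Pool.Agent.Helper44.RQ.Defs

/-! Module `Gal` of MP_27ef80_ag -/

set_option autoImplicit false
open scoped ComplexConjugate Matrix TensorProduct
open MeasureTheory

noncomputable section

namespace RQ

section gal

variable {A K₁ W : Type} [CommGroup A] [Fintype A] [Field K₁] [AddCommGroup W] [Module K₁ W]

/-- eigenspaces of a finite abelian group -/
def galEig (j : ℂ →+* K₁) (ρ : A →* Module.End K₁ W) (φ : A →* ℂˣ) : Submodule K₁ W where
  carrier := {v | ∀ a, ρ a v = j (φ a : ℂ) • v}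
  add_mem' := fun hx hy a => by rw [map_add, hx a, hy a, smul_add]
  zero_mem' := fun a => by rw [map_zero, smul_zero]
  smul_mem' := fun c x hx a => by rw [map_smul, hx a, smul_comm]

theorem gal_sum_elt (φ : A →* ℂˣ) (h : φ ≠ 1) : ∑ a, ((φ a : ℂˣ) : ℂ) = 0 := by
  obtain ⟨b, hb⟩ : ∃ b, φ b ≠ 1 := by
    by_contra hc
    push Not at hc
    exact h (MonoidHom.ext hc)
  have h1 : ∑ a, ((φ a : ℂˣ) : ℂ) = (φ b : ℂ) * ∑ a, ((φ a : ℂˣ) : ℂ) := by
    rw [Finset.mul_sum, ← Equiv.sum_comp (Equiv.mulLeft b)]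
    exact Finset.sum_congr rfl fun a _ => by simp
  have h2 : ((φ b : ℂ) - 1) * ∑ a, ((φ a : ℂˣ) : ℂ) = 0 := by linear_combination -h1
  rcases mul_eq_zero.1 h2 with h3 | h3
  · exact absurd (Units.ext (sub_eq_zero.1 h3)) hb
  · exact h3

instance galFinite : Finite (A →* ℂˣ) := by
  have h := CommGroup.card_monoidHom_of_hasEnoughRootsOfUnity A ℂ
  exact Nat.finite_of_card_ne_zero (by rw [h]; exact Nat.card_pos.ne')

theorem gal_sum_char [Fintype (A →* ℂˣ)] (a : A) (h : a ≠ 1) :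
    ∑ φ : A →* ℂˣ, ((φ a : ℂˣ) : ℂ) = 0 := by
  obtain ⟨ψ, hψ⟩ := CommGroup.exists_apply_ne_one_of_hasEnoughRootsOfUnity A ℂ h
  have h1 : ∑ φ : A →* ℂˣ, ((φ a : ℂˣ) : ℂ) = (ψ a : ℂ) * ∑ φ : A →* ℂˣ, ((φ a : ℂˣ) : ℂ) := by
    rw [Finset.mul_sum, ← Equiv.sum_comp (Equiv.mulLeft ψ)]
    exact Finset.sum_congr rfl fun φ _ => by simp
  have h2 : ((ψ a : ℂ) - 1) * ∑ φ : A →* ℂˣ, ((φ a : ℂˣ) : ℂ) = 0 := by linear_combination -h1
  rcases mul_eq_zero.1 h2 with h3 | h3
  · exact absurd (Units.ext (sub_eq_zero.1 h3)) hψ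
  · exact h3

/-- the projection to an eigenspace -/
def galProj (j : ℂ →+* K₁) (ρ : A →* Module.End K₁ W) (φ : A →* ℂˣ) : Module.End K₁ W :=
  ∑ a, j ((Fintype.card A : ℂ)⁻¹ * ((φ a)⁻¹ : ℂˣ)) • ρ a

theorem galProj_apply (j : ℂ →+* K₁) (ρ : A →* Module.End K₁ W) (φ : A →* ℂˣ) (v : W) :
    galProj j ρ φ v = ∑ a, j ((Fintype.card A : ℂ)⁻¹ * ((φ a)⁻¹ : ℂˣ)) • ρ a v := by
  simp [galProj]

theorem galProj_mem (j : ℂ →+* K₁) (ρ : A →* Module.End K₁ W) (φ : A →* ℂˣ) (v : W) :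
    galProj j ρ φ v ∈ galEig j ρ φ := by
  intro b
  rw [galProj_apply, map_sum, Finset.smul_sum, ← Equiv.sum_comp (Equiv.mulLeft b)
    (fun a => j (φ b : ℂ) • j ((Fintype.card A : ℂ)⁻¹ * ((φ a)⁻¹ : ℂˣ)) • ρ a v)]
  refine Finset.sum_congr rfl fun a _ => ?_
  rw [map_smul, smul_smul, ← map_mul, Equiv.coe_mulLeft, map_mul ρ]
  congr 2
  rw [map_mul φ, mul_inv, Units.val_mul]
  have : ((φ b : ℂˣ) : ℂ) * ((φ b)⁻¹ : ℂˣ) = 1 := by simp
  linear_combination -((Fintype.card A : ℂ)⁻¹ * ((φ a)⁻¹ : ℂˣ)) * this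

theorem galProj_of_mem (j : ℂ →+* K₁) (ρ : A →* Module.End K₁ W) (φ ψ : A →* ℂˣ) (v : W)
    (hv : v ∈ galEig j ρ ψ) [Decidable (φ = ψ)] :
    galProj j ρ φ v = if φ = ψ then v else 0 := by
  have h1 : galProj j ρ φ v =
      j ((Fintype.card A : ℂ)⁻¹ * ∑ a, (((ψ * φ⁻¹) a : ℂˣ) : ℂ)) • v := by
    rw [galProj_apply, Finset.mul_sum, map_sum, Finset.sum_smul]
    refine Finset.sum_congr rfl fun a _ => ?_
    rw [hv a, smul_smul, ← map_mul]
    congr 2
    simp only [MonoidHom.mul_apply, MonoidHom.inv_apply, Units.val_mul]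
    ring
  rw [h1]
  split_ifs with h
  · subst h
    have h2 : (Fintype.card A : ℂ) ≠ 0 := Nat.cast_ne_zero.2 Fintype.card_ne_zero
    simp [h2]
  · rw [gal_sum_elt _ (fun h3 => h (mul_inv_eq_one.1 h3).symm), mul_zero, map_zero, zero_smul]

theorem galProj_sum (j : ℂ →+* K₁) (ρ : A →* Module.End K₁ W) [Fintype (A →* ℂˣ)] (v : W) :
    ∑ φ : A →* ℂˣ, galProj j ρ φ v = v := by
  have hcard : Fintype.card (A →* ℂˣ) = Fintype.card A := by
    rw [← Nat.card_eq_fintype_card, ← Nat.card_eq_fintype_card]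
    exact CommGroup.card_monoidHom_of_hasEnoughRootsOfUnity A ℂ
  have h2 : (Fintype.card A : ℂ) ≠ 0 := Nat.cast_ne_zero.2 Fintype.card_ne_zero
  simp_rw [galProj_apply]
  rw [Finset.sum_comm]
  rw [Finset.sum_eq_single 1]
  · rw [← Finset.sum_smul, ← map_sum, ← Finset.mul_sum]
    simp [hcard, h2]
  · intro a _ ha
    rw [← Finset.sum_smul, ← map_sum, ← Finset.mul_sum]
    have h3 : ∑ φ : A →* ℂˣ, (((φ a)⁻¹ : ℂˣ) : ℂ) = 0 := by
      have := gal_sum_char a⁻¹ (inv_ne_one.2 ha)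
      rw [← this]
      exact Finset.sum_congr rfl fun φ _ => by rw [map_inv]
    rw [h3, mul_zero, map_zero, zero_smul]
  · intro h
    exact absurd (Finset.mem_univ _) h

theorem gal_finrank (j : ℂ →+* K₁) (ρ : A →* Module.End K₁ W) [FiniteDimensional K₁ W]
    [Fintype (A →* ℂˣ)] :
    Module.finrank K₁ W = ∑ φ : A →* ℂˣ, Module.finrank K₁ (galEig j ρ φ) := by
  classical
  let E : W ≃ₗ[K₁] ((φ : A →* ℂˣ) → galEig j ρ φ) :=
    { toFun := fun v φ => ⟨galProj j ρ φ v, galProj_mem j ρ φ v⟩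
      invFun := fun w => ∑ φ, (w φ : W)
      map_add' := fun x y => by
        funext φ
        exact Subtype.ext (map_add _ _ _)
      map_smul' := fun c x => by
        funext φ
        exact Subtype.ext (map_smul _ _ _)
      left_inv := fun v => galProj_sum j ρ v
      right_inv := fun w => by
        funext φ
        refine Subtype.ext ?_
        change galProj j ρ φ (∑ ψ, (w ψ : W)) = w φ
        rw [map_sum, Finset.sum_congr rfl fun ψ _ => galProj_of_mem j ρ φ ψ _ (w ψ).2]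
        simp }
  rw [E.finrank_eq, Module.finrank_pi_fintype]

end gal

theorem div_galois {G K K₁ : Type} [Group G] [Field K] [Field K₁] (i : K →+* K₁) (j : ℂ →+* K₁)
    (σ : G →* (K →+* K)) (σ₁ : G →* (K₁ →+* K₁)) (hσ : ∀ g k, σ₁ g (i k) = i (σ g k))
    (hj : ∀ g c, σ₁ g (j c) = j c)
    (H H₁ : Subgroup G) [H.FiniteIndex] [H.Normal] [H₁.Normal] (hle : H ≤ H₁)
    (habel : ∀ a ∈ H₁, ∀ b ∈ H₁, a * b * a⁻¹ * b⁻¹ ∈ H) (e : G → K) (e₁ : G → K₁)
    (he : ∀ h ∈ H, i (e h) = e₁ h) (hmul : ∀ a ∈ H₁, ∀ b ∈ H₁, e₁ (a * b) = e₁ a * e₁ b)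
    (hne : ∀ a ∈ H₁, e₁ a ≠ 0) (hconj : ∀ g, ∀ h ∈ H₁, σ₁ g (e₁ (g⁻¹ * h * g)) = e₁ h)
    (htriv : ∀ h ∈ H₁, ∀ k, σ₁ h k = k)
    (htau : ∀ ψ : H₁ →* ℂˣ, (∀ h : H₁, h.1 ∈ H → ψ h = 1) → ∃ τ : K₁ ≃+* K₁,
      (∀ k, τ (i k) = i k) ∧ (∀ c, τ (j c) = j c) ∧ ∀ h : H₁, τ (e₁ h) = j (ψ h) * e₁ h)
    (n : ℕ) (hdiv : Div σ₁ H₁ e₁ n) : Div σ H e (n * H.relIndex H₁) := by
  classical
  intro U _ _ _ T
  letI : Algebra K K₁ := i.toAlgebra
  have hi : ∀ k, algebraMap K K₁ k = i k := fun _ => rfl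
  let TB : TwMod σ₁ H (fun g => algebraMap K K₁ (e g)) (K₁ ⊗[K] U) :=
    T.baseChange σ₁ hσ (fun h hh => htriv h (hle hh))
  have hTB : ∀ g (a : K₁) (u : U), TB.T g (a ⊗ₜ[K] u) = σ₁ g a ⊗ₜ[K] T.T g u := fun _ _ _ => rfl
  -- the linear operators of `H₁`
  let R : H₁ →* Module.End K₁ (K₁ ⊗[K] U) :=
    { toFun := fun a =>
        { toFun := fun x => (e₁ a)⁻¹ • TB.T a x
          map_add' := fun x y => by rw [map_add, smul_add]
          map_smul' := fun c x => by
            rw [TB.T_smul, htriv a a.2, RingHom.id_apply, smul_comm] }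
      map_one' := by
        refine LinearMap.ext fun x => ?_
        change (e₁ ((1 : H₁) : G))⁻¹ • TB.T ((1 : H₁) : G) x = x
        have h1 : e₁ ((1 : H₁) : G) = 1 := by
          have h2 := hmul 1 H₁.one_mem 1 H₁.one_mem
          rw [mul_one] at h2
          have h3 := hne 1 H₁.one_mem
          exact (mul_left_cancel₀ h3 (by rw [mul_one]; exact h2)).symm
        rw [h1, inv_one, one_smul]
        exact TB.T_one x
      map_mul' := fun a b => by
        refine LinearMap.ext fun x => ?_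
        change (e₁ ((a * b : H₁) : G))⁻¹ • TB.T ((a * b : H₁) : G) x =
          (e₁ a)⁻¹ • TB.T a ((e₁ b)⁻¹ • TB.T b x)
        rw [Subgroup.coe_mul, hmul a a.2 b b.2, TB.T_mul, TB.T_smul, htriv a a.2, smul_smul,
          mul_inv] }
  have hR : ∀ (a : H₁) x, R a x = (e₁ a)⁻¹ • TB.T a x := fun _ _ => rfl
  have hRH : ∀ a : H₁, a ∈ H.subgroupOf H₁ → R a = 1 := by
    intro a ha
    refine LinearMap.ext fun x => ?_
    rw [hR, TB.T_scal a ha, hi, he a ha, smul_smul, inv_mul_cancel₀ (hne a a.2), one_smul]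
    rfl
  -- the quotient group
  let Q := H₁ ⧸ H.subgroupOf H₁
  letI : CommGroup Q :=
    { (inferInstance : Group Q) with
      mul_comm := by
        intro x y
        induction x using QuotientGroup.induction_on with
        | H a =>
          induction y using QuotientGroup.induction_on with
          | H b =>
            rw [← QuotientGroup.mk_mul, ← QuotientGroup.mk_mul]
            refine QuotientGroup.eq.2 ?_
            change ((a * b)⁻¹ * (b * a) : H₁).1 ∈ H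
            have h1 := habel (b : G)⁻¹ (H₁.inv_mem b.2) (a : G)⁻¹ (H₁.inv_mem a.2)
            simpa [mul_assoc] using h1 }
  haveI : Finite Q := inferInstance
  letI : Fintype Q := Fintype.ofFinite Q
  letI : Fintype (Q →* ℂˣ) := Fintype.ofFinite _
  let ρ : Q →* Module.End K₁ (K₁ ⊗[K] U) := QuotientGroup.lift _ R hRH
  have hρ : ∀ a : H₁, ρ (QuotientGroup.mk a) = R a := fun a => rfl
  have hmem : ∀ (φ : Q →* ℂˣ) (x : K₁ ⊗[K] U), x ∈ galEig j ρ φ ↔
      ∀ a : H₁, TB.T a x = (j (φ (QuotientGroup.mk a) : ℂ) * e₁ a) • x := by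
    intro φ x
    constructor
    · intro h a
      have h1 := h (QuotientGroup.mk a)
      rw [hρ, hR] at h1
      rw [mul_comm, mul_smul, ← h1, smul_smul, mul_inv_cancel₀ (hne a a.2), one_smul]
    · intro h a
      induction a using QuotientGroup.induction_on with
      | H a =>
        rw [hρ, hR, h a, smul_smul, mul_comm (j _), ← mul_assoc, inv_mul_cancel₀ (hne a a.2),
          one_mul]
  -- the eigenspaces have the same dimension
  have hsame : ∀ φ : Q →* ℂˣ, Module.finrank K₁ (galEig j ρ φ) =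
      Module.finrank K₁ (galEig j ρ 1) := by
    intro φ
    obtain ⟨τ, hτi, hτj, hτe⟩ := htau (φ.comp (QuotientGroup.mk' _)) (fun h hh => by
      change φ (QuotientGroup.mk h) = 1
      rw [(QuotientGroup.eq_one_iff (N := H.subgroupOf H₁) h).2 hh, map_one])
    have hτe' : ∀ h : H₁, τ (e₁ h) = j (φ (QuotientGroup.mk h) : ℂ) * e₁ h := hτe
    let τA : K₁ ≃ₐ[K] K₁ := AlgEquiv.ofRingEquiv (f := τ) hτi
    let S : (K₁ ⊗[K] U) ≃ₗ[K] (K₁ ⊗[K] U) :=
      TensorProduct.congr τA.toLinearEquiv (LinearEquiv.refl K U)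
    have hS : ∀ (a : K₁) (u : U), S (a ⊗ₜ[K] u) = τ a ⊗ₜ[K] u := fun _ _ => rfl
    have hSs : ∀ (k : K₁) (x : K₁ ⊗[K] U), S (k • x) = τ k • S x := by
      intro k x
      induction x using TensorProduct.induction_on with
      | zero => rw [smul_zero, map_zero, smul_zero]
      | tmul a u =>
        rw [TensorProduct.smul_tmul', hS, hS, TensorProduct.smul_tmul', smul_eq_mul,
          smul_eq_mul, map_mul]
      | add x y hx hy => rw [smul_add, map_add, hx, hy, map_add, smul_add]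
    have hST : ∀ (a : H₁) (x : K₁ ⊗[K] U), S (TB.T a x) = TB.T a (S x) := by
      intro a x
      induction x using TensorProduct.induction_on with
      | zero => rw [map_zero, map_zero, map_zero]
      | tmul b u => rw [hTB, hS, hS, hTB, htriv a a.2, htriv a a.2]
      | add x y hx hy => rw [map_add, map_add, hx, hy, map_add, map_add]
    have hiff : ∀ x : K₁ ⊗[K] U, x ∈ galEig j ρ 1 ↔ S x ∈ galEig j ρ φ := by
      intro x
      rw [hmem, hmem]
      refine forall_congr' fun a => ?_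
      have h1 : (j (((1 : Q →* ℂˣ) (QuotientGroup.mk a) : ℂˣ) : ℂ) * e₁ a) = e₁ a := by simp
      rw [h1, ← hST, ← hτe', ← hSs]
      exact S.injective.eq_iff.symm
    have hrk : Module.rank K₁ (galEig j ρ 1) = Module.rank K₁ (galEig j ρ φ) := by
      let E : galEig j ρ 1 ≃+ galEig j ρ φ :=
        { toFun := fun x => ⟨S x.1, (hiff x.1).1 x.2⟩
          invFun := fun y => ⟨S.symm y.1, (hiff _).2 (by
            rw [LinearEquiv.apply_symm_apply]; exact y.2)⟩
          left_inv := fun x => Subtype.ext (S.symm_apply_apply x.1)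
          right_inv := fun y => Subtype.ext (S.apply_symm_apply y.1)
          map_add' := fun x y => Subtype.ext (map_add S x.1 y.1) }
      exact rank_eq_of_equiv_equiv τ E τ.bijective fun k x => Subtype.ext (hSs k x.1)
    unfold Module.finrank
    rw [hrk]
  -- the twisted module structure on the eigenspace of the trivial character
  have hmem1 : ∀ x : K₁ ⊗[K] U, x ∈ galEig j ρ 1 ↔ ∀ a : H₁, TB.T a x = e₁ a • x := by
    intro x
    rw [hmem]
    refine forall_congr' fun a => ?_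
    have h1 : (j (((1 : Q →* ℂˣ) (QuotientGroup.mk a) : ℂˣ) : ℂ) * e₁ a) = e₁ a := by simp
    rw [h1]
  have hstab : ∀ (g : G) (x : K₁ ⊗[K] U), x ∈ galEig j ρ 1 → TB.T g x ∈ galEig j ρ 1 := by
    intro g x hx
    rw [hmem1] at hx ⊢
    intro a
    have hc : g⁻¹ * a * g ∈ H₁ := by
      have := (inferInstance : H₁.Normal).conj_mem a a.2 g⁻¹
      simpa using this
    have h1 : TB.T a (TB.T g x) = TB.T g (TB.T (g⁻¹ * a * g) x) := by
      rw [← TB.T_mul, ← TB.T_mul]
      congr 1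
      group
    rw [h1, hx ⟨g⁻¹ * a * g, hc⟩, TB.T_smul, hconj g a a.2]
  let T1 : TwMod σ₁ H₁ e₁ (galEig j ρ 1) :=
    { T := fun g =>
        { toFun := fun x => ⟨TB.T g x.1, hstab g x.1 x.2⟩
          map_zero' := Subtype.ext (map_zero _)
          map_add' := fun x y => Subtype.ext (map_add _ _ _) }
      T_one := fun u => Subtype.ext (TB.T_one u.1)
      T_mul := fun g g' u => Subtype.ext (TB.T_mul g g' u.1)
      T_smul := fun g k u => Subtype.ext (TB.T_smul g k u.1)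
      T_scal := fun h hh u => Subtype.ext ((hmem1 u.1).1 u.2 ⟨h, hh⟩) }
  have h1 := hdiv (galEig j ρ 1) T1
  have h2 : Module.finrank K U = Fintype.card Q * Module.finrank K₁ (galEig j ρ 1) := by
    rw [← Module.finrank_baseChange (R := K₁) (S := K) (M' := U), gal_finrank j ρ,
      Finset.sum_congr rfl fun φ _ => hsame φ, Finset.sum_const, Finset.card_univ, smul_eq_mul]
    congr 1
    rw [← Nat.card_eq_fintype_card, ← Nat.card_eq_fintype_card]
    exact CommGroup.card_monoidHom_of_hasEnoughRootsOfUnity Q ℂ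
  have h3 : Fintype.card Q = H.relIndex H₁ := by
    rw [← Nat.card_eq_fintype_card]
    rfl
  rw [h2, h3, mul_comm n]
  exact Nat.mul_dvd_mul_left _ h1

end RQ
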