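import Pool.Agent.Helper44.RQ.Defs

/-! Module `Lat2` of MP_27ef80_ag -/

set_option autoImplicit false
open scoped ComplexConjugate Matrix TensorProduct
open MeasureTheory

noncomputable section

namespace RQ

theorem exists_real_char {G : Type} [Group G] (hTF : TFree G) (H H₁ : Subgroup G)
    (hle : H ≤ H₁) [H.FiniteIndex] (habel : ∀ a ∈ H₁, ∀ b ∈ H₁, a * b * a⁻¹ * b⁻¹ ∈ H)
    (ψ : H₁ →* ℂˣ) (hψ : ∀ h : H₁, h.1 ∈ H → ψ h = 1) :
    ∃ l ∈ Lam H₁ (H : Set G), ∀ h : H₁,
      Complex.exp (-(2 * Real.pi * Complex.I * (l (Additive.ofMul h) : ℝ))) = ψ h := by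
  classical
  have hH1 : H₁.FiniteIndex := Subgroup.finiteIndex_of_le hle
  -- the kernel has finite index
  have hker : ψ.ker.FiniteIndex := by
    have h1 : (H.subgroupOf H₁).FiniteIndex := inferInstance
    apply Subgroup.finiteIndex_of_le (H := H.subgroupOf H₁)
    intro h hh
    exact (MonoidHom.mem_ker).mpr (hψ h (Subgroup.mem_subgroupOf.mp hh))
  set n : ℕ := ψ.ker.index with hn
  have hn0 : n ≠ 0 := hker.index_ne_zero
  have : NeZero n := ⟨hn0⟩
  have hpow : ∀ h : H₁, ψ h ^ n = 1 := by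
    intro h
    have h1 := Subgroup.pow_index_mem ψ.ker h
    rw [MonoidHom.mem_ker, map_pow] at h1
    exact h1
  have hprim := Complex.isPrimitiveRoot_exp n hn0
  set z : ℂˣ := Units.mk0 (Complex.exp (2 * Real.pi * Complex.I / n)) (Complex.exp_ne_zero _)
    with hz
  have hζ : IsPrimitiveRoot z n := by
    rw [← IsPrimitiveRoot.coe_units_iff]
    exact hprim
  have hmem : ∀ h : H₁, ψ h ∈ Subgroup.zpowers z := by
    intro h
    rw [hζ.zpowers_eq, mem_rootsOfUnity]
    exact hpow h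
  let ψ' : Additive H₁ →+ ZMod n :=
    (hζ.zmodEquivZPowers.symm : Additive (Subgroup.zpowers z) →+ ZMod n).comp
      (MonoidHom.toAdditive (ψ.codRestrict (Subgroup.zpowers z) hmem))
  obtain ⟨φ, hφ⟩ := hTF H₁ hH1 n (Nat.pos_of_ne_zero hn0) ψ'
  have key : ∀ h : H₁, z ^ (φ (Additive.ofMul h)) = ψ h := by
    intro h
    have h1 := hφ (Additive.ofMul h)
    have h2 : hζ.zmodEquivZPowers (ψ' (Additive.ofMul h)) =
        Additive.ofMul (⟨ψ h, hmem h⟩ : Subgroup.zpowers z) := by
      change hζ.zmodEquivZPowers (hζ.zmodEquivZPowers.symm _) = _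
      rw [AddEquiv.apply_symm_apply]
      rfl
    rw [← h1, hζ.zmodEquivZPowers_apply_coe_int] at h2
    have h3 := congrArg (fun x => (Additive.toMul x : Subgroup.zpowers z).1) h2
    exact h3
  have hexp : ∀ h : H₁, Complex.exp (2 * Real.pi * Complex.I * ((φ (Additive.ofMul h) : ℤ) : ℂ) / n)
      = ψ h := by
    intro h
    rw [← key h, hz]
    rw [Units.val_zpow_eq_zpow_val, Units.val_mk0, ← Complex.exp_int_mul]
    congr 1
    ring
  let l : TT H₁ :=
    { toFun := fun k => -((φ k : ℤ) : ℝ) / n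
      map_zero' := by simp
      map_add' := by
        intro a b
        rw [map_add]
        push_cast
        ring }
  have hl : ∀ k, l k = -((φ k : ℤ) : ℝ) / n := fun k => rfl
  refine ⟨l, ?_, ?_⟩
  · intro h hh
    have h1 := hexp h
    rw [hψ h hh, Units.val_one, Complex.exp_eq_one_iff] at h1
    obtain ⟨m, hm⟩ := h1
    refine ⟨-m, ?_⟩
    rw [hl]
    have hn' : (n : ℂ) ≠ 0 := Nat.cast_ne_zero.mpr hn0
    have hpi : (2 * Real.pi * Complex.I : ℂ) ≠ 0 := Complex.two_pi_I_ne_zero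
    have h2 : ((φ (Additive.ofMul h) : ℤ) : ℂ) / n = m := by
      have h3 : (2 * Real.pi * Complex.I : ℂ) * (((φ (Additive.ofMul h) : ℤ) : ℂ) / n) =
          (2 * Real.pi * Complex.I : ℂ) * m := by
        rw [← mul_div_assoc, hm]
        ring
      exact mul_left_cancel₀ hpi h3
    have h4 : ((φ (Additive.ofMul h) : ℤ) : ℝ) / n = m := by
      have : (((((φ (Additive.ofMul h) : ℤ) : ℝ) / n : ℝ)) : ℂ) = ((m : ℝ) : ℂ) := by
        push_cast
        exact h2
      exact_mod_cast this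
    rw [neg_div, h4]
    push_cast
    ring
  · intro h
    rw [← hexp h, hl]
    congr 1
    push_cast
    ring

end RQ
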