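import Pool.Agent.Helper44.RQ.Gal
import Pool.Agent.Helper44.RQ.Lat2

/-! Module `GalF` of MP_27ef80_ag -/

set_option autoImplicit false
open scoped ComplexConjugate Matrix TensorProduct
open MeasureTheory

noncomputable section

namespace RQ

/-- real analytic functions are stable under translations -/
theorem galF_shift_analytic {V : Type} [AddCommGroup V] [Module ℝ V] (Λ : AddSubgroup V)
    (f : AnR V Λ) (l : V) (n : ℕ) (L : (Fin n → ℝ) →ₗ[ℝ] V) :
    AnalyticOnNhd ℝ (fun y => f.1 (L y + l)) Set.univ := by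
  let L' : (Fin (n + 1) → ℝ) →ₗ[ℝ] V :=
    { toFun := fun y => L (fun i => y i.castSucc) + y (Fin.last n) • l
      map_add' := fun x y => by
        have : (fun i : Fin n => (x + y) i.castSucc) =
          (fun i => x i.castSucc) + fun i => y i.castSucc := rfl
        rw [this, map_add, Pi.add_apply, add_smul]
        abel
      map_smul' := fun c x => by
        have : (fun i : Fin n => (c • x) i.castSucc) = c • fun i => x i.castSucc := rfl
        rw [this, map_smul, Pi.smul_apply, smul_eq_mul, mul_smul, RingHom.id_apply, smul_add] }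
  have h1 := f.2.1 (n + 1) L'
  let A : (Fin n → ℝ) → (Fin (n + 1) → ℝ) := fun y => Fin.snoc (α := fun _ => ℝ) y 1
  have hA : AnalyticOnNhd ℝ A Set.univ := by
    rw [show A = fun y => fun i => Fin.snoc (α := fun _ => ℝ) y 1 i from rfl]
    rw [analyticOnNhd_pi_iff]
    intro i
    refine Fin.lastCases ?_ (fun j => ?_) i
    · simp only [Fin.snoc_last]
      exact analyticOnNhd_const
    · simp only [Fin.snoc_castSucc]
      exact (ContinuousLinearMap.proj (R := ℝ) (φ := fun _ : Fin n => ℝ) j).analyticOnNhd _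
  have h2 := h1.comp hA (Set.mapsTo_univ _ _)
  have h3 : ((fun y => f.1 (L' y)) ∘ A) = fun y => f.1 (L y + l) := by
    funext y
    change f.1 (L (fun i => A y i.castSucc) + A y (Fin.last n) • l) = _
    simp only [A, Fin.snoc_castSucc, Fin.snoc_last, one_smul]
  rw [h3] at h2
  exact h2

/-- translation by `l` -/
def galF_shift {V : Type} [AddCommGroup V] [Module ℝ V] (Λ : AddSubgroup V) (l : V) :
    AnR V Λ ≃+* AnR V Λ where
  toFun f := ⟨fun u => f.1 (u + l), fun n L => galF_shift_analytic Λ f l n L, fun k hk u => by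
    change f.1 (u + k + l) = f.1 (u + l)
    rw [add_right_comm]
    exact f.2.2 _ hk _⟩
  invFun f := ⟨fun u => f.1 (u + -l), fun n L => galF_shift_analytic Λ f (-l) n L, fun k hk u => by
    change f.1 (u + k + -l) = f.1 (u + -l)
    rw [add_right_comm]
    exact f.2.2 _ hk _⟩
  left_inv f := by
    apply Subtype.ext
    funext u
    change f.1 (u + -l + l) = f.1 u
    rw [neg_add_cancel_right]
  right_inv f := by
    apply Subtype.ext
    funext u
    change f.1 (u + l + -l) = f.1 u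
    rw [add_neg_cancel_right]
  map_mul' _ _ := rfl
  map_add' _ _ := rfl

theorem galF_shift_apply {V : Type} [AddCommGroup V] [Module ℝ V] (Λ : AddSubgroup V) (l : V)
    (f : AnR V Λ) (u : V) : (galF_shift Λ l f).1 u = f.1 (u + l) := rfl

/-- constants -/
def galF_const (V : Type) [AddCommGroup V] [Module ℝ V] (Λ : AddSubgroup V) : ℂ →+* AnR V Λ where
  toFun c := ⟨fun _ => c, fun _ _ => analyticOnNhd_const, fun _ _ _ => rfl⟩
  map_one' := rfl
  map_mul' _ _ := rfl
  map_zero' := rfl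
  map_add' _ _ := rfl

theorem galF_TTrep_triv {G : Type} [Group G] (H₁ : Subgroup G) [H₁.Normal] (h : G) (hh : h ∈ H₁)
    (u : TT H₁) : TTrep H₁ h u = u := by
  apply DFunLike.ext
  intro x
  change u (Additive.ofMul (MulAut.conjNormal h⁻¹ x.toMul)) = u x
  have h1 : MulAut.conjNormal h⁻¹ x.toMul = (⟨h, hh⟩ : H₁)⁻¹ * x.toMul * ⟨h, hh⟩ := by
    apply Subtype.ext
    rw [MulAut.conjNormal_apply]
    simp
  rw [h1, ofMul_mul, ofMul_mul, map_add, map_add, ofMul_inv, map_neg]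
  change -_ + u x + _ = u x
  ring

theorem galF_eFn_conj {G : Type} [Group G] (H₁ : Subgroup G) [H₁.Normal] (S : Set G) (g h : G)
    (hh : h ∈ H₁) (hS : h ∈ S) (hS' : g⁻¹ * h * g ∈ S) (u : TT H₁) :
    (eFn H₁ S (g⁻¹ * h * g)).1 (TTrep H₁ g⁻¹ u) = (eFn H₁ S h).1 u := by
  have h1 : g⁻¹ * h * g ∈ H₁ := by
    have := Subgroup.Normal.conj_mem (inferInstance : H₁.Normal) h hh g⁻¹
    rwa [inv_inv] at this
  rw [eFn_apply H₁ S _ h1 hS', eFn_apply H₁ S h hh hS, TTrep_apply]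
  have h2 : MulAut.conjNormal g⁻¹⁻¹ (⟨g⁻¹ * h * g, h1⟩ : H₁) = ⟨h, hh⟩ := by
    apply Subtype.ext
    rw [MulAut.conjNormal_apply]
    group
  rw [h2]

/-- the Galois step for fraction fields of abstract domains -/
theorem galF_core {G R R₁ K K₁ : Type} [Group G] [CommRing R] [IsDomain R] [CommRing R₁]
    [IsDomain R₁] [Field K] [Field K₁] [Algebra R K] [IsFractionRing R K] [Algebra R₁ K₁]
    [IsFractionRing R₁ K₁] (p : R →+* R₁) (hpinj : Function.Injective p) (c : ℂ →+* R₁)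
    (σ : G →* (R →+* R)) (σ₁ : G →* (R₁ →+* R₁)) (hσ : ∀ g x, σ₁ g (p x) = p (σ g x))
    (hc : ∀ g z, σ₁ g (c z) = c z) (H H₁ : Subgroup G) [H.FiniteIndex] [H.Normal] [H₁.Normal]
    (hle : H ≤ H₁) (habel : ∀ a ∈ H₁, ∀ b ∈ H₁, a * b * a⁻¹ * b⁻¹ ∈ H) (e : G → R) (e₁ : G → R₁)
    (he : ∀ h ∈ H, p (e h) = e₁ h) (hmul : ∀ a ∈ H₁, ∀ b ∈ H₁, e₁ (a * b) = e₁ a * e₁ b)
    (hne : ∀ a ∈ H₁, e₁ a ≠ 0) (hconj : ∀ g, ∀ h ∈ H₁, σ₁ g (e₁ (g⁻¹ * h * g)) = e₁ h)
    (htriv : ∀ h ∈ H₁, ∀ x, σ₁ h x = x)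
    (htau : ∀ ψ : H₁ →* ℂˣ, (∀ h : H₁, h.1 ∈ H → ψ h = 1) → ∃ τ : R₁ ≃+* R₁,
      (∀ x, τ (p x) = p x) ∧ (∀ z, τ (c z) = c z) ∧ ∀ h : H₁, τ (e₁ h) = c (ψ h) * e₁ h)
    (n : ℕ) (h : Div (frAct K₁ σ₁) H₁ (fun g => algebraMap R₁ K₁ (e₁ g)) n) :
    Div (frAct K σ) H (fun g => algebraMap R K (e g)) (n * H.relIndex H₁) := by
  let i : K →+* K₁ := IsFractionRing.map hpinj
  have hi : ∀ x : R, i (algebraMap R K x) = algebraMap R₁ K₁ (p x) := fun x =>
    IsLocalization.map_eq _ x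
  refine div_galois i ((algebraMap R₁ K₁).comp c) (frAct K σ) (frAct K₁ σ₁) ?_ ?_ H H₁ hle habel
    _ (fun g => algebraMap R₁ K₁ (e₁ g)) ?_ ?_ ?_ ?_ ?_ ?_ n h
  · intro g k
    have : (frAct K₁ σ₁ g).comp i = i.comp (frAct K σ g) := by
      apply IsFractionRing.injective_comp_algebraMap (A := R)
      apply RingHom.ext
      intro x
      simp only [RingHom.comp_apply]
      rw [hi, frAct_algebraMap, frAct_algebraMap, hi, hσ]
    exact congrArg (fun f => f k) this
  · intro g z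
    rw [RingHom.comp_apply, frAct_algebraMap, hc]
  · intro x hx
    rw [hi, he x hx]
  · intro a ha b hb
    rw [hmul a ha b hb, map_mul]
  · intro a ha h0
    exact hne a ha ((map_eq_zero_iff _ (IsFractionRing.injective R₁ K₁)).mp h0)
  · intro g x hx
    rw [frAct_algebraMap, hconj g x hx]
  · intro x hx k
    have : frAct K₁ σ₁ x = RingHom.id _ := by
      apply IsFractionRing.injective_comp_algebraMap (A := R₁)
      apply RingHom.ext
      intro y
      simp only [RingHom.comp_apply, RingHom.id_apply]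
      rw [frAct_algebraMap, htriv x hx]
    rw [this, RingHom.id_apply]
  · intro ψ hψ
    obtain ⟨s, hs1, hs2, hs3⟩ := htau ψ hψ
    let τ : K₁ ≃+* K₁ := IsFractionRing.ringEquivOfRingEquiv s
    have hτ : ∀ x : R₁, τ (algebraMap R₁ K₁ x) = algebraMap R₁ K₁ (s x) := fun x =>
      IsFractionRing.ringEquivOfRingEquiv_algebraMap s x
    refine ⟨τ, ?_, ?_, ?_⟩
    · intro k
      have : (τ : K₁ →+* K₁).comp i = i := by
        apply IsFractionRing.injective_comp_algebraMap (A := R)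
        apply RingHom.ext
        intro x
        simp only [RingHom.comp_apply, RingHom.coe_coe]
        rw [hi, hτ, hs1]
      exact congrArg (fun f => f k) this
    · intro z
      rw [RingHom.comp_apply, hτ, hs2]
    · intro x
      rw [hτ, hs3, map_mul]
      rfl

theorem divF_galois {G : Type} [Group G] [Group.FG G] (hTF : TFree G) (H H₁ : Subgroup G)
    (hle : H ≤ H₁) [H.FiniteIndex] [H₁.FiniteIndex] [H.Normal] [H₁.Normal]
    (habel : ∀ a ∈ H₁, ∀ b ∈ H₁, a * b * a⁻¹ * b⁻¹ ∈ H) (n : ℕ) (h : DivF H₁ H₁ n) :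
    DivF H₁ H (n * H.relIndex H₁) := by
  have hΛ : ∀ l ∈ Lam H₁ (H₁ : Set G), (LinearMap.id (R := ℝ) (M := TT H₁)) l ∈
      Lam H₁ (H : Set G) := fun l hl x hx => hl x (hle hx)
  let p : AnR (TT H₁) (Lam H₁ (H : Set G)) →+* AnR (TT H₁) (Lam H₁ (H₁ : Set G)) :=
    pull LinearMap.id _ _ hΛ
  have hp : ∀ f u, (p f).1 u = f.1 u := fun f u => rfl
  have hpinj : Function.Injective p := by
    intro f f' hff
    apply Subtype.ext
    funext u
    rw [← hp, ← hp, hff]
  refine galF_core p hpinj (galF_const _ _) (actR (TTrep H₁) (Lam H₁ (H : Set G)) (TTrep_Lam H₁ H))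
    (actR (TTrep H₁) (Lam H₁ (H₁ : Set G)) (TTrep_Lam H₁ H₁)) (fun _ _ => rfl) (fun _ _ => rfl)
    H H₁ hle habel (eFn H₁ (H : Set G)) (eFn H₁ (H₁ : Set G)) ?_ ?_ ?_ ?_ ?_ ?_ n h
  · intro x hx
    apply Subtype.ext
    funext u
    rw [hp, eFn_apply H₁ _ x (hle hx) hx, eFn_apply H₁ _ x (hle hx) (hle hx)]
  · intro a ha b hb
    apply Subtype.ext
    funext u
    change _ = (eFn H₁ (H₁ : Set G) a).1 u * (eFn H₁ (H₁ : Set G) b).1 u
    rw [eFn_apply H₁ _ _ (H₁.mul_mem ha hb) (H₁.mul_mem ha hb), eFn_apply H₁ _ a ha ha,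
      eFn_apply H₁ _ b hb hb, ← Complex.exp_add]
    congr 1
    have h1 : (⟨a * b, H₁.mul_mem ha hb⟩ : H₁) = ⟨a, ha⟩ * ⟨b, hb⟩ := rfl
    rw [h1, ofMul_mul, map_add]
    push_cast
    ring
  · intro a ha h1
    have h2 : (eFn H₁ (H₁ : Set G) a).1 0 = 0 := by rw [h1]; rfl
    rw [eFn_apply H₁ _ a ha ha] at h2
    exact Complex.exp_ne_zero _ h2
  · intro g x hx
    apply Subtype.ext
    funext u
    rw [actR_apply]
    apply galF_eFn_conj H₁ _ g x hx hx
    have := Subgroup.Normal.conj_mem (inferInstance : H₁.Normal) x hx g⁻¹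
    rwa [inv_inv] at this
  · intro x hx y
    apply Subtype.ext
    funext u
    rw [actR_apply, galF_TTrep_triv H₁ x⁻¹ (H₁.inv_mem hx)]
  · intro ψ hψ
    obtain ⟨l, hl, hl'⟩ := exists_real_char hTF H H₁ hle habel ψ hψ
    refine ⟨galF_shift (Lam H₁ (H₁ : Set G)) l, ?_, fun _ => rfl, ?_⟩
    · intro x
      apply Subtype.ext
      funext u
      rw [galF_shift_apply, hp, hp]
      exact x.2.2 l hl u
    · intro x
      apply Subtype.ext
      funext u
      rw [galF_shift_apply]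
      change _ = (ψ x : ℂ) * (eFn H₁ (H₁ : Set G) x).1 u
      rw [eFn_apply H₁ _ x.1 x.2 x.2, eFn_apply H₁ _ x.1 x.2 x.2, ← hl' x, ← Complex.exp_add]
      congr 1
      rw [AddMonoidHom.add_apply]
      push_cast
      ring

end RQ
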