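import Pool.Agent.Helper44.RQ.Defs

/-! Module `HPa` of MP_27ef80_ag -/

set_option autoImplicit false
open scoped ComplexConjugate Matrix TensorProduct
open MeasureTheory

noncomputable section

namespace RQ

/-- finite difference -/
def fdiff (f : ℕ → ℤ) (n : ℕ) : ℤ := f (n + 1) - f n

/-- the `m`-th difference is eventually constant -/
def hpaEC (m : ℕ) (F : ℕ → ℤ) : Prop :=
  ∃ (c : ℤ) (n₀ : ℕ), ∀ n, n₀ ≤ n → fdiff^[m] F n = c

lemma hpa_agree (N : ℕ) : ∀ (m : ℕ) (F G : ℕ → ℤ), (∀ n, N ≤ n → F n = G n) →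
    ∀ n, N ≤ n → fdiff^[m] F n = fdiff^[m] G n
  | 0, _, _, h => h
  | (m+1), F, G, h => by
      intro n hn
      rw [Function.iterate_succ_apply, Function.iterate_succ_apply]
      refine hpa_agree N m (fdiff F) (fdiff G) (fun k hk => ?_) n hn
      unfold fdiff
      rw [h k hk, h (k+1) (by omega)]

lemma hpa_congr {m : ℕ} {F G : ℕ → ℤ} (N : ℕ) (h : ∀ n, N ≤ n → F n = G n) (hF : hpaEC m F) :
    hpaEC m G := by
  obtain ⟨c, n₀, hc⟩ := hF
  refine ⟨c, max N n₀, fun n hn => ?_⟩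
  rw [← hpa_agree N m F G h n (le_trans (le_max_left _ _) hn)]
  exact hc n (le_trans (le_max_right _ _) hn)

lemma hpa_add_eq : ∀ (m : ℕ) (F G : ℕ → ℤ) (n : ℕ),
    fdiff^[m] (fun n => F n + G n) n = fdiff^[m] F n + fdiff^[m] G n
  | 0, _, _, _ => rfl
  | (m+1), F, G, n => by
      rw [Function.iterate_succ_apply, Function.iterate_succ_apply, Function.iterate_succ_apply,
        ← hpa_add_eq m]
      refine hpa_agree 0 m _ _ (fun k _ => ?_) n (Nat.zero_le n)
      unfold fdiff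
      ring

lemma hpa_add {m : ℕ} {F G : ℕ → ℤ} (hF : hpaEC m F) (hG : hpaEC m G) :
    hpaEC m (fun n => F n + G n) := by
  obtain ⟨c, n₀, hc⟩ := hF
  obtain ⟨c', n₀', hc'⟩ := hG
  refine ⟨c + c', max n₀ n₀', fun n hn => ?_⟩
  rw [hpa_add_eq, hc n (le_trans (le_max_left _ _) hn), hc' n (le_trans (le_max_right _ _) hn)]

lemma hpa_zero : ∀ (m n : ℕ), fdiff^[m] (fun _ => 0) n = 0
  | 0, _ => rfl
  | (m+1), n => by
      rw [Function.iterate_succ_apply]
      have : fdiff (fun _ => 0) = fun _ => 0 := by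
        funext k
        unfold fdiff
        ring
      rw [this]
      exact hpa_zero m n

lemma hpa_sum {ι : Type*} (m : ℕ) (s : Finset ι) (F : ι → ℕ → ℤ) (h : ∀ i ∈ s, hpaEC m (F i)) :
    hpaEC m (fun n => ∑ i ∈ s, F i n) := by
  classical
  induction s using Finset.induction_on with
  | empty =>
    refine ⟨0, 0, fun n _ => ?_⟩
    have : (fun n => ∑ i ∈ (∅ : Finset ι), F i n) = fun _ => 0 := by
      funext n
      exact Finset.sum_empty
    rw [this]
    exact hpa_zero m n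
  | insert a s ha ih =>
    have h1 := hpa_add (h a (Finset.mem_insert_self a s))
      (ih fun i hi => h i (Finset.mem_insert_of_mem hi))
    refine hpa_congr 0 (fun n _ => ?_) h1
    rw [Finset.sum_insert ha]

lemma hpa_shift_eq (a : ℕ) : ∀ (m : ℕ) (F : ℕ → ℤ) (n : ℕ), a ≤ n →
    fdiff^[m] (fun n => F (n - a)) n = fdiff^[m] F (n - a)
  | 0, _, _, _ => rfl
  | (m+1), F, n, hn => by
      rw [Function.iterate_succ_apply, Function.iterate_succ_apply,
        ← hpa_shift_eq a m (fdiff F) n hn]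
      refine hpa_agree a m _ _ (fun k hk => ?_) n hn
      change F (k + 1 - a) - F (k - a) = F (k - a + 1) - F (k - a)
      rw [show k + 1 - a = k - a + 1 by omega]

lemma hpa_shift {m : ℕ} {F : ℕ → ℤ} (a : ℕ) (hF : hpaEC m F) : hpaEC m (fun n => F (n - a)) := by
  obtain ⟨c, n₀, hc⟩ := hF
  refine ⟨c, n₀ + a, fun n hn => ?_⟩
  rw [hpa_shift_eq a m F n (by omega)]
  exact hc _ (by omega)

lemma hpa_succ {m : ℕ} {F : ℕ → ℤ} (hF : hpaEC m F) : hpaEC (m+1) F := by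
  obtain ⟨c, n₀, hc⟩ := hF
  refine ⟨0, n₀, fun n hn => ?_⟩
  rw [Function.iterate_succ_apply']
  change fdiff^[m] F (n + 1) - fdiff^[m] F n = 0
  rw [hc n hn, hc (n+1) (by omega), sub_self]

lemma hpa_of_diff {m : ℕ} {F : ℕ → ℤ} (hF : hpaEC m (fdiff F)) : hpaEC (m+1) F := by
  obtain ⟨c, n₀, hc⟩ := hF
  refine ⟨c, n₀, fun n hn => ?_⟩
  rw [Function.iterate_succ_apply]
  exact hc n hn

/-- counting function -/
def hpaF {m : ℕ} (D : Set (Fin m → ℕ)) (n : ℕ) : ℤ :=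
  (Set.ncard {α : Fin m → ℕ | α ∈ D ∧ ∑ i, α i ≤ n} : ℤ)

lemma hpa_fin {m : ℕ} (D : Set (Fin m → ℕ)) (n : ℕ) :
    {α : Fin m → ℕ | α ∈ D ∧ ∑ i, α i ≤ n}.Finite := by
  refine (Set.finite_Iic (fun _ : Fin m => n)).subset ?_
  rintro α ⟨_, hα⟩ i
  exact le_trans (Finset.single_le_sum (f := fun i => α i) (fun _ _ => Nat.zero_le _)
    (Finset.mem_univ i)) hα

/-- the slices -/
def hpaSl {m : ℕ} (D : Set (Fin (m+1) → ℕ)) (c : ℕ) : Set (Fin m → ℕ) :=
  {β | (Fin.cons c β : Fin (m+1) → ℕ) ∈ D}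

lemma hpa_slices {m : ℕ} (D : Set (Fin (m+1) → ℕ)) (n : ℕ) :
    hpaF D n = ∑ c ∈ Finset.range (n+1), hpaF (hpaSl D c) (n - c) := by
  have e : {α : Fin (m+1) → ℕ | α ∈ D ∧ ∑ i, α i ≤ n} ≃
      Σ c : Fin (n+1), {β : Fin m → ℕ | β ∈ hpaSl D c ∧ ∑ i, β i ≤ n - c} :=
    { toFun := fun α => ⟨⟨α.1 0, by
          have h := α.2.2
          rw [Fin.sum_univ_succ] at h
          omega⟩, ⟨Fin.tail α.1, by
          have h := α.2.2
          rw [Fin.sum_univ_succ] at h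
          refine ⟨?_, ?_⟩
          · change (Fin.cons (α.1 0) (Fin.tail α.1) : Fin (m+1) → ℕ) ∈ D
            rw [Fin.cons_self_tail]
            exact α.2.1
          · change ∑ i, Fin.tail α.1 i ≤ n - α.1 0
            unfold Fin.tail
            omega⟩⟩
      invFun := fun p => ⟨Fin.cons p.1.1 p.2.1, p.2.2.1, by
          rw [Fin.sum_univ_succ]
          simp only [Fin.cons_zero, Fin.cons_succ]
          have h1 := p.2.2.2
          have h2 := p.1.2
          omega⟩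
      left_inv := fun α => by
        apply Subtype.ext
        exact Fin.cons_self_tail α.1
      right_inv := fun p => by
        obtain ⟨⟨c, hc⟩, ⟨β, hβ⟩⟩ := p
        rfl }
  unfold hpaF
  rw [← Nat.card_coe_set_eq, Nat.card_congr e]
  have hfin : ∀ c : Fin (n+1), Finite ↥{β : Fin m → ℕ | β ∈ hpaSl D c ∧ ∑ i, β i ≤ n - c} :=
    fun c => (hpa_fin (hpaSl D c) (n - c)).to_subtype
  rw [Nat.card_sigma, Nat.cast_sum, ← Fin.sum_univ_eq_sum_range
    (fun c => ((Set.ncard {α : Fin m → ℕ | α ∈ hpaSl D c ∧ ∑ i, α i ≤ n - c} : ℕ) : ℤ)) (n+1)]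
  refine Finset.sum_congr rfl fun c _ => ?_
  rw [Nat.card_coe_set_eq]

lemma hpa_sl_lower {m : ℕ} (D : Set (Fin (m+1) → ℕ)) (hD : IsLowerSet D) (c : ℕ) :
    IsLowerSet (hpaSl D c) := by
  intro β γ h hβ
  refine hD ?_ hβ
  intro i
  refine Fin.cases ?_ (fun j => ?_) i
  · exact le_rfl
  · exact h j

lemma hpa_sl_anti {m : ℕ} (D : Set (Fin (m+1) → ℕ)) (hD : IsLowerSet D) {c c' : ℕ}
    (h : c ≤ c') : hpaSl D c' ⊆ hpaSl D c := by
  intro β hβ
  refine hD ?_ hβ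
  intro i
  refine Fin.cases ?_ (fun j => ?_) i
  · exact h
  · exact le_rfl

lemma hpa_stab {m : ℕ} (D : Set (Fin (m+1) → ℕ)) (hD : IsLowerSet D) :
    ∃ c₀, ∀ c, c₀ ≤ c → hpaSl D c = hpaSl D c₀ := by
  by_contra hcon
  push Not at hcon
  -- strictly decreasing steps
  have h1 : ∀ c₀, ∃ c, c₀ ≤ c ∧ ∃ β, β ∈ hpaSl D c₀ ∧ β ∉ hpaSl D c := by
    intro c₀
    obtain ⟨c, hc, hne⟩ := hcon c₀
    refine ⟨c, hc, ?_⟩
    by_contra h
    push Not at h
    exact hne (Set.Subset.antisymm (hpa_sl_anti D hD hc) (fun β hβ => h β hβ))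
  choose nx hnx β hβ1 hβ2 using h1
  -- the sequence of levels
  let l : ℕ → ℕ := fun i => nx^[i] 0
  have hl : ∀ i, l (i+1) = nx (l i) := fun i => Function.iterate_succ_apply' nx i 0
  have hmono : Monotone l := monotone_nat_of_le_succ fun i => by rw [hl]; exact hnx _
  obtain ⟨i, j, hij, hle⟩ := wellQuasiOrdered_le (fun i => β (l i))
  have h2 : β (l j) ∈ hpaSl D (nx (l i)) := by
    refine hpa_sl_anti D hD ?_ (hβ1 (l j))
    rw [← hl]
    exact hmono hij
  exact hβ2 (l i) (hpa_sl_lower D hD _ hle h2)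

lemma hpa_main : ∀ (m : ℕ) (D : Set (Fin m → ℕ)), IsLowerSet D → hpaEC m (hpaF D)
  | 0, D, _ => by
      refine ⟨hpaF D 0, 0, fun n _ => ?_⟩
      change hpaF D n = hpaF D 0
      unfold hpaF
      congr 2
      ext α
      simp
  | (m+1), D, hD => by
      obtain ⟨c₁, hc₁⟩ := hpa_stab D hD
      obtain ⟨c₀, hc1, hc₀⟩ : ∃ c₀, 1 ≤ c₀ ∧ ∀ c, c₀ ≤ c → hpaSl D c = hpaSl D c₀ :=
        ⟨c₁ + 1, by omega, fun c hc => by rw [hc₁ c (by omega), hc₁ (c₁+1) (by omega)]⟩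
      have ih : ∀ c, hpaEC m (hpaF (hpaSl D c)) := fun c =>
        hpa_main m _ (hpa_sl_lower D hD c)
      -- the tail
      let S : ℕ → ℤ := fun n => ∑ i ∈ Finset.range (n + 1 - c₀), hpaF (hpaSl D c₀) i
      have hS : hpaEC (m+1) S := by
        apply hpa_of_diff
        refine hpa_congr c₀ (fun n hn => ?_) (hpa_shift (c₀ - 1) (ih c₀))
        change hpaF (hpaSl D c₀) (n - (c₀ - 1)) =
          ∑ i ∈ Finset.range (n + 1 + 1 - c₀), hpaF (hpaSl D c₀) i -
            ∑ i ∈ Finset.range (n + 1 - c₀), hpaF (hpaSl D c₀) i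
        rw [show n + 1 + 1 - c₀ = (n + 1 - c₀) + 1 by omega, Finset.sum_range_succ,
          show n - (c₀ - 1) = n + 1 - c₀ by omega]
        ring
      refine hpa_congr c₀ (fun n hn => ?_) (hpa_add (hpa_sum (m+1) (Finset.range c₀)
        (fun c n => hpaF (hpaSl D c) (n - c)) fun c _ => hpa_succ (hpa_shift c (ih c))) hS)
      rw [hpa_slices D n, ← Finset.sum_range_add_sum_Ico _ (show c₀ ≤ n + 1 by omega)]
      congr 1
      rw [Finset.sum_Ico_eq_sum_range, ← Finset.sum_range_reflect]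
      refine Finset.sum_congr rfl fun i hi => ?_
      rw [Finset.mem_range] at hi
      rw [hc₀ (c₀ + (n + 1 - c₀ - 1 - i)) (by omega)]
      congr 1
      omega

/-- the counting function of a lower set of `ℕ^m` has eventually constant `m`-th difference -/
theorem lower_count (m : ℕ) (D : Set (Fin m → ℕ)) (hD : IsLowerSet D) :
    ∃ (c : ℤ) (n₀ : ℕ), ∀ n, n₀ ≤ n →
      fdiff^[m] (fun n => (Set.ncard {α : Fin m → ℕ | α ∈ D ∧ ∑ i, α i ≤ n} : ℤ)) n = c :=
  hpa_main m D hD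

end RQ
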