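import Pool.Agent.Helper44.RQ.HPa

/-! Module `HPb` of MP_27ef80_ag -/

set_option autoImplicit false
open scoped ComplexConjugate Matrix TensorProduct
open MeasureTheory

noncomputable section

namespace RQ

lemma hpb_insert {k U : Type*} [Field k] [AddCommGroup U] [Module k U] (S : Submodule k U)
    [FiniteDimensional k S] (v : U) (hv : v ∉ S) :
    Module.finrank k ↥(S ⊔ Submodule.span k {v}) = Module.finrank k S + 1 := by
  have h1 := Submodule.finrank_sup_add_finrank_inf_eq S (Submodule.span k {v})
  have h2 : S ⊓ Submodule.span k {v} = ⊥ := by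
    rw [Submodule.eq_bot_iff]
    rintro x ⟨hx1, hx2⟩
    obtain ⟨c, rfl⟩ := Submodule.mem_span_singleton.1 hx2
    by_cases hc : c = 0
    · rw [hc, zero_smul]
    · exfalso
      apply hv
      have := S.smul_mem c⁻¹ hx1
      rwa [smul_smul, inv_mul_cancel₀ hc, one_smul] at this
  have h3 : v ≠ 0 := fun h => hv (h ▸ S.zero_mem)
  rw [h2, finrank_bot, add_zero, finrank_span_singleton h3] at h1
  exact h1

/-- counting the standard vectors -/
lemma hpb_count {k U I L : Type*} [Field k] [AddCommGroup U] [Module k U] [LinearOrder L]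
    (κ : I → L) (hκ : Function.Injective κ) (w : I → U) : ∀ (n : ℕ) (A : Finset I), A.card = n →
    Module.finrank k (Submodule.span k (w '' (A : Set I))) =
      Set.ncard {i : I | i ∈ A ∧ w i ∉ Submodule.span k (w '' {j | j ∈ A ∧ κ j < κ i})} := by
  classical
  intro n
  induction n with
  | zero =>
    intro A hA
    have h1 : {i : I | i ∈ A ∧ w i ∉ Submodule.span k (w '' {j | j ∈ A ∧ κ j < κ i})} = ∅ := by
      rw [Set.eq_empty_iff_forall_notMem]
      rintro i ⟨hi, _⟩
      rw [Finset.card_eq_zero.1 hA] at hi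
      exact absurd hi (Finset.notMem_empty i)
    rw [h1, Finset.card_eq_zero.1 hA, Finset.coe_empty, Set.image_empty, Submodule.span_empty,
      finrank_bot, Set.ncard_empty]
  | succ n ih =>
    intro A hA
    have hne : A.Nonempty := by
      rw [← Finset.card_pos, hA]
      omega
    obtain ⟨a, ha, hmax⟩ := Finset.exists_max_image A κ hne
    have hA' : (A.erase a).card = n := by
      rw [Finset.card_erase_of_mem ha, hA]
      rfl
    have h1 := ih (A.erase a) hA'
    -- the smaller elements
    have h2 : ∀ i ∈ A.erase a, {j | j ∈ A ∧ κ j < κ i} = {j | j ∈ A.erase a ∧ κ j < κ i} := by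
      intro i hi
      ext j
      simp only [Set.mem_ofPred_eq, Finset.mem_erase]
      constructor
      · rintro ⟨hj, hlt⟩
        refine ⟨⟨?_, hj⟩, hlt⟩
        rintro rfl
        exact absurd (hmax i (Finset.mem_of_mem_erase hi)) (not_le.2 hlt)
      · rintro ⟨⟨_, hj⟩, hlt⟩
        exact ⟨hj, hlt⟩
    have h3 : {j | j ∈ A ∧ κ j < κ a} = ((A.erase a : Finset I) : Set I) := by
      ext j
      simp only [Set.mem_ofPred_eq, Finset.coe_erase, Set.mem_sdiff, Finset.mem_coe,
        Set.mem_singleton_iff]
      constructor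
      · rintro ⟨hj, hlt⟩
        exact ⟨hj, fun h => absurd hlt (by rw [h]; exact lt_irrefl _)⟩
      · rintro ⟨hj, hne⟩
        exact ⟨hj, lt_of_le_of_ne (hmax j hj) fun h => hne (hκ h)⟩
    have h4 : w '' (A : Set I) = insert (w a) (w '' ((A.erase a : Finset I) : Set I)) := by
      conv_lhs => rw [← Finset.insert_erase ha]
      rw [Finset.coe_insert, Set.image_insert_eq]
    have hfin : FiniteDimensional k ↥(Submodule.span k (w '' ((A.erase a : Finset I) : Set I))) :=
      FiniteDimensional.span_of_finite k (Set.Finite.image w (Finset.finite_toSet _))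
    have hfin2 : {i : I | i ∈ A.erase a ∧
        w i ∉ Submodule.span k (w '' {j | j ∈ A.erase a ∧ κ j < κ i})}.Finite :=
      (Finset.finite_toSet (A.erase a)).subset fun i hi => hi.1
    rw [h4, Submodule.span_insert]
    by_cases hmem : w a ∈ Submodule.span k (w '' ((A.erase a : Finset I) : Set I))
    · have h5 : Submodule.span k {w a} ⊔ Submodule.span k (w '' ((A.erase a : Finset I) : Set I)) =
          Submodule.span k (w '' ((A.erase a : Finset I) : Set I)) := by
        rw [sup_eq_right, Submodule.span_singleton_le_iff_mem]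
        exact hmem
      rw [h5, h1]
      congr 1
      ext i
      simp only [Set.mem_ofPred_eq]
      constructor
      · rintro ⟨hi, hw⟩
        refine ⟨Finset.mem_of_mem_erase hi, ?_⟩
        rw [h2 i hi]
        exact hw
      · rintro ⟨hi, hw⟩
        have hia : i ≠ a := by
          rintro rfl
          rw [h3] at hw
          exact hw hmem
        have hi' := Finset.mem_erase.2 ⟨hia, hi⟩
        refine ⟨hi', ?_⟩
        rw [← h2 i hi']
        exact hw
    · rw [sup_comm, hpb_insert _ _ hmem, h1]
      have h5 : {i : I | i ∈ A ∧ w i ∉ Submodule.span k (w '' {j | j ∈ A ∧ κ j < κ i})} =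
          insert a {i : I | i ∈ A.erase a ∧
            w i ∉ Submodule.span k (w '' {j | j ∈ A.erase a ∧ κ j < κ i})} := by
        ext i
        simp only [Set.mem_ofPred_eq, Set.mem_insert_iff]
        constructor
        · rintro ⟨hi, hw⟩
          by_cases hia : i = a
          · exact Or.inl hia
          · have hi' := Finset.mem_erase.2 ⟨hia, hi⟩
            refine Or.inr ⟨hi', ?_⟩
            rw [← h2 i hi']
            exact hw
        · rintro (rfl | ⟨hi, hw⟩)
          · refine ⟨ha, ?_⟩
            rw [h3]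
            exact hmem
          · refine ⟨Finset.mem_of_mem_erase hi, ?_⟩
            rw [h2 i hi]
            exact hw
      rw [h5, Set.ncard_insert_of_notMem (fun h => (Finset.notMem_erase a A) h.1) hfin2]

/-- the order on monomials times generators -/
def hpbK {m s : ℕ} (x : (Fin m →₀ ℕ) × Fin s) : DegLex (Fin m →₀ ℕ) ×ₗ Fin s :=
  toLex (toDegLex x.1, x.2)

lemma hpbK_inj {m s : ℕ} : Function.Injective (hpbK (m := m) (s := s)) := by
  intro x y h
  have h1 : (toDegLex x.1, x.2) = (toDegLex y.1, y.2) := toLex_inj.1 h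
  rw [Prod.mk.injEq] at h1
  exact Prod.ext (toDegLex_injective h1.1) h1.2

lemma hpbK_deg {m s : ℕ} {x y : (Fin m →₀ ℕ) × Fin s} (h : hpbK x < hpbK y) :
    x.1.degree ≤ y.1.degree := by
  unfold hpbK at h
  rw [Prod.Lex.toLex_lt_toLex] at h
  rcases h with h | ⟨h, _⟩
  · exact Finsupp.DegLex.monotone_degree h.le
  · exact le_of_eq (congrArg (fun z : DegLex (Fin m →₀ ℕ) => (ofDegLex z).degree) h)

lemma hpbK_add {m s : ℕ} {x y : (Fin m →₀ ℕ) × Fin s} (γ : Fin m →₀ ℕ) (h : hpbK x < hpbK y) :
    hpbK (x.1 + γ, x.2) < hpbK (y.1 + γ, y.2) := by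
  unfold hpbK at h ⊢
  rw [Prod.Lex.toLex_lt_toLex] at h ⊢
  simp only [toDegLex_add]
  rcases h with h | ⟨h, h2⟩
  · exact Or.inl (add_lt_add_left h _)
  · refine Or.inr ⟨?_, h2⟩
    have h' : toDegLex x.1 = toDegLex y.1 := h
    rw [h']

/-- the dimensions of the filtration by degree of a finitely generated module over a polynomial
ring have eventually constant `m`-th difference -/
theorem hilbert_function (k : Type) [Field k] (m : ℕ) (U : Type) [AddCommGroup U] [Module k U]
    [Module (MvPolynomial (Fin m) k) U] [IsScalarTower k (MvPolynomial (Fin m) k) U] (s : ℕ)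
    (v : Fin s → U) :
    ∃ (c : ℤ) (n₀ : ℕ), ∀ n, n₀ ≤ n →
      fdiff^[m] (fun n => (Module.finrank k (Submodule.span k
        {x : U | ∃ p : MvPolynomial (Fin m) k, p.totalDegree ≤ n ∧ ∃ j, x = p • v j}) : ℤ)) n
          = c := by
  classical
  -- the monomials
  let w : (Fin m →₀ ℕ) × Fin s → U := fun x => (MvPolynomial.monomial x.1 (1:k)) • v x.2
  let St : Set ((Fin m →₀ ℕ) × Fin s) := {x | w x ∉ Submodule.span k (w '' {y | hpbK y < hpbK x})}
  have hcomm : ∀ (c : k) (p : MvPolynomial (Fin m) k) (u : U), p • (c • u) = c • (p • u) := by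
    intro c p u
    rw [← smul_one_smul (MvPolynomial (Fin m) k) c u, ← smul_one_smul (MvPolynomial (Fin m) k) c
      (p • u), smul_smul, smul_smul, mul_comm]
  have hwadd : ∀ (γ : Fin m →₀ ℕ) (x : (Fin m →₀ ℕ) × Fin s),
      (MvPolynomial.monomial γ (1:k)) • w x = w (x.1 + γ, x.2) := by
    intro γ x
    change (MvPolynomial.monomial γ (1:k)) • ((MvPolynomial.monomial x.1 (1:k)) • v x.2) =
      (MvPolynomial.monomial (x.1 + γ) (1:k)) • v x.2
    rw [smul_smul, MvPolynomial.monomial_mul, one_mul, add_comm γ]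
  -- lower sets
  let D : Fin s → Set (Fin m → ℕ) := fun j => {α | (Finsupp.equivFunOnFinite.symm α, j) ∈ St}
  have hD : ∀ j, IsLowerSet (D j) := by
    intro j α β hβα hα
    by_contra hcon
    apply hα
    have hcon' : w (Finsupp.equivFunOnFinite.symm β, j) ∈
        Submodule.span k (w '' {y | hpbK y < hpbK (Finsupp.equivFunOnFinite.symm β, j)}) := by
      by_contra h
      exact hcon h
    let γ : Fin m →₀ ℕ := Finsupp.equivFunOnFinite.symm (fun i => α i - β i)
    have hγ : Finsupp.equivFunOnFinite.symm α = Finsupp.equivFunOnFinite.symm β + γ := by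
      ext i
      change α i = β i + (α i - β i)
      have h5 : β i ≤ α i := hβα i
      omega
    have h1 : w (Finsupp.equivFunOnFinite.symm α, j) =
        (MvPolynomial.monomial γ (1:k)) • w (Finsupp.equivFunOnFinite.symm β, j) := by
      rw [hwadd, hγ]
    rw [h1, hγ]
    -- multiplication by the monomial
    let f : U →ₗ[k] U :=
      { toFun := fun u => (MvPolynomial.monomial γ (1:k)) • u
        map_add' := fun a b => smul_add _ a b
        map_smul' := fun c u => hcomm c _ u }
    have h2 : f (w (Finsupp.equivFunOnFinite.symm β, j)) ∈ (Submodule.span k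
        (w '' {y | hpbK y < hpbK (Finsupp.equivFunOnFinite.symm β, j)})).map f :=
      Submodule.mem_map_of_mem hcon'
    rw [Submodule.map_span] at h2
    refine Submodule.span_mono ?_ h2
    rintro _ ⟨_, ⟨y, hy, rfl⟩, rfl⟩
    exact ⟨(y.1 + γ, y.2), hpbK_add γ hy, (hwadd γ y).symm⟩
  -- the finite sets of exponents
  have hfin : ∀ n : ℕ, {x : (Fin m →₀ ℕ) × Fin s | x.1.degree ≤ n}.Finite := by
    intro n
    have h1 : {a : Fin m →₀ ℕ | a.degree ≤ n}.Finite := by
      have h2 : {α : Fin m → ℕ | α ∈ (Set.univ : Set (Fin m → ℕ)) ∧ ∑ i, α i ≤ n}.Finite :=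
        hpa_fin Set.univ n
      refine (h2.image Finsupp.equivFunOnFinite.symm).subset ?_
      intro a ha
      refine ⟨Finsupp.equivFunOnFinite a, ⟨Set.mem_univ _, ?_⟩, Equiv.symm_apply_apply _ a⟩
      have h3 : a.degree = ∑ i, a i := Finsupp.degree_eq_sum a
      rw [Set.mem_ofPred_eq, h3] at ha
      exact ha
    exact (h1.prod (Set.finite_univ (α := Fin s))).subset fun x hx => ⟨hx, Set.mem_univ _⟩
  have hkey : ∀ n : ℕ, (Module.finrank k (Submodule.span k
      {x : U | ∃ p : MvPolynomial (Fin m) k, p.totalDegree ≤ n ∧ ∃ j, x = p • v j}) : ℤ) =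
      ∑ j, hpaF (D j) n := by
    intro n
    let A : Finset ((Fin m →₀ ℕ) × Fin s) := (hfin n).toFinset
    have hA : ∀ x, x ∈ A ↔ x.1.degree ≤ n := fun x => by
      simp only [A, Set.Finite.mem_toFinset, Set.mem_ofPred_eq]
    have h1 : Submodule.span k
        {x : U | ∃ p : MvPolynomial (Fin m) k, p.totalDegree ≤ n ∧ ∃ j, x = p • v j} =
        Submodule.span k (w '' (A : Set _)) := by
      apply le_antisymm
      · rw [Submodule.span_le]
        rintro _ ⟨p, hp, j, rfl⟩
        rw [SetLike.mem_coe, ← MvPolynomial.support_sum_monomial_coeff p, Finset.sum_smul]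
        refine Submodule.sum_mem _ fun d hd => ?_
        have h2 : (MvPolynomial.monomial d (MvPolynomial.coeff d p)) • v j =
            (MvPolynomial.coeff d p) • w (d, j) := by
          change _ = (MvPolynomial.coeff d p) • ((MvPolynomial.monomial d (1:k)) • v j)
          rw [← smul_assoc, MvPolynomial.smul_monomial, smul_eq_mul, mul_one]
        rw [h2]
        refine Submodule.smul_mem _ _ (Submodule.subset_span ⟨(d, j), ?_, rfl⟩)
        rw [Finset.mem_coe, hA]
        refine le_trans ?_ hp
        have h3 := MvPolynomial.le_totalDegree hd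
        rw [Finsupp.degree_eq_sum]
        rw [Finsupp.sum_fintype _ _ (fun _ => rfl)] at h3
        exact h3
      · rw [Submodule.span_le]
        rintro _ ⟨x, hx, rfl⟩
        rw [Finset.mem_coe, hA] at hx
        refine Submodule.subset_span ⟨MvPolynomial.monomial x.1 (1:k), ?_, x.2, rfl⟩
        refine le_trans (MvPolynomial.totalDegree_monomial_le x.1 (1:k)) ?_
        rw [Finsupp.degree_eq_sum] at hx
        rw [Finsupp.sum_fintype _ _ (fun _ => rfl)]
        exact hx
    rw [h1, hpb_count hpbK hpbK_inj w A.card A rfl]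
    have h2 : {i : (Fin m →₀ ℕ) × Fin s | i ∈ A ∧
        w i ∉ Submodule.span k (w '' {j | j ∈ A ∧ hpbK j < hpbK i})} =
        {i | i.1.degree ≤ n ∧ i ∈ St} := by
      ext i
      rw [Set.mem_ofPred_eq, Set.mem_ofPred_eq, hA]
      refine and_congr_right fun hi => ?_
      have h3 : {j | j ∈ A ∧ hpbK j < hpbK i} = {j | hpbK j < hpbK i} := by
        ext j
        simp only [Set.mem_ofPred_eq, hA]
        exact ⟨fun h => h.2, fun h => ⟨le_trans (hpbK_deg h) hi, h⟩⟩
      rw [h3]
      rfl
    rw [h2]
    have e : {i : (Fin m →₀ ℕ) × Fin s | i.1.degree ≤ n ∧ i ∈ St} ≃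
        Σ j : Fin s, {α : Fin m → ℕ | α ∈ D j ∧ ∑ i, α i ≤ n} :=
      { toFun := fun x => ⟨x.1.2, ⟨Finsupp.equivFunOnFinite x.1.1, by
            refine ⟨?_, ?_⟩
            · change (Finsupp.equivFunOnFinite.symm (Finsupp.equivFunOnFinite x.1.1), x.1.2) ∈ St
              rw [Equiv.symm_apply_apply]
              exact x.2.2
            · have := x.2.1
              rw [Finsupp.degree_eq_sum] at this
              exact this⟩⟩
        invFun := fun p => ⟨(Finsupp.equivFunOnFinite.symm p.2.1, p.1), by
            refine ⟨?_, p.2.2.1⟩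
            rw [Finsupp.degree_eq_sum]
            exact p.2.2.2⟩
        left_inv := fun x => by
          apply Subtype.ext
          change (Finsupp.equivFunOnFinite.symm (Finsupp.equivFunOnFinite x.1.1), x.1.2) = x.1
          rw [Equiv.symm_apply_apply]
        right_inv := fun p => by
          obtain ⟨j, ⟨α, hα⟩⟩ := p
          rfl }
    have hfin' : ∀ j : Fin s, Finite ↥{α : Fin m → ℕ | α ∈ D j ∧ ∑ i, α i ≤ n} :=
      fun j => (hpa_fin (D j) n).to_subtype
    rw [← Nat.card_coe_set_eq, Nat.card_congr e, Nat.card_sigma, Nat.cast_sum]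
    refine Finset.sum_congr rfl fun j _ => ?_
    rw [Nat.card_coe_set_eq]
    rfl
  have h := hpa_sum m Finset.univ (fun j => hpaF (D j)) fun j _ => hpa_main m (D j) (hD j)
  exact hpa_congr 0 (fun n _ => (hkey n).symm) h

end RQ
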