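import Pool.Agent.Helper44.RQ.HPb

/-! Module `HPc` of MP_27ef80_ag -/

set_option autoImplicit false
open scoped ComplexConjugate Matrix TensorProduct
open MeasureTheory

noncomputable section

namespace RQ

lemma hpc_neg : ∀ (m : ℕ) (g : ℕ → ℤ), (∃ n₀, ∀ n, n₀ ≤ n → fdiff^[m] g n ≤ -1) →
    ∃ n₁, ∀ n, n₁ ≤ n → g n ≤ -1
  | 0, _, h => h
  | (m+1), g, ⟨n₀, h⟩ => by
      obtain ⟨n₁, h1⟩ := hpc_neg m (fdiff g) ⟨n₀, fun n hn => by
        have := h n hn
        rwa [Function.iterate_succ_apply] at this⟩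
      have h2 : ∀ i : ℕ, g (n₁ + i) ≤ g n₁ - i := by
        intro i
        induction i with
        | zero => simp
        | succ i ih =>
          have h3 := h1 (n₁ + i) (by omega)
          have h4 : g (n₁ + i + 1) - g (n₁ + i) ≤ -1 := h3
          have h5 : n₁ + (i + 1) = n₁ + i + 1 := by omega
          rw [h5]
          push_cast
          linarith
      refine ⟨n₁ + ((g n₁).toNat + 1), fun n hn => ?_⟩
      have h3 := h2 (n - n₁)
      have h4 : n₁ + (n - n₁) = n := by omega
      rw [h4] at h3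
      have h5 : ((n - n₁ : ℕ) : ℤ) ≥ (g n₁).toNat + 1 := by
        have : (g n₁).toNat + 1 ≤ n - n₁ := by omega
        exact_mod_cast this
      have h6 := Int.self_le_toNat (g n₁)
      linarith

lemma hpc_sub_eq : ∀ (m : ℕ) (F G : ℕ → ℤ) (n : ℕ),
    fdiff^[m] (fun n => F n - G n) n = fdiff^[m] F n - fdiff^[m] G n
  | 0, _, _, _ => rfl
  | (m+1), F, G, n => by
      rw [Function.iterate_succ_apply, Function.iterate_succ_apply, Function.iterate_succ_apply,
        ← hpc_sub_eq m]
      refine hpa_agree 0 m _ _ (fun k _ => ?_) n (Nat.zero_le n)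
      unfold fdiff
      ring

lemma hpc_mul_eq (d : ℤ) : ∀ (m : ℕ) (F : ℕ → ℤ) (n : ℕ),
    fdiff^[m] (fun n => d * F n) n = d * fdiff^[m] F n
  | 0, _, _ => rfl
  | (m+1), F, n => by
      rw [Function.iterate_succ_apply, Function.iterate_succ_apply, ← hpc_mul_eq d m]
      refine hpa_agree 0 m _ _ (fun k _ => ?_) n (Nat.zero_le n)
      unfold fdiff
      ring

lemma hpc_fwd (a : ℕ) : ∀ (m : ℕ) (F : ℕ → ℤ) (n : ℕ),
    fdiff^[m] (fun n => F (n + a)) n = fdiff^[m] F (n + a)
  | 0, _, _ => rfl
  | (m+1), F, n => by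
      rw [Function.iterate_succ_apply, Function.iterate_succ_apply, ← hpc_fwd a m]
      refine hpa_agree 0 m _ _ (fun k _ => ?_) n (Nat.zero_le n)
      change F (k + 1 + a) - F (k + a) = F (k + a + 1) - F (k + a)
      rw [show k + 1 + a = k + a + 1 by omega]

lemma hpc_dvd (N : ℤ) : ∀ (m : ℕ) (F : ℕ → ℤ), (∀ n, N ∣ F n) → ∀ n, N ∣ fdiff^[m] F n
  | 0, _, h, n => h n
  | (m+1), F, h, n => by
      rw [Function.iterate_succ_apply]
      exact hpc_dvd N m (fdiff F) (fun k => dvd_sub (h (k+1)) (h k)) n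

lemma hpc_cmp (m : ℕ) (F G : ℕ → ℤ) (h : ∀ n, F n ≤ G n) (c c' : ℤ)
    (hF : ∃ n₀, ∀ n, n₀ ≤ n → fdiff^[m] F n = c) (hG : ∃ n₀, ∀ n, n₀ ≤ n → fdiff^[m] G n = c') :
    c ≤ c' := by
  by_contra hcon
  push Not at hcon
  obtain ⟨n₀, h0⟩ := hF
  obtain ⟨n₁, h1⟩ := hG
  obtain ⟨n₂, h2⟩ := hpc_neg m (fun n => G n - F n) ⟨max n₀ n₁, fun n hn => by
    rw [hpc_sub_eq, h0 n (le_trans (le_max_left _ _) hn), h1 n (le_trans (le_max_right _ _) hn)]
    omega⟩
  have h3 : G n₂ - F n₂ ≤ -1 := h2 n₂ le_rfl
  have h4 := h n₂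
  omega

lemma hpc_univ : ∀ (m n : ℕ), fdiff^[m] (hpaF (Set.univ : Set (Fin m → ℕ))) n = 1
  | 0, n => by
      change hpaF Set.univ n = 1
      unfold hpaF
      have : {α : Fin 0 → ℕ | α ∈ (Set.univ : Set (Fin 0 → ℕ)) ∧ ∑ i, α i ≤ n} =
          {fun i => i.elim0} := by
        ext α
        simp only [Set.mem_univ, Finset.univ_eq_empty, Finset.sum_empty, Nat.zero_le, and_self,
          Set.ofPred_true, Set.mem_singleton_iff, true_iff]
        exact Subsingleton.elim _ _
      rw [this, Set.ncard_singleton]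
      rfl
  | (m+1), n => by
      rw [Function.iterate_succ_apply, ← hpc_univ m (n+1), ← hpc_fwd 1 m]
      refine hpa_agree 0 m _ _ (fun k _ => ?_) n (Nat.zero_le n)
      unfold fdiff
      have hs : ∀ c, hpaSl (Set.univ : Set (Fin (m+1) → ℕ)) c = Set.univ := fun c => rfl
      rw [hpa_slices, hpa_slices]
      simp only [hs]
      have h1 : ∀ j : ℕ, ∑ c ∈ Finset.range (j+1), hpaF (Set.univ : Set (Fin m → ℕ)) (j - c) =
          ∑ c ∈ Finset.range (j+1), hpaF (Set.univ : Set (Fin m → ℕ)) c := by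
        intro j
        rw [← Finset.sum_range_reflect]
        refine Finset.sum_congr rfl fun i hi => ?_
        rw [Finset.mem_range] at hi
        congr 1
        omega
      rw [h1, h1, Finset.sum_range_succ]
      ring

variable {k : Type} [Field k] (m : ℕ) (U : Type) [AddCommGroup U] [Module k U]
    [Module (FractionRing (MvPolynomial (Fin m) k)) U]
    [IsScalarTower k (FractionRing (MvPolynomial (Fin m) k)) U]

/-- the monomials in the fraction field -/
def hpcW (k : Type) [Field k] (m : ℕ) (α : Fin m →₀ ℕ) : FractionRing (MvPolynomial (Fin m) k) :=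
  algebraMap (MvPolynomial (Fin m) k) (FractionRing (MvPolynomial (Fin m) k))
    (MvPolynomial.monomial α (1:k))

lemma hpc_span (M : Set U) (n : ℕ) :
    Submodule.span k (PP k m U M n) = Submodule.span k
      (Set.range fun x : {α : Fin m →₀ ℕ // α.degree ≤ n} × M => hpcW k m x.1.1 • (x.2 : U)) := by
  apply le_antisymm
  · rw [Submodule.span_le]
    rintro _ ⟨p, hp, v, hv, rfl⟩
    rw [SetLike.mem_coe, ← MvPolynomial.support_sum_monomial_coeff p, map_sum, Finset.sum_smul]
    refine Submodule.sum_mem _ fun d hd => ?_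
    have h2 : algebraMap (MvPolynomial (Fin m) k) (FractionRing (MvPolynomial (Fin m) k))
        (MvPolynomial.monomial d (MvPolynomial.coeff d p)) =
        (MvPolynomial.coeff d p) • hpcW k m d := by
      unfold hpcW
      have : (MvPolynomial.monomial d (MvPolynomial.coeff d p) : MvPolynomial (Fin m) k) =
          (MvPolynomial.coeff d p) • MvPolynomial.monomial d 1 := by
        rw [MvPolynomial.smul_monomial, smul_eq_mul, mul_one]
      rw [this, Algebra.smul_def, map_mul, Algebra.smul_def,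
        ← IsScalarTower.algebraMap_apply k (MvPolynomial (Fin m) k)
          (FractionRing (MvPolynomial (Fin m) k))]
    rw [h2, smul_assoc]
    refine Submodule.smul_mem _ _ (Submodule.subset_span ⟨(⟨d, ?_⟩, ⟨v, hv⟩), rfl⟩)
    refine le_trans ?_ hp
    have h3 := MvPolynomial.le_totalDegree hd
    rw [Finsupp.degree_eq_sum]
    rw [Finsupp.sum_fintype _ _ (fun _ => rfl)] at h3
    exact h3
  · rw [Submodule.span_le]
    rintro _ ⟨⟨⟨α, hα⟩, v⟩, rfl⟩
    refine Submodule.subset_span ⟨MvPolynomial.monomial α (1:k), ?_, v.1, v.2, rfl⟩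
    refine le_trans (MvPolynomial.totalDegree_monomial_le α (1:k)) ?_
    rw [Finsupp.degree_eq_sum] at hα
    rw [Finsupp.sum_fintype _ _ (fun _ => rfl)]
    exact hα

lemma hpc_finite (m n : ℕ) : Finite {α : Fin m →₀ ℕ // α.degree ≤ n} := by
  have h2 : {α : Fin m → ℕ | α ∈ (Set.univ : Set (Fin m → ℕ)) ∧ ∑ i, α i ≤ n}.Finite :=
    hpa_fin Set.univ n
  refine ((h2.image Finsupp.equivFunOnFinite.symm).subset ?_ : Set.Finite
    {α : Fin m →₀ ℕ | α.degree ≤ n}).to_subtype
  intro a ha
  refine ⟨Finsupp.equivFunOnFinite a, ⟨Set.mem_univ _, ?_⟩, Equiv.symm_apply_apply _ a⟩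
  have h3 : a.degree = ∑ i, a i := Finsupp.degree_eq_sum a
  rw [Set.mem_ofPred_eq, h3] at ha
  exact ha

lemma hpc_fd (M : Set U) (hM : M.Finite) (n : ℕ) :
    FiniteDimensional k ↥(Submodule.span k (PP k m U M n)) := by
  rw [hpc_span]
  have h1 := hpc_finite m n
  have h2 := hM.to_subtype
  exact FiniteDimensional.span_of_finite k (Set.finite_range _)

lemma hpc_free (b : Set U) (hb : b.Finite)
    (hli : LinearIndependent (FractionRing (MvPolynomial (Fin m) k)) ((↑) : b → U)) (n : ℕ) :
    (Module.finrank k (Submodule.span k (PP k m U b n)) : ℤ) =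
      (Nat.card b : ℤ) * hpaF (Set.univ : Set (Fin m → ℕ)) n := by
  classical
  have h1 := hpc_finite m n
  have h2 := hb.to_subtype
  have := Fintype.ofFinite {α : Fin m →₀ ℕ // α.degree ≤ n}
  have := Fintype.ofFinite b
  have hw : LinearIndependent k (hpcW k m) := by
    have h3 := (MvPolynomial.basisMonomials (Fin m) k).linearIndependent
    rw [MvPolynomial.coe_basisMonomials] at h3
    exact h3.map' (IsScalarTower.toAlgHom k (MvPolynomial (Fin m) k)
      (FractionRing (MvPolynomial (Fin m) k))).toLinearMap (by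
        rw [LinearMap.ker_eq_bot]
        exact IsFractionRing.injective (MvPolynomial (Fin m) k)
          (FractionRing (MvPolynomial (Fin m) k)))
  have h4 := linearIndependent_smul hw hli
  have h5 : LinearIndependent k (fun x : {α : Fin m →₀ ℕ // α.degree ≤ n} × b =>
      hpcW k m x.1.1 • (x.2 : U)) := by
    refine h4.comp (fun x : {α : Fin m →₀ ℕ // α.degree ≤ n} × b => (x.1.1, x.2)) ?_
    rintro ⟨⟨a, ha⟩, v⟩ ⟨⟨a', ha'⟩, v'⟩ h
    simp only [Prod.mk.injEq] at h
    obtain ⟨rfl, rfl⟩ := h
    rfl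
  rw [hpc_span, finrank_span_eq_card h5, Fintype.card_prod, Fintype.card_eq_nat_card,
    Fintype.card_eq_nat_card]
  unfold hpaF
  push_cast
  rw [mul_comm, ← Nat.card_coe_set_eq]
  congr 2
  refine Nat.card_congr
    { toFun := fun a => ⟨Finsupp.equivFunOnFinite a.1, Set.mem_univ _, ?_⟩
      invFun := fun α => ⟨Finsupp.equivFunOnFinite.symm α.1, ?_⟩
      left_inv := fun a => Subtype.ext (Equiv.symm_apply_apply _ a.1)
      right_inv := fun α => rfl }
  · have := a.2
    rw [Finsupp.degree_eq_sum] at this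
    exact this
  · rw [Finsupp.degree_eq_sum]
    exact α.2.2

theorem hilbert_rank {k : Type} [Field k] (m : ℕ) (U : Type) [AddCommGroup U] [Module k U]
    [Module (FractionRing (MvPolynomial (Fin m) k)) U]
    [IsScalarTower k (FractionRing (MvPolynomial (Fin m) k)) U] (M₀ : Finset U)
    (hspan : Submodule.span (FractionRing (MvPolynomial (Fin m) k)) (M₀ : Set U) = ⊤) (N : ℕ)
    (hN : ∀ n, N ∣ Module.finrank k (Submodule.span k (PP k m U (M₀ : Set U) n))) :
    N ∣ Module.finrank (FractionRing (MvPolynomial (Fin m) k)) U := by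
  classical
  let R := MvPolynomial (Fin m) k
  let L := FractionRing R
  obtain ⟨b, hbM, hbs, hbli⟩ := exists_linearIndependent L (M₀ : Set U)
  have hbfin : b.Finite := (Finset.finite_toSet M₀).subset hbM
  have hbT := hbfin.to_subtype
  have := Fintype.ofFinite b
  rw [hspan] at hbs
  -- rank
  have hrank : Module.finrank L U = Nat.card b := by
    have h1 := finrank_span_eq_card hbli
    rw [Subtype.range_coe, hbs, finrank_top, Fintype.card_eq_nat_card] at h1
    exact h1
  -- the Hilbert function of the whole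
  let mod : Module R U := Module.compHom U (algebraMap R L)
  have hsm : ∀ (p : R) (u : U), p • u = algebraMap R L p • u := fun p u => rfl
  have hst : IsScalarTower k R U := by
    refine ⟨fun c p u => ?_⟩
    rw [hsm, hsm, Algebra.smul_def, map_mul, mul_smul,
      ← IsScalarTower.algebraMap_apply k R L, algebraMap_smul]
  obtain ⟨c, n₀, hc⟩ := hilbert_function k m U M₀.card (fun j => ((M₀.equivFin.symm j : M₀) : U))
  have hPP : ∀ n, {x : U | ∃ p : MvPolynomial (Fin m) k, p.totalDegree ≤ n ∧
      ∃ j, x = p • ((M₀.equivFin.symm j : M₀) : U)} = PP k m U (M₀ : Set U) n := by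
    intro n
    ext x
    constructor
    · rintro ⟨p, hp, j, rfl⟩
      exact ⟨p, hp, _, (M₀.equivFin.symm j).2, rfl⟩
    · rintro ⟨p, hp, v, hv, rfl⟩
      refine ⟨p, hp, M₀.equivFin ⟨v, hv⟩, ?_⟩
      rw [Equiv.symm_apply_apply]
      rfl
  have hfun : (fun n => (Module.finrank k (Submodule.span k
        {x : U | ∃ p : MvPolynomial (Fin m) k, p.totalDegree ≤ n ∧
          ∃ j, x = p • ((M₀.equivFin.symm j : M₀) : U)}) : ℤ)) =
      fun n => (Module.finrank k (Submodule.span k (PP k m U (M₀ : Set U) n)) : ℤ) := by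
    funext n
    rw [hPP n]
  rw [hfun] at hc
  -- divisibility
  have hNc : (N : ℤ) ∣ c := by
    rw [← hc n₀ le_rfl]
    exact hpc_dvd N m _ (fun n => by exact_mod_cast hN n) n₀
  -- the free part
  have hfree : ∀ n, fdiff^[m] (fun n => (Module.finrank k
      (Submodule.span k (PP k m U b n)) : ℤ)) n = Nat.card b := by
    intro n
    have h1 : (fun n => (Module.finrank k (Submodule.span k (PP k m U b n)) : ℤ)) =
        fun n => (Nat.card b : ℤ) * hpaF (Set.univ : Set (Fin m → ℕ)) n := by
      funext n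
      exact hpc_free m U b hbfin hbli n
    rw [h1, hpc_mul_eq, hpc_univ, mul_one]
  -- lower bound
  have hlow : (Nat.card b : ℤ) ≤ c := by
    refine hpc_cmp m _ _ (fun n => ?_) _ _ ⟨0, fun n _ => hfree n⟩ ⟨n₀, hc⟩
    have hfd := hpc_fd m U (k := k) (M₀ : Set U) (Finset.finite_toSet M₀) n
    have h1 : Submodule.span k (PP k m U b n) ≤ Submodule.span k (PP k m U (M₀ : Set U) n) := by
      apply Submodule.span_mono
      rintro _ ⟨p, hp, v, hv, rfl⟩
      exact ⟨p, hp, v, hbM hv, rfl⟩
    exact_mod_cast Submodule.finrank_mono h1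
  -- upper bound
  let Bs : Module.Basis b L U := Module.Basis.mk hbli (by
    rw [Subtype.range_coe, hbs])
  obtain ⟨q, hq⟩ := IsLocalization.exist_integer_multiples_of_finite (nonZeroDivisors R)
    (fun x : M₀ × b => (Bs.repr x.1.1 x.2 : L))
  choose r hr using hq
  let a : ℕ := Finset.univ.sup fun x : M₀ × b => (r x).totalDegree
  have hq0 : algebraMap R L (q : R) ≠ 0 := by
    intro h
    exact nonZeroDivisors.coe_ne_zero q
      ((map_eq_zero_iff _ (IsFractionRing.injective R L)).1 h)
  let μq : U →ₗ[k] U :=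
    { toFun := fun u => algebraMap R L (q : R) • u
      map_add' := fun u v => smul_add _ u v
      map_smul' := fun c u => by
        rw [RingHom.id_apply, ← smul_one_smul L c u, ← smul_one_smul L c
          (algebraMap R L (q : R) • u), smul_smul, smul_smul, mul_comm] }
  have hμinj : Function.Injective μq := by
    intro u v h
    exact (smul_right_injective U hq0) h
  have hup : c ≤ (Nat.card b : ℤ) := by
    refine hpc_cmp m _ _ (fun n => ?_) _ _ ⟨n₀, hc⟩ ⟨0, fun n _ => by
      rw [hpc_fwd a m (fun n => (Module.finrank k (Submodule.span k (PP k m U b n)) : ℤ)) n]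
      exact hfree (n + a)⟩
    have hfd := hpc_fd m U (k := k) b hbfin (n + a)
    have h1 : (Submodule.span k (PP k m U (M₀ : Set U) n)).map μq ≤
        Submodule.span k (PP k m U b (n + a)) := by
      rw [Submodule.map_span, Submodule.span_le]
      rintro _ ⟨_, ⟨p, hp, v, hv, rfl⟩, rfl⟩
      change algebraMap R L (q : R) • algebraMap R L p • v ∈ _
      have h2 : v = ∑ j, (Bs.repr v j) • (j : U) := by
        have := (Bs.sum_repr v).symm
        simpa [Bs] using this
      have h3 : algebraMap R L (q : R) • algebraMap R L p • v =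
          ∑ j : b, algebraMap R L (p * r (⟨v, hv⟩, j)) • (j : U) := by
        conv_lhs => rw [h2]
        rw [smul_smul, Finset.smul_sum]
        refine Finset.sum_congr rfl fun j _ => ?_
        rw [smul_smul, map_mul, hr (⟨v, hv⟩, j), Algebra.smul_def]
        congr 1
        ring
      rw [h3]
      refine Submodule.sum_mem _ fun j _ => Submodule.subset_span ⟨_, ?_, j.1, j.2, rfl⟩
      refine le_trans (MvPolynomial.totalDegree_mul _ _) (Nat.add_le_add hp ?_)
      exact Finset.le_sup (f := fun x : M₀ × b => (r x).totalDegree) (Finset.mem_univ _)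
    have h2 : Module.finrank k ↥((Submodule.span k (PP k m U (M₀ : Set U) n)).map μq) =
        Module.finrank k ↥(Submodule.span k (PP k m U (M₀ : Set U) n)) :=
      (LinearEquiv.finrank_eq (Submodule.equivMapOfInjective μq hμinj _)).symm
    have h3 := Submodule.finrank_mono h1
    rw [h2] at h3
    exact_mod_cast h3
  have hfinal : c = Nat.card b := le_antisymm hup hlow
  rw [hrank]
  rw [hfinal] at hNc
  exact_mod_cast hNc

end RQ
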