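import Pool.Agent.Helper44.RQ.Defs

/-! Module `Ker` of MP_27ef80_ag -/

set_option autoImplicit false
open scoped ComplexConjugate Matrix TensorProduct
open MeasureTheory

noncomputable section

namespace RQ

theorem exists_kernel {X : Type} (R : Subring (X → ℂ)) [IsDomain R] {ι : Type} (M : ℕ)
    (L : ι → Fin M → R)
    (h : ∀ x : X, ∃ w : Fin M → ℂ, w ≠ 0 ∧ ∀ i, ∑ j, (L i j).1 x * w j = 0) :
    ∃ w : Fin M → R, w ≠ 0 ∧ ∀ i, ∑ j, L i j * w j = 0 := by
  classical
  let K := FractionRing R
  let row : ι → (Fin M → K) := fun i j => algebraMap R K (L i j)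
  have hinj : Function.Injective (algebraMap R K) := IsFractionRing.injective R K
  by_cases hs : Submodule.span K (Set.range row) = ⊤
  · exfalso
    obtain ⟨b, hb1, hb2, hb3⟩ := exists_linearIndependent K (Set.range row)
    rw [hs] at hb2
    let B := Module.Basis.mk hb3 (by rw [Subtype.range_coe, hb2])
    have : Fintype b := FiniteDimensional.fintypeBasisIndex B
    have hc : Fintype.card b = M := by
      rw [← Module.finrank_eq_card_basis B]
      simp
    let e : Fin M ≃ b := (Fintype.equivFinOfCardEq hc).symm
    choose f hf using fun j : Fin M => hb1 (e j).2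
    have hli : LinearIndependent K (fun j => row (f j)) := by
      have h1 := hb3.comp e e.injective
      have h2 : (fun j => row (f j)) = (Subtype.val ∘ e) := funext fun j => hf j
      rw [h2]
      exact h1
    let A : Matrix (Fin M) (Fin M) R := Matrix.of fun i j => L (f i) j
    have hdet : A.det ≠ 0 := by
      intro h0
      obtain ⟨v, hv, hv0⟩ := Matrix.exists_vecMul_eq_zero_iff.2 h0
      apply hv
      funext i
      have h1 := Fintype.linearIndependent_iff.1 hli (fun i => algebraMap R K (v i)) (by
        funext j
        have h2 := congrFun hv0 j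
        simp only [Matrix.vecMul, dotProduct, Pi.zero_apply] at h2
        simp only [Finset.sum_apply, Pi.smul_apply, smul_eq_mul, row, Pi.zero_apply]
        rw [← map_zero (algebraMap R K), ← h2]
        simp only [← map_mul, ← map_sum]
        rfl) i
      exact hinj (by rw [h1, Pi.zero_apply, map_zero])
    have h3 : ∃ x, A.det.1 x ≠ 0 := by
      by_contra h4
      push Not at h4
      exact hdet (Subtype.ext (funext h4))
    obtain ⟨x, hx⟩ := h3
    obtain ⟨w, hw, hw0⟩ := h x
    let ev : R →+* ℂ := (Pi.evalRingHom _ x).comp R.subtype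
    have h5 : (ev.mapMatrix A).det ≠ 0 := by
      rw [← RingHom.map_det]
      exact hx
    exact h5 (Matrix.exists_mulVec_eq_zero_iff.1 ⟨w, hw, funext fun i => hw0 (f i)⟩)
  · obtain ⟨φ, hφ, hφ0⟩ := Submodule.exists_le_ker_of_lt_top _ (lt_top_iff_ne_top.2 hs)
    obtain ⟨b, hb⟩ := IsLocalization.exist_integer_multiples_of_finite (nonZeroDivisors R)
      (fun j : Fin M => φ (Pi.single j 1))
    choose w hw using hb
    have hw' : ∀ j, algebraMap R K (w j) = algebraMap R K b * φ (Pi.single j 1) := by
      intro j
      rw [hw j, Algebra.smul_def]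
    have hb0 : algebraMap R K b ≠ 0 := by
      intro h0
      exact nonZeroDivisors.coe_ne_zero b (hinj (by rw [h0, map_zero]))
    have key : ∀ v : Fin M → K, φ v = ∑ j, v j * φ (Pi.single j 1) := by
      intro v
      conv_lhs => rw [pi_eq_sum_univ' v]
      rw [map_sum]
      refine Finset.sum_congr rfl fun j _ => ?_
      rw [map_smul, smul_eq_mul]
    refine ⟨w, ?_, ?_⟩
    · intro h0
      apply hφ
      ext j
      have h1 := hw' j
      rw [h0, Pi.zero_apply, map_zero] at h1
      have h2 := (mul_eq_zero.1 h1.symm).resolve_left hb0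
      simpa using h2
    · intro i
      apply hinj
      rw [map_zero, map_sum]
      have h1 : φ (row i) = 0 := LinearMap.mem_ker.1 (hφ0 (Submodule.subset_span ⟨i, rfl⟩))
      rw [key] at h1
      calc ∑ j, algebraMap R K (L i j * w j) =
          algebraMap R K b * ∑ j, row i j * φ (Pi.single j 1) := by
            rw [Finset.mul_sum]
            refine Finset.sum_congr rfl fun j _ => ?_
            rw [map_mul, hw' j]
            ring
        _ = 0 := by rw [h1, mul_zero]

end RQ
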