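import Pool.Agent.Helper44.RQ.Defs

/-! Module `Lat1` of MP_27ef80_ag -/

set_option autoImplicit false
open scoped ComplexConjugate Matrix TensorProduct
open MeasureTheory

noncomputable section

namespace RQ

/-- Maschke averaging: an equivariant injection of representations that factor through a finite
quotient has an equivariant complement. -/
theorem lat1_abs {G : Type} [Group G] {A B : Type} [AddCommGroup A] [Module ℝ A] [AddCommGroup B]
    [Module ℝ B] [FiniteDimensional ℝ B] (ρA : Representation ℝ G A) (ρB : Representation ℝ G B)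
    (ι : A →ₗ[ℝ] B) (hι : Function.Injective ι) (heq : ∀ g a, ι (ρA g a) = ρB g (ι a))
    (N : Subgroup G) [N.FiniteIndex] (hA : ∀ h ∈ N, ρA h = 1) (hB : ∀ h ∈ N, ρB h = 1) :
    ∃ (m : ℕ) (Θ : (A × (Fin m → ℝ)) ≃ₗ[ℝ] B) (D : Representation ℝ G (Fin m → ℝ)),
      (∀ u, Θ (u, 0) = ι u) ∧ ∀ g u x, Θ (ρA g u, D g x) = ρB g (Θ (u, x)) := by
  classical
  obtain ⟨p, hp⟩ := LinearMap.exists_leftInverse_of_injective ι (LinearMap.ker_eq_bot.mpr hι)
  have hp' : ∀ a, p (ι a) = a := fun a => LinearMap.congr_fun hp a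
  have hAinv : ∀ g a, ρA g (ρA g⁻¹ a) = a := by
    intro g a
    rw [← Module.End.mul_apply, ← map_mul, mul_inv_cancel, map_one]
    rfl
  have hBinv : ∀ g b, ρB g⁻¹ (ρB g b) = b := by
    intro g b
    rw [← Module.End.mul_apply, ← map_mul, inv_mul_cancel, map_one]
    rfl
  let c : G → (B →ₗ[ℝ] A) := fun g => (ρA g) ∘ₗ p ∘ₗ (ρB g⁻¹)
  have hcapp : ∀ g b, c g b = ρA g (p (ρB g⁻¹ b)) := fun g b => rfl
  have hc : ∀ g h, h ∈ N → c (g * h) = c g := by
    intro g h hh
    apply LinearMap.ext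
    intro b
    rw [hcapp, hcapp, map_mul, hA h hh, mul_inv_rev, map_mul, hB h⁻¹ (N.inv_mem hh)]
    rfl
  have hcq : ∀ g : G, ∀ q : G ⧸ N, c (g * q.out) = c ((g • q).out) := by
    intro g q
    have h1 : (QuotientGroup.mk (g * q.out) : G ⧸ N) = QuotientGroup.mk ((g • q).out) := by
      rw [QuotientGroup.out_eq']
      conv_rhs => rw [← QuotientGroup.out_eq' q]
      rfl
    have h2 := QuotientGroup.eq.mp h1.symm
    rw [← hc ((g • q).out) _ h2]
    congr 1
    group
  have : Fintype (G ⧸ N) := Fintype.ofFinite _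
  set n : ℕ := Fintype.card (G ⧸ N) with hn
  have hn0 : (n : ℝ) ≠ 0 := by
    have : 0 < n := Fintype.card_pos
    positivity
  let P : B →ₗ[ℝ] A := (n : ℝ)⁻¹ • ∑ q : G ⧸ N, c q.out
  have hPapp : ∀ b, P b = (n : ℝ)⁻¹ • ∑ q : G ⧸ N, c q.out b := by
    intro b
    simp only [P, LinearMap.smul_apply, LinearMap.sum_apply]
  have hPι : ∀ a, P (ι a) = a := by
    intro a
    rw [hPapp]
    have h1 : ∀ q : G ⧸ N, c q.out (ι a) = a := by
      intro q
      rw [hcapp, ← heq, hp', hAinv]
    rw [Finset.sum_congr rfl (fun q _ => h1 q), Finset.sum_const, Finset.card_univ, ← hn,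
      ← Nat.cast_smul_eq_nsmul ℝ, smul_smul, inv_mul_cancel₀ hn0, one_smul]
  have hPeq : ∀ g b, P (ρB g b) = ρA g (P b) := by
    intro g b
    rw [hPapp, hPapp, map_smul, map_sum]
    congr 1
    have h1 : ∀ q : G ⧸ N, ρA g (c q.out b) = c ((g • q).out) (ρB g b) := by
      intro q
      rw [← hcq, hcapp, hcapp, map_mul, mul_inv_rev, map_mul, Module.End.mul_apply,
        Module.End.mul_apply, hBinv]
    rw [Finset.sum_congr rfl (fun q _ => h1 q)]
    exact (Equiv.sum_comp (MulAction.toPerm g : Equiv.Perm (G ⧸ N))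
      (fun q => c q.out (ρB g b))).symm
  let W : Submodule ℝ B := LinearMap.ker P
  have hWmem : ∀ b, b ∈ W ↔ P b = 0 := fun b => LinearMap.mem_ker
  have hWst : ∀ g, ∀ w ∈ W, ρB g w ∈ W := by
    intro g w hw
    rw [hWmem] at hw ⊢
    rw [hPeq, hw, map_zero]
  let e : W ≃ₗ[ℝ] (Fin (Module.finrank ℝ W) → ℝ) := (Module.finBasis ℝ W).equivFun
  let D : Representation ℝ G (Fin (Module.finrank ℝ W) → ℝ) :=
    { toFun := fun g => e.toLinearMap ∘ₗ ((ρB g).restrict (hWst g)) ∘ₗ e.symm.toLinearMap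
      map_one' := by
        apply LinearMap.ext
        intro x
        change e (((ρB 1).restrict (hWst 1)) (e.symm x)) = x
        have h1 : ((ρB 1).restrict (hWst 1)) (e.symm x) = e.symm x := by
          apply Subtype.ext
          rw [LinearMap.coe_restrict_apply, map_one]
          rfl
        rw [h1, LinearEquiv.apply_symm_apply]
      map_mul' := by
        intro g g'
        apply LinearMap.ext
        intro x
        change e (((ρB (g * g')).restrict (hWst (g * g'))) (e.symm x)) =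
          e (((ρB g).restrict (hWst g)) (e.symm (e (((ρB g').restrict (hWst g')) (e.symm x)))))
        rw [LinearEquiv.symm_apply_apply]
        congr 1
        apply Subtype.ext
        rw [LinearMap.coe_restrict_apply, LinearMap.coe_restrict_apply,
          LinearMap.coe_restrict_apply, map_mul]
        rfl }
  have hD : ∀ g x, (e.symm (D g x) : B) = ρB g (e.symm x : B) := by
    intro g x
    change (e.symm (e (((ρB g).restrict (hWst g)) (e.symm x))) : B) = _
    rw [LinearEquiv.symm_apply_apply, LinearMap.coe_restrict_apply]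
  let θ : (A × (Fin (Module.finrank ℝ W) → ℝ)) →ₗ[ℝ] B :=
    ι.coprod (W.subtype ∘ₗ e.symm.toLinearMap)
  have hθ : ∀ a x, θ (a, x) = ι a + (e.symm x : B) := by
    intro a x
    simp only [θ, LinearMap.coprod_apply]
    rfl
  have hθb : Function.Bijective θ := by
    constructor
    · intro y y' hyy
      obtain ⟨a, x⟩ := y
      obtain ⟨a', x'⟩ := y'
      rw [hθ, hθ] at hyy
      have h1 := congrArg P hyy
      rw [map_add, map_add, hPι, hPι, (hWmem _).mp (e.symm x).2, (hWmem _).mp (e.symm x').2,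
        add_zero, add_zero] at h1
      subst h1
      have h2 : (e.symm x : B) = (e.symm x' : B) := add_left_cancel hyy
      have h3 : x = x' := e.symm.injective (Subtype.ext h2)
      rw [h3]
    · intro b
      have hb : b - ι (P b) ∈ W := by
        rw [hWmem, map_sub, hPι, sub_self]
      refine ⟨(P b, e ⟨b - ι (P b), hb⟩), ?_⟩
      rw [hθ, LinearEquiv.symm_apply_apply]
      exact add_sub_cancel _ _
  refine ⟨Module.finrank ℝ W, LinearEquiv.ofBijective θ hθb, D, ?_, ?_⟩
  · intro u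
    rw [LinearEquiv.ofBijective_apply, hθ, map_zero]
    simp
  · intro g u x
    rw [LinearEquiv.ofBijective_apply, LinearEquiv.ofBijective_apply, hθ, hθ, map_add, heq, hD]

theorem lat1_triv {G : Type} [Group G] (H : Subgroup G) [H.Normal] (h : G) (hh : h ∈ H) :
    TTrep H h = 1 := by
  apply LinearMap.ext
  intro u
  apply DFunLike.ext
  intro k
  have h1 := TTrep_apply H h u k.toMul
  have h2 : MulAut.conjNormal h⁻¹ k.toMul = (⟨h, hh⟩ : H)⁻¹ * k.toMul * ⟨h, hh⟩ := by
    apply Subtype.ext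
    rw [MulAut.conjNormal_apply]
    simp
  rw [h2, ofMul_mul, ofMul_mul, map_add, map_add, ofMul_inv, map_neg] at h1
  change TTrep H h u k = u k
  have h3 : Additive.ofMul (Additive.toMul k) = k := rfl
  rw [h3] at h1
  rw [h1]
  ring

theorem lat1_resT_inj {G : Type} [Group G] (H H₁ : Subgroup G) (hle : H ≤ H₁)
    [H.FiniteIndex] [H.Normal] : Function.Injective (resT H H₁ hle) := by
  rw [← LinearMap.ker_eq_bot, LinearMap.ker_eq_bot']
  intro u hu
  apply DFunLike.ext
  intro k
  have h1 : k.toMul.1 ^ H.index ∈ H := Subgroup.pow_index_mem H k.toMul.1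
  have h2 : resT H H₁ hle u (Additive.ofMul ⟨_, h1⟩) = 0 := by
    rw [hu]
    rfl
  have h3 : resT H H₁ hle u (Additive.ofMul ⟨_, h1⟩) = H.index • u k := by
    rw [← map_nsmul]
    rfl
  rw [h3, nsmul_eq_mul] at h2
  have h4 : (H.index : ℝ) ≠ 0 := Nat.cast_ne_zero.mpr Subgroup.FiniteIndex.index_ne_zero
  exact (mul_eq_zero.mp h2).resolve_left h4

theorem exists_complement {G : Type} [Group G] [Group.FG G] (H H₁ : Subgroup G) (hle : H ≤ H₁)
    [H.FiniteIndex] [H.Normal] [H₁.Normal] :
    ∃ (m : ℕ) (Θ : (TT H₁ × (Fin m → ℝ)) ≃ₗ[ℝ] TT H) (D : Representation ℝ G (Fin m → ℝ)),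
      (∀ u, Θ (u, 0) = resT H H₁ hle u) ∧
      ∀ g u x, Θ (TTrep H₁ g u, D g x) = TTrep H g (Θ (u, x)) := by
  refine lat1_abs (TTrep H₁) (TTrep H) (resT H H₁ hle) (lat1_resT_inj H H₁ hle) ?_ H
    (fun h hh => lat1_triv H₁ h (hle hh)) (fun h hh => lat1_triv H h hh)
  intro g a
  apply DFunLike.ext
  intro k
  rfl

end RQ
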