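import Pool.Agent.Helper44.RQ.Defs

/-! Module `Mean` of MP_27ef80_ag -/

set_option autoImplicit false
open scoped ComplexConjugate Matrix TensorProduct
open MeasureTheory

noncomputable section

namespace RQ

/-- the circle mean inequality -/
theorem mean_circle (s : ℝ) (h0 : 0 < s) (h1 : s < 1) (f : ℂ → ℂ)
    (hf : DifferentiableOn ℂ f (Metric.ball 0 1)) :
    2 * Real.pi * ‖f 0‖ ^ 2 ≤ ∫ θ in (-Real.pi)..Real.pi, ‖f (circleMap 0 s θ)‖ ^ 2 := by
  have hball : Metric.closedBall (0 : ℂ) |s| ⊆ Metric.ball 0 1 := by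
    rw [abs_of_pos h0]
    exact Metric.closedBall_subset_ball h1
  have hd : DiffContOnCl ℂ (fun z => f z ^ 2) (Metric.ball 0 |s|) := by
    have h2 : DifferentiableOn ℂ (fun z => f z ^ 2) (Metric.ball 0 1) := hf.pow 2
    refine DifferentiableOn.diffContOnCl (h2.mono ?_)
    rw [closure_ball _ (abs_pos.2 h0.ne').ne']
    exact hball
  have hav := hd.circleAverage
  rw [Real.circleAverage_def] at hav
  -- periodicity
  have hper : Function.Periodic (fun θ => f (circleMap 0 s θ) ^ 2) (2 * Real.pi) := by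
    intro θ
    simp only
    rw [periodic_circleMap]
  have hshift : ∫ θ in (0 : ℝ)..(2 * Real.pi), f (circleMap 0 s θ) ^ 2 =
      ∫ θ in (-Real.pi)..Real.pi, f (circleMap 0 s θ) ^ 2 := by
    have h3 := hper.intervalIntegral_add_eq 0 (-Real.pi)
    rw [zero_add] at h3
    rw [h3]
    congr 1
    ring
  rw [hshift] at hav
  have hnorm : ‖∫ θ in (-Real.pi)..Real.pi, f (circleMap 0 s θ) ^ 2‖ ≤
      ∫ θ in (-Real.pi)..Real.pi, ‖f (circleMap 0 s θ) ^ 2‖ :=
    intervalIntegral.norm_integral_le_integral_norm (by linarith [Real.pi_pos])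
  have hval : ∫ θ in (-Real.pi)..Real.pi, f (circleMap 0 s θ) ^ 2 =
      (2 * Real.pi) • (f 0 ^ 2) := by
    rw [← hav, smul_smul, mul_inv_cancel₀ (by positivity), one_smul]
  rw [hval, norm_smul, Real.norm_eq_abs, abs_of_pos (by positivity : 0 < 2 * Real.pi),
    norm_pow] at hnorm
  simp only [norm_pow] at hnorm
  exact hnorm

theorem mean_radial (ρ : ℝ) (h0 : 0 < ρ) (h1 : ρ < 1) :
    ∫⁻ s in Set.Ioo (0 : ℝ) ρ, ENNReal.ofReal (s / (1 - s ^ 2)) =
      ENNReal.ofReal (Real.log (1 / (1 - ρ ^ 2)) / 2) := by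
  have hpos : ∀ s ∈ Set.Icc (0 : ℝ) ρ, 0 < 1 - s ^ 2 := by
    intro s hs
    nlinarith [hs.1, hs.2]
  have hcont : ContinuousOn (fun s : ℝ => s / (1 - s ^ 2)) (Set.Icc 0 ρ) := by
    refine continuousOn_id.div (continuousOn_const.sub (continuousOn_id.pow 2)) ?_
    intro s hs
    exact (hpos s hs).ne'
  have hint : IntervalIntegrable (fun s : ℝ => s / (1 - s ^ 2)) volume 0 ρ := by
    apply ContinuousOn.intervalIntegrable
    rwa [Set.uIcc_of_le h0.le]
  have hval : ∫ s in (0 : ℝ)..ρ, s / (1 - s ^ 2) = Real.log (1 / (1 - ρ ^ 2)) / 2 := by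
    have hder : ∀ s ∈ Set.uIcc 0 ρ, HasDerivAt (fun s : ℝ => -(Real.log (1 - s ^ 2)) / 2)
        (s / (1 - s ^ 2)) s := by
      intro s hs
      rw [Set.uIcc_of_le h0.le] at hs
      have h2 := hpos s hs
      have h3 : HasDerivAt (fun s : ℝ => 1 - s ^ 2) (-(2 * s)) s := by
        simpa using (hasDerivAt_pow 2 s).const_sub 1
      have h4 := ((h3.log h2.ne').neg).div_const 2
      have h5 : -(-(2 * s) / (1 - s ^ 2)) / 2 = s / (1 - s ^ 2) := by ring
      rw [h5] at h4
      exact h4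
    rw [intervalIntegral.integral_eq_sub_of_hasDerivAt hder hint]
    rw [one_div, Real.log_inv]
    simp
  rw [← hval, intervalIntegral.integral_of_le h0.le, integral_Ioc_eq_integral_Ioo,
    ofReal_integral_eq_lintegral_ofReal]
  · have := (hint.1)
    exact this.mono_set Set.Ioo_subset_Ioc_self
  · refine (ae_restrict_iff' measurableSet_Ioo).2 (Filter.Eventually.of_forall fun s hs => ?_)
    have h2 := hpos s ⟨hs.1.le, hs.2.le⟩
    exact div_nonneg hs.1.le h2.le

theorem mean_value (ρ : ℝ) (h0 : 0 < ρ) (h1 : ρ < 1) (f : ℂ → ℂ)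
    (hf : DifferentiableOn ℂ f (Metric.ball 0 1)) :
    ENNReal.ofReal (‖f 0‖ ^ 2 * (Real.pi * Real.log (1 / (1 - ρ ^ 2)))) ≤
      ∫⁻ z in Metric.ball 0 ρ, ENNReal.ofReal (‖f z‖ ^ 2 * (1 - ‖z‖ ^ 2)) ∂muD := by
  classical
  -- a measurable version
  set F : ℂ → ℂ := (Metric.ball (0 : ℂ) 1).piecewise f (fun _ => 0) with hF
  have hFm : Measurable F :=
    hf.continuousOn.measurable_piecewise continuousOn_const measurableSet_ball
  have hFf : ∀ z ∈ Metric.ball (0 : ℂ) 1, F z = f z := fun z hz =>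
    Set.piecewise_eq_of_mem _ _ _ hz
  have hsub : Metric.ball (0 : ℂ) ρ ⊆ Metric.ball 0 1 := Metric.ball_subset_ball h1.le
  have hw : Measurable fun z : ℂ => ENNReal.ofReal (1 / (1 - ‖z‖ ^ 2) ^ 2) :=
    ENNReal.measurable_ofReal.comp
      (measurable_const.div (((measurable_const.sub (measurable_norm.pow_const 2))).pow_const 2))
  have hnF : Measurable fun z : ℂ => ‖F z‖ ^ 2 := (hFm.norm.pow_const 2)
  have hG : Measurable fun z : ℂ => ENNReal.ofReal (‖F z‖ ^ 2 * (1 - ‖z‖ ^ 2)) :=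
    ENNReal.measurable_ofReal.comp (hnF.mul (measurable_const.sub (measurable_norm.pow_const 2)))
  have e1 : ∫⁻ z in Metric.ball 0 ρ, ENNReal.ofReal (‖f z‖ ^ 2 * (1 - ‖z‖ ^ 2)) ∂muD =
      ∫⁻ z in Metric.ball 0 ρ, ENNReal.ofReal (‖F z‖ ^ 2 * (1 - ‖z‖ ^ 2)) ∂muD := by
    refine setLIntegral_congr_fun measurableSet_ball fun z hz => ?_
    rw [hFf z (hsub hz)]
  have e2 : ∫⁻ z in Metric.ball 0 ρ, ENNReal.ofReal (‖F z‖ ^ 2 * (1 - ‖z‖ ^ 2)) ∂muD =
      ∫⁻ z in Metric.ball 0 ρ, ENNReal.ofReal (‖F z‖ ^ 2 / (1 - ‖z‖ ^ 2)) := by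
    unfold muD
    rw [restrict_withDensity measurableSet_ball, lintegral_withDensity_eq_lintegral_mul _ hw hG,
      Measure.restrict_restrict measurableSet_ball, Set.inter_eq_left.2 hsub]
    refine setLIntegral_congr_fun measurableSet_ball fun z hz => ?_
    rw [mem_ball_zero_iff] at hz
    have h2 : 0 < 1 - ‖z‖ ^ 2 := by nlinarith [norm_nonneg z]
    simp only [Pi.mul_apply]
    rw [← ENNReal.ofReal_mul (by positivity)]
    congr 1
    field_simp
  rw [e1, e2]
  -- polar coordinates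
  set ψ : ℂ → ENNReal := (Metric.ball (0 : ℂ) ρ).indicator
    (fun z => ENNReal.ofReal (‖F z‖ ^ 2 / (1 - ‖z‖ ^ 2))) with hψ
  have hψm : Measurable ψ := (ENNReal.measurable_ofReal.comp
    (hnF.div (measurable_const.sub (measurable_norm.pow_const 2)))).indicator measurableSet_ball
  have e3 : ∫⁻ z in Metric.ball 0 ρ, ENNReal.ofReal (‖F z‖ ^ 2 / (1 - ‖z‖ ^ 2)) =
      ∫⁻ z, ψ z := (lintegral_indicator measurableSet_ball _).symm
  rw [e3, ← Complex.lintegral_comp_polarCoord_symm, polarCoord_target]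
  have hsm : Measurable fun p : ℝ × ℝ => Complex.polarCoord.symm p := by
    simp only [Complex.polarCoord_symm_apply]
    exact (Complex.measurable_ofReal.comp measurable_fst).mul
      ((Complex.measurable_ofReal.comp (Real.measurable_cos.comp measurable_snd)).add
        ((Complex.measurable_ofReal.comp (Real.measurable_sin.comp measurable_snd)).mul_const _))
  have hm2 : Measurable fun p : ℝ × ℝ => ENNReal.ofReal p.1 • ψ (Complex.polarCoord.symm p) := by
    simp only [smul_eq_mul]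
    exact (ENNReal.measurable_ofReal.comp measurable_fst).mul (hψm.comp hsm)
  rw [Measure.volume_eq_prod, ← Measure.prod_restrict, lintegral_prod _ hm2.aemeasurable]
  -- lower bound of the inner integral
  have hinner : ∀ s ∈ Set.Ioo (0 : ℝ) ρ,
      ENNReal.ofReal (s / (1 - s ^ 2)) * ENNReal.ofReal (2 * Real.pi * ‖f 0‖ ^ 2) ≤
      ∫⁻ θ in Set.Ioo (-Real.pi) Real.pi,
        ENNReal.ofReal (s, θ).1 • ψ (Complex.polarCoord.symm (s, θ)) := by
    intro s hs
    have hs1 : s < 1 := hs.2.trans h1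
    have h2 : 0 < 1 - s ^ 2 := by nlinarith [hs.1]
    have hpt : ∀ θ : ℝ, ENNReal.ofReal (s, θ).1 • ψ (Complex.polarCoord.symm (s, θ)) =
        ENNReal.ofReal (s / (1 - s ^ 2)) * ENNReal.ofReal (‖f (circleMap 0 s θ)‖ ^ 2) := by
      intro θ
      have h3 : Complex.polarCoord.symm (s, θ) = circleMap 0 s θ := by
        rw [Complex.polarCoord_symm_apply, circleMap_zero, Complex.exp_mul_I]
        simp
      have h4 : ‖circleMap 0 s θ‖ = s := by
        rw [norm_circleMap_zero, abs_of_pos hs.1]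
      have h5 : circleMap 0 s θ ∈ Metric.ball (0 : ℂ) ρ := by
        rw [mem_ball_zero_iff, h4]
        exact hs.2
      rw [h3, hψ, Set.indicator_of_mem h5, hFf _ (hsub h5), h4, smul_eq_mul,
        ← ENNReal.ofReal_mul hs.1.le, ← ENNReal.ofReal_mul (div_nonneg hs.1.le h2.le)]
      congr 1
      ring
    simp_rw [hpt]
    rw [lintegral_const_mul']
    swap
    · exact ENNReal.ofReal_ne_top
    refine mul_le_mul' le_rfl ?_
    have hcirc := mean_circle s hs.1 hs1 f hf
    have hcf : Continuous fun θ => ‖f (circleMap 0 s θ)‖ ^ 2 := by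
      have h6 : Continuous fun θ => f (circleMap 0 s θ) := by
        refine hf.continuousOn.comp_continuous (continuous_circleMap 0 s) fun θ => ?_
        rw [mem_ball_zero_iff, norm_circleMap_zero, abs_of_pos hs.1]
        exact hs1
      exact h6.norm.pow 2
    refine (ENNReal.ofReal_le_ofReal hcirc).trans (le_of_eq ?_)
    rw [intervalIntegral.integral_of_le (by linarith [Real.pi_pos]), integral_Ioc_eq_integral_Ioo,
      ofReal_integral_eq_lintegral_ofReal]
    · exact (hcf.intervalIntegrable (-Real.pi) Real.pi).1.mono_set Set.Ioo_subset_Ioc_self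
    · exact Filter.Eventually.of_forall fun θ => by positivity
  calc ENNReal.ofReal (‖f 0‖ ^ 2 * (Real.pi * Real.log (1 / (1 - ρ ^ 2))))
      = (∫⁻ s in Set.Ioo (0 : ℝ) ρ, ENNReal.ofReal (s / (1 - s ^ 2))) *
          ENNReal.ofReal (2 * Real.pi * ‖f 0‖ ^ 2) := by
        rw [mean_radial ρ h0 h1, ← ENNReal.ofReal_mul]
        · congr 1
          ring
        · have h2 : 0 < 1 - ρ ^ 2 := by nlinarith
          have h3 : 0 ≤ Real.log (1 / (1 - ρ ^ 2)) := by
            apply Real.log_nonneg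
            rw [le_div_iff₀ h2]
            nlinarith
          linarith
    _ = ∫⁻ s in Set.Ioo (0 : ℝ) ρ, ENNReal.ofReal (s / (1 - s ^ 2)) *
          ENNReal.ofReal (2 * Real.pi * ‖f 0‖ ^ 2) := by
        rw [lintegral_mul_const']
        exact ENNReal.ofReal_ne_top
    _ ≤ ∫⁻ s in Set.Ioo (0 : ℝ) ρ, ∫⁻ θ in Set.Ioo (-Real.pi) Real.pi,
        ENNReal.ofReal (s, θ).1 • ψ (Complex.polarCoord.symm (s, θ)) :=
        setLIntegral_mono' measurableSet_Ioo hinner
    _ ≤ ∫⁻ s in Set.Ioi (0 : ℝ), ∫⁻ θ in Set.Ioo (-Real.pi) Real.pi,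
        ENNReal.ofReal (s, θ).1 • ψ (Complex.polarCoord.symm (s, θ)) :=
        lintegral_mono_set Set.Ioo_subset_Ioi_self

end RQ
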