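import Pool.Agent.Helper44.RQ.Meas
import Pool.Agent.Helper44.RQ.Mean

/-! Module `Mean2` of MP_27ef80_ag -/

set_option autoImplicit false
open scoped ComplexConjugate Matrix TensorProduct
open MeasureTheory

noncomputable section

namespace RQ

/-- the element moving `0` to `z₀` -/
def mean2_g (z₀ : DD) : SU11 :=
  ⟨⟨!![(((1 / Real.sqrt (1 - ‖z₀.1‖ ^ 2) : ℝ)) : ℂ),
      (((1 / Real.sqrt (1 - ‖z₀.1‖ ^ 2) : ℝ)) : ℂ) * z₀.1;
      (((1 / Real.sqrt (1 - ‖z₀.1‖ ^ 2) : ℝ)) : ℂ) * conj z₀.1,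
      (((1 / Real.sqrt (1 - ‖z₀.1‖ ^ 2) : ℝ)) : ℂ)], by
    have h1 : 0 < 1 - ‖z₀.1‖ ^ 2 := by nlinarith [norm_nonneg z₀.1, z₀.2]
    have h2 : (1 / Real.sqrt (1 - ‖z₀.1‖ ^ 2)) ^ 2 = 1 / (1 - ‖z₀.1‖ ^ 2) := by
      rw [div_pow, one_pow, Real.sq_sqrt h1.le]
    have h3 : (((1 / Real.sqrt (1 - ‖z₀.1‖ ^ 2) : ℝ)) : ℂ) ^ 2 * (1 - z₀.1 * conj z₀.1) = 1 := by
      rw [Complex.mul_conj, Complex.normSq_eq_norm_sq]
      have h4 : (1 / Real.sqrt (1 - ‖z₀.1‖ ^ 2)) ^ 2 * (1 - ‖z₀.1‖ ^ 2) = 1 := by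
        rw [h2]
        field_simp
      exact_mod_cast h4
    rw [Matrix.det_fin_two_of]
    linear_combination h3⟩, by
    constructor
    · simp [Complex.conj_ofReal]
    · simp [Complex.conj_ofReal]⟩

theorem mean2_J (z₀ : DD) (z : ℂ) : J (mean2_g z₀) z =
    (((1 / Real.sqrt (1 - ‖z₀.1‖ ^ 2) : ℝ)) : ℂ) * (1 + conj z₀.1 * z) := by
  have h : J (mean2_g z₀) z = (((1 / Real.sqrt (1 - ‖z₀.1‖ ^ 2) : ℝ)) : ℂ) * conj z₀.1 * z +
      (((1 / Real.sqrt (1 - ‖z₀.1‖ ^ 2) : ℝ)) : ℂ) := rfl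
  rw [h]; ring

theorem mean2_N (z₀ : DD) (z : ℂ) : Nm (mean2_g z₀) z =
    (((1 / Real.sqrt (1 - ‖z₀.1‖ ^ 2) : ℝ)) : ℂ) * (z + z₀.1) := by
  have h : Nm (mean2_g z₀) z = (((1 / Real.sqrt (1 - ‖z₀.1‖ ^ 2) : ℝ)) : ℂ) * z +
      (((1 / Real.sqrt (1 - ‖z₀.1‖ ^ 2) : ℝ)) : ℂ) * z₀.1 := rfl
  rw [h]; ring

theorem mean2_c_ne (z₀ : DD) : (((1 / Real.sqrt (1 - ‖z₀.1‖ ^ 2) : ℝ)) : ℂ) ≠ 0 := by
  have h1 : 0 < 1 - ‖z₀.1‖ ^ 2 := by nlinarith [norm_nonneg z₀.1, z₀.2]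
  have h2 : 0 < 1 / Real.sqrt (1 - ‖z₀.1‖ ^ 2) := by positivity
  exact_mod_cast h2.ne'

/-- the pseudo-hyperbolic translate is inverse to `g` -/
theorem mean2_inv (z₀ : DD) {z : ℂ} (hz : ‖z‖ < 1) :
    (meas_T (mean2_g z₀) z - z₀.1) / (1 - conj z₀.1 * meas_T (mean2_g z₀) z) = z := by
  have h1 : 0 < 1 - ‖z₀.1‖ ^ 2 := by nlinarith [norm_nonneg z₀.1, z₀.2]
  have hJ := J_ne_zero (mean2_g z₀) hz
  rw [mean2_J] at hJ
  have hc := mean2_c_ne z₀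
  have hd : 1 + conj z₀.1 * z ≠ 0 := right_ne_zero_of_mul hJ
  have hT : meas_T (mean2_g z₀) z = (z + z₀.1) / (1 + conj z₀.1 * z) := by
    unfold meas_T
    rw [mean2_J, mean2_N, mul_div_mul_left _ _ hc]
  have hz0 : (1 : ℂ) - conj z₀.1 * z₀.1 ≠ 0 := by
    rw [mul_comm, Complex.mul_conj, Complex.normSq_eq_norm_sq]
    exact_mod_cast h1.ne'
  rw [hT]
  have e1 : (z + z₀.1) / (1 + conj z₀.1 * z) - z₀.1 =
      z * (1 - conj z₀.1 * z₀.1) / (1 + conj z₀.1 * z) := by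
    rw [div_sub' hd]
    congr 1
    ring
  have e2 : 1 - conj z₀.1 * ((z + z₀.1) / (1 + conj z₀.1 * z)) =
      (1 - conj z₀.1 * z₀.1) / (1 + conj z₀.1 * z) := by
    rw [eq_div_iff hd, sub_mul, mul_assoc, div_mul_cancel₀ _ hd]
    ring
  rw [e1, e2, div_div_div_cancel_right₀ hd, mul_div_assoc, div_self hz0, mul_one]

theorem mean_value_at (ρ : ℝ) (h0 : 0 < ρ) (h1 : ρ < 1) (z₀ : DD) (f : ℂ → ℂ)
    (hf : DifferentiableOn ℂ f (Metric.ball 0 1)) :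
    ENNReal.ofReal (‖f z₀.1‖ ^ 2 * (1 - ‖z₀.1‖ ^ 2) *
      (Real.pi * Real.log (1 / (1 - ρ ^ 2)))) ≤
      ∫⁻ z in {z : ℂ | ‖(z - z₀.1) / (1 - conj z₀.1 * z)‖ < ρ},
        ENNReal.ofReal (‖f z‖ ^ 2 * (1 - ‖z‖ ^ 2)) ∂muD := by
  classical
  set g := mean2_g z₀ with hg
  -- a measurable version of f
  set F : ℂ → ℂ := (Metric.ball (0 : ℂ) 1).piecewise f (fun _ => 0) with hF
  have hFm : Measurable F :=
    hf.continuousOn.measurable_piecewise continuousOn_const measurableSet_ball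
  have hFf : ∀ z ∈ Metric.ball (0 : ℂ) 1, F z = f z := fun z hz =>
    Set.piecewise_eq_of_mem _ _ _ hz
  set S : Set ℂ := {z : ℂ | ‖(z - z₀.1) / (1 - conj z₀.1 * z)‖ < ρ} with hS
  have hSm : MeasurableSet S := by
    have h2 : Measurable fun z : ℂ => ‖(z - z₀.1) / (1 - conj z₀.1 * z)‖ :=
      (((measurable_id.sub measurable_const)).div
        (measurable_const.sub (measurable_const.mul measurable_id))).norm
    exact h2 measurableSet_Iio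
  have hG : Measurable fun z : ℂ => ENNReal.ofReal (‖F z‖ ^ 2 * (1 - ‖z‖ ^ 2)) :=
    ENNReal.measurable_ofReal.comp ((hFm.norm.pow_const 2).mul
      (measurable_const.sub (measurable_norm.pow_const 2)))
  -- muD lives on the ball
  have hae : ∀ᵐ z ∂muD, z ∈ Metric.ball (0 : ℂ) 1 := by
    unfold muD
    refine (withDensity_absolutelyContinuous _ _).ae_le ?_
    exact ae_restrict_mem measurableSet_ball
  have e1 : ∫⁻ z in S, ENNReal.ofReal (‖f z‖ ^ 2 * (1 - ‖z‖ ^ 2)) ∂muD =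
      ∫⁻ z in S, ENNReal.ofReal (‖F z‖ ^ 2 * (1 - ‖z‖ ^ 2)) ∂muD := by
    refine lintegral_congr_ae (ae_restrict_of_ae ?_)
    filter_upwards [hae] with z hz
    rw [hFf z hz]
  have e2 : ∫⁻ z in S, ENNReal.ofReal (‖F z‖ ^ 2 * (1 - ‖z‖ ^ 2)) ∂muD =
      ∫⁻ z, S.indicator (fun z => ENNReal.ofReal (‖F z‖ ^ 2 * (1 - ‖z‖ ^ 2))) z ∂muD :=
    (lintegral_indicator hSm _).symm
  rw [e1, e2, ← lintegral_mob g _ (hG.indicator hSm)]
  -- the function on the source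
  set H : ℂ → ℂ := fun z => f (Nm g z / J g z) / J g z with hH
  have hHd : DifferentiableOn ℂ H (Metric.ball 0 1) := by
    intro z hz
    have hz' := hz
    rw [mem_ball_zero_iff] at hz'
    have h2 := meas_hasDerivAt g hz
    have h3 : DifferentiableAt ℂ f (meas_T g z) :=
      (hf _ (meas_mem g hz)).differentiableAt (Metric.isOpen_ball.mem_nhds (meas_mem g hz))
    have h4 : DifferentiableAt ℂ (fun z => f (meas_T g z)) z :=
      DifferentiableAt.comp (f := meas_T g) (g := f) z h3 h2.differentiableAt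
    have h5 : DifferentiableAt ℂ (J g) z := by
      unfold J
      exact ((differentiableAt_id).const_mul _).add_const _
    exact (h4.div h5 (J_ne_zero g hz')).differentiableWithinAt
  have hmv := mean_value ρ h0 h1 H hHd
  have hz0 : 0 < 1 - ‖z₀.1‖ ^ 2 := by nlinarith [norm_nonneg z₀.1, z₀.2]
  have hH0 : ‖H 0‖ ^ 2 = ‖f z₀.1‖ ^ 2 * (1 - ‖z₀.1‖ ^ 2) := by
    have h2 : Nm g 0 / J g 0 = z₀.1 := by
      rw [hg, mean2_J, mean2_N, mul_zero, add_zero, mul_one, zero_add,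
        mul_div_cancel_left₀ _ (mean2_c_ne z₀)]
    have h3 : J g 0 = (((1 / Real.sqrt (1 - ‖z₀.1‖ ^ 2) : ℝ)) : ℂ) := by
      rw [hg, mean2_J, mul_zero, add_zero, mul_one]
    simp only [hH]
    rw [h2, h3, norm_div, div_pow, Complex.norm_real, Real.norm_eq_abs, sq_abs, div_pow, one_pow,
      Real.sq_sqrt hz0.le]
    field_simp
  rw [hH0] at hmv
  refine hmv.trans ?_
  rw [← lintegral_indicator measurableSet_ball]
  refine lintegral_mono_ae ?_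
  filter_upwards [hae] with z hz
  by_cases hzρ : z ∈ Metric.ball (0 : ℂ) ρ
  · rw [Set.indicator_of_mem hzρ]
    have hz' := hz
    rw [mem_ball_zero_iff] at hz'
    have hS' : Nm g z / J g z ∈ S := by
      have h2 := mean2_inv z₀ hz'
      show ‖(meas_T g z - z₀.1) / (1 - conj z₀.1 * meas_T g z)‖ < ρ
      rw [hg, h2]
      rwa [mem_ball_zero_iff] at hzρ
    rw [Set.indicator_of_mem hS']
    have h3 : F (Nm g z / J g z) = f (Nm g z / J g z) := hFf _ (meas_mem g hz)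
    rw [h3]
    refine le_of_eq ?_
    congr 1
    have h4 := one_sub_normSq g ⟨z, hz'⟩
    have h5 : (g • (⟨z, hz'⟩ : DD)).1 = Nm g z / J g z := rfl
    rw [h5] at h4
    rw [h4]
    simp only [hH]
    rw [norm_div, div_pow]
    ring
  · rw [Set.indicator_of_notMem hzρ]
    exact zero_le

end RQ
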