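import Pool.Agent.Helper44.RQ.Defs

/-! Module `Meas` of MP_27ef80_ag -/

set_option autoImplicit false
open scoped ComplexConjugate Matrix TensorProduct
open MeasureTheory

noncomputable section

namespace RQ

/-- the Möbius map as a function on `ℂ` -/
def meas_T (g : SU11) (z : ℂ) : ℂ := Nm g z / J g z

/-- the density -/
def meas_w (z : ℂ) : ENNReal := ENNReal.ofReal (1 / (1 - ‖z‖ ^ 2) ^ 2)

theorem meas_measurable_w : Measurable meas_w := by
  unfold meas_w
  exact ENNReal.measurable_ofReal.comp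
    (measurable_const.div (((measurable_const.sub (measurable_norm.pow_const 2))).pow_const 2))

theorem meas_measurable_T (g : SU11) : Measurable (meas_T g) := by
  unfold meas_T Nm J
  exact ((measurable_const.mul measurable_id).add measurable_const).div
    ((measurable_const.mul measurable_id).add measurable_const)

theorem meas_mem (g : SU11) {z : ℂ} (hz : z ∈ Metric.ball (0 : ℂ) 1) :
    meas_T g z ∈ Metric.ball (0 : ℂ) 1 := by
  rw [mem_ball_zero_iff] at hz ⊢
  exact (mob g ⟨z, hz⟩).2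

theorem meas_inv (g : SU11) {z : ℂ} (hz : z ∈ Metric.ball (0 : ℂ) 1) :
    meas_T g⁻¹ (meas_T g z) = z := by
  rw [mem_ball_zero_iff] at hz
  have h := inv_smul_smul g (⟨z, hz⟩ : DD)
  exact congrArg Subtype.val h

theorem meas_image (g : SU11) :
    meas_T g '' Metric.ball (0 : ℂ) 1 = Metric.ball (0 : ℂ) 1 := by
  apply Set.Subset.antisymm
  · rintro _ ⟨z, hz, rfl⟩
    exact meas_mem g hz
  · intro z hz
    refine ⟨meas_T g⁻¹ z, meas_mem g⁻¹ hz, ?_⟩
    have := meas_inv g⁻¹ hz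
    rwa [inv_inv] at this

theorem meas_injOn (g : SU11) : Set.InjOn (meas_T g) (Metric.ball (0 : ℂ) 1) := by
  intro x hx y hy h
  rw [← meas_inv g hx, ← meas_inv g hy, h]

theorem meas_hasDerivAt (g : SU11) {z : ℂ} (hz : z ∈ Metric.ball (0 : ℂ) 1) :
    HasDerivAt (meas_T g) (1 / J g z ^ 2) z := by
  rw [mem_ball_zero_iff] at hz
  have hJ := J_ne_zero g hz
  have h1 : HasDerivAt (Nm g) (g.1.1 0 0) z := by
    unfold Nm
    simpa using ((hasDerivAt_id z).const_mul (g.1.1 0 0)).add_const (g.1.1 0 1)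
  have h2 : HasDerivAt (J g) (g.1.1 1 0) z := by
    unfold J
    simpa using ((hasDerivAt_id z).const_mul (g.1.1 1 0)).add_const (g.1.1 1 1)
  have h3 := h1.div h2 hJ
  have h4 : (g.1.1 0 0 * J g z - Nm g z * g.1.1 1 0) / J g z ^ 2 = 1 / J g z ^ 2 := by
    congr 1
    unfold J Nm
    linear_combination det_eq g
  rw [h4] at h3
  exact h3

/-- the real derivative -/
def meas_D (g : SU11) (z : ℂ) : ℂ →L[ℝ] ℂ :=
  (ContinuousLinearMap.toSpanSingleton ℂ (1 / J g z ^ 2)).restrictScalars ℝ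

theorem meas_D_det (g : SU11) (z : ℂ) : (meas_D g z).det = Complex.normSq (1 / J g z ^ 2) := by
  have h : ((meas_D g z : ℂ →L[ℝ] ℂ) : ℂ →ₗ[ℝ] ℂ) = Algebra.lmul ℝ ℂ (1 / J g z ^ 2) := by
    ext x
    simp [meas_D, mul_comm]
  rw [ContinuousLinearMap.det, h, ← Algebra.norm_apply, Algebra.norm_complex_apply]

theorem meas_density (g : SU11) {z : ℂ} (hz : z ∈ Metric.ball (0 : ℂ) 1) :
    ENNReal.ofReal |(meas_D g z).det| * meas_w (meas_T g z) = meas_w z := by
  rw [mem_ball_zero_iff] at hz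
  have hJ := J_ne_zero g hz
  have hJn : ‖J g z‖ ≠ 0 := norm_ne_zero_iff.2 hJ
  have h1 := one_sub_normSq g ⟨z, hz⟩
  have h2 : (g • (⟨z, hz⟩ : DD)).1 = meas_T g z := rfl
  rw [h2] at h1
  have hz2 : 1 - ‖z‖ ^ 2 ≠ 0 := by
    have : ‖z‖ ^ 2 < 1 := by nlinarith [norm_nonneg z]
    linarith
  rw [meas_D_det]
  unfold meas_w
  rw [← ENNReal.ofReal_mul (abs_nonneg _)]
  congr 1
  rw [h1, Complex.normSq_eq_norm_sq]
  simp only [norm_div, norm_pow, norm_one]
  rw [abs_of_nonneg (by positivity)]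
  field_simp

theorem meas_lintegral (ψ : ℂ → ENNReal) (hψ : Measurable ψ) :
    ∫⁻ z, ψ z ∂muD = ∫⁻ z in Metric.ball (0 : ℂ) 1, meas_w z * ψ z := by
  unfold muD
  have := lintegral_withDensity_eq_lintegral_mul (volume.restrict (Metric.ball (0 : ℂ) 1))
    meas_measurable_w hψ
  simp only [Pi.mul_apply] at this
  exact this

theorem lintegral_mob (g : SU11) (φ : ℂ → ENNReal) (hφ : Measurable φ) :
    ∫⁻ z, φ (Nm g z / J g z) ∂muD = ∫⁻ z, φ z ∂muD := by
  have h1 : ∫⁻ z, φ (Nm g z / J g z) ∂muD = ∫⁻ z, φ (meas_T g z) ∂muD := rfl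
  rw [h1, meas_lintegral (fun z => φ (meas_T g z)) (hφ.comp (meas_measurable_T g)),
    meas_lintegral _ hφ]
  have h2 := lintegral_image_eq_lintegral_abs_det_fderiv_mul (volume : Measure ℂ)
    (s := Metric.ball (0 : ℂ) 1) (f := meas_T g) (f' := meas_D g) measurableSet_ball
    (fun z hz => ((meas_hasDerivAt g hz).hasFDerivAt.restrictScalars ℝ).hasFDerivWithinAt)
    (meas_injOn g) (fun z => meas_w z * φ z)
  rw [meas_image] at h2
  rw [h2]
  refine setLIntegral_congr_fun measurableSet_ball fun z hz => ?_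
  rw [← mul_assoc, meas_density g hz]

end RQ
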