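import Pool.Agent.Helper44.RQ.Defs

/-! Module `Neu1` of MP_27ef80_ag -/

set_option autoImplicit false
open scoped ComplexConjugate Matrix TensorProduct
open MeasureTheory

noncomputable section

namespace RQ

section neu1abs

variable {r : ℕ}

theorem neu1_ci {t C : ℝ} (g : ℂ → Fin r → ℂ) (hg : Measurable g)
    (hb : ∀ ζ ∈ Metric.sphere (0 : ℂ) |t|, ‖g ζ‖ ≤ C) : CircleIntegrable g 0 t := by
  unfold CircleIntegrable
  rw [intervalIntegrable_iff]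
  refine IntegrableOn.of_bound
    (by rw [Set.uIoc_of_le Real.two_pi_pos.le]; exact measure_Ioc_lt_top) ?_ C ?_
  · exact (hg.comp (continuous_circleMap 0 t).measurable).aestronglyMeasurable
  · refine Filter.Eventually.of_forall fun θ => ?_
    exact hb _ (circleMap_mem_sphere' 0 t θ)

variable {B : Type} [NormedAddCommGroup B] [NormedSpace ℂ B]

theorem neu1_op {t c : ℝ} (ht : 0 < t) (E : ℂ → B →L[ℂ] (Fin r → ℂ))
    (hm : ∀ f, Measurable fun ζ => E ζ f)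
    (hb : ∀ ζ ∈ Metric.sphere (0 : ℂ) t, ∀ f, ‖E ζ f‖ ≤ c * ‖f‖)
    (k : ℂ → ℂ) (hk : Measurable k) (K : ℝ) (hK0 : 0 ≤ K)
    (hK : ∀ ζ ∈ Metric.sphere (0 : ℂ) t, ‖k ζ‖ ≤ K) (hc : 0 ≤ c) :
    ∃ I : B →L[ℂ] (Fin r → ℂ),
      (∀ f, I f = (2 * Real.pi * Complex.I : ℂ)⁻¹ • ∮ ζ in C(0, t), k ζ • E ζ f) ∧
      ‖I‖ ≤ t * K * c := by
  have habs : |t| = t := abs_of_pos ht
  have hbd : ∀ f, ∀ ζ ∈ Metric.sphere (0 : ℂ) |t|, ‖k ζ • E ζ f‖ ≤ K * (c * ‖f‖) := by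
    intro f ζ hζ
    rw [habs] at hζ
    rw [norm_smul]
    exact mul_le_mul (hK ζ hζ) (hb ζ hζ f) (norm_nonneg _) hK0
  have hci : ∀ f, CircleIntegrable (fun ζ => k ζ • E ζ f) 0 t := fun f =>
    neu1_ci _ (hk.smul (hm f)) (hbd f)
  let L : B →ₗ[ℂ] (Fin r → ℂ) :=
    { toFun := fun f => (2 * Real.pi * Complex.I : ℂ)⁻¹ • ∮ ζ in C(0, t), k ζ • E ζ f
      map_add' := by
        intro f g
        rw [← smul_add, ← circleIntegral.integral_add (hci f) (hci g)]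
        simp only [map_add, smul_add]
      map_smul' := by
        intro a f
        rw [RingHom.id_apply, smul_comm a, ← circleIntegral.integral_smul a]
        congr 1
        apply circleIntegral.integral_congr ht.le
        intro ζ _
        simp only [map_smul]
        rw [smul_comm] }
  have hL : ∀ f, ‖L f‖ ≤ (t * K * c) * ‖f‖ := by
    intro f
    change ‖(2 * Real.pi * Complex.I : ℂ)⁻¹ • ∮ ζ in C(0, t), k ζ • E ζ f‖ ≤ _
    rw [norm_smul]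
    have h1 : ‖∮ ζ in C(0, t), k ζ • E ζ f‖ ≤ 2 * Real.pi * t * (K * (c * ‖f‖)) := by
      apply circleIntegral.norm_integral_le_of_norm_le_const ht.le
      intro ζ hζ
      exact hbd f ζ (by rwa [habs])
    have h2 : ‖(2 * Real.pi * Complex.I : ℂ)⁻¹‖ = (2 * Real.pi)⁻¹ := by
      rw [norm_inv, norm_mul, norm_mul, Complex.norm_I, mul_one, Complex.norm_real,
        Real.norm_of_nonneg Real.pi_pos.le]
      simp
    rw [h2]
    have hpi : 0 < 2 * Real.pi := by positivity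
    calc (2 * Real.pi)⁻¹ * ‖∮ ζ in C(0, t), k ζ • E ζ f‖
        ≤ (2 * Real.pi)⁻¹ * (2 * Real.pi * t * (K * (c * ‖f‖))) := by
          gcongr
      _ = (t * K * c) * ‖f‖ := by
          field_simp
  refine ⟨L.mkContinuous (t * K * c) hL, fun f => rfl, ?_⟩
  exact LinearMap.mkContinuous_norm_le _ (by positivity) _

theorem neu1_diff {t C : ℝ} (ht : 0 < t) (M : ℕ) (g : ℂ → Fin r → ℂ) (hg : Measurable g)
    (hb : ∀ ζ ∈ Metric.sphere (0 : ℂ) t, ‖g ζ‖ ≤ C) :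
    DifferentiableOn ℂ (fun z => (2 * Real.pi * Complex.I : ℂ)⁻¹ •
      ∮ ζ in C(0, t), ((z / ζ) ^ M * (ζ - z)⁻¹) • g ζ) (Metric.ball 0 t) := by
  have habs : |t| = t := abs_of_pos ht
  have h1 : CircleIntegrable (fun ζ => (ζ⁻¹) ^ M • g ζ) 0 t := by
    refine neu1_ci (C := (t⁻¹) ^ M * C) _ ((measurable_id.inv.pow_const M).smul hg) ?_
    intro ζ hζ
    rw [habs] at hζ
    have hζ' : ‖ζ‖ = t := by simpa using hζ
    rw [norm_smul, norm_pow, norm_inv, hζ']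
    gcongr
    exact hb ζ hζ
  let R : NNReal := ⟨t, ht.le⟩
  have hR : (0 : NNReal) < R := ht
  have h2 := (hasFPowerSeriesOn_cauchy_integral (R := R) (c := 0) h1 hR).differentiableOn
  rw [Metric.eball_coe] at h2
  have h3 : DifferentiableOn ℂ (fun z : ℂ => z ^ M • ((2 * Real.pi * Complex.I : ℂ)⁻¹ •
      ∮ ζ in C(0, t), (ζ - z)⁻¹ • ((ζ⁻¹) ^ M • g ζ))) (Metric.ball 0 t) :=
    (differentiableOn_id.pow M).smul h2
  refine h3.congr ?_
  intro z _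
  rw [smul_comm (z ^ M), ← circleIntegral.integral_smul (z ^ M)]
  congr 1
  apply circleIntegral.integral_congr ht.le
  intro ζ _
  simp only [smul_smul]
  congr 1
  rw [div_eq_mul_inv, mul_pow]
  ring

theorem neu1_kernel (M : ℕ) (z ζ : ℂ) (h1 : ζ ≠ 0) (h2 : ζ - z ≠ 0) :
    (ζ - z)⁻¹ = (∑ n : Fin M, z ^ (n : ℕ) * (ζ ^ ((n : ℕ) + 1))⁻¹) +
      (z / ζ) ^ M * (ζ - z)⁻¹ := by
  rw [Fin.sum_univ_eq_sum_range (fun n => z ^ n * (ζ ^ (n + 1))⁻¹) M]
  induction M with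
  | zero => simp
  | succ M ih =>
    rw [Finset.sum_range_succ]
    have e1 : ζ * ζ⁻¹ = 1 := mul_inv_cancel₀ h1
    have e2 : (ζ - z) * (ζ - z)⁻¹ = 1 := mul_inv_cancel₀ h2
    have this : (z / ζ) ^ M * (ζ - z)⁻¹ =
        z ^ M * (ζ ^ (M + 1))⁻¹ + (z / ζ) ^ (M + 1) * (ζ - z)⁻¹ := by
      rw [div_eq_mul_inv, mul_pow, mul_pow, ← inv_pow]
      linear_combination (z ^ M * ζ⁻¹ ^ M) * (-(ζ - z)⁻¹ * e1 + ζ⁻¹ * e2)
    linear_combination ih + this

theorem neu1_cauchy {t : ℝ} (ht : 0 < t) (M : ℕ) (f : ℂ → Fin r → ℂ)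
    (hf : DifferentiableOn ℂ f (Metric.closedBall 0 t)) (z : ℂ) (hz : ‖z‖ < t) :
    f z = (∑ n : Fin M, z ^ (n : ℕ) • ((2 * Real.pi * Complex.I : ℂ)⁻¹ •
        ∮ ζ in C(0, t), (ζ ^ ((n : ℕ) + 1))⁻¹ • f ζ)) +
      (2 * Real.pi * Complex.I : ℂ)⁻¹ •
        ∮ ζ in C(0, t), ((z / ζ) ^ M * (ζ - z)⁻¹) • f ζ := by
  have hzb : z ∈ Metric.ball (0 : ℂ) t := by simpa using hz
  have h1 := hf.circleIntegral_sub_inv_smul hzb
  have hpi : (2 * Real.pi * Complex.I : ℂ) ≠ 0 := Complex.two_pi_I_ne_zero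
  have h2 : f z = (2 * Real.pi * Complex.I : ℂ)⁻¹ •
      ∮ ζ in C(0, t), (ζ - z)⁻¹ • f ζ := by
    rw [h1, smul_smul, inv_mul_cancel₀ hpi, one_smul]
  have hcf : ContinuousOn f (Metric.sphere 0 t) :=
    hf.continuousOn.mono Metric.sphere_subset_closedBall
  have hne : ∀ ζ ∈ Metric.sphere (0 : ℂ) t, ζ ≠ 0 := by
    intro ζ hζ h0
    subst h0
    simp at hζ
    exact ht.ne hζ
  have hne2 : ∀ ζ ∈ Metric.sphere (0 : ℂ) t, ζ - z ≠ 0 := by
    intro ζ hζ h0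
    have : ζ = z := sub_eq_zero.mp h0
    subst this
    have : ‖ζ‖ = t := by simpa using hζ
    exact hz.ne this
  have hci1 : ∀ n : ℕ, CircleIntegrable (fun ζ => (ζ ^ (n + 1))⁻¹ • f ζ) 0 t := by
    intro n
    apply ContinuousOn.circleIntegrable ht.le
    refine ContinuousOn.smul (ContinuousOn.inv₀ (continuousOn_id.pow _) ?_) hcf
    intro ζ hζ
    exact pow_ne_zero _ (hne ζ hζ)
  have hci2 : CircleIntegrable (fun ζ => ((z / ζ) ^ M * (ζ - z)⁻¹) • f ζ) 0 t := by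
    apply ContinuousOn.circleIntegrable ht.le
    refine ContinuousOn.smul (ContinuousOn.mul (ContinuousOn.pow
      (ContinuousOn.div continuousOn_const continuousOn_id hne) _)
      (ContinuousOn.inv₀ (continuousOn_id.sub continuousOn_const) hne2)) hcf
  rw [h2]
  have h3 : (∮ ζ in C(0, t), (ζ - z)⁻¹ • f ζ) =
      ∮ ζ in C(0, t), ((∑ n : Fin M, z ^ (n : ℕ) • ((ζ ^ ((n : ℕ) + 1))⁻¹ • f ζ)) +
        ((z / ζ) ^ M * (ζ - z)⁻¹) • f ζ) := by
    apply circleIntegral.integral_congr ht.le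
    intro ζ hζ
    simp only
    conv_lhs => rw [neu1_kernel M z ζ (hne ζ hζ) (hne2 ζ hζ)]
    rw [add_smul, Finset.sum_smul]
    congr 1
    apply Finset.sum_congr rfl
    intro n _
    rw [smul_smul]
  rw [h3, circleIntegral.integral_add ?_ hci2, circleIntegral.integral_fun_sum ?_, smul_add,
    Finset.smul_sum]
  · congr 1
    apply Finset.sum_congr rfl
    intro n _
    rw [circleIntegral.integral_smul, smul_comm]
  · intro n _
    exact (hci1 n).const_smul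
  · apply CircleIntegrable.fun_sum
    intro n _
    exact (hci1 n).const_smul

end neu1abs

section neu1conc

/-- the Moebius map as a function on `ℂ` -/
def neu1M (g : SU11) (ζ : ℂ) : ℂ := Nm g ζ / J g ζ

theorem neu1M_meas (g : SU11) : Measurable (neu1M g) := by
  unfold neu1M Nm J
  exact ((measurable_id.const_mul _).add_const _).div ((measurable_id.const_mul _).add_const _)

theorem neu1J_cont (g : SU11) : Continuous (J g) := by
  unfold J
  fun_prop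

/-- radial projection to the closed disc -/
def neu1P (t' : ℝ) (h0 : 0 < t') (w : ℂ) : Metric.closedBall (0 : ℂ) t' :=
  ⟨((t' / max t' ‖w‖ : ℝ) : ℂ) * w, by
    have h1 : 0 < max t' ‖w‖ := lt_max_of_lt_left h0
    rw [mem_closedBall_zero_iff, norm_mul, Complex.norm_real, Real.norm_of_nonneg (by positivity),
      div_mul_eq_mul_div, div_le_iff₀ h1]
    exact mul_le_mul_of_nonneg_left (le_max_right _ _) h0.le⟩

theorem neu1P_cont (t' : ℝ) (h0 : 0 < t') : Continuous (neu1P t' h0) := by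
  unfold neu1P
  refine Continuous.subtype_mk ?_ _
  refine Continuous.mul (Complex.continuous_ofReal.comp ?_) continuous_id
  refine continuous_const.div (continuous_const.max continuous_norm) ?_
  intro w
  exact (lt_max_of_lt_left h0).ne'

theorem neu1P_val (t' : ℝ) (h0 : 0 < t') (w : ℂ) (hw : ‖w‖ ≤ t') :
    neu1P t' h0 w = ⟨w, by simpa using hw⟩ := by
  apply Subtype.ext
  change ((t' / max t' ‖w‖ : ℝ) : ℂ) * w = w
  rw [max_eq_left hw, div_self h0.ne', Complex.ofReal_one, one_mul]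

variable {G : Type} [Group G] {r : ℕ}

open Classical in
/-- number of elements of `S` which bring `ζ` to the closed disc -/
def neu1D (Φ : G →* SU11) (H : Subgroup G) (S : Finset H) (t' : ℝ) (ζ : ℂ) : ℝ :=
  ∑ h ∈ S, if ‖neu1M (Φ h)⁻¹ ζ‖ ≤ t' then 1 else 0

open Classical in
/-- the weights -/
def neu1a (Φ : G →* SU11) (H : Subgroup G) (S : Finset H) (t' : ℝ) (h : H) (ζ : ℂ) : ℂ :=
  if ‖neu1M (Φ h)⁻¹ ζ‖ ≤ t' then ((neu1D Φ H S t' ζ)⁻¹ : ℝ) else 0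

theorem neu1S_meas (g : SU11) (t' : ℝ) : MeasurableSet {ζ | ‖neu1M g ζ‖ ≤ t'} :=
  measurableSet_le (neu1M_meas g).norm measurable_const

theorem neu1D_meas (Φ : G →* SU11) (H : Subgroup G) (S : Finset H) (t' : ℝ) :
    Measurable (neu1D Φ H S t') := by
  classical
  unfold neu1D
  refine Finset.measurable_fun_sum _ fun h _ => ?_
  exact Measurable.ite (neu1S_meas _ t') measurable_const measurable_const

theorem neu1a_meas (Φ : G →* SU11) (H : Subgroup G) (S : Finset H) (t' : ℝ) (h : H) :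
    Measurable (neu1a Φ H S t' h) := by
  classical
  unfold neu1a
  exact Measurable.ite (neu1S_meas _ t')
    (Complex.measurable_ofReal.comp (neu1D_meas Φ H S t').inv) measurable_const

theorem neu1D_ge (Φ : G →* SU11) (H : Subgroup G) (S : Finset H) (t' : ℝ) (ζ : ℂ) (h : H)
    (hS : h ∈ S) (hh : ‖neu1M (Φ h)⁻¹ ζ‖ ≤ t') : 1 ≤ neu1D Φ H S t' ζ := by
  classical
  unfold neu1D
  have h1 := Finset.single_le_sum (s := S)
    (f := fun h : H => if ‖neu1M (Φ h)⁻¹ ζ‖ ≤ t' then (1 : ℝ) else 0)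
    (fun i _ => by split_ifs <;> norm_num) hS
  simp only [if_pos hh] at h1
  convert h1

theorem neu1a_norm (Φ : G →* SU11) (H : Subgroup G) (S : Finset H) (t' : ℝ) (ζ : ℂ) (h : H)
    (hS : ‖neu1M (Φ h)⁻¹ ζ‖ ≤ t' → h ∈ S) : ‖neu1a Φ H S t' h ζ‖ ≤ 1 := by
  classical
  unfold neu1a
  split_ifs with hh
  · have h1 := neu1D_ge Φ H S t' ζ h (hS hh) hh
    rw [Complex.norm_real, norm_inv, Real.norm_of_nonneg (by linarith)]
    exact inv_le_one_of_one_le₀ h1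
  · simp

theorem neu1a_sum (Φ : G →* SU11) (H : Subgroup G) (S : Finset H) (t' : ℝ) (ζ : ℂ)
    (hS : ∃ h ∈ S, ‖neu1M (Φ h)⁻¹ ζ‖ ≤ t') : ∑ h ∈ S, neu1a Φ H S t' h ζ = 1 := by
  classical
  obtain ⟨h₀, h1, h2⟩ := hS
  have h3 := neu1D_ge Φ H S t' ζ h₀ h1 h2
  have h4 : ∀ h ∈ S, neu1a Φ H S t' h ζ =
      (((if ‖neu1M (Φ h)⁻¹ ζ‖ ≤ t' then (1 : ℝ) else 0) * (neu1D Φ H S t' ζ)⁻¹ : ℝ) : ℂ) := by
    intro h _
    unfold neu1a
    split_ifs <;> simp
  rw [Finset.sum_congr rfl h4, ← Complex.ofReal_sum, ← Finset.sum_mul]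
  have h5 : (∑ h ∈ S, if ‖neu1M (Φ h)⁻¹ ζ‖ ≤ t' then (1 : ℝ) else 0) = neu1D Φ H S t' ζ := by
    unfold neu1D
    apply Finset.sum_congr rfl
    intro h _
    congr
  rw [h5, mul_inv_cancel₀ (by linarith), Complex.ofReal_one]

/-- the operators on the circle -/
def neu1E (Φ : G →* SU11) (V : G →* Matrix.unitaryGroup (Fin r) ℂ) (H : Subgroup G)
    (S : Finset H) (t' : ℝ) (h0 : 0 < t') (h : H) (ζ : ℂ) : BB t' r →L[ℂ] (Fin r → ℂ) :=
  (neu1a Φ H S t' h ζ * J (Φ h) (neu1M (Φ h)⁻¹ ζ)) •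
    ((LinearMap.toContinuousLinearMap (Matrix.mulVecLin (V h).1)).comp
      (ContinuousMap.evalCLM ℂ (neu1P t' h0 (neu1M (Φ h)⁻¹ ζ))))

theorem neu1E_apply (Φ : G →* SU11) (V : G →* Matrix.unitaryGroup (Fin r) ℂ) (H : Subgroup G)
    (S : Finset H) (t' : ℝ) (h0 : 0 < t') (h : H) (ζ : ℂ) (f : BB t' r) :
    neu1E Φ V H S t' h0 h ζ f = (neu1a Φ H S t' h ζ * J (Φ h) (neu1M (Φ h)⁻¹ ζ)) •
      ((V h).1 *ᵥ f (neu1P t' h0 (neu1M (Φ h)⁻¹ ζ))) := rfl

theorem neu1E_meas (Φ : G →* SU11) (V : G →* Matrix.unitaryGroup (Fin r) ℂ) (H : Subgroup G)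
    (S : Finset H) (t' : ℝ) (h0 : 0 < t') (h : H) (f : BB t' r) :
    Measurable fun ζ => neu1E Φ V H S t' h0 h ζ f := by
  simp only [neu1E_apply]
  refine Measurable.smul ((neu1a_meas Φ H S t' h).mul
    ((neu1J_cont _).measurable.comp (neu1M_meas _))) ?_
  have h1 : Continuous fun w : ℂ => (V h).1 *ᵥ f (neu1P t' h0 w) :=
    (LinearMap.toContinuousLinearMap (Matrix.mulVecLin (V h).1)).continuous.comp
      (f.continuous.comp (neu1P_cont t' h0))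
  exact h1.measurable.comp (neu1M_meas _)

/-- the bound for the operators -/
def neu1c (Φ : G →* SU11) (V : G →* Matrix.unitaryGroup (Fin r) ℂ) (H : Subgroup G)
    (t' : ℝ) (h : H) : ℝ :=
  (‖(Φ h).1.1 1 0‖ * t' + ‖(Φ h).1.1 1 1‖) *
    ‖LinearMap.toContinuousLinearMap (Matrix.mulVecLin (V h).1)‖

theorem neu1E_bound (Φ : G →* SU11) (V : G →* Matrix.unitaryGroup (Fin r) ℂ) (H : Subgroup G)
    (S : Finset H) (t' : ℝ) (h0 : 0 < t') (h : H) (ζ : ℂ)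
    (hS : ‖neu1M (Φ h)⁻¹ ζ‖ ≤ t' → h ∈ S) (f : BB t' r) :
    ‖neu1E Φ V H S t' h0 h ζ f‖ ≤ neu1c Φ V H t' h * ‖f‖ := by
  rw [neu1E_apply]
  by_cases hh : ‖neu1M (Φ h)⁻¹ ζ‖ ≤ t'
  · rw [norm_smul, norm_mul]
    have h1 := neu1a_norm Φ H S t' ζ h hS
    have h2 : ‖J (Φ h) (neu1M (Φ h)⁻¹ ζ)‖ ≤ ‖(Φ h).1.1 1 0‖ * t' + ‖(Φ h).1.1 1 1‖ := by
      unfold J
      refine (norm_add_le _ _).trans ?_
      rw [norm_mul]
      gcongr
    have h3 : ‖(V h).1 *ᵥ f (neu1P t' h0 (neu1M (Φ h)⁻¹ ζ))‖ ≤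
        ‖LinearMap.toContinuousLinearMap (Matrix.mulVecLin (V h).1)‖ * ‖f‖ := by
      refine ((LinearMap.toContinuousLinearMap (Matrix.mulVecLin (V h).1)).le_opNorm _).trans ?_
      gcongr
      exact f.norm_coe_le_norm _
    unfold neu1c
    rw [mul_assoc _ _ ‖f‖]
    refine mul_le_mul ?_ h3 (norm_nonneg _) (by positivity)
    calc ‖neu1a Φ H S t' h ζ‖ * ‖J (Φ h) (neu1M (Φ h)⁻¹ ζ)‖
        ≤ 1 * (‖(Φ h).1.1 1 0‖ * t' + ‖(Φ h).1.1 1 1‖) :=
          mul_le_mul h1 h2 (norm_nonneg _) zero_le_one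
      _ = _ := one_mul _
  · have h1 : neu1a Φ H S t' h ζ = 0 := by
      classical
      unfold neu1a
      rw [if_neg hh]
    rw [h1, zero_mul, zero_smul, norm_zero]
    unfold neu1c
    positivity

theorem neu1_fin (Φ : G →* SU11) (H : Subgroup G) (t : ℝ) (ht : t < 1) (hD : Disc Φ) :
    ∃ S : Finset H, ∀ h : H, ∀ ζ : ℂ, ‖ζ‖ = t → ‖neu1M (Φ h)⁻¹ ζ‖ ≤ t → h ∈ S := by
  have h1 := hD t ht
  have h2 : {h : H | ∃ z : DD, ‖z.1‖ ≤ t ∧ ‖(Φ ((h : G)⁻¹) • z).1‖ ≤ t}.Finite := by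
    have h3 : Function.Injective (fun h : H => (h : G)⁻¹) := by
      intro a b hab
      exact Subtype.ext (inv_injective hab)
    exact h1.preimage (f := fun h : H => (h : G)⁻¹) h3.injOn
  refine ⟨h2.toFinset, fun h ζ hζ hh => ?_⟩
  rw [Set.Finite.mem_toFinset]
  refine ⟨⟨ζ, by rw [hζ]; exact ht⟩, hζ.le, ?_⟩
  rw [smul_val, map_inv]
  exact hh

theorem neu1_rec (Φ : G →* SU11) (V : G →* Matrix.unitaryGroup (Fin r) ℂ) (H : Subgroup G)
    (S : Finset H) (t' t : ℝ) (h0 : 0 < t') (ht : t < 1)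
    (hS : ∀ h : H, ∀ ζ : ℂ, ‖ζ‖ = t → ‖neu1M (Φ h)⁻¹ ζ‖ ≤ t' → h ∈ S) (hC : Cocpt Φ H t')
    (u : TT H) (f : DD → Fin r → ℂ) (hf : f ∈ SS Φ V H u) (f' : BB t' r)
    (hff : ∀ (z : DD) (hz : ‖z.1‖ ≤ t'), f' ⟨z.1, by simpa using hz⟩ = f z) (ζ : ℂ)
    (hζ : ‖ζ‖ = t) :
    ∑ h ∈ S, chi u h • neu1E Φ V H S t' h0 h ζ f' = ext0 f ζ := by
  have hζ1 : ‖ζ‖ < 1 := by rw [hζ]; exact ht
  have hval : ∀ h : H, neu1M (Φ h)⁻¹ ζ = ((Φ h)⁻¹ • (⟨ζ, hζ1⟩ : DD)).1 := fun h => rfl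
  have hterm : ∀ h ∈ S, chi u h • neu1E Φ V H S t' h0 h ζ f' =
      neu1a Φ H S t' h ζ • ext0 f ζ := by
    intro h _
    by_cases hh : ‖neu1M (Φ h)⁻¹ ζ‖ ≤ t'
    · rw [neu1E_apply, neu1P_val t' h0 _ hh]
      have h1 := hf.2 h ((Φ h)⁻¹ • (⟨ζ, hζ1⟩ : DD))
      rw [smul_inv_smul] at h1
      have h2 := hff ((Φ h)⁻¹ • (⟨ζ, hζ1⟩ : DD)) hh
      have h3 : ext0 f ζ = f ⟨ζ, hζ1⟩ := dif_pos hζ1
      rw [h3, h1]
      have h4 : f' ⟨neu1M (Φ h)⁻¹ ζ, by simpa using hh⟩ = f ((Φ h)⁻¹ • (⟨ζ, hζ1⟩ : DD)) := h2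
      rw [h4, smul_smul, smul_smul, hval h]
      congr 1
      ring
    · have h1 : neu1a Φ H S t' h ζ = 0 := by
        classical
        unfold neu1a
        rw [if_neg hh]
      rw [neu1E_apply, h1, zero_mul, zero_smul, zero_smul, smul_zero]
  rw [Finset.sum_congr rfl hterm, ← Finset.sum_smul]
  obtain ⟨h, hh, hhle⟩ := hC.2 ⟨ζ, hζ1⟩
  have h5 : ‖neu1M (Φ ((⟨h⁻¹, H.inv_mem hh⟩ : H) : G))⁻¹ ζ‖ ≤ t' := by
    have : (Φ ((⟨h⁻¹, H.inv_mem hh⟩ : H) : G))⁻¹ = Φ h := by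
      simp
    rw [this]
    exact hhle
  rw [neu1a_sum Φ H S t' ζ ⟨⟨h⁻¹, H.inv_mem hh⟩, hS _ _ hζ h5, h5⟩, one_smul]

end neu1conc

theorem exists_operators {G : Type} [Group G] {r : ℕ} (Φ : G →* SU11)
    (V : G →* Matrix.unitaryGroup (Fin r) ℂ) (H : Subgroup G) (t' t : ℝ) (h0 : 0 < t')
    (htt : t' < t) (ht : t < 1) (hC : Cocpt Φ H t') (hD : Disc Φ) :
    ∃ (S : Finset H) (M : ℕ) (T : H → (BB t' r →L[ℂ] BB t' r))
      (T' : H → ℂ → (BB t' r →L[ℂ] (Fin r → ℂ))) (P : H → Fin M → (BB t' r →L[ℂ] (Fin r → ℂ))),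
      (∑ h ∈ S, ‖T h‖ < 1) ∧
      (∀ h ∈ S, ∀ (z : Metric.closedBall (0 : ℂ) t') (f : BB t' r), T h f z = T' h z.1 f) ∧
      (∀ h ∈ S, ∀ f : BB t' r, DifferentiableOn ℂ (fun z => T' h z f) (Metric.ball 0 t)) ∧
      (∀ (u : TT H), ∀ f ∈ SS Φ V H u, ∀ f' : BB t' r,
        (∀ (z : DD) (hz : ‖z.1‖ ≤ t'), f' ⟨z.1, by simpa using hz⟩ = f z) →
        ∀ z : DD, ‖z.1‖ < t → f z = (∑ n : Fin M, z.1 ^ (n : ℕ) • ∑ h ∈ S, chi u h • P h n f') +
          ∑ h ∈ S, chi u h • T' h z.1 f') := by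
  have ht0 : 0 < t := h0.trans htt
  obtain ⟨S, hS'⟩ := neu1_fin Φ H t ht hD
  have hS : ∀ h : H, ∀ ζ : ℂ, ‖ζ‖ = t → ‖neu1M (Φ h)⁻¹ ζ‖ ≤ t' → h ∈ S :=
    fun h ζ hζ hh => hS' h ζ hζ (hh.trans htt.le)
  have hc0 : ∀ h : H, 0 ≤ neu1c Φ V H t' h := fun h => by unfold neu1c; positivity
  have hsub : 0 < t - t' := sub_pos.mpr htt
  -- choice of `M`
  obtain ⟨M, hM⟩ : ∃ M : ℕ, (t' / t) ^ M * (∑ h ∈ S, t * (t - t')⁻¹ * neu1c Φ V H t' h) < 1 := by
    have h1 : Filter.Tendsto (fun M : ℕ => (t' / t) ^ M *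
        (∑ h ∈ S, t * (t - t')⁻¹ * neu1c Φ V H t' h)) Filter.atTop
        (nhds (0 * (∑ h ∈ S, t * (t - t')⁻¹ * neu1c Φ V H t' h))) :=
      (tendsto_pow_atTop_nhds_zero_of_lt_one (by positivity)
        ((div_lt_one ht0).mpr htt)).mul_const _
    rw [zero_mul] at h1
    exact (h1.eventually (gt_mem_nhds zero_lt_one)).exists
  have hm := fun (h : H) (f : BB t' r) => neu1E_meas Φ V H S t' h0 h f
  have hb : ∀ (h : H), ∀ ζ ∈ Metric.sphere (0 : ℂ) t, ∀ f : BB t' r,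
      ‖neu1E Φ V H S t' h0 h ζ f‖ ≤ neu1c Φ V H t' h * ‖f‖ := by
    intro h ζ hζ f
    have hζ' : ‖ζ‖ = t := by simpa using hζ
    exact neu1E_bound Φ V H S t' h0 h ζ (hS h ζ hζ') f
  -- the operators
  have hP : ∀ (h : H) (n : Fin M), ∃ I : BB t' r →L[ℂ] (Fin r → ℂ),
      (∀ f, I f = (2 * Real.pi * Complex.I : ℂ)⁻¹ •
        ∮ ζ in C(0, t), (ζ ^ ((n : ℕ) + 1))⁻¹ • neu1E Φ V H S t' h0 h ζ f) ∧
      ‖I‖ ≤ t * (t ^ ((n : ℕ) + 1))⁻¹ * neu1c Φ V H t' h := by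
    intro h n
    refine neu1_op ht0 (neu1E Φ V H S t' h0 h) (hm h) (hb h)
      (fun ζ => (ζ ^ ((n : ℕ) + 1))⁻¹)
      ((measurable_id.pow_const _).inv) _ (by positivity) ?_ (hc0 h)
    intro ζ hζ
    have hζ' : ‖ζ‖ = t := by simpa using hζ
    rw [norm_inv, norm_pow, hζ']
  have hT' : ∀ (h : H) (z : ℂ), ‖z‖ < t → ∃ I : BB t' r →L[ℂ] (Fin r → ℂ),
      (∀ f, I f = (2 * Real.pi * Complex.I : ℂ)⁻¹ •
        ∮ ζ in C(0, t), ((z / ζ) ^ M * (ζ - z)⁻¹) • neu1E Φ V H S t' h0 h ζ f) ∧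
      ‖I‖ ≤ t * ((‖z‖ / t) ^ M * (t - ‖z‖)⁻¹) * neu1c Φ V H t' h := by
    intro h z hz
    have hz' : 0 < t - ‖z‖ := sub_pos.mpr hz
    refine neu1_op ht0 (neu1E Φ V H S t' h0 h) (hm h) (hb h) _ ?_ _ (by positivity) ?_ (hc0 h)
    · exact ((measurable_const.div measurable_id).pow_const M).mul
        ((measurable_id.sub measurable_const).inv)
    · intro ζ hζ
      have hζ' : ‖ζ‖ = t := by simpa using hζ
      rw [norm_mul, norm_pow, norm_div, norm_inv, hζ']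
      refine mul_le_mul_of_nonneg_left ?_ (by positivity)
      apply inv_anti₀ hz'
      calc t - ‖z‖ = ‖ζ‖ - ‖z‖ := by rw [hζ']
        _ ≤ ‖ζ - z‖ := norm_sub_norm_le _ _
  choose P hP1 hP2 using hP
  let T' : H → ℂ → (BB t' r →L[ℂ] (Fin r → ℂ)) := fun h z =>
    if hz : ‖z‖ < t then (hT' h z hz).choose else 0
  have hT'1 : ∀ (h : H) (z : ℂ), ‖z‖ < t → ∀ f, T' h z f = (2 * Real.pi * Complex.I : ℂ)⁻¹ •
        ∮ ζ in C(0, t), ((z / ζ) ^ M * (ζ - z)⁻¹) • neu1E Φ V H S t' h0 h ζ f := by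
    intro h z hz f
    have : T' h z = (hT' h z hz).choose := dif_pos hz
    rw [this]
    exact (hT' h z hz).choose_spec.1 f
  have hT'2 : ∀ (h : H) (z : ℂ), ‖z‖ ≤ t' →
      ‖T' h z‖ ≤ (t' / t) ^ M * (t * (t - t')⁻¹ * neu1c Φ V H t' h) := by
    intro h z hz
    have hz1 : ‖z‖ < t := hz.trans_lt htt
    have : T' h z = (hT' h z hz1).choose := dif_pos hz1
    rw [this]
    refine (hT' h z hz1).choose_spec.2.trans ?_
    have h1 : (‖z‖ / t) ^ M ≤ (t' / t) ^ M := by gcongr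
    have h2 : (t - ‖z‖)⁻¹ ≤ (t - t')⁻¹ := inv_anti₀ hsub (by linarith)
    have h3 : (‖z‖ / t) ^ M * (t - ‖z‖)⁻¹ ≤ (t' / t) ^ M * (t - t')⁻¹ := by
      apply mul_le_mul h1 h2 (inv_nonneg.mpr (by linarith)) (by positivity)
    calc t * ((‖z‖ / t) ^ M * (t - ‖z‖)⁻¹) * neu1c Φ V H t' h
        ≤ t * ((t' / t) ^ M * (t - t')⁻¹) * neu1c Φ V H t' h := by
          apply mul_le_mul_of_nonneg_right _ (hc0 h)
          exact mul_le_mul_of_nonneg_left h3 ht0.le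
      _ = _ := by ring
  have hdiff : ∀ (h : H) (f : BB t' r),
      DifferentiableOn ℂ (fun z => T' h z f) (Metric.ball 0 t) := by
    intro h f
    refine (neu1_diff ht0 M _ (hm h f) (fun ζ hζ => hb h ζ hζ f)).congr ?_
    intro z hz
    exact hT'1 h z (by simpa using hz) f
  -- the operators on `BB`
  have hT : ∀ h : H, ∃ T : BB t' r →L[ℂ] BB t' r,
      (∀ (z : Metric.closedBall (0 : ℂ) t') (f : BB t' r), T f z = T' h z.1 f) ∧
      ‖T‖ ≤ (t' / t) ^ M * (t * (t - t')⁻¹ * neu1c Φ V H t' h) := by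
    intro h
    have hcont : ∀ f : BB t' r, Continuous fun z : Metric.closedBall (0 : ℂ) t' => T' h z.1 f := by
      intro f
      have h1 := (hdiff h f).continuousOn
      have h2 : ContinuousOn (fun z => T' h z f) (Metric.closedBall 0 t') :=
        h1.mono (Metric.closedBall_subset_ball htt)
      exact continuousOn_iff_continuous_domRestrict.mp h2
    let L : BB t' r →ₗ[ℂ] BB t' r :=
      { toFun := fun f => ⟨fun z => T' h z.1 f, hcont f⟩
        map_add' := by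
          intro f g
          ext z : 1
          exact map_add (T' h z.1) f g
        map_smul' := by
          intro a f
          ext z : 1
          exact map_smul (T' h z.1) a f }
    have hK : 0 ≤ (t' / t) ^ M * (t * (t - t')⁻¹ * neu1c Φ V H t' h) := by
      have := hc0 h
      positivity
    have hL : ∀ f, ‖L f‖ ≤ ((t' / t) ^ M * (t * (t - t')⁻¹ * neu1c Φ V H t' h)) * ‖f‖ := by
      intro f
      rw [ContinuousMap.norm_le _ (by positivity)]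
      intro z
      change ‖T' h z.1 f‖ ≤ _
      refine ((T' h z.1).le_opNorm f).trans ?_
      exact mul_le_mul_of_nonneg_right (hT'2 h z.1 (mem_closedBall_zero_iff.mp z.2)) (norm_nonneg _)
    exact ⟨L.mkContinuous _ hL, fun z f => rfl, LinearMap.mkContinuous_norm_le _ hK _⟩
  choose T hT1 hT2 using hT
  refine ⟨S, M, T, T', P, ?_, fun h _ => hT1 h, fun h _ f => hdiff h f, ?_⟩
  · calc ∑ h ∈ S, ‖T h‖ ≤ ∑ h ∈ S, (t' / t) ^ M * (t * (t - t')⁻¹ * neu1c Φ V H t' h) :=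
          Finset.sum_le_sum fun h _ => hT2 h
      _ = (t' / t) ^ M * (∑ h ∈ S, t * (t - t')⁻¹ * neu1c Φ V H t' h) := by
          rw [Finset.mul_sum]
      _ < 1 := hM
  · intro u f hf f' hff z hz
    have hfd : DifferentiableOn ℂ (ext0 f) (Metric.closedBall 0 t) :=
      hf.1.mono (Metric.closedBall_subset_ball ht)
    have h1 := neu1_cauchy ht0 M (ext0 f) hfd z.1 hz
    have h2 : ext0 f z.1 = f z := dif_pos z.2
    rw [h2] at h1
    rw [h1]
    have hrec : ∀ ζ ∈ Metric.sphere (0 : ℂ) t, ext0 f ζ =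
        ∑ h ∈ S, chi u h • neu1E Φ V H S t' h0 h ζ f' := by
      intro ζ hζ
      have hζ' : ‖ζ‖ = t := by simpa using hζ
      exact (neu1_rec Φ V H S t' t h0 ht hS hC u f hf f' hff ζ hζ').symm
    have hint : ∀ (k : ℂ → ℂ), Measurable k → ∀ K : ℝ, 0 ≤ K →
        (∀ ζ ∈ Metric.sphere (0 : ℂ) t, ‖k ζ‖ ≤ K) →
        (∮ ζ in C(0, t), k ζ • ext0 f ζ) =
          ∑ h ∈ S, chi u h • ∮ ζ in C(0, t), k ζ • neu1E Φ V H S t' h0 h ζ f' := by
      intro k hk K hK0 hK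
      have h3 : (∮ ζ in C(0, t), k ζ • ext0 f ζ) =
          ∮ ζ in C(0, t), ∑ h ∈ S, chi u h • (k ζ • neu1E Φ V H S t' h0 h ζ f') := by
        apply circleIntegral.integral_congr ht0.le
        intro ζ hζ
        simp only
        rw [hrec ζ hζ, Finset.smul_sum]
        apply Finset.sum_congr rfl
        intro h _
        rw [smul_comm]
      rw [h3, circleIntegral.integral_fun_sum]
      · apply Finset.sum_congr rfl
        intro h _
        rw [circleIntegral.integral_smul]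
      · intro h _
        apply CircleIntegrable.const_smul
        refine neu1_ci (C := K * (neu1c Φ V H t' h * ‖f'‖)) _ (hk.smul (hm h f')) ?_
        intro ζ hζ
        rw [abs_of_pos ht0] at hζ
        rw [norm_smul]
        exact mul_le_mul (hK ζ hζ) (hb h ζ hζ f') (norm_nonneg _) hK0
    congr 1
    · apply Finset.sum_congr rfl
      intro n _
      congr 1
      rw [hint (fun ζ => (ζ ^ ((n : ℕ) + 1))⁻¹) ((measurable_id.pow_const _).inv)
        ((t ^ ((n : ℕ) + 1))⁻¹) (by positivity) ?_, Finset.smul_sum]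
      · apply Finset.sum_congr rfl
        intro h _
        rw [hP1, smul_comm]
      · intro ζ hζ
        have hζ' : ‖ζ‖ = t := by simpa using hζ
        rw [norm_inv, norm_pow, hζ']
    · have hz' : 0 < t - ‖z.1‖ := sub_pos.mpr hz
      rw [hint (fun ζ => (z.1 / ζ) ^ M * (ζ - z.1)⁻¹)
        (((measurable_const.div measurable_id).pow_const M).mul
          ((measurable_id.sub measurable_const).inv))
        ((‖z.1‖ / t) ^ M * (t - ‖z.1‖)⁻¹) (by positivity) ?_, Finset.smul_sum]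
      · apply Finset.sum_congr rfl
        intro h _
        rw [hT'1 h z.1 hz, smul_comm]
      · intro ζ hζ
        have hζ' : ‖ζ‖ = t := by simpa using hζ
        rw [norm_mul, norm_pow, norm_div, norm_inv, hζ']
        refine mul_le_mul_of_nonneg_left ?_ (by positivity)
        apply inv_anti₀ hz'
        calc t - ‖z.1‖ = ‖ζ‖ - ‖z.1‖ := by rw [hζ']
          _ ≤ ‖ζ - z.1‖ := norm_sub_norm_le _ _

end RQ
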