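import Pool.Agent.Helper44.RQ.HPc

/-! Module `Poly` of MP_27ef80_ag -/

set_option autoImplicit false
open scoped ComplexConjugate Matrix TensorProduct
open MeasureTheory

noncomputable section

namespace RQ

theorem poly_totalDegree_eval₂ {k : Type} [Field k] (m : ℕ) (τ : k →+* k)
    (q : Fin m → MvPolynomial (Fin m) k) (hq : ∀ i, (q i).totalDegree ≤ 1)
    (p : MvPolynomial (Fin m) k) :
    (MvPolynomial.eval₂Hom (MvPolynomial.C.comp τ) q p).totalDegree ≤ p.totalDegree := by
  rw [MvPolynomial.coe_eval₂Hom, MvPolynomial.eval₂_eq]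
  refine MvPolynomial.totalDegree_finsetSum_le fun d hd => ?_
  refine (MvPolynomial.totalDegree_mul _ _).trans ?_
  rw [RingHom.comp_apply, MvPolynomial.totalDegree_C, zero_add]
  refine (MvPolynomial.totalDegree_finsetProd _ _).trans ?_
  refine le_trans ?_ (MvPolynomial.le_totalDegree hd)
  rw [Finsupp.sum]
  refine Finset.sum_le_sum fun i _ => ?_
  refine (MvPolynomial.totalDegree_pow _ _).trans ?_
  calc d i * (q i).totalDegree ≤ d i * 1 := Nat.mul_le_mul_left _ (hq i)
    _ = d i := mul_one _

/-- the substitution on polynomials underlying `σ' g` -/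
theorem poly_subst {k : Type} [Field k] (m : ℕ) (τ : k →+* k)
    (τ' : FractionRing (MvPolynomial (Fin m) k) →+* FractionRing (MvPolynomial (Fin m) k))
    (hC : ∀ c, τ' (algebraMap (MvPolynomial (Fin m) k) _ (MvPolynomial.C c)) =
      algebraMap (MvPolynomial (Fin m) k) _ (MvPolynomial.C (τ c)))
    (hX : ∀ i, ∃ p : MvPolynomial (Fin m) k, p.totalDegree ≤ 1 ∧
      τ' (algebraMap (MvPolynomial (Fin m) k) _ (MvPolynomial.X i)) = algebraMap _ _ p)
    (p : MvPolynomial (Fin m) k) :
    ∃ p' : MvPolynomial (Fin m) k, p'.totalDegree ≤ p.totalDegree ∧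
      τ' (algebraMap (MvPolynomial (Fin m) k) _ p) =
        algebraMap (MvPolynomial (Fin m) k) _ p' := by
  choose q hq1 hq2 using hX
  refine ⟨MvPolynomial.eval₂Hom (MvPolynomial.C.comp τ) q p,
    poly_totalDegree_eval₂ m τ q hq1 p, ?_⟩
  have h : τ'.comp (algebraMap (MvPolynomial (Fin m) k) (FractionRing (MvPolynomial (Fin m) k)))
      = (algebraMap (MvPolynomial (Fin m) k) (FractionRing (MvPolynomial (Fin m) k))).comp
        (MvPolynomial.eval₂Hom (MvPolynomial.C.comp τ) q) := by
    apply MvPolynomial.ringHom_ext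
    · intro c
      rw [RingHom.comp_apply, RingHom.comp_apply, hC, MvPolynomial.eval₂Hom_C,
        RingHom.comp_apply]
    · intro i
      rw [RingHom.comp_apply, RingHom.comp_apply, hq2, MvPolynomial.eval₂Hom_X']
  exact RingHom.congr_fun h p

theorem div_poly {G k : Type} [Group G] [Field k] (m : ℕ) (σ : G →* (k →+* k))
    (σ' : G →* (FractionRing (MvPolynomial (Fin m) k) →+* FractionRing (MvPolynomial (Fin m) k)))
    (hC : ∀ g c, σ' g (algebraMap (MvPolynomial (Fin m) k) _ (MvPolynomial.C c)) =
      algebraMap (MvPolynomial (Fin m) k) _ (MvPolynomial.C (σ g c)))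
    (hX : ∀ g i, ∃ p : MvPolynomial (Fin m) k, p.totalDegree ≤ 1 ∧
      σ' g (algebraMap (MvPolynomial (Fin m) k) _ (MvPolynomial.X i)) = algebraMap _ _ p)
    (H : Subgroup G) [H.FiniteIndex] (e : G → k) (N : ℕ) (hdiv : Div σ H e N) :
    Div σ' H (fun g => algebraMap (MvPolynomial (Fin m) k) _ (MvPolynomial.C (e g))) N := by
  intro U _ _ _ T
  classical
  have hfin : Finite (G ⧸ H) := Subgroup.finite_quotient_of_finiteIndex
  let _ : Fintype (G ⧸ H) := Fintype.ofFinite _
  let _ : Module k U := Module.compHom U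
    (algebraMap k (FractionRing (MvPolynomial (Fin m) k)))
  have hsm : ∀ (c : k) (u : U), c • u =
      (algebraMap (MvPolynomial (Fin m) k) (FractionRing (MvPolynomial (Fin m) k))
        (MvPolynomial.C c)) • u := by
    intro c u
    rfl
  have hst : IsScalarTower k (FractionRing (MvPolynomial (Fin m) k)) U := by
    refine ⟨fun c l u => ?_⟩
    rw [hsm, Algebra.smul_def, mul_smul]
    rfl
  -- the finite stable set
  let b := Module.finBasis (FractionRing (MvPolynomial (Fin m) k)) U
  let M₀ : Finset U := Finset.univ.image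
    (fun x : (G ⧸ H) × Fin (Module.finrank (FractionRing (MvPolynomial (Fin m) k)) U) =>
      T.T x.1.out (b x.2))
  have hTsm : ∀ g (c : k) (u : U), T.T g (c • u) = σ g c • T.T g u := by
    intro g c u
    rw [hsm, hsm, T.T_smul, hC]
  have hTH : ∀ h ∈ H, ∀ u : U, T.T h u = e h • u := by
    intro h hh u
    rw [T.T_scal h hh u, hsm]
  have hM : ∀ g, ∀ v ∈ M₀, ∃ c : k, ∃ v' ∈ M₀, T.T g v = c • v' := by
    intro g v hv
    rw [Finset.mem_image] at hv
    obtain ⟨⟨q, i⟩, -, rfl⟩ := hv
    obtain ⟨h, hh⟩ := QuotientGroup.mk_out_eq_mul H (g * q.out)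
    have h1 : g * q.out = ((g * q.out : G) : G ⧸ H).out * (h : G)⁻¹ := by
      rw [hh]
      group
    refine ⟨σ ((g * q.out : G) : G ⧸ H).out (e (h : G)⁻¹),
      T.T ((g * q.out : G) : G ⧸ H).out (b i), ?_, ?_⟩
    · exact Finset.mem_image.mpr ⟨(((g * q.out : G) : G ⧸ H), i), Finset.mem_univ _, rfl⟩
    · change T.T g (T.T q.out (b i)) = _
      rw [← T.T_mul, h1, T.T_mul, hTH _ (H.inv_mem h.2), hTsm]
      rw [← h1]
  have hspan : Submodule.span (FractionRing (MvPolynomial (Fin m) k)) (M₀ : Set U) = ⊤ := by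
    rw [eq_top_iff, ← b.span_eq, Submodule.span_le]
    rintro _ ⟨i, rfl⟩
    obtain ⟨h, hh⟩ := QuotientGroup.mk_out_eq_mul H (1 : G)
    rw [one_mul] at hh
    have h1 : T.T (((1 : G) : G ⧸ H).out) (b i) ∈ (M₀ : Set U) :=
      Finset.mem_coe.mpr (Finset.mem_image.mpr ⟨(((1 : G) : G ⧸ H), i), Finset.mem_univ _, rfl⟩)
    rw [hh, T.T_scal _ h.2] at h1
    have h2 : (algebraMap (MvPolynomial (Fin m) k) (FractionRing (MvPolynomial (Fin m) k))
        (MvPolynomial.C (e h))) ≠ 0 := by
      intro h0
      have h3 : T.T (h : G) (b i) = 0 := by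
        rw [T.T_scal _ h.2, h0, zero_smul]
      have h4 : T.T ((h : G)⁻¹ * h) (b i) = 0 := by
        rw [T.T_mul, h3, map_zero]
      rw [inv_mul_cancel, T.T_one] at h4
      exact b.ne_zero i h4
    have h3 := Submodule.smul_mem (Submodule.span (FractionRing (MvPolynomial (Fin m) k))
      (M₀ : Set U)) (algebraMap (MvPolynomial (Fin m) k)
        (FractionRing (MvPolynomial (Fin m) k)) (MvPolynomial.C (e h)))⁻¹
      (Submodule.subset_span h1)
    rwa [smul_smul, inv_mul_cancel₀ h2, one_smul] at h3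
  refine hilbert_rank m U M₀ hspan N fun n => ?_
  -- the filtration
  set P := Submodule.span k (PP k m U (M₀ : Set U) n) with hP
  have hPfd : FiniteDimensional k P := by
    let Lv : U → (MvPolynomial (Fin m) k →ₗ[k] U) := fun v =>
      { toFun := fun p => algebraMap (MvPolynomial (Fin m) k)
          (FractionRing (MvPolynomial (Fin m) k)) p • v
        map_add' := fun p q => by rw [map_add, add_smul]
        map_smul' := fun c p => by
          rw [RingHom.id_apply, hsm, MvPolynomial.smul_eq_C_mul, map_mul, mul_smul] }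
    have hle : P ≤ M₀.sup (fun v => Submodule.map (Lv v)
        (MvPolynomial.restrictTotalDegree (Fin m) k n)) := by
      rw [hP, Submodule.span_le]
      rintro _ ⟨p, hp, v, hv, rfl⟩
      have h1 : Submodule.map (Lv v) (MvPolynomial.restrictTotalDegree (Fin m) k n) ≤
          M₀.sup (fun v => Submodule.map (Lv v)
            (MvPolynomial.restrictTotalDegree (Fin m) k n)) :=
        Finset.le_sup (f := fun v => Submodule.map (Lv v)
          (MvPolynomial.restrictTotalDegree (Fin m) k n)) (Finset.mem_coe.mp hv)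
      apply h1
      exact ⟨p, (MvPolynomial.mem_restrictTotalDegree _ _ _).mpr hp, rfl⟩
    have hfd : FiniteDimensional k (M₀.sup (fun v => Submodule.map (Lv v)
        (MvPolynomial.restrictTotalDegree (Fin m) k n)) : Submodule k U) :=
      Submodule.finiteDimensional_finset_sup _ _
    exact Submodule.finiteDimensional_of_le hle
  have hTP : ∀ g, ∀ x ∈ P, T.T g x ∈ P := by
    intro g x hx
    induction hx using Submodule.span_induction with
    | mem x hx =>
      obtain ⟨p, hp, v, hv, rfl⟩ := hx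
      obtain ⟨p', hp', hp''⟩ := poly_subst m (σ g) (σ' g) (hC g) (hX g) p
      obtain ⟨c, v', hv', hcv⟩ := hM g v (Finset.mem_coe.mp hv)
      rw [T.T_smul, hp'', hcv, smul_comm]
      exact Submodule.smul_mem _ _ (Submodule.subset_span
        ⟨p', hp'.trans hp, v', Finset.mem_coe.mpr hv', rfl⟩)
    | zero => rw [map_zero]; exact Submodule.zero_mem _
    | add x y _ _ hx hy => rw [map_add]; exact Submodule.add_mem _ hx hy
    | smul c x _ hx => rw [hTsm]; exact Submodule.smul_mem _ _ hx
  exact hdiv P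
    { T := fun g =>
        { toFun := fun x => ⟨T.T g x.1, hTP g x.1 x.2⟩
          map_zero' := Subtype.ext (map_zero _)
          map_add' := fun x y => Subtype.ext (map_add _ _ _) }
      T_one := fun u => Subtype.ext (T.T_one _)
      T_mul := fun g g' u => Subtype.ext (T.T_mul _ _ _)
      T_smul := fun g c u => Subtype.ext (hTsm _ _ _)
      T_scal := fun h hh u => Subtype.ext (hTH h hh _) }

end RQ
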