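import Pool.Agent.Helper44.RQ.Defs

/-! Module `Tay` of MP_27ef80_ag -/

set_option autoImplicit false
open scoped ComplexConjugate Matrix TensorProduct
open MeasureTheory

noncomputable section

namespace RQ

theorem evP_ext {V₁ : Type} [AddCommGroup V₁] [Module ℝ V₁] {Λ : AddSubgroup V₁} {m : ℕ}
    (p q : MvPolynomial (Fin m) (AnR V₁ Λ)) (h : ∀ u x, evP u x p = evP u x q) : p = q := by
  have hinf : (Set.range ((↑) : ℝ → ℂ)).Infinite :=
    Set.infinite_range_of_injective Complex.ofReal_injective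
  have key : ∀ u : V₁,
      MvPolynomial.map ((Pi.evalRingHom (fun _ : V₁ => ℂ) u).comp (AnR V₁ Λ).subtype) p =
      MvPolynomial.map ((Pi.evalRingHom (fun _ : V₁ => ℂ) u).comp (AnR V₁ Λ).subtype) q := by
    intro u
    apply MvPolynomial.funext_set (fun _ => Set.range ((↑) : ℝ → ℂ)) (fun _ => hinf)
    intro x hx
    have hx' : ∀ i, ∃ y : ℝ, (y : ℂ) = x i := fun i => hx i (Set.mem_univ i)
    choose y hy using hx'
    have h1 := h u y
    have hxy : x = fun i => (y i : ℂ) := funext fun i => (hy i).symm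
    rw [hxy]
    simpa only [evP, MvPolynomial.coe_eval₂Hom, MvPolynomial.eval₂_eq_eval_map] using h1
  ext d u
  have h2 := congrArg (MvPolynomial.coeff d) (key u)
  rw [MvPolynomial.coeff_map, MvPolynomial.coeff_map] at h2
  exact h2

section tay

variable {V₁ : Type} [AddCommGroup V₁] [Module ℝ V₁] [FiniteDimensional ℝ V₁] {m : ℕ}

/-- coordinates on `V₁` -/
def tayB (V₁ : Type) [AddCommGroup V₁] [Module ℝ V₁] [FiniteDimensional ℝ V₁] :
    V₁ ≃ₗ[ℝ] (Fin (Module.finrank ℝ V₁) → ℝ) := (Module.finBasis ℝ V₁).equivFun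

abbrev TayE (V₁ : Type) [AddCommGroup V₁] [Module ℝ V₁] (m : ℕ) : Type :=
  (Fin (Module.finrank ℝ V₁) → ℝ) × (Fin m → ℝ)

/-- the function in coordinates -/
def tayF (f : V₁ × (Fin m → ℝ) → ℂ) : TayE V₁ m → ℂ := fun z => f ((tayB V₁).symm z.1, z.2)

theorem tay_analytic {Λ : AddSubgroup (V₁ × (Fin m → ℝ))} (f : AnR (V₁ × (Fin m → ℝ)) Λ) :
    AnalyticOnNhd ℝ (tayF f.1) Set.univ := by
  let b := (Module.finBasis ℝ (TayE V₁ m)).equivFun
  let L : (Fin (Module.finrank ℝ (TayE V₁ m)) → ℝ) →ₗ[ℝ] (V₁ × (Fin m → ℝ)) :=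
    (LinearMap.prodMap (tayB V₁).symm.toLinearMap LinearMap.id) ∘ₗ b.symm.toLinearMap
  have h1 := f.2.1 _ L
  have h2 : AnalyticOnNhd ℝ (fun z : TayE V₁ m => (LinearMap.toContinuousLinearMap
      b.toLinearMap) z) Set.univ := ContinuousLinearMap.analyticOnNhd _ _
  have h3 := h1.comp h2 (Set.mapsTo_univ _ _)
  refine h3.congr isOpen_univ ?_
  intro z _
  change f.1 (L (b z)) = tayF f.1 z
  have h4 : L (b z) = ((tayB V₁).symm z.1, z.2) := by
    change (LinearMap.prodMap (tayB V₁).symm.toLinearMap LinearMap.id) (b.symm (b z)) = _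
    rw [LinearEquiv.symm_apply_apply]
    rfl
  rw [h4]
  rfl

theorem tay_contDiff {Λ : AddSubgroup (V₁ × (Fin m → ℝ))} (f : AnR (V₁ × (Fin m → ℝ)) Λ) (n : ℕ) :
    ContDiff ℝ n (tayF f.1) := by
  rw [← contDiffOn_univ]
  exact (tay_analytic f).contDiffOn uniqueDiffOn_univ

/-- the partial derivatives -/
def tayC (n : ℕ) (f : V₁ × (Fin m → ℝ) → ℂ) (i : Fin n → Fin m) (u : V₁) : ℂ :=
  iteratedFDeriv ℝ n (tayF f) (tayB V₁ u, 0)
    (fun j => ((0, Pi.single (i j) 1) : TayE V₁ m)) / n.factorial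

theorem tayC_mem {Λ₁ : AddSubgroup V₁} {Λ : AddSubgroup (V₁ × (Fin m → ℝ))}
    (hΛ : ∀ l ∈ Λ₁, (l, 0) ∈ Λ) (n : ℕ) (f : AnR (V₁ × (Fin m → ℝ)) Λ) (i : Fin n → Fin m) :
    tayC n f.1 i ∈ AnR V₁ Λ₁ := by
  constructor
  · intro k L
    have h1 := (tay_analytic f).iteratedFDeriv n
    let A : (Fin k → ℝ) →L[ℝ] TayE V₁ m := LinearMap.toContinuousLinearMap
      ((LinearMap.inl ℝ _ _) ∘ₗ (tayB V₁).toLinearMap ∘ₗ L)
    have h2 : AnalyticOnNhd ℝ (fun y => A y) Set.univ := A.analyticOnNhd _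
    have h3 := h1.comp h2 (Set.mapsTo_univ _ _)
    let ev : (TayE V₁ m [×n]→L[ℝ] ℂ) →L[ℝ] ℂ :=
      ContinuousMultilinearMap.apply ℝ (fun _ : Fin n => TayE V₁ m) ℂ
        (fun j => ((0, Pi.single (i j) 1) : TayE V₁ m))
    have h4 := ev.comp_analyticOnNhd h3
    have h5 : AnalyticOnNhd ℝ (fun _ : Fin k → ℝ => ((n.factorial : ℂ))⁻¹) Set.univ :=
      analyticOnNhd_const
    refine (h4.mul h5).congr isOpen_univ ?_
    intro y _
    change iteratedFDeriv ℝ n (tayF f.1) (A y) _ * ((n.factorial : ℂ))⁻¹ = tayC n f.1 i (L y)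
    simp only [tayC, div_eq_mul_inv]
    rfl
  · intro l hl u
    unfold tayC
    congr 2
    have h1 : tayF f.1 = fun z => tayF f.1 (z + ((tayB V₁ l, 0) : TayE V₁ m)) := by
      funext z
      unfold tayF
      have h2 := f.2.2 _ (hΛ l hl) ((tayB V₁).symm z.1, z.2)
      rw [← h2]
      simp
    have h2 : iteratedFDeriv ℝ n (tayF f.1) (tayB V₁ u, 0) =
        iteratedFDeriv ℝ n (fun z => tayF f.1 (z + ((tayB V₁ l, 0) : TayE V₁ m)))
          (tayB V₁ u, 0) := by rw [← h1]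
    rw [h2, iteratedFDeriv_comp_add_right]
    congr 1
    simp

/-- the coefficient polynomials -/
def tayP {Λ₁ : AddSubgroup V₁} {Λ : AddSubgroup (V₁ × (Fin m → ℝ))}
    (hΛ : ∀ l ∈ Λ₁, (l, 0) ∈ Λ) (n : ℕ) (f : AnR (V₁ × (Fin m → ℝ)) Λ) :
    MvPolynomial (Fin m) (AnR V₁ Λ₁) :=
  ∑ i : Fin n → Fin m, MvPolynomial.C (⟨tayC n f.1 i, tayC_mem hΛ n f i⟩ : AnR V₁ Λ₁) *
    ∏ j, MvPolynomial.X (i j)

theorem tay_deriv {Λ : AddSubgroup (V₁ × (Fin m → ℝ))} (n : ℕ)
    (f : AnR (V₁ × (Fin m → ℝ)) Λ) (u : V₁) (x : Fin m → ℝ) :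
    iteratedDeriv n (fun t : ℝ => f.1 (u, t • x)) 0 =
      iteratedFDeriv ℝ n (tayF f.1) (tayB V₁ u, 0) (fun _ => ((0, x) : TayE V₁ m)) := by
  let A : ℝ →L[ℝ] TayE V₁ m := ContinuousLinearMap.toSpanSingleton ℝ ((0, x) : TayE V₁ m)
  have h1 : (fun t : ℝ => f.1 (u, t • x)) =
      (fun z => tayF f.1 (((tayB V₁ u, 0) : TayE V₁ m) + z)) ∘ A := by
    funext t
    simp [A, tayF, ContinuousLinearMap.toSpanSingleton_apply]
  have h2 : ContDiff ℝ n (fun z => tayF f.1 (((tayB V₁ u, 0) : TayE V₁ m) + z)) :=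
    (tay_contDiff f n).comp (contDiff_const.add contDiff_id)
  rw [iteratedDeriv, h1, A.iteratedFDeriv_comp_right h2 0 le_rfl,
    ContinuousMultilinearMap.compContinuousLinearMap_apply, iteratedFDeriv_comp_add_left]
  congr 1
  · simp
  · funext j
    simp [A]

theorem evP_tayP {Λ₁ : AddSubgroup V₁} {Λ : AddSubgroup (V₁ × (Fin m → ℝ))}
    (hΛ : ∀ l ∈ Λ₁, (l, 0) ∈ Λ) (n : ℕ) (f : AnR (V₁ × (Fin m → ℝ)) Λ) (u : V₁)
    (x : Fin m → ℝ) : evP u x (tayP hΛ n f) =
      iteratedDeriv n (fun t : ℝ => f.1 (u, t • x)) 0 / n.factorial := by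
  rw [tay_deriv]
  have hx : (fun _ : Fin n => ((0, x) : TayE V₁ m)) =
      fun _ => ∑ a : Fin m, x a • ((0, Pi.single a 1) : TayE V₁ m) := by
    funext j
    apply Prod.ext
    · simp [Prod.fst_sum]
    · simp only [Prod.snd_sum, Prod.smul_mk]
      exact (pi_eq_sum_univ' x)
  rw [hx, ContinuousMultilinearMap.map_sum]
  unfold tayP
  rw [map_sum, Finset.sum_div]
  apply Finset.sum_congr rfl
  intro i _
  rw [map_mul, map_prod, ContinuousMultilinearMap.map_smul_univ]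
  simp only [evP, MvPolynomial.coe_eval₂Hom, MvPolynomial.eval₂_C, MvPolynomial.eval₂_X]
  rw [Complex.real_smul]
  change tayC n f.1 i u * _ = _
  unfold tayC
  push_cast
  ring

theorem tay_line {Λ : AddSubgroup (V₁ × (Fin m → ℝ))}
    (f : AnR (V₁ × (Fin m → ℝ)) Λ) (u : V₁) (x : Fin m → ℝ) :
    AnalyticOnNhd ℝ (fun t : ℝ => f.1 (u, t • x)) Set.univ := by
  let A : ℝ →L[ℝ] TayE V₁ m := ContinuousLinearMap.toSpanSingleton ℝ ((0, x) : TayE V₁ m)
  have h1 : (fun t : ℝ => f.1 (u, t • x)) =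
      (tayF f.1) ∘ (fun t => ((tayB V₁ u, 0) : TayE V₁ m) + A t) := by
    funext t
    simp [A, tayF, ContinuousLinearMap.toSpanSingleton_apply]
  rw [h1]
  exact (tay_analytic f).comp (analyticOnNhd_const.add (A.analyticOnNhd _)) (Set.mapsTo_univ _ _)

theorem tay_zero (g : ℝ → ℂ) (hg : AnalyticOnNhd ℝ g Set.univ)
    (h : ∀ n : ℕ, iteratedDeriv n g 0 = 0) : ∀ t, g t = 0 := by
  obtain ⟨p, r, hp⟩ := hg 0 (Set.mem_univ 0)
  have h0 : ∀ᶠ t in nhds (0 : ℝ), g t = 0 := by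
    have hp0 : p = 0 := by
      ext1 n
      have h1 := hp.factorial_smul 1 n
      have h2 : iteratedFDeriv ℝ n g 0 (fun _ => (1 : ℝ)) = 0 := h n
      rw [h2] at h1
      have h3 : p n (fun _ => (1 : ℝ)) = 0 := by
        rw [← Nat.cast_smul_eq_nsmul ℝ] at h1
        exact (smul_eq_zero.mp h1).resolve_left (by positivity)
      ext1
      exact h3
    have h5 := hp.hasFPowerSeriesAt
    rw [hp0] at h5
    exact h5.eventually_eq_zero
  have h6 := hg.eqOn_zero_of_preconnected_of_eventuallyEq_zero isPreconnected_univ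
    (Set.mem_univ 0) h0
  exact fun t => h6 (Set.mem_univ t)

theorem tay_mul {Λ : AddSubgroup (V₁ × (Fin m → ℝ))}
    (f g : AnR (V₁ × (Fin m → ℝ)) Λ) (n : ℕ) (u : V₁) (x : Fin m → ℝ) :
    iteratedDeriv n (fun t : ℝ => (f * g).1 (u, t • x)) 0 / n.factorial =
      ∑ k ∈ Finset.HasAntidiagonal.antidiagonal n,
        (iteratedDeriv k.1 (fun t : ℝ => f.1 (u, t • x)) 0 / k.1.factorial) *
        (iteratedDeriv k.2 (fun t : ℝ => g.1 (u, t • x)) 0 / k.2.factorial) := by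
  have h1 : (fun t : ℝ => (f * g).1 (u, t • x)) =
      (fun t : ℝ => f.1 (u, t • x)) * (fun t : ℝ => g.1 (u, t • x)) := rfl
  rw [h1, iteratedDeriv_mul ((tay_line f u x).contDiffOn uniqueDiffOn_univ |>.contDiffAt
      Filter.univ_mem) ((tay_line g u x).contDiffOn uniqueDiffOn_univ |>.contDiffAt
      Filter.univ_mem), Finset.sum_div, Finset.Nat.sum_antidiagonal_eq_sum_range_succ_mk]
  apply Finset.sum_congr rfl
  intro i hi
  have hi' : i ≤ n := Nat.lt_succ_iff.mp (Finset.mem_range.mp hi)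
  have hc := Nat.choose_mul_factorial_mul_factorial hi'
  have hc' : ((n.choose i : ℕ) : ℂ) * (i.factorial : ℂ) * ((n - i).factorial : ℂ) =
      (n.factorial : ℂ) := by exact_mod_cast hc
  have e1 : (i.factorial : ℂ) ≠ 0 := by exact_mod_cast Nat.factorial_ne_zero i
  have e2 : ((n - i).factorial : ℂ) ≠ 0 := by exact_mod_cast Nat.factorial_ne_zero (n - i)
  have e3 : (n.factorial : ℂ) ≠ 0 := by exact_mod_cast Nat.factorial_ne_zero n
  field_simp
  rw [← hc']
  ring

end tay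

theorem exists_tay (V₁ : Type) [AddCommGroup V₁] [Module ℝ V₁] [FiniteDimensional ℝ V₁] (m : ℕ)
    (Λ₁ : AddSubgroup V₁) (Λ : AddSubgroup (V₁ × (Fin m → ℝ))) (hΛ : ∀ l ∈ Λ₁, (l, 0) ∈ Λ) :
    ∃ τ : AnR (V₁ × (Fin m → ℝ)) Λ →+* PowerSeries (MvPolynomial (Fin m) (AnR V₁ Λ₁)),
      Function.Injective τ ∧ ∀ f n u x, evP u x (PowerSeries.coeff n (τ f)) =
        iteratedDeriv n (fun t : ℝ => f.1 (u, t • x)) 0 / n.factorial := by
  let τ : AnR (V₁ × (Fin m → ℝ)) Λ →+* PowerSeries (MvPolynomial (Fin m) (AnR V₁ Λ₁)) :=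
    { toFun := fun f => PowerSeries.mk fun n => tayP hΛ n f
      map_one' := by
        ext1 n
        apply evP_ext
        intro u x
        rw [PowerSeries.coeff_mk, evP_tayP, PowerSeries.coeff_one]
        have h1 : (fun t : ℝ => (1 : AnR (V₁ × (Fin m → ℝ)) Λ).1 (u, t • x)) =
            fun _ => (1 : ℂ) := rfl
        rw [h1, iteratedDeriv_const]
        split_ifs with hn
        · subst hn
          simp
        · simp
      map_mul' := fun f g => by
        ext1 n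
        apply evP_ext
        intro u x
        rw [PowerSeries.coeff_mk, evP_tayP, PowerSeries.coeff_mul, map_sum, tay_mul]
        apply Finset.sum_congr rfl
        intro k _
        rw [map_mul, PowerSeries.coeff_mk, PowerSeries.coeff_mk, evP_tayP, evP_tayP]
      map_zero' := by
        ext1 n
        apply evP_ext
        intro u x
        rw [PowerSeries.coeff_mk, evP_tayP, map_zero, map_zero]
        have h1 : (fun t : ℝ => (0 : AnR (V₁ × (Fin m → ℝ)) Λ).1 (u, t • x)) =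
            fun _ => (0 : ℂ) := rfl
        rw [h1, iteratedDeriv_const]
        simp
      map_add' := fun f g => by
        ext1 n
        apply evP_ext
        intro u x
        rw [PowerSeries.coeff_mk, evP_tayP, map_add, map_add, PowerSeries.coeff_mk,
          PowerSeries.coeff_mk, evP_tayP, evP_tayP]
        have h1 : (fun t : ℝ => (f + g).1 (u, t • x)) =
            (fun t : ℝ => f.1 (u, t • x)) + (fun t : ℝ => g.1 (u, t • x)) := rfl
        rw [h1, iteratedDeriv_add ((tay_line f u x).contDiffOn uniqueDiffOn_univ |>.contDiffAt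
          Filter.univ_mem) ((tay_line g u x).contDiffOn uniqueDiffOn_univ |>.contDiffAt
          Filter.univ_mem), add_div] }
  have hτ : ∀ f n u x, evP u x (PowerSeries.coeff n (τ f)) =
        iteratedDeriv n (fun t : ℝ => f.1 (u, t • x)) 0 / n.factorial := by
    intro f n u x
    change evP u x (PowerSeries.coeff n (PowerSeries.mk fun n => tayP hΛ n f)) = _
    rw [PowerSeries.coeff_mk, evP_tayP]
  refine ⟨τ, ?_, hτ⟩
  rw [injective_iff_map_eq_zero]
  intro f hf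
  apply Subtype.ext
  funext z
  obtain ⟨u, x⟩ := z
  have h1 := tay_zero (fun t : ℝ => f.1 (u, t • x)) (tay_line f u x) (fun n => by
    have h2 := hτ f n u x
    rw [hf, map_zero, map_zero] at h2
    have e3 : (n.factorial : ℂ) ≠ 0 := by exact_mod_cast Nat.factorial_ne_zero n
    exact (div_eq_zero_iff.mp h2.symm).resolve_right e3) 1
  simpa using h1

end RQ
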