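import Pool.Agent.Helper44.RQ.Dvr
import Pool.Agent.Helper44.RQ.Poly
import Pool.Agent.Helper44.RQ.Tay
import Pool.Agent.Helper44.RQ.Lat1

/-! Module `Norm` of MP_27ef80_ag -/

set_option autoImplicit false
open scoped ComplexConjugate Matrix TensorProduct
open MeasureTheory

noncomputable section

namespace RQ

section core

variable {G R k : Type} [Group G] [CommRing R] [IsDomain R] [Field k] [Algebra R k]
  [IsFractionRing R k] {m : ℕ} (σR : G →* (R →+* R))
  (σP : G →* (MvPolynomial (Fin m) R →+* MvPolynomial (Fin m) R))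

/-- the action on `k[x]` for one group element -/
def normP' (g : G) : MvPolynomial (Fin m) k →+* MvPolynomial (Fin m) k :=
  MvPolynomial.eval₂Hom (MvPolynomial.C.comp (frAct k σR g))
    fun i => MvPolynomial.map (algebraMap R k) (σP g (MvPolynomial.X i))

theorem normP'_C (g : G) (c : k) :
    normP' (k := k) σR σP g (MvPolynomial.C c) = MvPolynomial.C (frAct k σR g c) := by
  simp [normP']

theorem normP'_X (g : G) (i : Fin m) :
    normP' (k := k) σR σP g (MvPolynomial.X i) =
      MvPolynomial.map (algebraMap R k) (σP g (MvPolynomial.X i)) := by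
  simp [normP']

variable (hC : ∀ g c, σP g (MvPolynomial.C c) = MvPolynomial.C (σR g c))

include hC in
theorem normP'_map (g : G) (p : MvPolynomial (Fin m) R) :
    normP' (k := k) σR σP g (MvPolynomial.map (algebraMap R k) p) =
      MvPolynomial.map (algebraMap R k) (σP g p) := by
  have h : (normP' (k := k) σR σP g).comp (MvPolynomial.map (algebraMap R k)) =
      (MvPolynomial.map (algebraMap R k)).comp (σP g) := by
    apply MvPolynomial.ringHom_ext
    · intro c
      simp only [RingHom.comp_apply]
      rw [MvPolynomial.map_C, normP'_C, hC, MvPolynomial.map_C, frAct_algebraMap]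
    · intro i
      simp only [RingHom.comp_apply]
      rw [MvPolynomial.map_X, normP'_X]
  exact congrArg (fun f => f p) h

/-- the action on `k[x]` -/
def normP : G →* (MvPolynomial (Fin m) k →+* MvPolynomial (Fin m) k) where
  toFun := normP' (k := k) σR σP
  map_one' := by
    apply MvPolynomial.ringHom_ext
    · intro c
      rw [normP'_C, map_one]
      rfl
    · intro i
      rw [normP'_X, map_one]
      change MvPolynomial.map _ (MvPolynomial.X i) = MvPolynomial.X i
      rw [MvPolynomial.map_X]
  map_mul' g g' := by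
    apply MvPolynomial.ringHom_ext
    · intro c
      rw [normP'_C, map_mul]
      change _ = normP' (k := k) σR σP g (normP' (k := k) σR σP g' (MvPolynomial.C c))
      rw [normP'_C, normP'_C]
      rfl
    · intro i
      rw [normP'_X, map_mul]
      change _ = normP' (k := k) σR σP g (normP' (k := k) σR σP g' (MvPolynomial.X i))
      rw [normP'_X, normP'_map σR σP hC]
      rfl

theorem normP_C (g : G) (c : k) :
    normP (k := k) σR σP hC g (MvPolynomial.C c) = MvPolynomial.C (frAct k σR g c) :=
  normP'_C _ _ _ _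

theorem normP_X (g : G) (i : Fin m) :
    normP (k := k) σR σP hC g (MvPolynomial.X i) =
      MvPolynomial.map (algebraMap R k) (σP g (MvPolynomial.X i)) :=
  normP'_X _ _ _ _

theorem normP_map (g : G) (p : MvPolynomial (Fin m) R) :
    normP (k := k) σR σP hC g (MvPolynomial.map (algebraMap R k) p) =
      MvPolynomial.map (algebraMap R k) (σP g p) :=
  normP'_map _ _ hC _ _

/-- coefficientwise action on power series -/
def normO {F : Type} [CommRing F] (σF : G →* (F →+* F)) :
    G →* (PowerSeries F →+* PowerSeries F) where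
  toFun g := PowerSeries.map (σF g)
  map_one' := by
    apply RingHom.ext
    intro p
    apply PowerSeries.ext
    intro n
    rw [PowerSeries.coeff_map, map_one]
    rfl
  map_mul' g g' := by
    apply RingHom.ext
    intro p
    apply PowerSeries.ext
    intro n
    change _ = PowerSeries.coeff n (PowerSeries.map (σF g) (PowerSeries.map (σF g') p))
    rw [PowerSeries.coeff_map, PowerSeries.coeff_map, PowerSeries.coeff_map, map_mul]
    rfl

theorem normO_apply {F : Type} [CommRing F] (σF : G →* (F →+* F)) (g : G) (p : PowerSeries F) :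
    normO σF g p = PowerSeries.map (σF g) p := rfl

theorem frAct_triv (K : Type) {R' : Type} [CommRing R'] [IsDomain R'] [Field K] [Algebra R' K]
    [IsFractionRing R' K] (σ : G →* (R' →+* R')) (h : G) (hh : ∀ x, σ h x = x) (x : K) :
    frAct K σ h x = x := by
  have : frAct K σ h = RingHom.id _ := by
    apply IsFractionRing.injective_comp_algebraMap (A := R')
    apply RingHom.ext
    intro y
    simp only [RingHom.comp_apply, RingHom.id_apply]
    rw [frAct_algebraMap, hh]
  rw [this, RingHom.id_apply]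

/-- the normal direction step, for abstract domains -/
theorem norm_core {A K : Type} [CommRing A] [IsDomain A] [Field K] [Algebra A K]
    [IsFractionRing A K] (σA : G →* (A →+* A))
    (hX : ∀ g i, (σP g (MvPolynomial.X i)).totalDegree ≤ 1)
    (τ : A →+* PowerSeries (MvPolynomial (Fin m) R)) (hτ : Function.Injective τ)
    (hτσ : ∀ g a, τ (σA g a) = PowerSeries.map (σP g) (τ a)) (H : Subgroup G) [H.FiniteIndex]
    (hH : ∀ h ∈ H, ∀ p, σP h p = p) (e : G → A) (e₁ : G → R) (hne : ∀ h ∈ H, e₁ h ≠ 0)
    (he : ∀ h ∈ H, PowerSeries.constantCoeff (τ (e h)) = MvPolynomial.C (e₁ h)) (N : ℕ)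
    (hC : ∀ g c, σP g (MvPolynomial.C c) = MvPolynomial.C (σR g c))
    (hdiv : Div (frAct k σR) H (fun g => algebraMap R k (e₁ g)) N) :
    Div (frAct K σA) H (fun g => algebraMap A K (e g)) N := by
  let P' := MvPolynomial (Fin m) k
  let F := FractionRing P'
  let σP' : G →* (P' →+* P') := normP (k := k) σR σP hC
  let σF : G →* (F →+* F) := frAct F σP'
  let q : MvPolynomial (Fin m) R →+* F := (algebraMap P' F).comp (MvPolynomial.map (algebraMap R k))
  have hq : Function.Injective q :=
    (IsFractionRing.injective P' F).comp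
      (MvPolynomial.map_injective _ (IsFractionRing.injective R k))
  let ι : A →+* PowerSeries F := (PowerSeries.map q).comp τ
  have hι : Function.Injective ι := by
    intro a b hab
    apply hτ
    apply PowerSeries.ext
    intro n
    apply hq
    have h1 := congrArg (PowerSeries.coeff n) hab
    change PowerSeries.coeff n (PowerSeries.map q (τ a)) =
      PowerSeries.coeff n (PowerSeries.map q (τ b)) at h1
    rwa [PowerSeries.coeff_map, PowerSeries.coeff_map] at h1
  have hqσ : ∀ g p, σF g (q p) = q (σP g p) := by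
    intro g p
    change frAct F σP' g (algebraMap P' F (MvPolynomial.map (algebraMap R k) p)) =
      algebraMap P' F (MvPolynomial.map (algebraMap R k) (σP g p))
    rw [frAct_algebraMap]
    exact congrArg _ (normP_map σR σP hC g p)
  have hισ : ∀ g a, normO σF g (ι a) = ι (σA g a) := by
    intro g a
    change PowerSeries.map (σF g) (PowerSeries.map q (τ a)) = PowerSeries.map q (τ (σA g a))
    rw [hτσ]
    apply PowerSeries.ext
    intro n
    rw [PowerSeries.coeff_map, PowerSeries.coeff_map, PowerSeries.coeff_map, PowerSeries.coeff_map,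
      hqσ]
  -- polynomial step
  have h1 : Div σF H (fun g => algebraMap P' F (MvPolynomial.C (algebraMap R k (e₁ g)))) N := by
    refine div_poly m (frAct k σR) σF ?_ ?_ H (fun g => algebraMap R k (e₁ g)) N hdiv
    · intro g c
      change frAct F σP' g _ = _
      rw [frAct_algebraMap]
      exact congrArg _ (normP_C σR σP hC g c)
    · intro g i
      refine ⟨MvPolynomial.map (algebraMap R k) (σP g (MvPolynomial.X i)),
        le_trans (Finset.sup_mono (MvPolynomial.support_map_subset _ _)) (hX g i), ?_⟩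
      change frAct F σP' g _ = _
      rw [frAct_algebraMap]
      exact congrArg _ (normP_X σR σP hC g i)
  have htP : ∀ h ∈ H, ∀ x : P', σP' h x = x := by
    intro h hh x
    have hR : ∀ c, σR h c = c := by
      intro c
      apply MvPolynomial.C_injective (Fin m) R
      rw [← hC, hH h hh]
    have : σP' h = RingHom.id _ := by
      apply MvPolynomial.ringHom_ext
      · intro c
        rw [RingHom.id_apply]
        refine (normP_C σR σP hC h c).trans ?_
        rw [frAct_triv k σR h hR]
      · intro i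
        rw [RingHom.id_apply]
        refine (normP_X σR σP hC h i).trans ?_
        rw [hH h hh, MvPolynomial.map_X]
    rw [this, RingHom.id_apply]
  have htF : ∀ h ∈ H, ∀ x : F, σF h x = x := fun h hh => frAct_triv F σP' h (htP h hh)
  -- power series step
  have hcc : ∀ h ∈ H, PowerSeries.constantCoeff (ι (e h)) =
      algebraMap P' F (MvPolynomial.C (algebraMap R k (e₁ h))) := by
    intro h hh
    change PowerSeries.constantCoeff (PowerSeries.map q (τ (e h))) = _
    rw [← PowerSeries.coeff_zero_eq_constantCoeff_apply, PowerSeries.coeff_map,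
      PowerSeries.coeff_zero_eq_constantCoeff_apply, he h hh]
    change algebraMap P' F (MvPolynomial.map (algebraMap R k) (MvPolynomial.C (e₁ h))) = _
    rw [MvPolynomial.map_C]
  let L := FractionRing (PowerSeries F)
  have h2 : Div (frAct L (normO σF)) H (fun g => algebraMap (PowerSeries F) L (ι (e g))) N := by
    refine div_dvr (PowerSeries.constantCoeff (R := F)) PowerSeries.constantCoeff_surj
      (normO σF) (frAct L (normO σF)) σF (fun g x => frAct_algebraMap L (normO σF) g x) ?_ H htF
      (fun g => ι (e g)) ?_ N (div_congr ?_ h1)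
    · intro g x
      rw [normO_apply, ← PowerSeries.coeff_zero_eq_constantCoeff_apply, PowerSeries.coeff_map,
        PowerSeries.coeff_zero_eq_constantCoeff_apply]
    · intro h hh
      rw [PowerSeries.isUnit_iff_constantCoeff, hcc h hh, isUnit_iff_ne_zero]
      intro h0
      have h3 := (map_eq_zero_iff _ (IsFractionRing.injective P' F)).mp h0
      rw [MvPolynomial.C_eq_zero] at h3
      exact hne h hh ((map_eq_zero_iff _ (IsFractionRing.injective R k)).mp h3)
    · intro h hh
      exact (hcc h hh).symm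
  -- embedding step
  let j : K →+* L := IsFractionRing.lift (A := A) (K := K) (g := (algebraMap (PowerSeries F) L).comp ι)
    ((IsFractionRing.injective (PowerSeries F) L).comp hι)
  have hj : ∀ a, j (algebraMap A K a) = algebraMap (PowerSeries F) L (ι a) := fun a =>
    IsFractionRing.lift_algebraMap _ _
  refine div_of_embed j (frAct K σA) (frAct L (normO σF)) ?_ H ?_ _ _ ?_ N h2
  · intro g x
    have : (frAct L (normO σF) g).comp j = j.comp (frAct K σA g) := by
      apply IsFractionRing.injective_comp_algebraMap (A := A)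
      apply RingHom.ext
      intro a
      simp only [RingHom.comp_apply]
      rw [hj, frAct_algebraMap, frAct_algebraMap, hj, hισ]
    exact congrArg (fun f => f x) this
  · intro h hh
    apply frAct_triv
    intro x
    apply PowerSeries.ext
    intro n
    rw [normO_apply, PowerSeries.coeff_map, htF h hh]
  · intro h _
    rw [hj]

end core

section application

variable {G : Type} [Group G] {V₁ : Type} [AddCommGroup V₁] [Module ℝ V₁] {Λ₁ : AddSubgroup V₁}
  {m : ℕ}

/-- constants in `AnR` -/
def normConst (V : Type) [AddCommGroup V] [Module ℝ V] (Λ : AddSubgroup V) (c : ℂ) : AnR V Λ :=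
  ⟨fun _ => c, fun _ _ => analyticOnNhd_const, fun _ _ _ => rfl⟩

/-- the action on polynomials for one element, through linear forms -/
def normS' (ρ : Representation ℝ G V₁) (hρ : ∀ g, ∀ l ∈ Λ₁, ρ g l ∈ Λ₁)
    (D : Representation ℝ G (Fin m → ℝ)) (g : G) :
    MvPolynomial (Fin m) (AnR V₁ Λ₁) →+* MvPolynomial (Fin m) (AnR V₁ Λ₁) :=
  MvPolynomial.eval₂Hom (MvPolynomial.C.comp (actR ρ Λ₁ hρ g))
    fun i => ∑ j, MvPolynomial.C (normConst V₁ Λ₁ (D g⁻¹ (Pi.single j 1) i : ℝ)) *
      MvPolynomial.X j

theorem normS'_C (ρ : Representation ℝ G V₁) (hρ : ∀ g, ∀ l ∈ Λ₁, ρ g l ∈ Λ₁)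
    (D : Representation ℝ G (Fin m → ℝ)) (g : G) (c : AnR V₁ Λ₁) :
    normS' ρ hρ D g (MvPolynomial.C c) = MvPolynomial.C (actR ρ Λ₁ hρ g c) := by
  rw [normS', MvPolynomial.coe_eval₂Hom, MvPolynomial.eval₂_C]
  rfl

theorem normS'_X (ρ : Representation ℝ G V₁) (hρ : ∀ g, ∀ l ∈ Λ₁, ρ g l ∈ Λ₁)
    (D : Representation ℝ G (Fin m → ℝ)) (g : G) (i : Fin m) :
    normS' ρ hρ D g (MvPolynomial.X i) = ∑ j, MvPolynomial.C
        (normConst V₁ Λ₁ (D g⁻¹ (Pi.single j 1) i : ℝ)) * MvPolynomial.X j := by
  rw [normS', MvPolynomial.coe_eval₂Hom, MvPolynomial.eval₂_X]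

theorem normS'_evP (ρ : Representation ℝ G V₁) (hρ : ∀ g, ∀ l ∈ Λ₁, ρ g l ∈ Λ₁)
    (D : Representation ℝ G (Fin m → ℝ)) (g : G) (u : V₁) (x : Fin m → ℝ)
    (p : MvPolynomial (Fin m) (AnR V₁ Λ₁)) :
    evP u x (normS' ρ hρ D g p) = evP (ρ g⁻¹ u) (D g⁻¹ x) p := by
  have h : (evP u x).comp (normS' ρ hρ D g) = evP (ρ g⁻¹ u) (D g⁻¹ x) := by
    apply MvPolynomial.ringHom_ext
    · intro c
      simp only [RingHom.comp_apply, normS', evP, MvPolynomial.coe_eval₂Hom,
        MvPolynomial.eval₂_C]
      rfl
    · intro i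
      have h1 : (D g⁻¹ x) i = ∑ j, D g⁻¹ (Pi.single j 1) i * x j := by
        conv_lhs => rw [pi_eq_sum_univ' x]
        rw [map_sum, Finset.sum_apply]
        refine Finset.sum_congr rfl fun j _ => ?_
        rw [map_smul, Pi.smul_apply, smul_eq_mul, mul_comm]
      simp only [RingHom.comp_apply, normS', evP, MvPolynomial.coe_eval₂Hom,
        MvPolynomial.eval₂_X, MvPolynomial.eval₂_sum, MvPolynomial.eval₂_mul,
        MvPolynomial.eval₂_C]
      rw [h1]
      push_cast
      refine Finset.sum_congr rfl fun j _ => ?_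
      rfl
  exact congrArg (fun f => f p) h

/-- the action on polynomials -/
def normS (ρ : Representation ℝ G V₁) (hρ : ∀ g, ∀ l ∈ Λ₁, ρ g l ∈ Λ₁)
    (D : Representation ℝ G (Fin m → ℝ)) :
    G →* (MvPolynomial (Fin m) (AnR V₁ Λ₁) →+* MvPolynomial (Fin m) (AnR V₁ Λ₁)) where
  toFun := normS' ρ hρ D
  map_one' := by
    apply RingHom.ext
    intro p
    apply evP_ext
    intro u x
    rw [normS'_evP]
    simp
  map_mul' g g' := by
    apply RingHom.ext
    intro p
    apply evP_ext
    intro u x
    change _ = evP u x (normS' ρ hρ D g (normS' ρ hρ D g' p))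
    rw [normS'_evP, normS'_evP, normS'_evP]
    simp

theorem normS_evP (ρ : Representation ℝ G V₁) (hρ : ∀ g, ∀ l ∈ Λ₁, ρ g l ∈ Λ₁)
    (D : Representation ℝ G (Fin m → ℝ)) (g : G) (u : V₁) (x : Fin m → ℝ)
    (p : MvPolynomial (Fin m) (AnR V₁ Λ₁)) :
    evP u x (normS ρ hρ D g p) = evP (ρ g⁻¹ u) (D g⁻¹ x) p := normS'_evP ρ hρ D g u x p

theorem divF_normal {G : Type} [Group G] [Group.FG G] (H H₁ : Subgroup G) (hle : H ≤ H₁)
    [H.FiniteIndex] [H₁.FiniteIndex] [H.Normal] [H₁.Normal] (N : ℕ) (h : DivF H₁ H N) :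
    DivF H H N := by
  obtain ⟨m, Θ, D, hΘ0, hΘ⟩ := exists_complement H H₁ hle
  let Λ₁ := Lam H₁ (H : Set G)
  let ΛH := Lam H (H : Set G)
  let Λ : AddSubgroup (TT H₁ × (Fin m → ℝ)) := ΛH.comap Θ.toAddEquiv.toAddMonoidHom
  have hΛmem : ∀ l, l ∈ Λ ↔ Θ l ∈ ΛH := fun l => Iff.rfl
  have hΛ : ∀ l ∈ Λ₁, (l, 0) ∈ Λ := by
    intro l hl
    rw [hΛmem, hΘ0]
    intro x hx
    exact hl (Subgroup.inclusion hle x) hx
  obtain ⟨τ, hτ, hτc⟩ := exists_tay (TT H₁) m Λ₁ Λ hΛ
  let P : AnR (TT H) ΛH →+* AnR (TT H₁ × (Fin m → ℝ)) Λ :=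
    pull Θ.toLinearMap ΛH Λ (fun l hl => hl)
  have hPa : ∀ f v, (P f).1 v = f.1 (Θ v) := fun f v => rfl
  have hPinj : Function.Injective P := by
    intro f f' hff
    apply Subtype.ext
    funext v
    rw [← Θ.apply_symm_apply v, ← hPa, ← hPa, hff]
  have hρ := TTrep_Lam H₁ H
  let σP := normS (m := m) (TTrep H₁) hρ D
  refine norm_core (actR (TTrep H₁) Λ₁ hρ) σP (actR (TTrep H) ΛH (TTrep_Lam H H)) ?_ (τ.comp P)
    (hτ.comp hPinj) ?_ H ?_ (eFn H (H : Set G)) (eFn H₁ (H : Set G)) ?_ ?_ N ?_ h
  · intro g i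
    have h1 : σP g (MvPolynomial.X i) = ∑ j, MvPolynomial.C
        (normConst (TT H₁) Λ₁ (D g⁻¹ (Pi.single j 1) i : ℝ)) * MvPolynomial.X j :=
      normS'_X (TTrep H₁) hρ D g i
    rw [h1]
    refine (MvPolynomial.totalDegree_finsetSum _ _).trans (Finset.sup_le fun j _ => ?_)
    refine (MvPolynomial.totalDegree_mul _ _).trans ?_
    rw [MvPolynomial.totalDegree_C, zero_add]
    exact (MvPolynomial.totalDegree_X j).le
  · intro g a
    apply PowerSeries.ext
    intro n
    rw [PowerSeries.coeff_map]
    apply evP_ext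
    intro u x
    rw [normS_evP]
    change evP u x (PowerSeries.coeff n (τ (P _))) = evP _ _ (PowerSeries.coeff n (τ (P a)))
    rw [hτc, hτc]
    congr 1
    congr 1
    funext t
    rw [hPa, hPa, actR_apply]
    rw [← hΘ, map_smul]
  · intro x hx p
    apply evP_ext
    intro u y
    rw [normS_evP]
    have h1 : TTrep H₁ x⁻¹ u = u := by
      have h2 := lat1_triv H₁ x⁻¹ (H₁.inv_mem (hle hx))
      first
        | exact h2 u
        | (rw [h2]; rfl)
    have h3 : D x⁻¹ y = y := by
      have h2 := lat1_triv H x⁻¹ (H.inv_mem hx)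
      have h4 := hΘ x⁻¹ 0 y
      rw [map_zero] at h4
      have h5 : TTrep H x⁻¹ (Θ (0, y)) = Θ (0, y) := by
        first
          | exact h2 _
          | (rw [h2]; rfl)
      rw [h5] at h4
      have h6 := Θ.injective h4
      exact (Prod.mk.inj h6).2
    rw [h1, h3]
  · intro x hx h0
    have h1 : (eFn H₁ (H : Set G) x).1 0 = 0 := by rw [h0]; rfl
    rw [eFn_apply H₁ _ x (hle hx) hx] at h1
    exact Complex.exp_ne_zero _ h1
  · intro x hx
    apply evP_ext
    intro u y
    rw [← PowerSeries.coeff_zero_eq_constantCoeff_apply]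
    change evP u y (PowerSeries.coeff 0 (τ (P _))) = _
    rw [hτc, iteratedDeriv_zero, hPa, zero_smul, hΘ0, eFn_apply H _ x hx hx]
    simp only [evP, MvPolynomial.coe_eval₂Hom, MvPolynomial.eval₂_C]
    change _ = (eFn H₁ (H : Set G) x).1 u
    rw [eFn_apply H₁ _ x (hle hx) hx]
    simp [resT]
    rfl
  · intro g c
    exact normS'_C (TTrep H₁) hρ D g c

end application

end RQ
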