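import Pool.Agent.Helper44.RQ.Defs

/-! Module `Res` of MP_27ef80_ag -/

set_option autoImplicit false
open scoped ComplexConjugate Matrix TensorProduct
open MeasureTheory

noncomputable section

namespace RQ

theorem res_jacobson_int : IsJacobsonRing ℤ := by
  rw [isJacobsonRing_iff_prime_eq]
  intro P hP
  by_cases h : P = ⊥
  · subst h
    rw [eq_bot_iff]
    intro x hx
    rw [Ideal.mem_jacobson_bot] at hx
    have h1 := hx x
    rw [Int.isUnit_iff] at h1
    rw [Ideal.mem_bot]
    rcases h1 with h1 | h1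
    · have h2 : x * x = 0 := by omega
      exact mul_self_eq_zero.1 h2
    · nlinarith [mul_self_nonneg x]
  · have : P.IsMaximal := hP.isMaximal h
    exact Ideal.jacobson_eq_self_of_isMaximal

theorem res_finite_field (K : Type) [Field K] [Algebra.FiniteType ℤ K] : Finite K := by
  have := res_jacobson_int
  have hfin : Module.Finite ℤ K := finite_of_finite_type_of_isJacobsonRing ℤ K
  obtain ⟨p, hp⟩ := CharP.exists K
  by_cases h0 : p = 0
  · subst h0
    have : CharZero K := CharP.charP_to_charZero K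
    exfalso
    have h1 : IsField ℤ := isField_of_isIntegral_of_isField (R := ℤ) (S := K)
      (FaithfulSMul.algebraMap_injective ℤ K) (Field.toIsField K)
    exact Int.not_isField h1
  · have hpp : p.Prime := (CharP.char_is_prime_or_zero K p).resolve_right h0
    have : Fact p.Prime := ⟨hpp⟩
    let _ : Algebra (ZMod p) K := ZMod.algebra K p
    have : Module.Finite (ZMod p) K := Module.Finite.of_restrictScalars_finite ℤ (ZMod p) K
    exact Module.finite_of_finite (ZMod p)

/-- The group lands in `SL(2,R)` for a finitely generated subring `R` of `ℂ`. -/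
theorem res_ring (G : Type) [Group G] [hG : Group.FG G] (Φ : G →* SL2C)
    (hΦ : Function.Injective Φ) : ∃ (R : Subalgebra ℤ ℂ), Algebra.FiniteType ℤ R ∧
      ∃ Ψ : G →* Matrix (Fin 2) (Fin 2) R, Function.Injective Ψ := by
  classical
  obtain ⟨T, hT, hTf⟩ := Group.fg_iff.1 hG
  have : Finite T := hTf
  let A : G → Matrix (Fin 2) (Fin 2) ℂ := fun g => (Φ g).1
  have hA1 : A 1 = 1 := by simp [A]
  have hAm : ∀ x y, A (x * y) = A x * A y := by intro x y; simp [A]
  let S : Set ℂ := Set.range (fun x : T × Fin 2 × Fin 2 => A x.1 x.2.1 x.2.2) ∪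
    Set.range (fun x : T × Fin 2 × Fin 2 => A x.1.1⁻¹ x.2.1 x.2.2)
  have hS : S.Finite := (Set.finite_range _).union (Set.finite_range _)
  let R := Algebra.adjoin ℤ S
  have hR : Algebra.FiniteType ℤ R := Algebra.FiniteType.adjoin_of_finite hS
  have hmem : ∀ x : G, ∀ i j, A x i j ∈ R := by
    intro x
    have hx : x ∈ Subgroup.closure T := by
      rw [hT]
      trivial
    induction hx using Subgroup.closure_induction'' with
    | mem x hx =>
      intro i j
      exact Algebra.subset_adjoin (Or.inl ⟨(⟨x, hx⟩, i, j), rfl⟩)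
    | inv_mem x hx =>
      intro i j
      exact Algebra.subset_adjoin (Or.inr ⟨(⟨x, hx⟩, i, j), rfl⟩)
    | one =>
      intro i j
      rw [hA1, Matrix.one_apply]
      split_ifs
      · exact one_mem _
      · exact zero_mem _
    | mul x y _ _ hx hy =>
      intro i j
      rw [hAm, Matrix.mul_apply]
      exact sum_mem (fun k _ => mul_mem (hx i k) (hy k j))
  refine ⟨R, hR,
    { toFun := fun x => Matrix.of (fun i j => ⟨A x i j, hmem x i j⟩)
      map_one' := by
        ext i j
        simp only [Matrix.of_apply, hA1, Matrix.one_apply]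
        split_ifs <;> rfl
      map_mul' := fun x y => by
        ext i j
        rw [Matrix.of_apply, Matrix.mul_apply]
        push_cast
        rw [hAm, Matrix.mul_apply]
        rfl }, ?_⟩
  intro x y hxy
  apply hΦ
  apply Subtype.ext
  ext i j
  have := congrArg (fun M : Matrix (Fin 2) (Fin 2) R => (M i j : ℂ)) hxy
  exact this

/-- reduction modulo an ideal, into the units of the matrix ring -/
def resMod {G R : Type} [Group G] [CommRing R] (Ψ : G →* Matrix (Fin 2) (Fin 2) R) (I : Ideal R) :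
    G →* (Matrix (Fin 2) (Fin 2) (R ⧸ I))ˣ :=
  MonoidHom.toHomUnits (((Ideal.Quotient.mk I).mapMatrix.toMonoidHom).comp Ψ)

theorem res_mem_ker {G R : Type} [Group G] [CommRing R] (Ψ : G →* Matrix (Fin 2) (Fin 2) R)
    (I : Ideal R) (g : G) :
    g ∈ (resMod Ψ I).ker ↔ ∀ i j, (Ψ g - 1) i j ∈ I := by
  rw [MonoidHom.mem_ker]
  constructor
  · intro h i j
    have h1 : (Ideal.Quotient.mk I).mapMatrix (Ψ g) = 1 := congrArg Units.val h
    rw [← Ideal.Quotient.eq_zero_iff_mem, Matrix.sub_apply, map_sub, sub_eq_zero]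
    have h2 := congrFun (congrFun h1 i) j
    rw [RingHom.mapMatrix_apply, Matrix.map_apply] at h2
    rw [h2, Matrix.one_apply, Matrix.one_apply]
    split_ifs <;> simp
  · intro h
    apply Units.ext
    change (Ideal.Quotient.mk I).mapMatrix (Ψ g) = 1
    ext i j
    have h1 := h i j
    rw [← Ideal.Quotient.eq_zero_iff_mem, Matrix.sub_apply, map_sub, sub_eq_zero] at h1
    rw [RingHom.mapMatrix_apply, Matrix.map_apply, h1, Matrix.one_apply, Matrix.one_apply]
    split_ifs <;> simp

/-- commutators lie deeper -/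
theorem res_comm {G R : Type} [Group G] [CommRing R] (Ψ : G →* Matrix (Fin 2) (Fin 2) R)
    (I : Ideal R) (n : ℕ) (hn : 1 ≤ n) (a b : G) (ha : a ∈ (resMod Ψ (I ^ n)).ker)
    (hb : b ∈ (resMod Ψ (I ^ n)).ker) : a * b * a⁻¹ * b⁻¹ ∈ (resMod Ψ (I ^ (n + 1))).ker := by
  rw [res_mem_ker] at ha hb
  have h1 : resMod Ψ (I ^ (n + 1)) (a * b) = resMod Ψ (I ^ (n + 1)) (b * a) := by
    apply Units.ext
    change (Ideal.Quotient.mk _).mapMatrix (Ψ (a * b)) = (Ideal.Quotient.mk _).mapMatrix (Ψ (b * a))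
    ext i j
    rw [RingHom.mapMatrix_apply, RingHom.mapMatrix_apply, Matrix.map_apply, Matrix.map_apply,
      Ideal.Quotient.eq]
    have e : Ψ (a * b) - Ψ (b * a) = (Ψ a - 1) * (Ψ b - 1) - (Ψ b - 1) * (Ψ a - 1) := by
      rw [map_mul, map_mul]
      noncomm_ring
    rw [← Matrix.sub_apply, e, Matrix.sub_apply, Matrix.mul_apply, Matrix.mul_apply]
    have hle : I ^ (n + n) ≤ I ^ (n + 1) := Ideal.pow_le_pow_right (by omega)
    apply Ideal.sub_mem
    · refine Ideal.sum_mem _ fun k _ => hle ?_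
      rw [pow_add]
      exact Ideal.mul_mem_mul (ha i k) (hb k j)
    · refine Ideal.sum_mem _ fun k _ => hle ?_
      rw [pow_add]
      exact Ideal.mul_mem_mul (hb i k) (ha k j)
  rw [MonoidHom.mem_ker]
  have h2 : a * b * a⁻¹ * b⁻¹ = (a * b) * (b * a)⁻¹ := by group
  rw [h2, map_mul, map_inv, h1, mul_inv_cancel]

theorem exists_resCh (G : Type) [Group G] [Group.FG G] (Φ : G →* SL2C)
    (hΦ : Function.Injective Φ) : ∃ G₁ : Subgroup G, G₁.FiniteIndex ∧ ResCh G₁ := by
  classical
  obtain ⟨R, hR, Ψ, hΨ⟩ := res_ring G Φ hΦ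
  have hNoeth : IsNoetherianRing R := Algebra.FiniteType.isNoetherianRing ℤ R
  obtain ⟨m, hm⟩ := Ideal.exists_maximal R
  have h0 : Algebra.FiniteType ℤ (R ⧸ m) :=
    Algebra.FiniteType.of_surjective (RingHom.toIntAlgHom (Ideal.Quotient.mk m))
      Ideal.Quotient.mk_surjective
  have hfin1 : Finite (R ⧸ m) := @res_finite_field (R ⧸ m) (Ideal.Quotient.field m) h0
  have hfin : ∀ n : ℕ, Finite (R ⧸ m ^ n) := fun n =>
    Ideal.finite_quotient_pow (IsNoetherian.noetherian m) n
  have hbot : ⨅ n : ℕ, m ^ n = ⊥ := Ideal.iInf_pow_eq_bot_of_isDomain m hm.ne_top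
  let K : ℕ → Subgroup G := fun n => (resMod Ψ (m ^ n)).ker
  have hKn : ∀ n, (K n).Normal := fun n => MonoidHom.normal_ker _
  have hKf : ∀ n, (K n).FiniteIndex := by
    intro n
    have := hfin n
    have : Finite (Matrix (Fin 2) (Fin 2) (R ⧸ m ^ n)) :=
      inferInstanceAs (Finite (Fin 2 → Fin 2 → R ⧸ m ^ n))
    have : Finite (Matrix (Fin 2) (Fin 2) (R ⧸ m ^ n))ˣ := inferInstance
    exact Subgroup.finiteIndex_ker _
  have hKa : ∀ n, K (n + 1) ≤ K n := by
    intro n g hg
    rw [res_mem_ker] at hg ⊢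
    exact fun i j => Ideal.pow_le_pow_right (Nat.le_succ n) (hg i j)
  have hKanti : Antitone K := antitone_nat_of_succ_le hKa
  refine ⟨K 1, hKf 1, ?_⟩
  have hchain : ∀ n, AbChain (K 1) ((K (n + 1)).subgroupOf (K 1)) := by
    intro n
    induction n with
    | zero =>
      rw [zero_add, Subgroup.subgroupOf_self]
      exact AbChain.top
    | succ n ih =>
      refine AbChain.step _ _ ih ?_ ?_ ?_ ?_
      · intro g hg
        rw [Subgroup.mem_subgroupOf] at hg ⊢
        exact hKa (n + 1) hg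
      · have := hKn (n + 1 + 1)
        infer_instance
      · have := hKf (n + 1 + 1)
        infer_instance
      · intro a ha b hb
        rw [Subgroup.mem_subgroupOf] at ha hb ⊢
        exact res_comm Ψ m (n + 1) (by omega) a.1 b.1 ha hb
  intro S hS h1S
  have hsep : ∀ s : K 1, s ∈ S → ∃ n, s.1 ∉ K (n + 1) := by
    intro s hs
    by_contra hcon
    push Not at hcon
    apply h1S
    have : s = 1 := by
      apply Subtype.ext
      apply hΨ
      rw [Subgroup.coe_one, map_one, ← sub_eq_zero]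
      ext i j
      have hmem : (Ψ s.1 - 1) i j ∈ ⨅ n : ℕ, m ^ n := by
        rw [Ideal.mem_iInf]
        intro n
        exact Ideal.pow_le_pow_right (Nat.le_succ n) ((res_mem_ker Ψ _ s.1).1 (hcon n) i j)
      rw [hbot, Ideal.mem_bot] at hmem
      rw [hmem]
      rfl
    rw [← this]
    exact hs
  choose! N hN using hsep
  obtain ⟨B, hB⟩ : ∃ B, ∀ s ∈ S, N s ≤ B := by
    obtain ⟨B, hB⟩ := (hS.image N).bddAbove
    exact ⟨B, fun s hs => hB ⟨s, hs, rfl⟩⟩
  refine ⟨_, hchain B, fun s hs hmem => ?_⟩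
  rw [Subgroup.mem_subgroupOf] at hmem
  exact hN s hs (hKanti (Nat.succ_le_succ (hB s hs)) hmem)

end RQ
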