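import Pool.Agent.Helper44.RQ.Defs

/-! Module `TF2` of MP_27ef80_ag -/

set_option autoImplicit false
open scoped ComplexConjugate Matrix TensorProduct
open MeasureTheory

noncomputable section

namespace RQ

theorem tfree_subgroup {G : Type} [Group G] (h : TFree G) (G₁ : Subgroup G)
    (hG₁ : G₁.FiniteIndex) : TFree G₁ := by
  intro K hK n hn ψ
  let K' : Subgroup G := K.map G₁.subtype
  have hK' : K'.FiniteIndex := by
    constructor
    rw [Subgroup.index_map_subtype]
    exact mul_ne_zero hK.index_ne_zero hG₁.index_ne_zero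
  let E : K ≃* K' := K.equivMapOfInjective G₁.subtype G₁.subtype_injective
  obtain ⟨φ, hφ⟩ := h K' hK' n hn (ψ.comp (MonoidHom.toAdditive E.symm.toMonoidHom))
  refine ⟨φ.comp (MonoidHom.toAdditive E.toMonoidHom), fun k => ?_⟩
  have h1 := hφ (Additive.ofMul (E k.toMul))
  have h2 : (ψ.comp (MonoidHom.toAdditive E.symm.toMonoidHom)) (Additive.ofMul (E k.toMul)) =
      ψ k := by
    change ψ (Additive.ofMul (E.symm (E k.toMul))) = ψ k
    rw [E.symm_apply_apply]
    rfl
  rw [h2] at h1
  exact h1

end RQ
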