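import Pool.Agent.Helper44.RQ.Defs

/-! Module `UH` of MP_27ef80_ag -/

set_option autoImplicit false
open scoped ComplexConjugate Matrix TensorProduct
open MeasureTheory

noncomputable section

namespace RQ

/-! ### Linear algebra -/

/-- linearly independent functions are separated by finitely many points -/
theorem uh_points {K S : Type} [Field K] {k : ℕ} (f : Fin k → (S → K))
    (hf : LinearIndependent K f) :
    ∃ s : Fin k → S, (Matrix.of fun a b => f a (s b)).det ≠ 0 := by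
  classical
  let c : S → (Fin k → K) := fun s a => f a s
  have hspan : Submodule.span K (Set.range c) = ⊤ := by
    by_contra hne
    obtain ⟨φ, hφ0, hφ⟩ := Submodule.exists_le_ker_of_lt_top _ (lt_top_iff_ne_top.mpr hne)
    have h1 : ∀ s, φ (c s) = 0 := fun s =>
      LinearMap.mem_ker.mp (hφ (Submodule.subset_span ⟨s, rfl⟩))
    have h2 : ∀ v : Fin k → K, φ v = ∑ a, v a * φ (Pi.single a 1) := by
      intro v
      conv_lhs => rw [← Finset.univ_sum_single v, map_sum]
      refine Finset.sum_congr rfl fun a _ => ?_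
      have : (Pi.single a (v a) : Fin k → K) = v a • Pi.single a 1 := by
        rw [← Pi.single_smul, smul_eq_mul, mul_one]
      rw [this, map_smul, smul_eq_mul]
    have h3 : ∑ a, φ (Pi.single a 1) • f a = 0 := by
      funext s
      rw [Finset.sum_apply, Pi.zero_apply, ← h1 s, h2]
      refine Finset.sum_congr rfl fun a _ => ?_
      rw [Pi.smul_apply, smul_eq_mul, mul_comm]
    have h4 := Fintype.linearIndependent_iff.mp hf _ h3
    apply hφ0
    apply LinearMap.ext
    intro v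
    rw [h2]
    simp [h4]
  obtain ⟨b, hb1, hb2, hb3⟩ := exists_linearIndependent K (Set.range c)
  have hb3' : LinearIndependent K (Subtype.val : b → (Fin k → K)) := hb3
  have hb2' : Submodule.span K b = ⊤ := by rw [hb2, hspan]
  let B : Module.Basis b K (Fin k → K) := Module.Basis.mk hb3' (by
    rw [Subtype.range_coe, hb2'])
  have : Fintype b := FiniteDimensional.fintypeBasisIndex B
  have hcard : Fintype.card b = k := by
    rw [← Module.finrank_eq_card_basis B, Module.finrank_fin_fun]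
  let e : Fin k ≃ b := (Fintype.equivFinOfCardEq hcard).symm
  have hch : ∀ a : Fin k, ∃ s : S, c s = (e a : Fin k → K) := fun a => hb1 (e a).2
  choose s hs using hch
  refine ⟨s, ?_⟩
  have hli : LinearIndependent K (fun a : Fin k => c (s a)) := by
    have : (fun a : Fin k => c (s a)) = (Subtype.val : b → (Fin k → K)) ∘ e := by
      funext a
      exact hs a
    rw [this]
    exact hb3'.comp _ e.injective
  have h5 : IsUnit (Matrix.of fun a b => c (s a) b) :=
    Matrix.linearIndependent_rows_iff_isUnit.mp hli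
  have h6 : (Matrix.of fun a b => f a (s b)) = (Matrix.of fun a b => c (s a) b)ᵀ := by
    ext a b
    rfl
  rw [h6, Matrix.det_transpose]
  exact ((Matrix.isUnit_iff_isUnit_det _).mp h5).ne_zero

/-! ### The operators -/

section ops

variable {G : Type} [Group G] {r : ℕ} (Φ : G →* SU11) (V : G →* Matrix.unitaryGroup (Fin r) ℂ)
  {S S' : Type} [CommRing S] [CommRing S'] (c : ℂ →+* S) (c' : ℂ →+* S')
  (σ : G →* (S →+* S)) (σ' : G →* (S' →+* S'))

/-- `(T_g Ψ)(z) = J(g⁻¹, z)⁻¹ V(g) σ_g(Ψ(g⁻¹ z))` -/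
def uhT (g : G) : (DD → Fin r → S) →+ (DD → Fin r → S) where
  toFun Ψ := fun z i => c (J (Φ g⁻¹) z.1)⁻¹ * ∑ j, c ((V g).1 i j) * σ g (Ψ (Φ g⁻¹ • z) j)
  map_zero' := by
    funext z i
    simp
  map_add' Ψ Ψ' := by
    funext z i
    simp only [Pi.add_apply, map_add, mul_add, Finset.sum_add_distrib]

theorem uhT_apply (g : G) (Ψ : DD → Fin r → S) (z : DD) (i : Fin r) :
    uhT Φ V c σ g Ψ z i =
      c (J (Φ g⁻¹) z.1)⁻¹ * ∑ j, c ((V g).1 i j) * σ g (Ψ (Φ g⁻¹ • z) j) := rfl

theorem uhT_one (Ψ : DD → Fin r → S) : uhT Φ V c σ 1 Ψ = Ψ := by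
  funext z i
  rw [uhT_apply]
  simp only [inv_one, map_one, J_one, one_mul, one_smul]
  rw [Finset.sum_eq_single i]
  · simp
  · intro j _ hj
    simp [Ne.symm hj]
  · intro h
    exact absurd (Finset.mem_univ i) h

theorem uhT_mul (hc : ∀ g x, σ g (c x) = c x) (g g' : G) (Ψ : DD → Fin r → S) :
    uhT Φ V c σ (g * g') Ψ = uhT Φ V c σ g (uhT Φ V c σ g' Ψ) := by
  funext z i
  rw [uhT_apply, uhT_apply]
  simp only [uhT_apply]
  have h1 : J (Φ (g * g')⁻¹) z.1 = J (Φ g'⁻¹) (Φ g⁻¹ • z).1 * J (Φ g⁻¹) z.1 := by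
    rw [mul_inv_rev, map_mul, J_smul]
  have h2 : Φ (g * g')⁻¹ • z = Φ g'⁻¹ • Φ g⁻¹ • z := by
    rw [mul_inv_rev, map_mul, mul_smul]
  have h3 : ∀ x, σ (g * g') x = σ g (σ g' x) := by
    intro x
    rw [map_mul]
    rfl
  have h4 : ∀ i j, (V (g * g')).1 i j = ∑ l, (V g).1 i l * (V g').1 l j := by
    intro i j
    rw [map_mul]
    rfl
  rw [h1, h2, mul_inv, map_mul]
  simp only [h3, h4]
  simp only [map_sum, map_mul, hc, Finset.mul_sum, Finset.sum_mul]
  rw [Finset.sum_comm]
  refine Finset.sum_congr rfl fun l _ => Finset.sum_congr rfl fun j _ => ?_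
  ring

theorem uhT_smul (g : G) (k : S) (Ψ : DD → Fin r → S) :
    uhT Φ V c σ g (k • Ψ) = σ g k • uhT Φ V c σ g Ψ := by
  funext z i
  rw [Pi.smul_apply, Pi.smul_apply, uhT_apply, uhT_apply, smul_eq_mul]
  simp only [Pi.smul_apply, smul_eq_mul, map_mul, Finset.mul_sum]
  refine Finset.sum_congr rfl fun j _ => ?_
  ring

theorem uhT_map (φ : S →+* S') (hc : ∀ x, φ (c x) = c' x) (hσ : ∀ g x, σ' g (φ x) = φ (σ g x))
    (g : G) (Ψ : DD → Fin r → S) :
    uhT Φ V c' σ' g (fun z i => φ (Ψ z i)) = fun z i => φ (uhT Φ V c σ g Ψ z i) := by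
  funext z i
  rw [uhT_apply, uhT_apply]
  simp only [map_mul, map_sum, hc, hσ]

end ops

/-- constants -/
def uhC (V : Type) [AddCommGroup V] [Module ℝ V] (Λ : AddSubgroup V) : ℂ →+* AnR V Λ where
  toFun c := ⟨fun _ => c, fun _ _ => analyticOnNhd_const, fun _ _ _ => rfl⟩
  map_one' := rfl
  map_mul' _ _ := rfl
  map_zero' := rfl
  map_add' _ _ := rfl

/-- evaluation -/
def uhEv (V : Type) [AddCommGroup V] [Module ℝ V] (Λ : AddSubgroup V) (u : V) : AnR V Λ →+* ℂ :=
  (Pi.evalRingHom (fun _ : V => ℂ) u).comp (AnR V Λ).subtype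

theorem uhEv_apply (V : Type) [AddCommGroup V] [Module ℝ V] (Λ : AddSubgroup V) (u : V)
    (f : AnR V Λ) : uhEv V Λ u f = f.1 u := rfl

/-! ### Translates of automorphic forms -/

section forms

variable {G : Type} [Group G] {r : ℕ} (Φ : G →* SU11) (V : G →* Matrix.unitaryGroup (Fin r) ℂ)

theorem uh_trans (H : Subgroup G) [H.Normal] (g : G) (u : TT H) (f : DD → Fin r → ℂ)
    (hf : f ∈ SS Φ V H (TTrep H g⁻¹ u)) :
    (fun z => (J (Φ g⁻¹) z.1)⁻¹ • ((V g).1 *ᵥ f (Φ g⁻¹ • z))) ∈ SS Φ V H u := by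
  obtain ⟨hol, htr⟩ := hf
  constructor
  · -- holomorphy
    have h1 : DifferentiableOn ℂ (fun z : ℂ => Nm (Φ g⁻¹) z / J (Φ g⁻¹) z)
        (Metric.ball 0 1) := by
      apply DifferentiableOn.div
      · unfold Nm
        fun_prop
      · unfold J
        fun_prop
      · intro z hz
        exact J_ne_zero _ (by simpa using hz)
    have h2 : Set.MapsTo (fun z : ℂ => Nm (Φ g⁻¹) z / J (Φ g⁻¹) z) (Metric.ball 0 1)
        (Metric.ball 0 1) := by
      intro z hz
      have hz' : ‖z‖ < 1 := by simpa using hz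
      have := (Φ g⁻¹ • (⟨z, hz'⟩ : DD)).2
      rw [smul_val] at this
      simpa using this
    have h3 : DifferentiableOn ℂ (fun z : ℂ => ext0 f (Nm (Φ g⁻¹) z / J (Φ g⁻¹) z))
        (Metric.ball 0 1) := DifferentiableOn.comp hol h1 h2
    have h4 : DifferentiableOn ℂ (fun z : ℂ => (J (Φ g⁻¹) z)⁻¹) (Metric.ball 0 1) := by
      apply DifferentiableOn.inv
      · unfold J
        fun_prop
      · intro z hz
        exact J_ne_zero _ (by simpa using hz)
    have h5 : DifferentiableOn ℂ (fun z : ℂ => (J (Φ g⁻¹) z)⁻¹ •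
        ((LinearMap.toContinuousLinearMap (Matrix.mulVecLin (V g).1))
          (ext0 f (Nm (Φ g⁻¹) z / J (Φ g⁻¹) z)))) (Metric.ball 0 1) :=
      h4.smul ((ContinuousLinearMap.differentiable _).comp_differentiableOn h3)
    refine h5.congr ?_
    intro z hz
    have hz' : ‖z‖ < 1 := by simpa using hz
    have h6 : ‖Nm (Φ g⁻¹) z / J (Φ g⁻¹) z‖ < 1 := by simpa using h2 hz
    rw [ext0, dif_pos hz', ext0, dif_pos h6]
    rfl
  · intro h z
    have hk : g⁻¹ * h.1 * g ∈ H := by
      have := Subgroup.Normal.conj_mem (inferInstance : H.Normal) h.1 h.2 g⁻¹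
      rwa [inv_inv] at this
    have h1 := htr ⟨g⁻¹ * h.1 * g, hk⟩ (Φ g⁻¹ • z)
    have h2 : Φ (g⁻¹ * h.1 * g) • Φ g⁻¹ • z = Φ g⁻¹ • Φ h.1 • z := by
      rw [← mul_smul, ← mul_smul, ← map_mul, ← map_mul]
      congr 2
      group
    have h3 : J (Φ (g⁻¹ * h.1 * g)) (Φ g⁻¹ • z).1 * J (Φ g⁻¹) z.1 =
        J (Φ g⁻¹) (Φ h.1 • z).1 * J (Φ h.1) z.1 := by
      rw [← J_smul, ← J_smul, ← map_mul, ← map_mul]
      congr 2
      group
    have h4 : chi (TTrep H g⁻¹ u) (⟨g⁻¹ * h.1 * g, hk⟩ : H) = chi u h := by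
      rw [chi, chi, TTrep_apply]
      have : MulAut.conjNormal (g⁻¹)⁻¹ (⟨g⁻¹ * h.1 * g, hk⟩ : H) = h := by
        apply Subtype.ext
        rw [MulAut.conjNormal_apply]
        simp only
        group
      rw [this]
    have h5 : (V g).1 * (V (g⁻¹ * h.1 * g)).1 = (V h.1).1 * (V g).1 := by
      have : V g * V (g⁻¹ * h.1 * g) = V h.1 * V g := by
        rw [← map_mul, ← map_mul]
        congr 1
        group
      exact congrArg Subtype.val this
    have hJ1 := J_ne_zero (Φ g⁻¹) z.2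
    have hJ2 := J_ne_zero (Φ g⁻¹) (Φ h.1 • z).2
    change (J (Φ g⁻¹) (Φ h.1 • z).1)⁻¹ • ((V g).1 *ᵥ f (Φ g⁻¹ • Φ h.1 • z)) =
      (chi u h * J (Φ h.1) z.1) • ((V h.1).1 *ᵥ ((J (Φ g⁻¹) z.1)⁻¹ •
        ((V g).1 *ᵥ f (Φ g⁻¹ • z))))
    change f (Φ (g⁻¹ * h.1 * g) • Φ g⁻¹ • z) = (_ * J (Φ (g⁻¹ * h.1 * g)) (Φ g⁻¹ • z).1) •
      ((V (g⁻¹ * h.1 * g)).1 *ᵥ f (Φ g⁻¹ • z)) at h1
    rw [← h2, h1, h4, Matrix.mulVec_smul, Matrix.mulVec_smul, Matrix.mulVec_mulVec,
      Matrix.mulVec_mulVec, h5, smul_smul, smul_smul]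
    congr 1
    field_simp
    linear_combination (chi u h) * h3

end forms

/-! ### The theorem -/

theorem family_contra {G : Type} [Group G] [Group.FG G] {r : ℕ} (Φ : G →* SU11)
    (V : G →* Matrix.unitaryGroup (Fin r) ℂ) (H : Subgroup G) [H.Normal] [H.FiniteIndex]
    (hdiv : DivF H H H.index)
    (hdim : ∀ (u : TT H) (k : ℕ) (F : Fin k → (DD → Fin r → ℂ)), (∀ i, F i ∈ SS Φ V H u) →
      LinearIndependent ℂ F → k < H.index)
    (F : DD → Fin r → AnR (TT H) (Lam H (H : Set G)))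
    (hF : ∀ u, (fun z i => (F z i).1 u) ∈ SS Φ V H u) (hF0 : F ≠ 0) : False := by
  classical
  let R := AnR (TT H) (Lam H (H : Set G))
  let K := KF H H
  let σR : G →* (R →+* R) := actR (TTrep H) (Lam H (H : Set G)) (TTrep_Lam H H)
  let σ : G →* (K →+* K) := actF H H
  have hσ : ∀ g x, σ g (algebraMap R K x) = algebraMap R K (σR g x) := fun g x =>
    frAct_algebraMap K σR g x
  let cR : ℂ →+* R := uhC (TT H) (Lam H (H : Set G))
  let cK : ℂ →+* K := (algebraMap R K).comp cR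
  have hσcR : ∀ g x, σR g (cR x) = cR x := fun g x => rfl
  have hσcK : ∀ g x, σ g (cK x) = cK x := fun g x => hσ g (cR x)
  -- elements of `H` act trivially on the field
  have htriv : ∀ h ∈ H, ∀ u : TT H, TTrep H h⁻¹ u = u := by
    intro h hh u
    apply DFunLike.ext
    intro k
    have h1 := TTrep_apply H h⁻¹ u k.toMul
    have h2 : MulAut.conjNormal (h⁻¹)⁻¹ k.toMul = (⟨h, hh⟩ : H) * k.toMul * (⟨h, hh⟩ : H)⁻¹ := by
      apply Subtype.ext
      rw [MulAut.conjNormal_apply]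
      simp
    rw [h2, ofMul_mul, ofMul_mul, map_add, map_add, ofMul_inv, map_neg] at h1
    have h3 : Additive.ofMul (Additive.toMul k) = k := rfl
    rw [h3] at h1
    rw [h1]
    ring
  have hσH : ∀ h ∈ H, ∀ x, σ h x = x := by
    intro h hh x
    have h1 : (σ h).comp (algebraMap R K) = (RingHom.id K).comp (algebraMap R K) := by
      apply RingHom.ext
      intro y
      rw [RingHom.comp_apply, hσ, RingHom.comp_apply, RingHom.id_apply]
      congr 1
      apply Subtype.ext
      funext u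
      change y.1 (TTrep H h⁻¹ u) = y.1 u
      rw [htriv h hh]
    have h2 : σ h = RingHom.id K := IsFractionRing.injective_comp_algebraMap (A := R) h1
    rw [h2]
    rfl
  -- families
  let Fam : Set (DD → Fin r → R) := {Ψ | ∀ u, (fun z i => (Ψ z i).1 u) ∈ SS Φ V H u}
  let ι : (DD → Fin r → R) → (DD → Fin r → K) := fun Ψ z i => algebraMap R K (Ψ z i)
  have hιinj : Function.Injective ι := by
    intro Ψ Ψ' h
    funext z i
    exact IsFractionRing.injective R K (congrFun (congrFun h z) i)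
  have hT : ∀ g Ψ, Ψ ∈ Fam → uhT Φ V cR σR g Ψ ∈ Fam := by
    intro g Ψ hΨ u
    have h1 := uh_trans Φ V H g u _ (hΨ (TTrep H g⁻¹ u))
    have h2 : (fun z i => (uhT Φ V cR σR g Ψ z i).1 u) =
        fun z => (J (Φ g⁻¹) z.1)⁻¹ • ((V g).1 *ᵥ
          (fun i => (Ψ (Φ g⁻¹ • z) i).1 (TTrep H g⁻¹ u))) := by
      funext z i
      have h3 : (uhT Φ V cR σR g Ψ z i).1 u =
          uhEv _ _ u (cR (J (Φ g⁻¹) z.1)⁻¹ *
            ∑ j, cR ((V g).1 i j) * σR g (Ψ (Φ g⁻¹ • z) j)) := rfl
      rw [h3]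
      simp only [map_mul, map_sum]
      rw [Pi.smul_apply, smul_eq_mul]
      rfl
    rw [h2]
    exact h1
  have hTι : ∀ g Ψ, uhT Φ V cK σ g (ι Ψ) = ι (uhT Φ V cR σR g Ψ) := fun g Ψ =>
    uhT_map Φ V cR cK σR σ (algebraMap R K) (fun _ => rfl) hσ g Ψ
  have hTH : ∀ h (hh : h ∈ H) Ψ, Ψ ∈ Fam →
      uhT Φ V cR σR h Ψ = eFn H (H : Set G) h • Ψ := by
    intro h hh Ψ hΨ
    funext z i
    apply Subtype.ext
    funext u
    have h3 : (uhT Φ V cR σR h Ψ z i).1 u =
        (J (Φ h⁻¹) z.1)⁻¹ * ((V h).1 *ᵥ (fun i => (Ψ (Φ h⁻¹ • z) i).1 (TTrep H h⁻¹ u))) i := by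
      change uhEv _ _ u (cR (J (Φ h⁻¹) z.1)⁻¹ *
            ∑ j, cR ((V h).1 i j) * σR h (Ψ (Φ h⁻¹ • z) j)) = _
      simp only [map_mul, map_sum]
      rfl
    have h4 := (hΨ u).2 (⟨h, hh⟩ : H)⁻¹ z
    have h5 : ((((⟨h, hh⟩ : H)⁻¹ : H)) : G) = h⁻¹ := rfl
    rw [h5] at h4
    have h6 : (fun i => (Ψ (Φ h⁻¹ • z) i).1 u) = (chi u (⟨h, hh⟩ : H)⁻¹ * J (Φ h⁻¹) z.1) •
        ((V h⁻¹).1 *ᵥ fun i => (Ψ z i).1 u) := h4
    have h7 : (V h).1 * (V h⁻¹).1 = 1 := by
      have : V h * V h⁻¹ = 1 := by rw [← map_mul, mul_inv_cancel, map_one]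
      exact congrArg Subtype.val this
    have h8 : chi u (⟨h, hh⟩ : H)⁻¹ = (eFn H (H : Set G) h).1 u := by
      rw [eFn_apply H (H : Set G) h hh hh, chi, ofMul_inv, map_neg]
      congr 1
      push_cast
      ring
    have h9 : ((eFn H (H : Set G) h • Ψ) z i).1 u = (eFn H (H : Set G) h).1 u * (Ψ z i).1 u := rfl
    rw [h3, htriv h hh, h6, Matrix.mulVec_smul, Matrix.mulVec_mulVec, h7, Matrix.one_mulVec,
      Pi.smul_apply, smul_eq_mul, h8, h9]
    have hJ := J_ne_zero (Φ h⁻¹) z.2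
    field_simp
  -- the dimension bound
  have hbound : ∀ k (Ψ : Fin k → (DD → Fin r → R)), (∀ a, Ψ a ∈ Fam) →
      LinearIndependent K (fun a => ι (Ψ a)) → k < H.index := by
    intro k Ψ hΨ hli
    have hli' : LinearIndependent K (fun (a : Fin k) (s : DD × Fin r) =>
        algebraMap R K (Ψ a s.1 s.2)) := by
      rw [Fintype.linearIndependent_iff] at hli ⊢
      intro w hw a
      refine hli w ?_ a
      funext z i
      have h1 := congrFun hw (z, i)
      simp only [Finset.sum_apply, Pi.smul_apply, Pi.zero_apply] at h1 ⊢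
      exact h1
    obtain ⟨s, hs⟩ := uh_points _ hli'
    have h1 : (Matrix.of fun a b => algebraMap R K (Ψ a (s b).1 (s b).2)) =
        (algebraMap R K).mapMatrix (Matrix.of fun a b => Ψ a (s b).1 (s b).2) := rfl
    rw [h1, ← RingHom.map_det] at hs
    have h2 : (Matrix.of fun a b => Ψ a (s b).1 (s b).2).det ≠ 0 := by
      intro h
      rw [h, map_zero] at hs
      exact hs rfl
    have h3 : ∃ u, uhEv _ _ u (Matrix.of fun a b => Ψ a (s b).1 (s b).2).det ≠ 0 := by
      by_contra hc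
      push Not at hc
      apply h2
      apply Subtype.ext
      funext u
      exact hc u
    obtain ⟨u, hu⟩ := h3
    rw [RingHom.map_det] at hu
    apply hdim u k (fun a z i => (Ψ a z i).1 u) (fun a => hΨ a u)
    rw [Fintype.linearIndependent_iff]
    intro w hw
    have h4 : w ᵥ* ((uhEv _ _ u).mapMatrix (Matrix.of fun a b => Ψ a (s b).1 (s b).2)) = 0 := by
      funext b
      have h5 := congrFun (congrFun hw (s b).1) (s b).2
      simp only [Finset.sum_apply, Pi.smul_apply, Pi.zero_apply, smul_eq_mul] at h5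
      rw [Pi.zero_apply, ← h5]
      rfl
    have h6 := Matrix.eq_zero_of_vecMul_eq_zero hu h4
    intro a
    rw [h6]
    rfl
  -- the space
  let U : Submodule K (DD → Fin r → K) := Submodule.span K (ι '' Fam)
  obtain ⟨b, hb1, hb2, hb3⟩ := exists_linearIndependent K (ι '' Fam)
  have hb3' : LinearIndependent K (Subtype.val : b → (DD → Fin r → K)) := hb3
  have hbound' : ∀ k (v : Fin k → b), Function.Injective v → k < H.index := by
    intro k v hv
    have hch : ∀ a : Fin k, ∃ Ψ ∈ Fam, ι Ψ = (v a : DD → Fin r → K) := fun a => hb1 (v a).2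
    choose Ψ hΨ hΨ' using hch
    refine hbound k Ψ hΨ ?_
    have : (fun a => ι (Ψ a)) = (Subtype.val : b → (DD → Fin r → K)) ∘ v := by
      funext a
      exact hΨ' a
    rw [this]
    exact hb3'.comp _ hv
  have hbfin : Finite b := by
    by_contra hinf
    rw [not_finite_iff_infinite] at hinf
    have e := Infinite.natEmbedding b
    exact lt_irrefl _ (hbound' H.index (fun a => e a.1) (fun a a' h => Fin.ext (e.injective h)))
  have : Fintype b := Fintype.ofFinite b
  have hcard : Fintype.card b < H.index :=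
    hbound' _ (Fintype.equivFin b).symm (Fintype.equivFin b).symm.injective
  have hUb : U = Submodule.span K b := hb2.symm
  have hfd : FiniteDimensional K U := by
    rw [hUb]
    exact FiniteDimensional.span_of_finite K (Set.toFinite b)
  have hfr : Module.finrank K U = Fintype.card b := by
    rw [hUb, ← Set.toFinset_card]
    exact finrank_span_set_eq_card hb3'
  have hpos : 0 < Module.finrank K U := by
    have hmem : ι F ∈ U := Submodule.subset_span ⟨F, hF, rfl⟩
    have hne : (⟨ι F, hmem⟩ : U) ≠ 0 := by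
      intro h
      apply hF0
      apply hιinj
      have h1 : ι F = 0 := congrArg Subtype.val h
      rw [h1]
      funext z i
      exact (map_zero _).symm
    have : Nontrivial U := ⟨_, _, hne⟩
    exact Module.finrank_pos
  -- the twisted module
  have hTU : ∀ g, ∀ w ∈ U, uhT Φ V cK σ g w ∈ U := by
    intro g w hw
    induction hw using Submodule.span_induction with
    | mem x hx =>
      obtain ⟨Ψ, hΨ, rfl⟩ := hx
      rw [hTι]
      exact Submodule.subset_span ⟨_, hT g Ψ hΨ, rfl⟩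
    | zero => rw [map_zero]; exact U.zero_mem
    | add x y _ _ hx hy => rw [map_add]; exact U.add_mem hx hy
    | smul k x _ hx => rw [uhT_smul]; exact U.smul_mem _ hx
  have hTscal : ∀ h ∈ H, ∀ w ∈ U, uhT Φ V cK σ h w = eF H H h • w := by
    intro h hh w hw
    induction hw using Submodule.span_induction with
    | mem x hx =>
      obtain ⟨Ψ, hΨ, rfl⟩ := hx
      rw [hTι, hTH h hh Ψ hΨ]
      funext z i
      exact map_mul (algebraMap R K) _ _
    | zero => rw [map_zero, smul_zero]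
    | add x y _ _ hx hy => rw [map_add, hx, hy, smul_add]
    | smul k x _ hx => rw [uhT_smul, hx, hσH h hh, smul_comm]
  let T : TwMod σ H (eF H H) U :=
    { T := fun g => ((uhT Φ V cK σ g).comp U.subtype.toAddMonoidHom).codRestrict U.toAddSubmonoid
        (fun w => hTU g w.1 w.2)
      T_one := fun w => Subtype.ext (uhT_one Φ V cK σ w.1)
      T_mul := fun g g' w => Subtype.ext (uhT_mul Φ V cK σ hσcK g g' w.1)
      T_smul := fun g k w => Subtype.ext (uhT_smul Φ V cK σ g k w.1)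
      T_scal := fun h hh w => Subtype.ext (hTscal h hh w.1 w.2) }
  have hdvd := hdiv U T
  have hle := Nat.le_of_dvd hpos hdvd
  rw [hfr] at hle
  exact absurd hle (not_le.mpr hcard)

end RQ
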