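import Pool.Agent.Helper44.RQ.TF
import Pool.Agent.Helper44.RQ.TF2
import Pool.Agent.Helper44.RQ.Res
import Pool.Agent.Helper44.RQ.Large
import Pool.Agent.Helper44.RQ.Meas
import Pool.Agent.Helper44.RQ.Mean
import Pool.Agent.Helper44.RQ.Mean2
import Pool.Agent.Helper44.RQ.Unfold
import Pool.Agent.Helper44.RQ.Dim
import Pool.Agent.Helper44.RQ.Ker
import Pool.Agent.Helper44.RQ.Glue
import Pool.Agent.Helper44.RQ.Neu1
import Pool.Agent.Helper44.RQ.Neu2
import Pool.Agent.Helper44.RQ.Fam
import Pool.Agent.Helper44.RQ.Dvr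
import Pool.Agent.Helper44.RQ.Gal
import Pool.Agent.Helper44.RQ.HPa
import Pool.Agent.Helper44.RQ.HPb
import Pool.Agent.Helper44.RQ.HPc
import Pool.Agent.Helper44.RQ.Poly
import Pool.Agent.Helper44.RQ.Tay
import Pool.Agent.Helper44.RQ.Lat1
import Pool.Agent.Helper44.RQ.Lat2
import Pool.Agent.Helper44.RQ.Norm
import Pool.Agent.Helper44.RQ.GalF
import Pool.Agent.Helper44.RQ.UH
import Pool.Agent.Helper44.RQ.Coc

/-!
# Assembly for MP_27ef80_ag
-/

set_option autoImplicit false
open scoped ComplexConjugate Matrix TensorProduct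
open MeasureTheory

noncomputable section

namespace RQ

theorem div_chain {G : Type} [Group G] [Group.FG G] (hTF : TFree G) (H : Subgroup G)
    (h : AbChain G H) : ∀ [H.Normal] [H.FiniteIndex], DivF H H H.index := by
  induction h with
  | top =>
    intro _ _ U _ _ _ _
    rw [Subgroup.index_top]
    exact one_dvd _
  | step H₁ H h₁ hle hn hf hab ih =>
    intro _ _
    have := h₁.normal
    have := h₁.finiteIndex
    have h1 : DivF H₁ H₁ H₁.index := ih
    have h2 := divF_galois hTF H H₁ hle hab _ h1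
    rw [mul_comm, Subgroup.relIndex_mul_index hle] at h2
    exact divF_normal H H₁ hle _ h2

/-- the main theorem on the disc: one subgroup of finite index works for all `V` -/
theorem main_disc {G : Type} [Group G] [Group.FG G] (hTF : TFree G) (hR : ResCh G) (r : ℕ)
    (Φ : G →* SU11) (t : ℝ) (hC : Cocpt Φ ⊤ t) (hD : Disc Φ) :
    ∃ H : Subgroup G, H.FiniteIndex ∧ ∀ V : G →* Matrix.unitaryGroup (Fin r) ℂ,
      ∃ u : TT H, ∀ f ∈ SS Φ V H u, f = 0 := by
  have := countable_of_fg G
  obtain ⟨ρ, hρ, hdim⟩ := dim_bound r Φ t hC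
  obtain ⟨H, hH, hlarge⟩ := exists_large Φ t hC hD hR ρ hρ
  have := hH.normal
  have hfin := hH.finiteIndex
  have hdiv : DivF H H H.index := div_chain hTF H hH
  refine ⟨H, hfin, fun V => ?_⟩
  by_contra hcon
  push Not at hcon
  obtain ⟨t', hC'⟩ := cocpt_finiteIndex Φ t hC H
  obtain ⟨F, hF, hF0⟩ := exists_family Φ V H t' hC' hD hcon
  exact family_contra Φ V H hdiv (fun u k F => hdim V H hfin hlarge u k F) F hF hF0

end RQ
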