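import Pool.Agent.Helper44.RQ.Defs

/-! Module `TF` of MP_27ef80_ag -/

set_option autoImplicit false
open scoped ComplexConjugate Matrix TensorProduct
open MeasureTheory

noncomputable section

namespace RQ

section tf

variable {G : Type} [Group G] {X : Type} [MulAction G X] {A B : Type} [AddCommGroup A]
  [AddCommGroup B]

/-- the action on functions -/
def tfAct (h : G) : (X → A) →+ (X → A) where
  toFun m := fun x => m (h⁻¹ • x)
  map_zero' := rfl
  map_add' _ _ := rfl

theorem tfAct_apply (h : G) (m : X → A) (x : X) : tfAct h m x = m (h⁻¹ • x) := rfl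

theorem tfAct_mul (h h' : G) (m : X → A) : tfAct (h * h') m = tfAct h (tfAct h' m) := by
  funext x
  simp only [tfAct_apply, mul_inv_rev, mul_smul]

theorem tfAct_one (m : X → A) : tfAct (1 : G) m = m := by
  funext x
  simp only [tfAct_apply, inv_one, one_smul]

variable {S : Type} (π : FreeGroup S →* G)

/-- crossed homomorphisms -/
def TfCr (c : FreeGroup S → X → A) : Prop :=
  ∀ w w', c (w * w') = c w + tfAct (π w) (c w')

variable {π}

theorem TfCr.one {c : FreeGroup S → X → A} (h : TfCr π c) : c 1 = 0 := by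
  have h1 := h 1 1
  rw [mul_one, map_one, tfAct_one] at h1
  exact left_eq_add.mp h1

theorem TfCr.inv {c : FreeGroup S → X → A} (h : TfCr π c) (w : FreeGroup S) :
    c w⁻¹ = - tfAct (π w)⁻¹ (c w) := by
  have h1 := h w⁻¹ w
  rw [inv_mul_cancel, h.one, map_inv] at h1
  exact eq_neg_of_add_eq_zero_left h1.symm

theorem TfCr.ext {c c' : FreeGroup S → X → A} (h : TfCr π c) (h' : TfCr π c')
    (hs : ∀ s, c (FreeGroup.of s) = c' (FreeGroup.of s)) (w : FreeGroup S) : c w = c' w := by
  induction w using FreeGroup.induction_on with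
  | C1 => rw [h.one, h'.one]
  | of x => exact hs x
  | inv_of x hx =>
    have hx' : c (FreeGroup.of x) = c' (FreeGroup.of x) := hs x
    change c (FreeGroup.of x)⁻¹ = c' (FreeGroup.of x)⁻¹
    rw [h.inv, h'.inv, hx']
  | mul x y hx hy => rw [h, h', hx, hy]

theorem TfCr.add {c c' : FreeGroup S → X → A} (h : TfCr π c) (h' : TfCr π c') :
    TfCr π (fun w => c w + c' w) := by
  intro w w'
  change c (w * w') + c' (w * w') = (c w + c' w) + tfAct (π w) (c w' + c' w')
  rw [h, h', map_add]
  abel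

theorem TfCr.zsmul {c : FreeGroup S → X → A} (h : TfCr π c) (n : ℤ) :
    TfCr π (fun w => n • c w) := by
  intro w w'
  change n • c (w * w') = _
  rw [h, map_zsmul, smul_add]

theorem TfCr.map {c : FreeGroup S → X → A} (h : TfCr π c) (f : A →+ B) :
    TfCr π (fun w x => f (c w x)) := by
  intro w w'
  funext x
  change f (c (w * w') x) = f (c w x) + f (c w' ((π w)⁻¹ • x))
  rw [h, Pi.add_apply, map_add]
  rfl

/-- the homomorphism to the semidirect product -/
def tfLift (π : FreeGroup S →* G) (α : S → X → A) :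
    FreeGroup S →* ((X → Multiplicative A) ⋊[mulAutArrow] G) :=
  FreeGroup.lift fun s => ⟨fun x => Multiplicative.ofAdd (α s x), π (FreeGroup.of s)⟩

theorem tfLift_right (π : FreeGroup S →* G) (α : S → X → A) (w : FreeGroup S) :
    (tfLift π α w).right = π w := by
  have h : SemidirectProduct.rightHom.comp (tfLift π α) = π := by
    apply FreeGroup.ext_hom
    intro s
    simp [tfLift]
  exact DFunLike.congr_fun h w

/-- the crossed homomorphism with given values on the generators -/
def tfCr (π : FreeGroup S →* G) (α : S → X → A) (w : FreeGroup S) : X → A :=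
  fun x => Multiplicative.toAdd ((tfLift π α w).left x)

theorem tfCr_isCr (π : FreeGroup S →* G) (α : S → X → A) : TfCr π (tfCr π α) := by
  intro w w'
  funext x
  simp only [tfCr, map_mul, SemidirectProduct.mul_left, Pi.mul_apply, toAdd_mul, Pi.add_apply]
  rw [tfLift_right]
  rfl

theorem tfCr_of (π : FreeGroup S →* G) (α : S → X → A) (s : S) :
    tfCr π α (FreeGroup.of s) = α s := by
  funext x
  simp [tfCr, tfLift]

/-- the subgroup of `G`-differences -/
def tfD (A : Type) [AddCommGroup A] (X : Type) [MulAction G X] (T : Set G) :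
    AddSubgroup (X → A) :=
  AddSubgroup.closure {m | ∃ t ∈ T, ∃ p : X → A, m = p - tfAct t p}

theorem tfD_mem {T : Set G} {t : G} (ht : t ∈ Subgroup.closure T) (p : X → A) :
    p - tfAct t p ∈ tfD A X T := by
  induction ht using Subgroup.closure_induction generalizing p with
  | mem t ht => exact AddSubgroup.subset_closure ⟨t, ht, p, rfl⟩
  | one =>
    rw [tfAct_one, sub_self]
    exact zero_mem _
  | mul x y _ _ hx hy =>
    have h : p - tfAct (x * y) p = (tfAct y p - tfAct x (tfAct y p)) + (p - tfAct y p) := by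
      rw [tfAct_mul]
      abel
    rw [h]
    exact add_mem (hx _) (hy _)
  | inv x _ hx =>
    have h1 : tfAct x (tfAct x⁻¹ p) = p := by rw [← tfAct_mul, mul_inv_cancel, tfAct_one]
    have h : p - tfAct x⁻¹ p = -(tfAct x⁻¹ p - tfAct x (tfAct x⁻¹ p)) := by
      rw [h1]
      abel
    rw [h]
    exact neg_mem (hx _)

theorem tfD_mono {T T' : Set G} (h : T ⊆ T') : tfD A X T ≤ tfD A X T' := by
  apply AddSubgroup.closure_mono
  rintro m ⟨t, ht, p, rfl⟩
  exact ⟨t, h ht, p, rfl⟩

/-- the image for one commutator -/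
theorem tfD_pair (a b : G) (j : X → A) (hj : j ∈ tfD A X {a, b}) :
    ∃ α β : X → A, j = α + tfAct a β - tfAct (a * b * a⁻¹) α - tfAct (a * b * a⁻¹ * b⁻¹) β := by
  refine AddSubgroup.closure_induction ?_ ?_ ?_ ?_ hj
  · rintro m ⟨t, ht, p, rfl⟩
    have hinv : ∀ (g : G) (m : X → A), tfAct g⁻¹ (tfAct g m) = m := by
      intro g m
      rw [← tfAct_mul, inv_mul_cancel, tfAct_one]
    have hinv' : ∀ (g : G) (m : X → A), tfAct g (tfAct g⁻¹ m) = m := by
      intro g m
      rw [← tfAct_mul, mul_inv_cancel, tfAct_one]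
    rcases ht with rfl | ht
    · refine ⟨- tfAct t (p - tfAct t⁻¹ p), - tfAct b p, ?_⟩
      simp only [tfAct_mul, map_sub, map_neg, hinv, hinv']
      abel
    · rw [Set.mem_singleton_iff] at ht
      subst ht
      refine ⟨tfAct a (p - ((p - tfAct t p) - tfAct a⁻¹ (p - tfAct t p))),
        - tfAct t (p - tfAct t p), ?_⟩
      simp only [tfAct_mul, map_sub, map_neg, hinv, hinv']
      abel
  · exact ⟨0, 0, by simp⟩
  · rintro x y _ _ ⟨α, β, h⟩ ⟨α', β', h'⟩
    refine ⟨α + α', β + β', ?_⟩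
    rw [h, h']
    simp only [map_add]
    abel
  · rintro x _ ⟨α, β, h⟩
    refine ⟨-α, -β, ?_⟩
    rw [h]
    simp only [map_neg]
    abel

end tf

section surf

variable {G : Type} [Group G] {X : Type} [MulAction G X] {A : Type} [AddCommGroup A] {g : ℕ}
  (π : FreeGroup (Fin g × Bool) →* G)

/-- the commutators in the relator -/
def tfComm (g i : ℕ) : FreeGroup (Fin g × Bool) :=
  if h : i < g then
    FreeGroup.of (⟨i, h⟩, false) * FreeGroup.of (⟨i, h⟩, true) *
    (FreeGroup.of (⟨i, h⟩, false))⁻¹ * (FreeGroup.of (⟨i, h⟩, true))⁻¹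
  else 1

/-- the products of the first commutators -/
def tfR (g k : ℕ) : FreeGroup (Fin g × Bool) := ((List.range k).map (tfComm g)).prod

theorem tfR_succ (g k : ℕ) : tfR g (k + 1) = tfR g k * tfComm g k := by
  simp [tfR, List.range_succ]

theorem surfRel_eq (g : ℕ) : surfRel g = tfR g g := by
  unfold surfRel tfR
  congr 1
  rw [List.ofFn_eq_map]
  have h : (List.range g) = (List.finRange g).map (fun i : Fin g => (i : ℕ)) := by
    rw [List.map_coe_finRange_eq_range]
  rw [h, List.map_map]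
  apply List.map_congr_left
  intro i _
  simp [tfComm, i.2]

theorem tfCr_comm {c : FreeGroup (Fin g × Bool) → X → A} (hc : TfCr π c) {k : ℕ} (hk : k < g) :
    c (tfComm g k) = c (FreeGroup.of (⟨k, hk⟩, false)) +
      tfAct (π (FreeGroup.of (⟨k, hk⟩, false))) (c (FreeGroup.of (⟨k, hk⟩, true))) -
      tfAct (π (FreeGroup.of (⟨k, hk⟩, false)) * π (FreeGroup.of (⟨k, hk⟩, true)) *
        (π (FreeGroup.of (⟨k, hk⟩, false)))⁻¹) (c (FreeGroup.of (⟨k, hk⟩, false))) -
      tfAct (π (FreeGroup.of (⟨k, hk⟩, false)) * π (FreeGroup.of (⟨k, hk⟩, true)) *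
        (π (FreeGroup.of (⟨k, hk⟩, false)))⁻¹ * (π (FreeGroup.of (⟨k, hk⟩, true)))⁻¹)
        (c (FreeGroup.of (⟨k, hk⟩, true))) := by
  rw [tfComm, dif_pos hk, hc, hc, hc, hc.inv, hc.inv]
  simp only [map_mul, map_inv, map_neg, tfAct_mul]
  abel

theorem tfCr_comm_zero {c : FreeGroup (Fin g × Bool) → X → A} (hc : TfCr π c) {k : ℕ}
    (h : ∀ s : Fin g × Bool, (s.1 : ℕ) = k → c (FreeGroup.of s) = 0) : c (tfComm g k) = 0 := by
  by_cases hk : k < g
  · rw [tfCr_comm π hc hk, h (⟨k, hk⟩, false) rfl, h (⟨k, hk⟩, true) rfl]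
    simp
  · rw [tfComm, dif_neg hk, hc.one]

theorem tfCr_R_zero {c : FreeGroup (Fin g × Bool) → X → A} (hc : TfCr π c) (k : ℕ)
    (h : ∀ s : Fin g × Bool, (s.1 : ℕ) < k → c (FreeGroup.of s) = 0) : c (tfR g k) = 0 := by
  induction k with
  | zero =>
    change c 1 = 0
    exact hc.one
  | succ k ih =>
    rw [tfR_succ, hc, ih fun s hs => h s (by omega),
      tfCr_comm_zero π hc fun s hs => h s (by omega), map_zero, add_zero]

/-- the images of the generators of index `< k` -/
def tfT (k : ℕ) : Set G := {x | ∃ s : Fin g × Bool, (s.1 : ℕ) < k ∧ x = π (FreeGroup.of s)}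

theorem tfR_mem (k : ℕ) : π (tfR g k) ∈ Subgroup.closure (tfT π k) := by
  induction k with
  | zero =>
    change π 1 ∈ _
    rw [map_one]
    exact one_mem _
  | succ k ih =>
    have hmono : tfT π k ⊆ tfT π (k + 1) := by
      rintro x ⟨s, hs, rfl⟩
      exact ⟨s, by omega, rfl⟩
    rw [tfR_succ, map_mul]
    refine mul_mem (Subgroup.closure_mono hmono ih) ?_
    by_cases hk : k < g
    · rw [tfComm, dif_pos hk]
      simp only [map_mul, map_inv]
      have h1 : π (FreeGroup.of (⟨k, hk⟩, false)) ∈ Subgroup.closure (tfT π (k + 1)) :=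
        Subgroup.subset_closure ⟨(⟨k, hk⟩, false), Nat.lt_succ_self k, rfl⟩
      have h2 : π (FreeGroup.of (⟨k, hk⟩, true)) ∈ Subgroup.closure (tfT π (k + 1)) :=
        Subgroup.subset_closure ⟨(⟨k, hk⟩, true), Nat.lt_succ_self k, rfl⟩
      exact mul_mem (mul_mem (mul_mem h1 h2) (inv_mem h1)) (inv_mem h2)
    · rw [tfComm, dif_neg hk, map_one]
      exact one_mem _

/-- the image of the relator map -/
theorem tfCr_surj (k : ℕ) (hk : k ≤ g) (m : X → A) (hm : m ∈ tfD A X (tfT π k)) :
    ∃ γ : Fin g × Bool → X → A, (∀ s, k ≤ (s.1 : ℕ) → γ s = 0) ∧ tfCr π γ (tfR g k) = m := by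
  induction k generalizing m with
  | zero =>
    refine ⟨fun _ => 0, fun _ _ => rfl, ?_⟩
    have h0 : tfT π 0 = ∅ := by
      ext x
      simp [tfT]
    have hm0 : m = 0 := by
      have : tfD A X (∅ : Set G) = ⊥ := by
        rw [tfD, AddSubgroup.closure_eq_bot_iff]
        rintro m ⟨t, ht, _⟩
        exact absurd ht (Set.notMem_empty _)
      rw [h0, this] at hm
      exact (AddSubgroup.mem_bot).mp hm
    rw [hm0]
    exact (tfCr_isCr π _).one
  | succ k ih =>
    have hkg : k < g := hk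
    set a := π (FreeGroup.of ((⟨k, hkg⟩ : Fin g), false)) with ha
    set b := π (FreeGroup.of ((⟨k, hkg⟩ : Fin g), true)) with hb
    -- decomposition
    have hdec : ∃ q ∈ tfD A X (tfT π k), ∃ j ∈ tfD A X {a, b}, m = q + j := by
      have hle : tfD A X (tfT π (k + 1)) ≤ tfD A X (tfT π k) ⊔ tfD A X {a, b} := by
        rw [tfD, AddSubgroup.closure_le]
        rintro x ⟨t, ⟨s, hs, rfl⟩, p, rfl⟩
        by_cases hsk : (s.1 : ℕ) < k
        · exact (le_sup_left : tfD A X (tfT π k) ≤ _)
            (AddSubgroup.subset_closure ⟨_, ⟨s, hsk, rfl⟩, p, rfl⟩)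
        · refine (le_sup_right : tfD A X {a, b} ≤ _)
            (AddSubgroup.subset_closure ⟨_, ?_, p, rfl⟩)
          have hs1 : s.1 = (⟨k, hkg⟩ : Fin g) := Fin.ext (by simp; omega)
          obtain ⟨i, e⟩ := s
          simp only at hs1
          subst hs1
          cases e
          · exact Set.mem_insert _ _
          · exact Set.mem_insert_of_mem _ rfl
      obtain ⟨q, hq, j, hj, h⟩ := AddSubgroup.mem_sup.mp (hle hm)
      exact ⟨q, hq, j, hj, h.symm⟩
    obtain ⟨q, hq, j, hj, rfl⟩ := hdec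
    obtain ⟨α, β, hαβ⟩ := tfD_pair a b j hj
    have hq' : q + (j - tfAct (π (tfR g k)) j) ∈ tfD A X (tfT π k) :=
      add_mem hq (tfD_mem (tfR_mem π k) j)
    obtain ⟨γ₁, hγ₁, hγ₁'⟩ := ih (by omega) _ hq'
    let γ₂ : Fin g × Bool → X → A := fun s =>
      if (s.1 : ℕ) = k then (if s.2 then β else α) else 0
    have hγ₂ : ∀ s : Fin g × Bool, (s.1 : ℕ) ≠ k → γ₂ s = 0 := fun s hs => if_neg hs
    have hsum : ∀ w, tfCr π (fun s => γ₁ s + γ₂ s) w = tfCr π γ₁ w + tfCr π γ₂ w := by
      apply TfCr.ext (tfCr_isCr π _) ((tfCr_isCr π γ₁).add (tfCr_isCr π γ₂))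
      intro s
      simp only [tfCr_of]
    refine ⟨fun s => γ₁ s + γ₂ s, fun s hs => ?_, ?_⟩
    · change γ₁ s + γ₂ s = 0
      rw [hγ₁ s (by omega), hγ₂ s (by omega), add_zero]
    · rw [hsum, tfR_succ, tfCr_isCr, tfCr_isCr π γ₂, hγ₁',
        tfCr_comm_zero π (tfCr_isCr π γ₁) (fun s hs => by rw [tfCr_of, hγ₁ s (by omega)]),
        tfCr_R_zero π (tfCr_isCr π γ₂) k (fun s hs => by rw [tfCr_of, hγ₂ s (by omega)]),
        tfCr_comm π (tfCr_isCr π γ₂) hkg, tfCr_of, tfCr_of]
      have e1 : γ₂ ((⟨k, hkg⟩ : Fin g), false) = α := by simp [γ₂]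
      have e2 : γ₂ ((⟨k, hkg⟩ : Fin g), true) = β := by simp [γ₂]
      rw [e1, e2, ← ha, ← hb, ← hαβ, map_zero]
      abel

/-- functions of sum zero are differences -/
theorem tfD_sum_zero [Fintype X] [DecidableEq X] (x₀ : X) (htr : ∀ x : X, ∃ h : G, h • x₀ = x)
    (T : Set G) (hT : Subgroup.closure T = ⊤) (m : X → ℤ) (hm : ∑ x, m x = 0) :
    m ∈ tfD ℤ X T := by
  have h1 : ∀ x, (Pi.single x₀ 1 - Pi.single x 1 : X → ℤ) ∈ tfD ℤ X T := by
    intro x
    obtain ⟨h, rfl⟩ := htr x
    have h2 : (Pi.single (h • x₀) 1 : X → ℤ) = tfAct h (Pi.single x₀ 1) := by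
      funext y
      rw [tfAct_apply]
      by_cases hy : y = h • x₀
      · subst hy
        rw [inv_smul_smul, Pi.single_eq_same, Pi.single_eq_same]
      · rw [Pi.single_eq_of_ne hy, Pi.single_eq_of_ne]
        intro h3
        exact hy (by rw [← h3, smul_inv_smul])
    rw [h2]
    exact tfD_mem (by rw [hT]; trivial) _
  have h3 : m = ∑ x, (- m x) • (Pi.single x₀ 1 - Pi.single x 1 : X → ℤ) := by
    funext y
    simp only [Finset.sum_apply, Pi.smul_apply, Pi.sub_apply, smul_eq_mul, mul_sub,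
      Finset.sum_sub_distrib, ← Finset.sum_mul, Finset.sum_neg_distrib, hm]
    rw [Finset.sum_eq_single y]
    · simp
    · intro b _ hb
      rw [Pi.single_eq_of_ne (Ne.symm hb), mul_zero]
    · intro h; exact absurd (Finset.mem_univ _) h
  rw [h3]
  exact sum_mem fun x _ => zsmul_mem (h1 x) _

end surf

theorem tfree_surf (g : ℕ) : TFree (SurfGp g) := by
  classical
  intro K hK n hn ψ
  set G := SurfGp g with hG
  let X := G ⧸ K
  let x₀ : X := ((1 : G) : G ⧸ K)
  let π : FreeGroup (Fin g × Bool) →* G := PresentedGroup.mk _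
  have hπs : Function.Surjective π := PresentedGroup.mk_surjective _
  have hfin : Fintype X := Fintype.ofFinite _
  -- the section
  let s : X → G := fun x => if x = x₀ then 1 else x.out
  have hs : ∀ x : X, ((s x : G) : G ⧸ K) = x := by
    intro x
    by_cases hx : x = x₀
    · simp only [s, if_pos hx]
      exact hx.symm
    · simp only [s, if_neg hx]
      exact QuotientGroup.out_eq' x
  have hs₀ : s x₀ = 1 := if_pos rfl
  have hκ : ∀ (h : G) (x : X), (s x)⁻¹ * (h * s (h⁻¹ • x)) ∈ K := by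
    intro h x
    rw [← QuotientGroup.eq, hs]
    have : ((h * s (h⁻¹ • x) : G) : G ⧸ K) = h • ((s (h⁻¹ • x) : G) : G ⧸ K) := rfl
    rw [this, hs, smul_inv_smul]
  let κ : G → X → K := fun h x => ⟨_, hκ h x⟩
  have hκmul : ∀ h h' x, κ (h * h') x = κ h x * κ h' (h⁻¹ • x) := by
    intro h h' x
    apply Subtype.ext
    change (s x)⁻¹ * (h * h' * s ((h * h')⁻¹ • x)) =
      (s x)⁻¹ * (h * s (h⁻¹ • x)) * ((s (h⁻¹ • x))⁻¹ * (h' * s (h'⁻¹ • h⁻¹ • x)))
    rw [mul_inv_rev, mul_smul]
    group
  have hκ₀ : ∀ k : K, κ k x₀ = k := by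
    intro k
    apply Subtype.ext
    change (s x₀)⁻¹ * ((k : G) * s ((k : G)⁻¹ • x₀)) = k
    have h1 : (k : G)⁻¹ • x₀ = x₀ := by
      change (((k : G)⁻¹ * 1 : G) : G ⧸ K) = ((1 : G) : G ⧸ K)
      rw [QuotientGroup.eq]
      simp
    rw [h1, hs₀]
    simp
  -- the crossed homomorphism modulo n
  let db : FreeGroup (Fin g × Bool) → X → ZMod n := fun w x => ψ (Additive.ofMul (κ (π w) x))
  have hdb : TfCr π db := by
    intro w w'
    funext x
    change ψ (Additive.ofMul (κ (π (w * w')) x)) = ψ (Additive.ofMul (κ (π w) x)) +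
      ψ (Additive.ofMul (κ (π w') ((π w)⁻¹ • x)))
    rw [map_mul, hκmul, ofMul_mul, map_add]
  -- lift
  choose α hα using fun (t : Fin g × Bool) (x : X) => ZMod.intCast_surjective (db (FreeGroup.of t) x)
  have hcast : ∀ (α' : Fin g × Bool → X → ℤ), (∀ t x, ((α' t x : ℤ) : ZMod n) =
      db (FreeGroup.of t) x) → ∀ w x, ((tfCr π α' w x : ℤ) : ZMod n) = db w x := by
    intro α' hα' w x
    have h1 := TfCr.ext ((tfCr_isCr π α').map (Int.castAddHom (ZMod n))) hdb (by
      intro t
      funext x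
      change ((tfCr π α' (FreeGroup.of t) x : ℤ) : ZMod n) = _
      rw [tfCr_of]
      exact hα' t x) w
    exact congrFun h1 x
  have hπR : π (surfRel g) = 1 := PresentedGroup.one_of_mem (Set.mem_singleton _)
  have hdiv : ∀ x, (n : ℤ) ∣ tfCr π α (surfRel g) x := by
    intro x
    rw [← ZMod.intCast_zmod_eq_zero_iff_dvd, hcast α hα]
    change ψ (Additive.ofMul (κ (π (surfRel g)) x)) = 0
    have h2 : κ 1 x = 1 := by
      have := hκmul 1 1 x
      rw [mul_one, inv_one, one_smul] at this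
      exact left_eq_mul.mp this
    rw [hπR, h2, ofMul_one, map_zero]
  choose m₀ hm₀ using hdiv
  -- the sum vanishes
  have hsum : ∑ x, tfCr π α (surfRel g) x = 0 := by
    let σ : FreeGroup (Fin g × Bool) →* Multiplicative ℤ :=
      { toFun := fun w => Multiplicative.ofAdd (∑ x, tfCr π α w x)
        map_one' := by
          rw [(tfCr_isCr π α).one]
          simp
        map_mul' := by
          intro w w'
          rw [tfCr_isCr π α, ← ofAdd_add, ← Finset.sum_add_distrib]
          congr 1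
          simp only [Pi.add_apply, Finset.sum_add_distrib, tfAct_apply]
          congr 1
          exact Equiv.sum_comp (MulAction.toPerm (π w)⁻¹) (fun x => tfCr π α w' x) }
    have h1 : σ (surfRel g) = 1 := by
      rw [surfRel, map_list_prod]
      apply List.prod_eq_one
      intro y hy
      rw [List.mem_map] at hy
      obtain ⟨w, hw, rfl⟩ := hy
      rw [List.mem_ofFn] at hw
      obtain ⟨i, rfl⟩ := hw
      simp only [map_mul, map_inv]
      rw [mul_comm (σ (FreeGroup.of (i, false))) (σ (FreeGroup.of (i, true)))]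
      simp
    exact h1
  have hm₀sum : ∑ x, m₀ x = 0 := by
    have h1 : (n : ℤ) * ∑ x, m₀ x = 0 := by
      rw [Finset.mul_sum, ← hsum]
      exact Finset.sum_congr rfl fun x _ => (hm₀ x).symm
    exact (mul_eq_zero.mp h1).resolve_left (by exact_mod_cast hn.ne')
  -- surjectivity
  have hgen : Subgroup.closure (tfT π g) = ⊤ := by
    have h1 : tfT π g = Set.range (PresentedGroup.of (rels := {surfRel g})) := by
      ext x
      constructor
      · rintro ⟨t, _, rfl⟩
        exact ⟨t, rfl⟩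
      · rintro ⟨t, rfl⟩
        exact ⟨t, t.1.2, rfl⟩
    rw [h1]
    exact PresentedGroup.closure_range_of _
  have htr : ∀ x : X, ∃ h : G, h • x₀ = x := by
    intro x
    refine ⟨s x, ?_⟩
    change ((s x * 1 : G) : G ⧸ K) = x
    rw [mul_one, hs]
  obtain ⟨γ, -, hγ⟩ := tfCr_surj π g le_rfl m₀ (tfD_sum_zero x₀ htr _ hgen m₀ hm₀sum)
  rw [← surfRel_eq] at hγ
  -- the corrected lift
  let α' : Fin g × Bool → X → ℤ := fun t => α t + (-(n : ℤ)) • γ t
  have hα'cr : ∀ w, tfCr π α' w = tfCr π α w + (-(n : ℤ)) • tfCr π γ w := by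
    apply TfCr.ext (tfCr_isCr π _) ((tfCr_isCr π α).add ((tfCr_isCr π γ).zsmul _))
    intro t
    simp only [tfCr_of, α']
  have hα'R : tfCr π α' (surfRel g) = 0 := by
    rw [hα'cr, hγ]
    funext x
    simp [hm₀ x]
  have hα'cast : ∀ t x, ((α' t x : ℤ) : ZMod n) = db (FreeGroup.of t) x := by
    intro t x
    simp [α', hα t x]
  -- descend
  let f : Fin g × Bool → ((X → Multiplicative ℤ) ⋊[mulAutArrow] G) := fun t =>
    ⟨fun x => Multiplicative.ofAdd (α' t x), π (FreeGroup.of t)⟩
  have hf : ∀ r ∈ ({surfRel g} : Set (FreeGroup (Fin g × Bool))), FreeGroup.lift f r = 1 := by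
    intro r hr
    rw [Set.mem_singleton_iff] at hr
    subst hr
    change tfLift π α' (surfRel g) = 1
    apply SemidirectProduct.ext
    · funext x
      have := congrFun hα'R x
      change Multiplicative.toAdd ((tfLift π α' (surfRel g)).left x) = 0 at this
      exact Multiplicative.toAdd.injective this
    · rw [tfLift_right, hπR]
      rfl
  let Ψ : G →* ((X → Multiplicative ℤ) ⋊[mulAutArrow] G) := PresentedGroup.toGroup hf
  have hΨ : ∀ w, Ψ (π w) = tfLift π α' w := by
    intro w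
    have h1 : Ψ.comp π = tfLift π α' := by
      apply FreeGroup.ext_hom
      intro t
      change Ψ (PresentedGroup.of t) = _
      rw [PresentedGroup.toGroup.of]
      simp [tfLift, f]
    exact DFunLike.congr_fun h1 w
  have hΨr : ∀ h : G, (Ψ h).right = h := by
    intro h
    obtain ⟨w, rfl⟩ := hπs h
    rw [hΨ, tfLift_right]
  have hfix : ∀ k : K, (k : G)⁻¹ • x₀ = x₀ := by
    intro k
    change (((k : G)⁻¹ * 1 : G) : G ⧸ K) = ((1 : G) : G ⧸ K)
    rw [QuotientGroup.eq]
    simp
  let φ : Additive K →+ ℤ :=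
    { toFun := fun k => Multiplicative.toAdd ((Ψ (k.toMul : G)).left x₀)
      map_zero' := by
        rw [toMul_zero, OneMemClass.coe_one, map_one]
        rfl
      map_add' := by
        intro k k'
        rw [toMul_add, Subgroup.coe_mul, map_mul, SemidirectProduct.mul_left, Pi.mul_apply, hΨr,
          toAdd_mul]
        congr 1
        change Multiplicative.toAdd ((Ψ (k'.toMul : G)).left ((k.toMul : G)⁻¹ • x₀)) = _
        rw [hfix] }
  refine ⟨φ, fun k => ?_⟩
  obtain ⟨w, hw⟩ := hπs (k.toMul : G)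
  have h1 : φ k = tfCr π α' w x₀ := by
    change Multiplicative.toAdd ((Ψ (k.toMul : G)).left x₀) = _
    rw [← hw, hΨ]
    rfl
  rw [h1, hcast α' hα'cast]
  change ψ (Additive.ofMul (κ (π w) x₀)) = ψ k
  rw [hw, hκ₀]
  rfl

end RQ
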